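import Pool.Agent.TH850.CL.EFc

set_option autoImplicit false

/-! # Project CL: the coefficients of the prime sum and the main term -/

namespace Pool.Agent.TH850.CL

open Complex Filter Topology MeasureTheory Set
open scoped ComplexConjugate
open Pool.Agent.TH850.UV (om om_cont)
open Pool.Agent.TH850.UV.KernAux (om_nonneg om_neg om_out om_eq)
open Pool.Agent.TH850.UR (gauss_integrable)

/-- the weight -/
noncomputable def cw (R b : ℝ) (g : ℝ → ℝ) (α : ℝ) : ℂ := (om α : ℂ) * (b * hat R g (b * α))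

lemma om_low2 (x : ℝ) : 1 - om x ≤ 16 * x ^ 2 := by
  rcases le_or_gt (1 / 2) |x| with h | h
  · rw [om_out h]
    have h1 : (1 / 2 : ℝ) ^ 2 ≤ |x| ^ 2 := pow_le_pow_left₀ (by norm_num) h 2
    rw [sq_abs] at h1
    nlinarith
  · rw [abs_lt] at h
    rw [om_eq h.1.le h.2.le]
    have h1 : x ^ 2 ≤ 1 / 4 := by nlinarith
    have h0 : 0 ≤ x ^ 2 := sq_nonneg x
    set y := 4 * x ^ 2 with hy
    have hy0 : 0 ≤ y := by positivity
    have hy1 : y ≤ 1 := by linarith
    have h2 : 16 * x ^ 2 = 4 * y := by rw [hy]; ring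
    rw [h2]
    have h3 := one_add_mul_le_pow (a := -y) (by linarith) 4
    push_cast at h3
    have h4 : (1 + -y) ^ 4 = (1 - y) ^ 4 := by ring
    rw [h4] at h3
    linarith

lemma om_low1 {x : ℝ} (hx : 0 ≤ x) : 1 - om x ≤ 4 * x := by
  rcases le_or_gt (1 / 4) x with h | h
  · have := om_nonneg x
    linarith
  · have := om_low2 x
    nlinarith

lemma gint (y : ℝ) : Integrable fun u : ℝ => Real.exp (-(u - y) ^ 2 / 2) := by
  have h := (integrable_exp_neg_mul_sq (b := 1 / 2) (by norm_num)).comp_sub_right y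
  refine h.congr (Eventually.of_forall fun u => ?_)
  show Real.exp (-(1 / 2) * (u - y) ^ 2) = _
  congr 1; ring

lemma gint1 (y : ℝ) : Integrable fun u : ℝ => (1 + |u - y|) * Real.exp (-(u - y) ^ 2 / 2) := by
  have h : Integrable fun s : ℝ => (1 + |s|) * Real.exp (-s ^ 2 / 2) := by
    have h1 : Integrable fun s : ℝ => 4 * Real.exp (-(1 / 4) * s ^ 2) :=
      (integrable_exp_neg_mul_sq (b := 1 / 4) (by norm_num)).const_mul 4
    refine h1.mono' (by fun_prop) (Eventually.of_forall fun s => ?_)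
    rw [Real.norm_of_nonneg (by positivity)]
    have e1 : Real.exp (-s ^ 2 / 2) = Real.exp (-(1 / 4) * s ^ 2) * Real.exp (-(1 / 4) * s ^ 2) := by
      rw [← Real.exp_add]; congr 1; ring
    have e2 : (1 + |s|) * Real.exp (-(1 / 4) * s ^ 2) ≤ 4 := by
      have h2 := Real.add_one_le_exp (1 / 4 * s ^ 2)
      have h3 : Real.exp (-(1 / 4) * s ^ 2) * Real.exp (1 / 4 * s ^ 2) = 1 := by
        rw [← Real.exp_add]; norm_num
      have h4 : 1 + |s| ≤ 4 * (1 / 4 * s ^ 2 + 1) := by
        nlinarith [sq_abs s, sq_nonneg (|s| - 1)]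
      have h5 := Real.exp_pos (-(1 / 4) * s ^ 2)
      calc (1 + |s|) * Real.exp (-(1 / 4) * s ^ 2) ≤
          4 * Real.exp (1 / 4 * s ^ 2) * Real.exp (-(1 / 4) * s ^ 2) := by
            apply mul_le_mul_of_nonneg_right _ h5.le
            linarith
        _ = 4 * (Real.exp (-(1 / 4) * s ^ 2) * Real.exp (1 / 4 * s ^ 2)) := by ring
        _ = 4 := by rw [h3, mul_one]
    rw [e1, ← mul_assoc]
    exact mul_le_mul_of_nonneg_right e2 (Real.exp_pos _).le
  exact h.comp_sub_right y

/-- an absolute constant -/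
noncomputable def cg1 : ℝ := ∫ s : ℝ, (1 + |s|) * Real.exp (-s ^ 2 / 2)

lemma gint1_eq (y : ℝ) : ∫ u : ℝ, (1 + |u - y|) * Real.exp (-(u - y) ^ 2 / 2) = cg1 :=
  integral_sub_right_eq_self (fun s : ℝ => (1 + |s|) * Real.exp (-s ^ 2 / 2)) y

lemma cg1_nonneg : 0 ≤ cg1 := integral_nonneg fun s => by positivity

lemma gint2 : Integrable fun u : ℝ => u ^ 2 * Real.exp (-u ^ 2 / 2) := by
  have h1 : Integrable fun s : ℝ => 4 * Real.exp (-(1 / 4) * s ^ 2) :=
    (integrable_exp_neg_mul_sq (b := 1 / 4) (by norm_num)).const_mul 4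
  refine h1.mono' (by fun_prop) (Eventually.of_forall fun s => ?_)
  rw [Real.norm_of_nonneg (by positivity)]
  have e1 : Real.exp (-s ^ 2 / 2) = Real.exp (-(1 / 4) * s ^ 2) * Real.exp (-(1 / 4) * s ^ 2) := by
    rw [← Real.exp_add]; congr 1; ring
  have e2 : s ^ 2 * Real.exp (-(1 / 4) * s ^ 2) ≤ 4 := by
    have h2 := Real.add_one_le_exp (1 / 4 * s ^ 2)
    have h3 : Real.exp (-(1 / 4) * s ^ 2) * Real.exp (1 / 4 * s ^ 2) = 1 := by
      rw [← Real.exp_add]; norm_num
    have h5 := Real.exp_pos (-(1 / 4) * s ^ 2)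
    calc s ^ 2 * Real.exp (-(1 / 4) * s ^ 2) ≤
        4 * Real.exp (1 / 4 * s ^ 2) * Real.exp (-(1 / 4) * s ^ 2) := by
          apply mul_le_mul_of_nonneg_right _ h5.le
          linarith
      _ = 4 * (Real.exp (-(1 / 4) * s ^ 2) * Real.exp (1 / 4 * s ^ 2)) := by ring
      _ = 4 := by rw [h3, mul_one]
  rw [e1, ← mul_assoc]
  exact mul_le_mul_of_nonneg_right e2 (Real.exp_pos _).le

/-- an absolute constant -/
noncomputable def cg2 : ℝ := ∫ s : ℝ, s ^ 2 * Real.exp (-s ^ 2 / 2)

lemma cg2_nonneg : 0 ≤ cg2 := integral_nonneg fun s => by positivity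

/-- the tail -/
lemma gleft {y : ℝ} : ∫ u in Iic (0 : ℝ), Real.exp (-(u - y) ^ 2 / 2) ≤
    2 * Real.exp (-y) := by
  have h1 : ∀ u : ℝ, Real.exp (-(u - y) ^ 2 / 2) ≤ Real.exp (1 / 2) * Real.exp (-y) * Real.exp u := by
    intro u
    rw [← Real.exp_add, ← Real.exp_add]
    apply Real.exp_le_exp.2
    nlinarith [sq_nonneg (y - u - 1)]
  have h2 : IntegrableOn (fun u : ℝ => Real.exp u) (Iic 0) := integrableOn_exp_Iic 0
  calc ∫ u in Iic (0 : ℝ), Real.exp (-(u - y) ^ 2 / 2) ≤
      ∫ u in Iic (0 : ℝ), Real.exp (1 / 2) * Real.exp (-y) * Real.exp u :=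
        setIntegral_mono (gint y).integrableOn (h2.const_mul _) fun u => h1 u
    _ = Real.exp (1 / 2) * Real.exp (-y) := by
        rw [MeasureTheory.integral_const_mul, integral_exp_Iic, Real.exp_zero, mul_one]
    _ ≤ 2 * Real.exp (-y) := by
        apply mul_le_mul_of_nonneg_right _ (Real.exp_pos _).le
        have h4 : Real.exp (1 / 2) ^ 2 = Real.exp 1 := by
          rw [← Real.exp_nat_mul]; norm_num
        have h5 := Real.exp_one_lt_d9
        nlinarith [Real.exp_pos (1 / 2)]

section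

variable {R lam a L : ℝ} {g : ℝ → ℝ}

/-- substitution -/
lemma gc_eq (hG : Continuous (hat R g)) (hlam : 1 ≤ lam) (ha : 0 < a) (hL : 0 < L) (n : ℕ) :
    gc (cw R (a / lam) g) (L / lam) n = (a / L : ℝ) * ∫ u in Ioi (0 : ℝ),
      (om (u / (L / lam)) : ℂ) * hat R g (a / L * u) *
        (Real.exp (-(u - Real.log n) ^ 2 / 2) : ℂ) := by
  have hlam0 : 0 < lam := by linarith
  set l := L / lam with hl
  have hl0 : 0 < l := by positivity
  have hoc := om_cont
  set φ : ℝ → ℂ := fun u => (om (u / l) : ℂ) * hat R g (a / L * u) *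
        (Real.exp (-(u - Real.log n) ^ 2 / 2) : ℂ) with hφ
  have hφc : Continuous φ := by fun_prop
  have h1 : gc (cw R (a / lam) g) l n = ∫ α in (0 : ℝ)..(1 / 2), ((a / lam : ℝ) : ℂ) * φ (l * α) := by
    unfold gc cw
    refine intervalIntegral.integral_congr fun α _ => ?_
    show (om α : ℂ) * (((a / lam : ℝ) : ℂ) * hat R g (a / lam * α)) *
      (Real.exp (-(α * l - Real.log n) ^ 2 / 2) : ℂ) = ((a / lam : ℝ) : ℂ) *
      ((om (l * α / l) : ℂ) * hat R g (a / L * (l * α)) *
        (Real.exp (-(l * α - Real.log n) ^ 2 / 2) : ℂ))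
    have e1 : l * α / l = α := by field_simp
    have e2 : a / L * (l * α) = a / lam * α := by rw [hl]; field_simp
    rw [e1, e2, mul_comm α l]
    ring
  have h2 : ∫ α in (0 : ℝ)..(1 / 2), φ (l * α) = (l : ℂ)⁻¹ * ∫ u in (0 : ℝ)..(l / 2), φ u := by
    have h := intervalIntegral.integral_comp_mul_left (a := 0) (b := 1 / 2) φ hl0.ne'
    rw [h, mul_zero]
    have e1 : l * (1 / 2) = l / 2 := by ring
    rw [e1, Complex.real_smul]
    push_cast
    ring
  have h3 : ∫ u in Ioi (0 : ℝ), φ u = ∫ u in (0 : ℝ)..(l / 2), φ u := by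
    have h4 : ∀ u ∈ Ioi (l / 2), φ u = 0 := by
      intro u hu
      have hu' : l / 2 < u := hu
      have h5 : 1 / 2 ≤ |u / l| := by
        rw [abs_of_pos (div_pos (by linarith) hl0), le_div_iff₀ hl0]
        linarith
      simp only [hφ]
      rw [om_out h5]
      simp
    have h5 : Ioi (0 : ℝ) = Ioc 0 (l / 2) ∪ Ioi (l / 2) := (Ioc_union_Ioi_eq_Ioi (by positivity)).symm
    have h6 : IntegrableOn φ (Ioi (l / 2)) := by
      refine IntegrableOn.congr_fun (f := fun _ : ℝ => (0 : ℂ)) integrableOn_zero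
        (fun u hu => (h4 u hu).symm) measurableSet_Ioi
    rw [h5, setIntegral_union (Ioc_disjoint_Ioi_same) measurableSet_Ioi
      (hφc.integrableOn_Ioc) h6, setIntegral_congr_fun measurableSet_Ioi h4, integral_zero, add_zero,
      intervalIntegral.integral_of_le (by positivity)]
  rw [h1, intervalIntegral.integral_const_mul, h2, h3, ← mul_assoc]
  congr 1
  have e1 : a / lam * l⁻¹ = a / L := by rw [hl]; field_simp
  rw [← e1]
  push_cast
  ring

/-- the decomposition -/
lemma gc_dec {B : ℝ} (hG : Continuous (hat R g)) (hB : ∀ ξ, ‖hat R g ξ‖ ≤ B / (1 + |ξ|) ^ 2)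
    (hB0 : 0 ≤ B) (hlam : 1 ≤ lam) (ha : 0 < a) (hL : 0 < L) (n : ℕ) :
    (a / L : ℝ) * (∫ u : ℝ, (Real.exp (-(u - Real.log n) ^ 2 / 2) : ℂ) * hat R g (a / L * u)) -
      gc (cw R (a / lam) g) (L / lam) n = (a / L : ℝ) *
      ((∫ u in Iic (0 : ℝ), (Real.exp (-(u - Real.log n) ^ 2 / 2) : ℂ) * hat R g (a / L * u)) +
      ∫ u in Ioi (0 : ℝ), (1 - om (u / (L / lam)) : ℝ) *
        ((Real.exp (-(u - Real.log n) ^ 2 / 2) : ℂ) * hat R g (a / L * u))) := by
  have hoc := om_cont
  have hG2 : Continuous fun u : ℝ => hat R g (a / L * u) := by fun_prop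
  have hGb : ∀ ξ, ‖hat R g ξ‖ ≤ B := fun ξ => (hB ξ).trans
    (div_le_self hB0 (one_le_pow₀ (by linarith [abs_nonneg ξ])))
  have hint : Integrable fun u : ℝ => (Real.exp (-(u - Real.log n) ^ 2 / 2) : ℂ) *
      hat R g (a / L * u) := by
    refine ((gint (Real.log n)).const_mul B).mono' ?_ (Eventually.of_forall fun u => ?_)
    · exact Continuous.aestronglyMeasurable (by fun_prop)
    · rw [norm_mul, Complex.norm_real, Real.norm_of_nonneg (Real.exp_pos _).le, mul_comm]
      exact mul_le_mul_of_nonneg_right (hGb _) (Real.exp_pos _).le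
  have hint2 : Integrable fun u : ℝ => (om (u / (L / lam)) : ℂ) *
      ((Real.exp (-(u - Real.log n) ^ 2 / 2) : ℂ) * hat R g (a / L * u)) := by
    refine hint.norm.mono' ?_ (Eventually.of_forall fun u => ?_)
    · exact Continuous.aestronglyMeasurable (by fun_prop)
    · rw [norm_mul, Complex.norm_real, Real.norm_of_nonneg (om_nonneg _)]
      exact mul_le_of_le_one_left (norm_nonneg _) (Pool.Agent.TH850.UV.om_le_one _)
  rw [gc_eq hG hlam ha hL, ← mul_sub]
  congr 1
  rw [← intervalIntegral.integral_Iic_add_Ioi (b := 0) hint.integrableOn hint.integrableOn,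
    add_sub_assoc]
  congr 1
  rw [← integral_sub hint.integrableOn ?_]
  · refine setIntegral_congr_fun measurableSet_Ioi fun u _ => ?_
    push_cast
    ring
  · refine hint2.integrableOn.congr_fun (fun u _ => ?_) measurableSet_Ioi
    push_cast
    ring

end

theorem coef (hN2 : S_N2) {R : ℝ} (hR : 1 ≤ R) : ∃ C : ℝ, 0 < C ∧
    ∀ (M : ℝ) (g g' g'' f : ℝ → ℝ) (lam L a : ℝ), C2 R M g g' g'' → 1 ≤ lam → 0 < a → a ≤ L →
      (∀ x, f x = g x * Real.exp (-x ^ 2 / (2 * (L / (2 * Real.pi * a)) ^ 2))) →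
      |2 * (1 / Real.sqrt (2 * Real.pi)) * (L * (gc (cw R (a / lam) g) (L / lam) 1).re) -
        a * ∫ x in (-R)..R, f x| ≤ C * M * (lam ^ 2 * (a / L ^ 2)) ∧
      ∀ n : ℕ, 1 ≤ n → ‖((1 / Real.sqrt (2 * Real.pi) : ℝ) : ℂ) *
          gc (cw R (a / lam) g) (L / lam) n - (a / L : ℝ) * hat R f (a / L * Real.log n)‖ ≤
        C * M * (a / L) * (lam / a / (1 + a / L * Real.log n) + 1 / n) := by
  obtain ⟨C1, hC1, hN⟩ := hN2 R hR
  have hpi := Real.pi_pos
  have hcg1 := cg1_nonneg
  have hcg2 := cg2_nonneg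
  refine ⟨32 * C1 * (cg2 + 1) + (C1 * 2 + 4 * C1 * cg1), by positivity,
    fun M g g' g'' f lam L a h hlam ha haL hf => ?_⟩
  have hL : 0 < L := by linarith
  have hlam0 : 0 < lam := by linarith
  have hM : 0 ≤ M := (abs_nonneg _).trans (h.bd 0).1
  obtain ⟨hG, hB, -, hconj, hgau⟩ := hN M g g' g'' h
  set κ := L / (2 * Real.pi * a) with hκ
  have hκ0 : 0 < κ := by positivity
  set θ := a / L with hθ
  have hθ0 : 0 < θ := by positivity
  have hθ1 : θ ≤ 1 := by rw [hθ, div_le_one hL]; exact haL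
  have hB0 : 0 ≤ C1 * M := by positivity
  have hff : f = fun x => g x * Real.exp (-x ^ 2 / (2 * κ ^ 2)) := funext hf
  have hs : 0 < Real.sqrt (2 * Real.pi) := by positivity
  have hs1 : 1 ≤ Real.sqrt (2 * Real.pi) := by
    rw [Real.one_le_sqrt]; linarith [Real.pi_gt_three]
  set c0 : ℝ := 1 / Real.sqrt (2 * Real.pi) with hc0
  have hc00 : 0 < c0 := by positivity
  have hc01 : c0 ≤ 1 := by rw [hc0, div_le_one (by positivity)]; exact hs1
  have hgau2 : ∀ y : ℝ, ∫ u : ℝ, (Real.exp (-(u - y) ^ 2 / 2) : ℂ) * hat R g (θ * u) =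
      Real.sqrt (2 * Real.pi) * hat R f (θ * y) := by
    intro y
    have e1 : ∀ u : ℝ, u / (2 * Real.pi * κ) = θ * u := by
      intro u
      rw [hκ, hθ]; field_simp
    have h1 := hgau κ y hκ0
    rw [← hff] at h1
    simp only [e1] at h1
    exact h1
  have hGc : Continuous fun u : ℝ => hat R g (θ * u) := by fun_prop
  have hoc := om_cont
  have hGb : ∀ ξ, ‖hat R g ξ‖ ≤ C1 * M := fun ξ => (hB ξ).trans
    (div_le_self hB0 (one_le_pow₀ (by linarith [abs_nonneg ξ])))
  constructor
  · -- the main term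
    have hdec := gc_dec (a := a) (L := L) (lam := lam) hG hB hB0 hlam ha hL 1
    rw [Nat.cast_one, Real.log_one] at hdec
    simp only [sub_zero] at hdec
    set W : ℝ → ℂ := fun u => (Real.exp (-u ^ 2 / 2) : ℂ) * hat R g (θ * u) with hW
    have hWi : Integrable W := by
      refine (gauss_integrable.const_mul (C1 * M)).mono' ?_ (Eventually.of_forall fun u => ?_)
      · exact Continuous.aestronglyMeasurable (by fun_prop)
      · simp only [hW]
        rw [norm_mul, Complex.norm_real, Real.norm_of_nonneg (Real.exp_pos _).le, mul_comm]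
        exact mul_le_mul_of_nonneg_right (hGb _) (Real.exp_pos _).le
    have hconjW : ∀ u, W (-u) = conj (W u) := by
      intro u
      simp only [hW]
      rw [map_mul, Complex.conj_ofReal, ← hconj]
      congr 2
      · congr 2; ring
      · ring
    have hneg : ∫ u in Iic (0 : ℝ), W u = conj (∫ u in Ioi (0 : ℝ), W u) := by
      have h1 := integral_comp_neg_Iic (0 : ℝ) W
      rw [neg_zero] at h1
      rw [← integral_conj, ← neg_zero, ← integral_comp_neg_Iic]
      simp only [neg_zero]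
      refine setIntegral_congr_fun measurableSet_Iic fun u _ => ?_
      show W u = conj (W (-u))
      rw [hconjW, Complex.conj_conj]
    have hfull : (∫ u : ℝ, W u) = 2 * ((∫ u in Ioi (0 : ℝ), W u).re : ℂ) := by
      rw [← intervalIntegral.integral_Iic_add_Ioi (b := 0) hWi.integrableOn hWi.integrableOn,
        hneg, add_comm, Complex.add_conj]
      push_cast
      ring
    have h0 := hgau2 0
    simp only [sub_zero, mul_zero] at h0
    have h0' : (∫ u : ℝ, W u) = Real.sqrt (2 * Real.pi) * ((∫ x in (-R)..R, f x : ℝ) : ℂ) := by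
      rw [show (∫ u : ℝ, W u) = ∫ u : ℝ, (Real.exp (-u ^ 2 / 2) : ℂ) * hat R g (θ * u) from rfl, h0]
      congr 1
      unfold hat
      rw [← intervalIntegral.integral_ofReal]
      refine intervalIntegral.integral_congr fun x _ => ?_
      simp
    set E : ℂ := ∫ u in Ioi (0 : ℝ), ((1 - om (u / (L / lam)) : ℝ) : ℂ) * W u with hE
    have hEb : ‖E‖ ≤ 16 * (C1 * M) * (lam ^ 2 / L ^ 2) * cg2 := by
      rw [hE]
      refine (norm_integral_le_integral_norm _).trans ?_
      have hi2 : Integrable fun u : ℝ => 16 * (C1 * M) * (lam ^ 2 / L ^ 2) *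
          (u ^ 2 * Real.exp (-u ^ 2 / 2)) := gint2.const_mul _
      have hnn : ∀ u : ℝ, 0 ≤ 16 * (C1 * M) * (lam ^ 2 / L ^ 2) *
          (u ^ 2 * Real.exp (-u ^ 2 / 2)) := fun u => by positivity
      have hpt : ∀ u : ℝ, ‖((1 - om (u / (L / lam)) : ℝ) : ℂ) * W u‖ ≤
          16 * (C1 * M) * (lam ^ 2 / L ^ 2) * (u ^ 2 * Real.exp (-u ^ 2 / 2)) := by
        intro u
        have h2 := om_low2 (u / (L / lam))
        have h3 := Pool.Agent.TH850.UV.om_le_one (u / (L / lam))
        simp only [hW]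
        rw [norm_mul, norm_mul, Complex.norm_real, Complex.norm_real,
          Real.norm_of_nonneg (Real.exp_pos _).le, Real.norm_of_nonneg (by linarith)]
        have h4 : (u / (L / lam)) ^ 2 = lam ^ 2 / L ^ 2 * u ^ 2 := by field_simp
        rw [h4] at h2
        calc (1 - om (u / (L / lam))) * (Real.exp (-u ^ 2 / 2) * ‖hat R g (θ * u)‖) ≤
            (16 * (lam ^ 2 / L ^ 2 * u ^ 2)) * (Real.exp (-u ^ 2 / 2) * (C1 * M)) := by
              apply mul_le_mul h2 _ (by positivity) (by positivity)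
              exact mul_le_mul_of_nonneg_left (hGb _) (Real.exp_pos _).le
          _ = _ := by ring
      calc ∫ u in Ioi (0 : ℝ), ‖((1 - om (u / (L / lam)) : ℝ) : ℂ) * W u‖ ≤
          ∫ u in Ioi (0 : ℝ), 16 * (C1 * M) * (lam ^ 2 / L ^ 2) * (u ^ 2 * Real.exp (-u ^ 2 / 2)) := by
            refine setIntegral_mono ?_ hi2.integrableOn hpt
            refine Integrable.integrableOn (hi2.mono' ?_ (Eventually.of_forall fun u => ?_))
            · exact Continuous.aestronglyMeasurable (by simp only [hW]; fun_prop)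
            · rw [norm_norm]; exact hpt u
        _ ≤ ∫ u : ℝ, 16 * (C1 * M) * (lam ^ 2 / L ^ 2) * (u ^ 2 * Real.exp (-u ^ 2 / 2)) :=
            setIntegral_le_integral hi2 (Eventually.of_forall hnn)
        _ = _ := by rw [integral_const_mul]; rfl
    have hdec2 : (gc (cw R (a / lam) g) (L / lam) 1) = (θ : ℝ) * ((∫ u in Ioi (0 : ℝ), W u) - E) := by
      have h5 : (θ : ℂ) * (∫ u : ℝ, W u) - gc (cw R (a / lam) g) (L / lam) 1 =
        (θ : ℂ) * ((∫ u in Iic (0 : ℝ), W u) + E) := hdec
      rw [← intervalIntegral.integral_Iic_add_Ioi (b := 0) hWi.integrableOn hWi.integrableOn] at h5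
      linear_combination -h5
    have hre : (gc (cw R (a / lam) g) (L / lam) 1).re =
        θ * (Real.sqrt (2 * Real.pi) * (∫ x in (-R)..R, f x) / 2 - E.re) := by
      rw [hdec2, Complex.re_ofReal_mul, Complex.sub_re]
      have h6 : 2 * (∫ u in Ioi (0 : ℝ), W u).re = Real.sqrt (2 * Real.pi) * ∫ x in (-R)..R, f x := by
        have h7 := hfull.symm.trans h0'
        exact_mod_cast h7
      rw [← h6]
      ring
    rw [hre]
    have e2 : 2 * c0 * (L * (θ * (Real.sqrt (2 * Real.pi) * (∫ x in (-R)..R, f x) / 2 - E.re))) -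
        a * ∫ x in (-R)..R, f x = -(2 * c0 * a * E.re) := by
      have h8 : L * θ = a := by rw [hθ]; field_simp
      have h9 : c0 * Real.sqrt (2 * Real.pi) = 1 := by rw [hc0]; field_simp
      linear_combination (2 * c0 * (Real.sqrt (2 * Real.pi) * (∫ x in (-R)..R, f x) / 2 - E.re)) * h8
        + a * (∫ x in (-R)..R, f x) * h9
    rw [e2, abs_neg, abs_mul, abs_of_pos (by positivity : 0 < 2 * c0 * a)]
    calc 2 * c0 * a * |E.re| ≤ 2 * 1 * a * (16 * (C1 * M) * (lam ^ 2 / L ^ 2) * cg2) := by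
          apply mul_le_mul _ ((Complex.abs_re_le_norm _).trans hEb) (abs_nonneg _) (by positivity)
          apply mul_le_mul_of_nonneg_right _ ha.le
          linarith
      _ = (32 * C1 * cg2) * M * (lam ^ 2 * (a / L ^ 2)) := by ring
      _ ≤ _ := by
          have h10 : 0 ≤ M * (lam ^ 2 * (a / L ^ 2)) := by positivity
          have h11 : 32 * C1 * cg2 ≤ 32 * C1 * (cg2 + 1) + (C1 * 2 + 4 * C1 * cg1) := by
            have : 0 ≤ C1 * cg1 := by positivity
            linarith
          nlinarith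
  · intro n hn
    have hn0 : (0 : ℝ) < n := by exact_mod_cast hn
    have hy : 0 ≤ Real.log n := Real.log_nonneg (by exact_mod_cast hn)
    set y := Real.log n with hyd
    have hdec := gc_dec (a := a) (L := L) (lam := lam) hG hB hB0 hlam ha hL n
    rw [← hyd, ← hθ, hgau2 y] at hdec
    set E1 : ℂ := ∫ u in Iic (0 : ℝ), (Real.exp (-(u - y) ^ 2 / 2) : ℂ) * hat R g (θ * u) with hE1
    set E2 : ℂ := ∫ u in Ioi (0 : ℝ), ((1 - om (u / (L / lam)) : ℝ) : ℂ) *
        ((Real.exp (-(u - y) ^ 2 / 2) : ℂ) * hat R g (θ * u)) with hE2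
    have h1 : ‖E1‖ ≤ C1 * M * (2 / n) := by
      rw [hE1]
      refine (norm_integral_le_integral_norm _).trans ?_
      have h2 := gleft (y := y)
      have h3 : Real.exp (-y) = 1 / n := by
        rw [hyd, Real.exp_neg, Real.exp_log hn0, one_div]
      rw [h3] at h2
      calc ∫ u in Iic (0 : ℝ), ‖(Real.exp (-(u - y) ^ 2 / 2) : ℂ) * hat R g (θ * u)‖ ≤
          ∫ u in Iic (0 : ℝ), C1 * M * Real.exp (-(u - y) ^ 2 / 2) := by
            have hpt : ∀ u : ℝ, ‖(Real.exp (-(u - y) ^ 2 / 2) : ℂ) * hat R g (θ * u)‖ ≤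
                C1 * M * Real.exp (-(u - y) ^ 2 / 2) := by
              intro u
              rw [norm_mul, Complex.norm_real, Real.norm_of_nonneg (Real.exp_pos _).le, mul_comm]
              exact mul_le_mul_of_nonneg_right (hGb _) (Real.exp_pos _).le
            refine setIntegral_mono ?_ ((gint y).const_mul _).integrableOn hpt
            refine Integrable.integrableOn (((gint y).const_mul (C1 * M)).mono' ?_
              (Eventually.of_forall fun u => ?_))
            · exact Continuous.aestronglyMeasurable (by fun_prop)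
            · rw [norm_norm]; exact hpt u
        _ = C1 * M * ∫ u in Iic (0 : ℝ), Real.exp (-(u - y) ^ 2 / 2) := integral_const_mul _ _
        _ ≤ C1 * M * (2 * (1 / n)) := mul_le_mul_of_nonneg_left h2 hB0
        _ = _ := by ring
    have h1θ : 0 < 1 + θ * y := by positivity
    have h2 : ‖E2‖ ≤ 4 * (C1 * M) * (lam / a) / (1 + θ * y) * cg1 := by
      rw [hE2]
      refine (norm_integral_le_integral_norm _).trans ?_
      have hi2 : Integrable fun u : ℝ => 4 * (C1 * M) * (lam / a) / (1 + θ * y) *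
          ((1 + |u - y|) * Real.exp (-(u - y) ^ 2 / 2)) := (gint1 y).const_mul _
      have hpt : ∀ u ∈ Ioi (0 : ℝ), ‖((1 - om (u / (L / lam)) : ℝ) : ℂ) *
          ((Real.exp (-(u - y) ^ 2 / 2) : ℂ) * hat R g (θ * u))‖ ≤
          4 * (C1 * M) * (lam / a) / (1 + θ * y) *
          ((1 + |u - y|) * Real.exp (-(u - y) ^ 2 / 2)) := by
        intro u hu
        have hu0 : 0 < u := hu
        have h2 := om_low1 (x := u / (L / lam)) (by positivity)
        have h3 := Pool.Agent.TH850.UV.om_le_one (u / (L / lam))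
        rw [norm_mul, norm_mul, Complex.norm_real, Complex.norm_real,
          Real.norm_of_nonneg (Real.exp_pos _).le, Real.norm_of_nonneg (by linarith)]
        have h4 : u / (L / lam) = lam / a * (θ * u) := by rw [hθ]; field_simp
        rw [h4] at h2
        have h5 := hB (θ * u)
        rw [abs_of_pos (by positivity)] at h5
        have h6 : 0 < 1 + θ * u := by positivity
        have h7 : (θ * u) / (1 + θ * u) ^ 2 ≤ (1 + |u - y|) / (1 + θ * y) := by
          rw [div_le_div_iff₀ (by positivity) h1θ]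
          have h8 : 1 + θ * y ≤ (1 + θ * u) * (1 + |u - y|) := by
            have h9 : y - u ≤ |u - y| := by rw [abs_sub_comm]; exact le_abs_self _
            have h10 : θ * (y - u) ≤ 1 * |u - y| := by
              calc θ * (y - u) ≤ θ * |u - y| := mul_le_mul_of_nonneg_left h9 hθ0.le
                _ ≤ 1 * |u - y| := mul_le_mul_of_nonneg_right hθ1 (abs_nonneg _)
            have h11 : 0 ≤ θ * u * |u - y| := by positivity
            nlinarith
          calc θ * u * (1 + θ * y) ≤ (1 + θ * u) * ((1 + θ * u) * (1 + |u - y|)) := by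
                apply mul_le_mul (by linarith) h8 h1θ.le h6.le
            _ = _ := by ring
        calc (1 - om (u / (L / lam))) * (Real.exp (-(u - y) ^ 2 / 2) * ‖hat R g (θ * u)‖) ≤
            (4 * (lam / a * (θ * u))) * (Real.exp (-(u - y) ^ 2 / 2) *
              (C1 * M / (1 + θ * u) ^ 2)) := by
              rw [h4]
              apply mul_le_mul h2 _ (by positivity) (by positivity)
              exact mul_le_mul_of_nonneg_left h5 (Real.exp_pos _).le
          _ = 4 * (C1 * M) * (lam / a) * Real.exp (-(u - y) ^ 2 / 2) *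
              ((θ * u) / (1 + θ * u) ^ 2) := by ring
          _ ≤ 4 * (C1 * M) * (lam / a) * Real.exp (-(u - y) ^ 2 / 2) *
              ((1 + |u - y|) / (1 + θ * y)) := mul_le_mul_of_nonneg_left h7 (by positivity)
          _ = _ := by ring
      calc ∫ u in Ioi (0 : ℝ), ‖((1 - om (u / (L / lam)) : ℝ) : ℂ) *
          ((Real.exp (-(u - y) ^ 2 / 2) : ℂ) * hat R g (θ * u))‖ ≤
          ∫ u in Ioi (0 : ℝ), 4 * (C1 * M) * (lam / a) / (1 + θ * y) *
          ((1 + |u - y|) * Real.exp (-(u - y) ^ 2 / 2)) := by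
            refine setIntegral_mono_on ?_ hi2.integrableOn measurableSet_Ioi hpt
            refine Integrable.mono' hi2.integrableOn ?_ ?_
            · exact Continuous.aestronglyMeasurable (by fun_prop)
            · refine (ae_restrict_iff' measurableSet_Ioi).2 (Eventually.of_forall fun u hu => ?_)
              rw [norm_norm]; exact hpt u hu
        _ ≤ ∫ u : ℝ, 4 * (C1 * M) * (lam / a) / (1 + θ * y) *
          ((1 + |u - y|) * Real.exp (-(u - y) ^ 2 / 2)) :=
            setIntegral_le_integral hi2 (Eventually.of_forall fun u => by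
              show 0 ≤ 4 * (C1 * M) * (lam / a) / (1 + θ * y) *
                ((1 + |u - y|) * Real.exp (-(u - y) ^ 2 / 2))
              positivity)
        _ = _ := by rw [integral_const_mul, gint1_eq]
    have e3 : (c0 : ℂ) * gc (cw R (a / lam) g) (L / lam) n - (θ : ℂ) * hat R f (θ * y) =
        -((c0 : ℂ) * ((θ : ℂ) * (E1 + E2))) := by
      have h9 : (c0 : ℂ) * (Real.sqrt (2 * Real.pi) : ℂ) = 1 := by
        rw [← Complex.ofReal_mul, hc0]
        norm_cast
        field_simp
      linear_combination (-(c0 : ℂ)) * hdec + (θ : ℂ) * hat R f (θ * y) * h9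
    rw [e3, norm_neg, norm_mul, norm_mul, Complex.norm_real, Complex.norm_real,
      Real.norm_of_nonneg hc00.le, Real.norm_of_nonneg hθ0.le]
    calc c0 * (θ * ‖E1 + E2‖) ≤ 1 * (θ * (C1 * M * (2 / n) +
          4 * (C1 * M) * (lam / a) / (1 + θ * y) * cg1)) := by
          apply mul_le_mul hc01 _ (by positivity) zero_le_one
          apply mul_le_mul_of_nonneg_left _ hθ0.le
          exact (norm_add_le _ _).trans (add_le_add h1 h2)
      _ = M * θ * ((C1 * 2) * (1 / n) + (4 * C1 * cg1) * (lam / a / (1 + θ * y))) := by ring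
      _ ≤ M * θ * ((32 * C1 * (cg2 + 1) + (C1 * 2 + 4 * C1 * cg1)) * (1 / n) +
          (32 * C1 * (cg2 + 1) + (C1 * 2 + 4 * C1 * cg1)) * (lam / a / (1 + θ * y))) := by
          have g1 : 0 ≤ C1 * cg1 := by positivity
          have g2 : 0 ≤ C1 * (cg2 + 1) := by positivity
          apply mul_le_mul_of_nonneg_left _ (by positivity)
          apply add_le_add
          · apply mul_le_mul_of_nonneg_right _ (by positivity)
            linarith
          · apply mul_le_mul_of_nonneg_right _ (by positivity)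
            linarith
      _ = _ := by ring

end Pool.Agent.TH850.CL
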