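import Pool.Agent.TH850.CL.Defs3
import Pool.Agent.TH850.CL.Coef
import Pool.Agent.TH850.UR.Comp

set_option autoImplicit false

/-! # Project CL: the statistic as a finite sum, and the prime sum -/

namespace Pool.Agent.TH850.CL

open Complex MeasureTheory Set Filter Topology
open scoped ComplexConjugate
open H370 (zz mult Zf zset mem_Zf good_zeta zz_re zz_im)
open H370.A2 (lamC)
open Pool.Agent.TH850.UV (om om_cont XT)
open Pool.Agent.TH850.UV.KernAux (om_nonneg om_neg)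

/-- the uncentred statistic over a finite set of zeros -/
noncomputable def FSt (f : ℝ → ℝ) (κ A B t : ℝ) : ℝ :=
  ∑ s ∈ Zf riemannZeta A B, (mult riemannZeta s : ℝ) * f ((s.im - t) * κ)

lemma Sf_eq {f : ℝ → ℝ} {R T a t A B : ℝ} (hf : ∀ x, R ≤ |x| → f x = 0) (hR : 1 ≤ R)
    (ha : 0 < a) (hκ : 2 * R ≤ Real.log T / (2 * Real.pi * a)) (hA : 1 ≤ A)
    (ht : ∀ x, |x - t| ≤ 1 / 2 → A < x ∧ x ≤ B) :
    Sf f T a t = FSt f (Real.log T / (2 * Real.pi * a)) A B t - a * ∫ x, f x := by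
  have hpi := Real.pi_pos
  set κ := Real.log T / (2 * Real.pi * a) with hκd
  have hκ0 : 0 < κ := by linarith
  unfold Sf FSt
  congr 1
  have e1 : ∀ s : ℂ, (s.im - t) * Real.log T / (2 * Real.pi * a) = (s.im - t) * κ := fun s => by
    rw [hκd]; ring
  simp only [e1]
  refine finsum_mem_eq_sum_of_inter_support_eq _ ?_
  ext s
  simp only [mem_inter_iff, Finset.mem_coe, Function.mem_support]
  constructor
  · rintro ⟨h1, h2⟩
    refine ⟨?_, h2⟩
    rw [Pool.Agent.TH850.UR.mem_Z hA]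
    refine ⟨h1, ht _ ?_⟩
    by_contra hcon
    push Not at hcon
    apply h2
    rw [hf _ _, mul_zero]
    rw [abs_mul, abs_of_pos hκ0]
    nlinarith
  · rintro ⟨h1, h2⟩
    rw [Pool.Agent.TH850.UR.mem_Z hA] at h1
    exact ⟨h1.1, h2⟩

lemma FSt_cont {f : ℝ → ℝ} (hf : Continuous f) (κ A B : ℝ) : Continuous (FSt f κ A B) := by
  unfold FSt
  fun_prop

lemma Sf_cont {f : ℝ → ℝ} (hfc : Continuous f) {R T a : ℝ} (hf : ∀ x, R ≤ |x| → f x = 0)
    (hR : 1 ≤ R) (ha : 0 < a) (hκ : 2 * R ≤ Real.log T / (2 * Real.pi * a)) (hT : 10 ≤ T) :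
    ContinuousOn (fun t => Sf f T a t) (Icc T (2 * T)) := by
  have h1 : ∀ t ∈ Icc T (2 * T), Sf f T a t =
      FSt f (Real.log T / (2 * Real.pi * a)) (T - 1) (2 * T + 1) t - a * ∫ x, f x := by
    intro t ht
    refine Sf_eq hf hR ha hκ (by linarith) fun x hx => ?_
    rw [abs_le] at hx
    constructor <;> linarith [hx.1, hx.2, ht.1, ht.2]
  refine ContinuousOn.congr ?_ h1
  exact ((FSt_cont hfc _ _ _).sub continuous_const).continuousOn

lemma cw_cont {R b : ℝ} {g : ℝ → ℝ} (hG : Continuous (hat R g)) : Continuous (cw R b g) := by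
  have := om_cont
  unfold cw
  fun_prop

lemma cw_conj {R b : ℝ} {g : ℝ → ℝ} (hG : ∀ ξ, hat R g (-ξ) = conj (hat R g ξ)) (α : ℝ) :
    cw R b g (-α) = conj (cw R b g α) := by
  unfold cw
  rw [om_neg, mul_neg, hG, map_mul, map_mul, Complex.conj_ofReal, Complex.conj_ofReal]

lemma cw_le {R b B : ℝ} {g : ℝ → ℝ} (hb : 0 ≤ b) (hB : ∀ ξ, ‖hat R g ξ‖ ≤ B) (α : ℝ) :
    ‖cw R b g α‖ ≤ b * B := by
  unfold cw
  rw [norm_mul, norm_mul, Complex.norm_real, Complex.norm_real, Real.norm_of_nonneg (om_nonneg _),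
    Real.norm_of_nonneg hb]
  have h1 := Pool.Agent.TH850.UV.om_le_one α
  have h2 := hB (b * α)
  calc om α * (b * ‖hat R g (b * α)‖) ≤ 1 * (b * B) := by
        apply mul_le_mul h1 (mul_le_mul_of_nonneg_left h2 hb) (by positivity) zero_le_one
    _ = _ := one_mul _

lemma Hk_eq {κ R b l : ℝ} (g : ℝ → ℝ) (hκ : κ ≠ 0) (hl : l = 2 * Real.pi * b * κ) (w : ℂ) :
    Hk κ R b g (w * (κ : ℝ)) = cexp (-w ^ 2 / 2) * lowc (cw R b g) l w := by
  unfold Hk low lowc
  have hκC : (κ : ℂ) ≠ 0 := by exact_mod_cast hκ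
  congr 1
  · congr 1
    field_simp
  · refine intervalIntegral.integral_congr fun α _ => ?_
    show (om α : ℂ) * (b * hat R g (b * α)) * cexp (2 * Real.pi * α * b * (w * (κ : ℝ)) * I) =
      cw R b g α * cexp (I * ((α * l : ℝ) : ℂ) * w)
    unfold cw
    congr 2
    rw [hl]
    push_cast
    ring

/-- the sum over the zeros of `Hk` -/
lemma sum_Hk {κ R b l U1 U2 t : ℝ} {g : ℝ → ℝ} (hκ : κ ≠ 0) (hl : l = 2 * Real.pi * b * κ)
    (hGc : Continuous (hat R g)) (hG : ∀ ξ, hat R g (-ξ) = conj (hat R g ξ)) (hU : 1 ≤ U1) :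
    (∑ s ∈ Zf riemannZeta U1 U2, (mult riemannZeta s : ℂ) *
      Hk κ R b g ((zz s - t) * (κ : ℝ))).re = 2 * (HTc (cw R b g) l U1 U2 t).re := by
  have h1 := fullc (cw_cont (b := b) hGc) (cw_conj hG) l hU t (U2 := U2)
  have h2 : ∑ s ∈ Zf riemannZeta U1 U2, (mult riemannZeta s : ℂ) *
      Hk κ R b g ((zz s - t) * (κ : ℝ)) =
      ∑ s ∈ Zf riemannZeta U1 U2, (mult riemannZeta s : ℂ) * cexp (-(zz s - t) ^ 2 / 2) *
      lowc (cw R b g) l (zz s - t) := by
    refine Finset.sum_congr rfl fun s _ => ?_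
    rw [Hk_eq g hκ hl]
    ring
  rw [h2, h1, Complex.ofReal_re]

/-- the prime side of the explicit formula -/
noncomputable def Pact (R lam a L : ℝ) (g : ℝ → ℝ) (X : ℕ) (t : ℝ) : ℝ :=
  -(2 * (1 / Real.sqrt (2 * Real.pi)) * (DDc (cw R (a / lam) g) lamC (L / lam) X t).re)

lemma Pact_cont (R lam a L : ℝ) (g : ℝ → ℝ) (X : ℕ) : Continuous (Pact R lam a L g X) := by
  have := DDc_cont (cw R (a / lam) g) lamC (L / lam) X
  unfold Pact
  fun_prop

end Pool.Agent.TH850.CL
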