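import Pool.Agent.TH850.CL.NTV
import Pool.Agent.TH850.CL.Act

set_option autoImplicit false

/-! # Project CL: the ideal prime polynomial -/

namespace Pool.Agent.TH850.CL

open Complex MeasureTheory Set Filter Topology
open scoped ComplexConjugate
open ArithmeticFunction (vonMangoldt)
open H370.A2 (lamC)
open NTVAux

/-- the coefficients of the ideal prime polynomial -/
noncomputable def bq (θ : ℝ) (φ : ℝ → ℂ) (n : ℕ) : ℂ :=
  -(((Real.log n / Real.sqrt n : ℝ) : ℂ) * ((θ : ℂ) * φ (θ * Real.log n)))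

/-- the primes up to `Y` -/
def pr (Y : ℕ) : Finset ℕ := (Finset.Icc 1 Y).filter Nat.Prime

/-- the ideal prime polynomial -/
noncomputable def Pid (θ : ℝ) (φ : ℝ → ℂ) (Y : ℕ) (t : ℝ) : ℝ :=
  Pt (ι := {q // q ∈ pr Y}) (fun q => q.1) (fun q => bq θ φ q.1) t

lemma Pid_eq (θ : ℝ) (φ : ℝ → ℂ) (Y : ℕ) (t : ℝ) : Pid θ φ Y t =
    ∑ q ∈ pr Y, 2 * (bq θ φ q * cexp (-(I * t * Real.log q))).re := by
  unfold Pid Pt
  exact Finset.sum_coe_sort (pr Y) (fun q => 2 * (bq θ φ q * cexp (-(I * t * Real.log q))).re)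

lemma Pid_cont (θ : ℝ) (φ : ℝ → ℂ) (Y : ℕ) : Continuous (Pid θ φ Y) := by
  have : Pid θ φ Y = fun t : ℝ =>
      ∑ q ∈ pr Y, 2 * (bq θ φ q * cexp (-(I * t * Real.log q))).re := funext (Pid_eq θ φ Y)
  rw [this]
  fun_prop

lemma norm_bq {θ : ℝ} (hθ : 0 ≤ θ) (φ : ℝ → ℂ) (n : ℕ) :
    ‖bq θ φ n‖ ^ 2 = Real.log n ^ 2 / n * θ ^ 2 * ‖φ (θ * Real.log n)‖ ^ 2 := by
  unfold bq
  rw [norm_neg, norm_mul, norm_mul, Complex.norm_real, Complex.norm_real, Real.norm_of_nonneg hθ,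
    Real.norm_of_nonneg (div_nonneg (logn n) (Real.sqrt_nonneg _)), mul_pow, mul_pow, div_pow,
    Real.sq_sqrt (Nat.cast_nonneg n)]
  ring

lemma bq_le {θ B : ℝ} (hθ : 0 ≤ θ) {φ : ℝ → ℂ} (hB : ∀ v, ‖φ v‖ ≤ B) (n : ℕ) (hn : 1 ≤ n) :
    ‖bq θ φ n‖ ≤ 2 * θ * B := by
  have hB0 : 0 ≤ B := (norm_nonneg _).trans (hB 0)
  have hn0 : (0 : ℝ) < n := by exact_mod_cast hn
  apply abs_le_of_sq_le_sq' _ (by positivity) |>.2
  rw [norm_bq hθ]
  have h1 := log_sq_le n hn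
  have h2 : Real.log n ^ 2 / n ≤ 4 := by rw [div_le_iff₀ hn0]; exact h1
  have h3 : ‖φ (θ * Real.log n)‖ ^ 2 ≤ B ^ 2 := pow_le_pow_left₀ (norm_nonneg _) (hB _) 2
  calc Real.log n ^ 2 / n * θ ^ 2 * ‖φ (θ * Real.log n)‖ ^ 2 ≤ 4 * θ ^ 2 * B ^ 2 := by gcongr
    _ = _ := by ring

/-- the characteristic function of the ideal polynomial -/
theorem pid_char (hP4 : S_P4) {θ B : ℝ} (hθ0 : 0 < θ) (hθ1 : θ ≤ 1) {φ : ℝ → ℂ}
    (hB : ∀ v, ‖φ v‖ ≤ B) {m : ℕ} (hm : 1 ≤ m) {T : ℝ} (hT : 1 ≤ T) {Y : ℕ} (hY1 : 1 ≤ Y)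
    (hY : (Y : ℝ) ≤ T ^ (1 / (8 * m : ℝ))) {V : ℝ}
    (hV : V = ∑ q ∈ pr Y, Real.log q ^ 2 / q * θ ^ 2 * ‖φ (θ * Real.log q)‖ ^ 2) :
    ‖((1 / T : ℝ) : ℂ) * (∫ t in T..(2 * T), cexp (I * Pid θ φ Y t)) - (Real.exp (-V) : ℝ)‖ ≤
      8 * θ ^ 2 * B ^ 2 * V + 2 * (1 / 4) ^ m * Real.exp (8 * V) +
        12 * (1 + 4 * B) ^ (2 * m) / Real.sqrt T := by
  have hB0 : 0 ≤ B := (norm_nonneg _).trans (hB 0)
  have hT0 : 0 < T := by linarith
  have hY0 : (1 : ℝ) ≤ Y := by exact_mod_cast hY1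
  have h := hP4 {q // q ∈ pr Y} (fun q => q.1) (fun q => bq θ φ q.1)
    (fun q => (Finset.mem_filter.1 q.2).2) Subtype.val_injective Y T hY0
    (fun q => by exact_mod_cast (Finset.mem_Icc.1 (Finset.mem_filter.1 q.2).1).2) hT0 m
  have e2 : ∑ q : {q // q ∈ pr Y}, ‖bq θ φ q.1‖ ^ 2 = V := by
    rw [Finset.sum_coe_sort (pr Y) (fun q => ‖bq θ φ q‖ ^ 2), hV]
    exact Finset.sum_congr rfl fun q _ => norm_bq hθ0.le φ q
  have e4 : ∑ q : {q // q ∈ pr Y}, ‖bq θ φ q.1‖ ^ 4 ≤ 4 * θ ^ 2 * B ^ 2 * V := by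
    rw [← e2, Finset.mul_sum]
    refine Finset.sum_le_sum fun q _ => ?_
    have h1 := bq_le hθ0.le hB q.1 (Finset.mem_Icc.1 (Finset.mem_filter.1 q.2).1).1
    have h2 : ‖bq θ φ q.1‖ ^ 2 ≤ (2 * θ * B) ^ 2 := pow_le_pow_left₀ (norm_nonneg _) h1 2
    calc ‖bq θ φ q.1‖ ^ 4 = ‖bq θ φ q.1‖ ^ 2 * ‖bq θ φ q.1‖ ^ 2 := by ring
      _ ≤ (2 * θ * B) ^ 2 * ‖bq θ φ q.1‖ ^ 2 := by gcongr
      _ = _ := by ring
  have e1 : ∑ q : {q // q ∈ pr Y}, ‖bq θ φ q.1‖ ≤ 2 * B * Y := by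
    rw [Finset.sum_coe_sort (pr Y) (fun q => ‖bq θ φ q‖)]
    have h1 : ∀ q ∈ pr Y, ‖bq θ φ q‖ ≤ 2 * B := by
      intro q hq
      refine (bq_le hθ0.le hB q (Finset.mem_Icc.1 (Finset.mem_filter.1 hq).1).1).trans ?_
      nlinarith
    refine (Finset.sum_le_card_nsmul _ _ _ h1).trans ?_
    rw [nsmul_eq_mul, mul_comm]
    have h2 : ((pr Y).card : ℝ) ≤ Y := by
      have : (pr Y).card ≤ (Finset.Icc 1 Y).card := Finset.card_filter_le _ _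
      rw [Nat.card_Icc] at this
      have h3 : (pr Y).card ≤ Y := by omega
      exact_mod_cast h3
    exact mul_le_mul_of_nonneg_left h2 (by positivity)
  have e5 : 12 / T * (1 + 2 * (∑ q : {q // q ∈ pr Y}, ‖bq θ φ q.1‖) * Y) ^ (2 * m) ≤
      12 * (1 + 4 * B) ^ (2 * m) / Real.sqrt T := by
    have hs0 : 0 ≤ ∑ q : {q // q ∈ pr Y}, ‖bq θ φ q.1‖ := Finset.sum_nonneg fun _ _ => norm_nonneg _
    have h1 : 1 + 2 * (∑ q : {q // q ∈ pr Y}, ‖bq θ φ q.1‖) * Y ≤ (1 + 4 * B) * (Y : ℝ) ^ 2 := by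
      calc 1 + 2 * (∑ q : {q // q ∈ pr Y}, ‖bq θ φ q.1‖) * Y ≤ 1 + 2 * (2 * B * Y) * Y := by gcongr
        _ ≤ (Y : ℝ) ^ 2 + 2 * (2 * B * Y) * Y := by
            have : (1 : ℝ) ≤ (Y : ℝ) ^ 2 := one_le_pow₀ hY0
            linarith
        _ = _ := by ring
    have h2 : ((Y : ℝ) ^ 2) ^ (2 * m) ≤ Real.sqrt T := by
      have hm0 : (0 : ℝ) < m := by exact_mod_cast hm
      have h3 : ((Y : ℝ) ^ 2) ^ (2 * m) = (Y : ℝ) ^ (4 * m) := by rw [← pow_mul]; ring_nf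
      rw [h3]
      calc (Y : ℝ) ^ (4 * m) ≤ (T ^ (1 / (8 * m : ℝ))) ^ (4 * m) :=
            pow_le_pow_left₀ (by linarith) hY _
        _ = T ^ (1 / 2 : ℝ) := by
            rw [← Real.rpow_natCast, ← Real.rpow_mul hT0.le]
            congr 1
            push_cast
            field_simp
            norm_num
        _ = Real.sqrt T := (Real.sqrt_eq_rpow T).symm
    have h4 : (1 + 2 * (∑ q : {q // q ∈ pr Y}, ‖bq θ φ q.1‖) * Y) ^ (2 * m) ≤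
        (1 + 4 * B) ^ (2 * m) * Real.sqrt T := by
      refine (pow_le_pow_left₀ (by positivity) h1 _).trans ?_
      rw [mul_pow]
      exact mul_le_mul_of_nonneg_left h2 (by positivity)
    have hsT : 0 < Real.sqrt T := Real.sqrt_pos.2 hT0
    calc 12 / T * (1 + 2 * (∑ q : {q // q ∈ pr Y}, ‖bq θ φ q.1‖) * Y) ^ (2 * m) ≤
        12 / T * ((1 + 4 * B) ^ (2 * m) * Real.sqrt T) := by gcongr
      _ = 12 * (1 + 4 * B) ^ (2 * m) / Real.sqrt T := by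
          have h5 : T = Real.sqrt T * Real.sqrt T := (Real.mul_self_sqrt hT0.le).symm
          rw [eq_div_iff hsT.ne']
          have h6 : 12 / T * ((1 + 4 * B) ^ (2 * m) * Real.sqrt T) * Real.sqrt T =
              12 / T * (1 + 4 * B) ^ (2 * m) * (Real.sqrt T * Real.sqrt T) := by ring
          rw [h6, ← h5]
          field_simp
  rw [e2] at h
  refine h.trans ?_
  have h7 : 2 * ∑ q : {q // q ∈ pr Y}, ‖bq θ φ q.1‖ ^ 4 ≤ 8 * θ ^ 2 * B ^ 2 * V := by linarith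
  linarith

/-- the comparison of the two prime polynomials -/
theorem msq {R lam a L E θ b : ℝ} {g f : ℝ → ℝ} {X Y : ℕ} (hYX : Y ≤ X) (hθ : θ = a / L)
    (hθ0 : 0 < θ) (hE : 0 ≤ E) (hb : 0 < b)
    (hco : ∀ n : ℕ, 1 ≤ n → ‖((1 / Real.sqrt (2 * Real.pi) : ℝ) : ℂ) *
          gc (cw R (a / lam) g) (L / lam) n - (θ : ℝ) * hat R f (θ * Real.log n)‖ ≤
        E * (θ * (1 / b / (1 + θ * Real.log n) + 1 / n)))
    {T : ℝ} (hT : 0 < T) (hX : 8 * X * (1 + Real.log X) ≤ T) :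
    ∫ t in T..(T + T), (Pact R lam a L g X t - Pid θ (hat R f) Y t) ^ 2 ≤
      8 * T * (2 * E ^ 2 * (∑ n ∈ Finset.Icc 1 X, vonMangoldt n ^ 2 / n *
          (θ * (1 / b / (1 + θ * Real.log n) + 1 / n)) ^ 2) +
        2 * ∑ n ∈ (Finset.Icc 1 X).filter (fun n => ¬ (n.Prime ∧ n ≤ Y)),
          vonMangoldt n ^ 2 / n * θ ^ 2 * ‖hat R f (θ * Real.log n)‖ ^ 2) := by
  classical
  set c0 : ℝ := 1 / Real.sqrt (2 * Real.pi) with hc0
  set φ := hat R f with hφ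
  set G : ℕ → ℂ := fun n => gc (cw R (a / lam) g) (L / lam) n with hG
  set d : ℕ → ℂ := fun n => -((c0 : ℂ) * (lamC n * (Real.sqrt n : ℂ)⁻¹ * G n)) -
    if (n.Prime ∧ n ≤ Y) then bq θ φ n else 0 with hd
  have hdiff : ∀ t : ℝ, Pact R lam a L g X t - Pid θ φ Y t =
      2 * (∑ n ∈ Finset.Icc 1 X, d n * (n : ℂ) ^ (-(t : ℂ) * I)).re := by
    intro t
    have e2 : pr Y = (Finset.Icc 1 X).filter (fun n => n.Prime ∧ n ≤ Y) := by
      ext n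
      simp only [pr, Finset.mem_filter, Finset.mem_Icc]
      constructor
      · rintro ⟨⟨h1, h2⟩, h3⟩; exact ⟨⟨h1, h2.trans hYX⟩, h3, h2⟩
      · rintro ⟨⟨h1, h2⟩, h3, h4⟩; exact ⟨⟨h1, h4⟩, h3⟩
    have e3 : Pid θ φ Y t = 2 * (∑ n ∈ Finset.Icc 1 X,
        (if (n.Prime ∧ n ≤ Y) then bq θ φ n else 0) * (n : ℂ) ^ (-(t : ℂ) * I)).re := by
      rw [Pid_eq, e2, Finset.sum_filter, Complex.re_sum, Finset.mul_sum]
      refine Finset.sum_congr rfl fun n hn => ?_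
      have hn0 : (n : ℂ) ≠ 0 := by
        have := (Finset.mem_Icc.1 hn).1
        exact_mod_cast (by omega : n ≠ 0)
      by_cases h : n.Prime ∧ n ≤ Y
      · rw [if_pos h, if_pos h, Complex.cpow_def_of_ne_zero hn0, ← Complex.natCast_log]
        congr 3
        congr 1
        ring
      · rw [if_neg h, if_neg h, zero_mul, Complex.zero_re, mul_zero]
    have e4 : ∑ n ∈ Finset.Icc 1 X, d n * (n : ℂ) ^ (-(t : ℂ) * I) =
        -((c0 : ℂ) * DDc (cw R (a / lam) g) lamC (L / lam) X t) -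
        ∑ n ∈ Finset.Icc 1 X,
        (if (n.Prime ∧ n ≤ Y) then bq θ φ n else 0) * (n : ℂ) ^ (-(t : ℂ) * I) := by
      unfold DDc
      rw [Finset.mul_sum, ← Finset.sum_neg_distrib, ← Finset.sum_sub_distrib]
      refine Finset.sum_congr rfl fun n _ => ?_
      simp only [hd, hG]
      ring
    rw [e3, e4, Complex.sub_re, Complex.neg_re, Complex.re_ofReal_mul]
    unfold Pact
    rw [← hc0]
    ring
  have hnd : ∀ n ∈ Finset.Icc 1 X, ‖d n‖ ^ 2 ≤ 2 * E ^ 2 * (vonMangoldt n ^ 2 / n *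
          (θ * (1 / b / (1 + θ * Real.log n) + 1 / n)) ^ 2) +
        2 * (if ¬ (n.Prime ∧ n ≤ Y) then
          vonMangoldt n ^ 2 / n * θ ^ 2 * ‖φ (θ * Real.log n)‖ ^ 2 else 0) := by
    intro n hn
    have hn1 := (Finset.mem_Icc.1 hn).1
    have hn0 : (0 : ℝ) < n := by exact_mod_cast hn1
    have hs : 0 < Real.sqrt n := Real.sqrt_pos.2 hn0
    have h1 := hco n hn1
    set r : ℝ := E * (θ * (1 / b / (1 + θ * Real.log n) + 1 / n)) with hr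
    have h1' : ‖(c0 : ℂ) * G n - (θ : ℝ) * φ (θ * Real.log n)‖ ≤ r := h1
    have hr0 : 0 ≤ r := (norm_nonneg _).trans h1'
    have hL2 : ‖lamC n * (Real.sqrt n : ℂ)⁻¹‖ ^ 2 = vonMangoldt n ^ 2 / n := by
      rw [norm_mul, H370.A2.lamC_norm, norm_inv, Complex.norm_real, Real.norm_of_nonneg hs.le,
        mul_pow, inv_pow, Real.sq_sqrt hn0.le]
      rfl
    have hr2 : r ^ 2 = E ^ 2 * (θ * (1 / b / (1 + θ * Real.log n) + 1 / n)) ^ 2 := by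
      rw [hr, mul_pow]
    have hv0 : 0 ≤ vonMangoldt n ^ 2 / (n : ℝ) := by positivity
    by_cases h : n.Prime ∧ n ≤ Y
    · rw [if_neg (not_not_intro h), mul_zero, add_zero]
      have e5 : d n = -((lamC n * (Real.sqrt n : ℂ)⁻¹) * ((c0 : ℂ) * G n -
          (θ : ℝ) * φ (θ * Real.log n))) := by
        simp only [hd]
        rw [if_pos h]
        unfold bq lamC
        rw [ArithmeticFunction.vonMangoldt_apply_prime h.1]
        push_cast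
        rw [div_eq_mul_inv]
        ring
      rw [e5, norm_neg, norm_mul, mul_pow, hL2]
      calc vonMangoldt n ^ 2 / n * ‖(c0 : ℂ) * G n - (θ : ℝ) * φ (θ * Real.log n)‖ ^ 2 ≤
          vonMangoldt n ^ 2 / n * r ^ 2 := by gcongr
        _ = 1 * E ^ 2 * (vonMangoldt n ^ 2 / n *
          (θ * (1 / b / (1 + θ * Real.log n) + 1 / n)) ^ 2) := by rw [hr2]; ring
        _ ≤ _ := by
          have : 0 ≤ E ^ 2 * (vonMangoldt n ^ 2 / n *
            (θ * (1 / b / (1 + θ * Real.log n) + 1 / n)) ^ 2) := by positivity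
          nlinarith
    · rw [if_pos h]
      have e5 : d n = -((lamC n * (Real.sqrt n : ℂ)⁻¹) * ((c0 : ℂ) * G n)) := by
        simp only [hd]
        rw [if_neg h]
        ring
      have h2 : ‖(c0 : ℂ) * G n‖ ≤ r + θ * ‖φ (θ * Real.log n)‖ := by
        have h3 : (c0 : ℂ) * G n = ((c0 : ℂ) * G n - (θ : ℝ) * φ (θ * Real.log n)) +
          (θ : ℝ) * φ (θ * Real.log n) := by ring
        rw [h3]
        refine (norm_add_le _ _).trans (add_le_add h1' ?_)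
        rw [norm_mul, Complex.norm_real, Real.norm_of_nonneg hθ0.le]
      have h4 : ‖(c0 : ℂ) * G n‖ ^ 2 ≤ 2 * r ^ 2 + 2 * (θ ^ 2 * ‖φ (θ * Real.log n)‖ ^ 2) := by
        calc ‖(c0 : ℂ) * G n‖ ^ 2 ≤ (r + θ * ‖φ (θ * Real.log n)‖) ^ 2 :=
              pow_le_pow_left₀ (norm_nonneg _) h2 2
          _ ≤ _ := by nlinarith [sq_nonneg (r - θ * ‖φ (θ * Real.log n)‖)]
      rw [e5, norm_neg, norm_mul, mul_pow, hL2]
      calc vonMangoldt n ^ 2 / n * ‖(c0 : ℂ) * G n‖ ^ 2 ≤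
          vonMangoldt n ^ 2 / n * (2 * r ^ 2 + 2 * (θ ^ 2 * ‖φ (θ * Real.log n)‖ ^ 2)) := by gcongr
        _ = _ := by rw [hr2]; ring
  have hsum : ∑ n ∈ Finset.Icc 1 X, ‖d n‖ ^ 2 ≤ 2 * E ^ 2 * (∑ n ∈ Finset.Icc 1 X,
      vonMangoldt n ^ 2 / n * (θ * (1 / b / (1 + θ * Real.log n) + 1 / n)) ^ 2) +
        2 * ∑ n ∈ (Finset.Icc 1 X).filter (fun n => ¬ (n.Prime ∧ n ≤ Y)),
          vonMangoldt n ^ 2 / n * θ ^ 2 * ‖φ (θ * Real.log n)‖ ^ 2 := by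
    refine (Finset.sum_le_sum hnd).trans_eq ?_
    rw [Finset.sum_add_distrib, ← Finset.mul_sum, ← Finset.mul_sum, Finset.sum_filter]
  have hmv := H370.mean_value d X T (T + T) (by linarith)
  have hc1 : Continuous fun t : ℝ => ∑ n ∈ Finset.Icc 1 X, d n * (n : ℂ) ^ (-(t : ℂ) * I) := by
    refine continuous_finsetSum _ fun n hn => ?_
    have hn0 : (n : ℂ) ≠ 0 := by
      have := (Finset.mem_Icc.1 hn).1
      exact_mod_cast (by omega : n ≠ 0)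
    refine continuous_const.mul ?_
    exact Continuous.const_cpow (by fun_prop) (Or.inl hn0)
  have h1 : ∫ t in T..(T + T), (Pact R lam a L g X t - Pid θ φ Y t) ^ 2 ≤
      ∫ t in T..(T + T), 4 * ‖∑ n ∈ Finset.Icc 1 X, d n * (n : ℂ) ^ (-(t : ℂ) * I)‖ ^ 2 := by
    have hPc := Pact_cont R lam a L g X
    have hQc := Pid_cont θ φ Y
    refine intervalIntegral.integral_mono_on (by linarith)
      (Continuous.intervalIntegrable (by fun_prop) _ _)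
      (Continuous.intervalIntegrable (by fun_prop) _ _) fun t _ => ?_
    rw [hdiff t, mul_pow]
    have h2 := Complex.abs_re_le_norm (∑ n ∈ Finset.Icc 1 X, d n * (n : ℂ) ^ (-(t : ℂ) * I))
    have h3 := pow_le_pow_left₀ (abs_nonneg _) h2 2
    rw [sq_abs] at h3
    linarith
  rw [intervalIntegral.integral_const_mul] at h1
  have hS0 : 0 ≤ ∑ n ∈ Finset.Icc 1 X, ‖d n‖ ^ 2 := Finset.sum_nonneg fun _ _ => by positivity
  calc _ ≤ 4 * ∫ t in T..(T + T), ‖∑ n ∈ Finset.Icc 1 X, d n * (n : ℂ) ^ (-(t : ℂ) * I)‖ ^ 2 := h1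
    _ ≤ 4 * ((T + T - T + 8 * X * (1 + Real.log X)) * ∑ n ∈ Finset.Icc 1 X, ‖d n‖ ^ 2) := by
        gcongr
    _ ≤ 4 * ((T + T) * ∑ n ∈ Finset.Icc 1 X, ‖d n‖ ^ 2) := by
        apply mul_le_mul_of_nonneg_left _ (by norm_num)
        apply mul_le_mul_of_nonneg_right _ hS0
        linarith
    _ = 8 * T * ∑ n ∈ Finset.Icc 1 X, ‖d n‖ ^ 2 := by ring
    _ ≤ _ := mul_le_mul_of_nonneg_left hsum (by positivity)

end Pool.Agent.TH850.CL
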