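import Pool.Agent.TH850.CL.Core1

set_option autoImplicit false

/-! # Project CL: comparison of the two prime polynomials in mean -/

namespace Pool.Agent.TH850.CL

open Complex MeasureTheory Set Filter Topology
open ArithmeticFunction (vonMangoldt)
open NTVAux

lemma arith_K4 {E Cn lam B Cd ρ w : ℝ} (hCn : 0 ≤ Cn) (hCd : 0 ≤ Cd) (hρ : 0 ≤ ρ) (hw : 0 ≤ w) :
    2 * E ^ 2 * (Cn * (lam ^ 2 * ρ + ρ + ρ)) + 2 * (2 * Cd * w + Cn * B ^ 2 * ρ) ≤
      (2 * E ^ 2 * Cn * (lam ^ 2 + 2) + 4 * Cd + 2 * Cn * B ^ 2) * (ρ + w) := by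
  have p1 : 0 ≤ E ^ 2 * Cn * (lam ^ 2 + 2) * w := by positivity
  have p2 : 0 ≤ Cd * ρ := by positivity
  have p3 : 0 ≤ Cn * B ^ 2 * w := by positivity
  linarith

/-- the integral over the primes left out -/
lemma int_left {φ : ℝ → ℂ} (hφ : Continuous φ) {Cd V0 : ℝ} (hCd : 0 < Cd)
    (hvar : ∀ V : ℝ, 0 ≤ V → |(∫ v in (0 : ℝ)..V, v * ‖φ v‖ ^ 2) - V0| ≤ Cd / (1 + V))
    {y x : ℝ} (hy : 0 ≤ y) (hyx : y ≤ x) :
    ∫ v in y..x, v * ‖φ v‖ ^ 2 ≤ 2 * Cd * (1 / (1 + y)) := by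
  have hFc : Continuous fun v : ℝ => v * ‖φ v‖ ^ 2 := by fun_prop
  have h1 := hvar y hy
  have h3 := hvar x (hy.trans hyx)
  have h4 : Cd / (1 + x) ≤ Cd / (1 + y) :=
    div_le_div_of_nonneg_left hCd.le (by positivity) (by linarith)
  have h5 := intervalIntegral.integral_interval_sub_left (hFc.intervalIntegrable (μ := volume) 0
    x) (hFc.intervalIntegrable (μ := volume) 0 y)
  rw [← h5]
  rw [abs_le] at h1 h3
  have h6 : Cd / (1 + y) = Cd * (1 / (1 + y)) := by ring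
  rw [h6] at h1 h4
  linarith [h1.1, h3.2]

lemma small_terms {lam a L θ b x : ℝ} (hθ : θ = a / L) (hL : 0 < L) (ha : 0 < a)
    (hb : b = a / lam) (hlam : 0 < lam) (hb1 : 1 ≤ b) (hθ1 : θ ≤ 1) (hx0 : 0 ≤ x) (hx : x ≤ L) :
    θ * x / b ^ 2 + θ / b ^ 2 + θ ^ 2 ≤ lam ^ 2 * (1 / a + θ) + (1 / a + θ) + (1 / a + θ) := by
  have hθ0 : 0 < θ := by rw [hθ]; positivity
  have h1a : 0 < 1 / a := by positivity
  have hb2 : 1 / b ^ 2 = lam ^ 2 / a ^ 2 := by rw [hb]; field_simp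
  have h1 : θ * x ≤ a := by
    calc θ * x ≤ θ * L := mul_le_mul_of_nonneg_left hx hθ0.le
      _ = a := by rw [hθ]; field_simp
  have q1 : θ * x / b ^ 2 ≤ lam ^ 2 * (1 / a + θ) := by
    calc θ * x / b ^ 2 = θ * x * (1 / b ^ 2) := by ring
      _ ≤ a * (1 / b ^ 2) := mul_le_mul_of_nonneg_right h1 (by positivity)
      _ = lam ^ 2 * (1 / a) := by rw [hb2]; field_simp
      _ ≤ _ := mul_le_mul_of_nonneg_left (by linarith) (by positivity)
  have q2 : θ / b ^ 2 ≤ θ := div_le_self hθ0.le (one_le_pow₀ hb1)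
  have q3 : θ ^ 2 ≤ θ := by nlinarith
  linarith

theorem prime_part {R lam a L E θ b T B Cn Cd V0 : ℝ} {g f : ℝ → ℝ} {X Y : ℕ}
    (hY : 1 ≤ Y) (hYX : Y ≤ X) (hθ : θ = a / L) (hL : 0 < L) (ha : 0 < a)
    (hθ1 : θ ≤ 1) (hE : 0 ≤ E) (hlam : 0 < lam) (hb : b = a / lam) (hb1 : 1 ≤ b)
    (hco : ∀ n : ℕ, 1 ≤ n → ‖((1 / Real.sqrt (2 * Real.pi) : ℝ) : ℂ) *
          gc (cw R (a / lam) g) (L / lam) n - (θ : ℝ) * hat R f (θ * Real.log n)‖ ≤
        E * (θ * (1 / b / (1 + θ * Real.log n) + 1 / n)))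
    (hT : 0 < T) (hXT : 8 * X * (1 + Real.log X) ≤ T) (hXlog : Real.log X ≤ L)
    (hφc : Continuous (hat R f)) (hCn : 0 ≤ Cn) (hCd : 0 < Cd)
    (hn2 : ∑ n ∈ (Finset.Icc 1 X).filter (fun n => ¬ (n.Prime ∧ n ≤ Y)),
          vonMangoldt n ^ 2 / n * θ ^ 2 * ‖hat R f (θ * Real.log n)‖ ^ 2 ≤
        (∫ v in (θ * Real.log Y)..(θ * Real.log X), v * ‖hat R f v‖ ^ 2) + Cn * B ^ 2 * θ)
    (hn3 : ∑ n ∈ Finset.Icc 1 X, vonMangoldt n ^ 2 / n *
          (θ * (1 / b / (1 + θ * Real.log n) + 1 / n)) ^ 2 ≤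
        Cn * (θ * Real.log X / b ^ 2 + θ / b ^ 2 + θ ^ 2))
    (hvar : ∀ V : ℝ, 0 ≤ V → |(∫ v in (0 : ℝ)..V, v * ‖hat R f v‖ ^ 2) - V0| ≤ Cd / (1 + V)) :
    ∫ t in T..(T + T), |Pact R lam a L g X t - Pid θ (hat R f) Y t| ≤
      Real.sqrt (8 * (2 * E ^ 2 * Cn * (lam ^ 2 + 2) + 4 * Cd + 2 * Cn * B ^ 2)) *
        Real.sqrt ((1 / a + θ) + 1 / (1 + θ * Real.log Y)) * T := by
  have hθ0 : 0 < θ := by rw [hθ]; positivity
  have hb0 : 0 < b := by linarith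
  have hXlog0 : 0 ≤ Real.log X := logn X
  have hYlog0 : 0 ≤ Real.log Y := logn Y
  have hYX' : Real.log Y ≤ Real.log X :=
    Real.log_le_log (by exact_mod_cast hY) (by exact_mod_cast hYX)
  have hm := msq (Y := Y) (X := X) hYX hθ hθ0 hE hb0 hco hT hXT
  have q4 := int_left hφc hCd hvar (y := θ * Real.log Y) (x := θ * Real.log X) (by positivity)
    (mul_le_mul_of_nonneg_left hYX' hθ0.le)
  have q5 := small_terms hθ hL ha hb hlam hb1 hθ1 hXlog0 hXlog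
  set w := 1 / (1 + θ * Real.log Y) with hw
  have hw0 : 0 < w := by positivity
  set ρ := 1 / a + θ with hρ
  have hρ0 : 0 < ρ := by positivity
  have hρ2 : θ ≤ ρ := by
    have : 0 < 1 / a := by positivity
    linarith
  set K4 := 2 * E ^ 2 * Cn * (lam ^ 2 + 2) + 4 * Cd + 2 * Cn * B ^ 2 with hK4
  have hK40 : 0 < K4 := by positivity
  have hmsq : ∫ t in T..(T + T), (Pact R lam a L g X t - Pid θ (hat R f) Y t) ^ 2 ≤
      Real.sqrt (8 * (K4 * (ρ + w))) ^ 2 * T := by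
    rw [Real.sq_sqrt (by positivity)]
    refine hm.trans ?_
    have h3 : Cn * B ^ 2 * θ ≤ Cn * B ^ 2 * ρ := mul_le_mul_of_nonneg_left hρ2 (by positivity)
    have h4 := mul_le_mul_of_nonneg_left (hn3.trans (mul_le_mul_of_nonneg_left q5 hCn))
      (by positivity : (0 : ℝ) ≤ 2 * E ^ 2)
    have h5 := arith_K4 (E := E) (lam := lam) (B := B) hCn hCd.le hρ0.le hw0.le
    have h1 := (add_le_add h4 (mul_le_mul_of_nonneg_left (hn2.trans (add_le_add q4 h3))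
      (by norm_num : (0 : ℝ) ≤ 2))).trans h5
    calc _ ≤ 8 * T * (K4 * (ρ + w)) := mul_le_mul_of_nonneg_left h1 (by positivity)
      _ = _ := by ring
  have hPc := Pact_cont R lam a L g X
  have hQc := Pid_cont θ (hat R f) Y
  have hPQ := Pool.Agent.TH850.NR.cs_interval
    (f := fun t => Pact R lam a L g X t - Pid θ (hat R f) Y t)
      hT.le (Continuous.intervalIntegrable (by fun_prop) _ _)
      (Continuous.intervalIntegrable (by fun_prop) _ _) (A := Real.sqrt (8 * (K4 * (ρ + w))))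
      (Real.sqrt_pos.2 (by positivity)) hmsq
  have h6 : Real.sqrt (8 * (K4 * (ρ + w))) = Real.sqrt (8 * K4) * Real.sqrt (ρ + w) := by
    rw [← Real.sqrt_mul (by positivity)]
    congr 1; ring
  rwa [h6] at hPQ

end Pool.Agent.TH850.CL
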