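import Pool.Agent.TH850.CL.Core2a

set_option autoImplicit false

/-! # Project CL: comparison of the statistic with the prime polynomial -/

namespace Pool.Agent.TH850.CL

open Complex MeasureTheory Set Filter Topology
open scoped ComplexConjugate
open ArithmeticFunction (vonMangoldt)
open H370.A2 (lamC)
open H370 (zz mult Zf zset mem_Zf good_zeta zz_re zz_im)
open Pool.Agent.TH850.UV (XT om_cont)
open NTVAux

lemma low_cont {R b : ℝ} {g : ℝ → ℝ} (hG : Continuous (hat R g)) : Continuous (low R b g) := by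
  have := om_cont
  unfold low
  fun_prop

lemma Hk_cont {κ R b : ℝ} {g : ℝ → ℝ} (hG : Continuous (hat R g)) : Continuous (Hk κ R b g) := by
  have := low_cont (b := b) hG
  unfold Hk
  fun_prop

/-- the difference on the zero side -/
noncomputable def ZD (f g : ℝ → ℝ) (κ R b U1 U2 t : ℝ) : ℝ :=
  (∑ s ∈ Zf riemannZeta U1 U2, (mult riemannZeta s : ℝ) * f ((s.im - t) * κ)) -
    (∑ s ∈ Zf riemannZeta U1 U2, (mult riemannZeta s : ℂ) *
            Hk κ R b g ((zz s - t) * (κ : ℝ))).re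

lemma ZD_cont {f g : ℝ → ℝ} {κ R b U1 U2 : ℝ} (hf : Continuous f) (hG : Continuous (hat R g)) :
    Continuous (ZD f g κ R b U1 U2) := by
  have := Hk_cont (κ := κ) (b := b) hG
  unfold ZD
  fun_prop

/-- the pointwise comparison -/
lemma point_part {f g : ℝ → ℝ} {R T a lam U1 U2 t κ b l L e1 e2 : ℝ} {X : ℕ}
    (hf : ∀ x, R ≤ |x| → f x = 0) (hR : 1 ≤ R) (ha : 0 < a) (hL : L = Real.log T)
    (hκd : κ = L / (2 * Real.pi * a)) (hκ : 2 * R ≤ κ) (hU : 1 ≤ U1) (hb : b = a / lam)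
    (hl : l = L / lam) (hll : l = 2 * Real.pi * b * κ)
    (ht : ∀ x, |x - t| ≤ 1 / 2 → U1 < x ∧ x ≤ U2)
    (hGc : Continuous (hat R g)) (hG : ∀ ξ, hat R g (-ξ) = conj (hat R g ξ))
    (hef : |(HTc (cw R b g) l U1 U2 t).re - (1 / Real.sqrt (2 * Real.pi)) *
          (L * gc (cw R b g) l 1 - DDc (cw R b g) lamC l X t).re| ≤ e1)
    (hmain : |2 * (1 / Real.sqrt (2 * Real.pi)) * (L * (gc (cw R b g) l 1).re) -
        a * ∫ x, f x| ≤ e2) :
    |Sf f T a t - Pact R lam a L g X t| ≤ |ZD f g κ R b U1 U2 t| + (2 * e1 + e2) := by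
  have hκ0 : κ ≠ 0 := by
    have : 0 < κ := by linarith
    exact this.ne'
  rw [hL] at hκd
  have q1 := Sf_eq hf hR ha (T := T) (t := t) (A := U1) (B := U2) (hκd ▸ hκ) hU ht
  rw [← hκd] at q1
  have q2 := sum_Hk (κ := κ) (b := b) (t := t) (U2 := U2) hκ0 hll hGc hG hU
  have q4 : ((L : ℂ) * gc (cw R b g) l 1 - DDc (cw R b g) lamC l X t).re =
        L * (gc (cw R b g) l 1).re - (DDc (cw R b g) lamC l X t).re := by
      rw [Complex.sub_re, Complex.re_ofReal_mul]
  rw [q4] at hef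
  have q5 : Sf f T a t - Pact R lam a L g X t = ZD f g κ R b U1 U2 t +
        (2 * ((HTc (cw R b g) l U1 U2 t).re - 1 / Real.sqrt (2 * Real.pi) *
          (L * (gc (cw R b g) l 1).re - (DDc (cw R b g) lamC l X t).re)) +
        (2 * (1 / Real.sqrt (2 * Real.pi)) * (L * (gc (cw R b g) l 1).re) - a * ∫ x, f x)) := by
    rw [q1]
    unfold ZD
    rw [q2]
    unfold FSt Pact
    rw [← hb, ← hl]
    ring
  rw [q5]
  refine (abs_add_le _ _).trans (add_le_add le_rfl ?_)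
  refine (abs_add_le _ _).trans (add_le_add ?_ hmain)
  rw [abs_mul, abs_of_pos (by norm_num : (0 : ℝ) < 2)]
  exact mul_le_mul_of_nonneg_left hef (by norm_num)

lemma c1_small {Ce B Cc M lam a L θ b : ℝ} (hCe : 0 ≤ Ce) (hB : 0 ≤ B) (hCc : 0 ≤ Cc) (hM : 0 ≤ M)
    (hθ : θ = a / L) (hL : 1 ≤ L) (ha : 0 < a) (hb : b = a / lam) (hlam : 1 ≤ lam) :
    2 * (Ce * (b * B) / L) + Cc * M * (lam ^ 2 * (a / L ^ 2)) ≤
      (2 * Ce * B + Cc * M * lam ^ 2) * (1 / a + θ) := by
  have hL0 : 0 < L := by linarith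
  have h1a : 0 < 1 / a := by positivity
  have h6 : Ce * (b * B) / L ≤ Ce * B * (1 / a + θ) := by
    have : Ce * (b * B) / L = Ce * B * (b / L) := by ring
    rw [this]
    apply mul_le_mul_of_nonneg_left _ (by positivity)
    have h7 : b / L ≤ θ := by
      rw [hθ, hb]
      exact div_le_div_of_nonneg_right (div_le_self ha.le hlam) hL0.le
    linarith
  have h7 : a / L ^ 2 ≤ 1 / a + θ := by
    have h8 : a / L ^ 2 ≤ θ := by
      rw [hθ]
      apply div_le_div_of_nonneg_left ha.le hL0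
      nlinarith
    linarith
  have h8 : Cc * M * (lam ^ 2 * (a / L ^ 2)) ≤ Cc * M * (lam ^ 2 * (1 / a + θ)) := by gcongr
  linarith

lemma arith_fin {A1 A2 A3 ρ s : ℝ} (h1 : 0 ≤ A1) (h2 : 0 ≤ A2) (h3 : 0 ≤ A3) (hρ : 0 ≤ ρ)
    (hs : 0 ≤ s) : A1 * ρ + A2 * ρ + A3 * s ≤ (A1 + A2 + A3 + 1) * (ρ + s) := by
  have p1 : 0 ≤ (A1 + A2) * s := by positivity
  have p2 : 0 ≤ A3 * ρ := by positivity
  linarith

lemma evT : ∃ T2 : ℝ, ∀ T : ℝ, T2 ≤ T → 8 * (1 + Real.log T) ≤ T ^ (1 / 4 : ℝ) ∧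
    2 * Real.log T ≤ T ∧ 2 ≤ Real.log T := by
  have hev3 : ∀ᶠ T : ℝ in atTop, 8 * (1 + Real.log T) ≤ T ^ (1 / 4 : ℝ) := by
    have h1 : (fun T : ℝ => 8 * (1 + Real.log T)) =o[atTop] fun T : ℝ => T ^ (1 / 4 : ℝ) := by
      apply Asymptotics.IsLittleO.const_mul_left
      refine Asymptotics.IsLittleO.add ?_ (isLittleO_log_rpow_atTop (by norm_num))
      rw [Asymptotics.isLittleO_const_left]
      right
      refine tendsto_norm_atTop_atTop.comp (tendsto_rpow_atTop (by norm_num))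
    have h2 := h1.bound (c := 1) one_pos
    filter_upwards [h2, eventually_ge_atTop 1] with T hT hT1
    rw [one_mul, Real.norm_of_nonneg (Real.rpow_nonneg (by linarith) _)] at hT
    exact (le_abs_self _).trans hT
  have hev4 : ∀ᶠ T : ℝ in atTop, 2 * Real.log T ≤ T := by
    have h1 : (fun T : ℝ => 2 * Real.log T) =o[atTop] fun T : ℝ => T :=
      Asymptotics.IsLittleO.const_mul_left Real.isLittleO_log_id_atTop _
    have h2 := h1.bound (c := 1) one_pos
    filter_upwards [h2, eventually_ge_atTop 1] with T hT hT1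
    rw [one_mul, Real.norm_of_nonneg (by linarith : (0 : ℝ) ≤ T)] at hT
    exact (le_abs_self _).trans hT
  have hev5 : ∀ᶠ T : ℝ in atTop, 2 ≤ Real.log T := Real.tendsto_log_atTop.eventually_ge_atTop _
  exact (hev3.and (hev4.and hev5)).exists_forall_of_atTop

lemma XT_bounds {T : ℝ} (hT : 10 ≤ T) (g3 : 8 * (1 + Real.log T) ≤ T ^ (1 / 4 : ℝ))
    (g5 : 2 ≤ Real.log T) (hX1 : 1 ≤ XT T) :
    Real.log (XT T) ≤ Real.log T ∧ 8 * (XT T) * (1 + Real.log (XT T)) ≤ T := by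
  have hT0 : 0 < T := by linarith
  have hX1' : (1 : ℝ) ≤ XT T := by exact_mod_cast hX1
  have hXle : (XT T : ℝ) ≤ T ^ (1 / 8 : ℝ) := Nat.floor_le (by positivity)
  have hXlog : Real.log (XT T) ≤ Real.log T := by
    have h1 := Real.log_le_log (by linarith) hXle
    rw [Real.log_rpow hT0] at h1
    linarith
  have hXlog0 : 0 ≤ Real.log (XT T) := Real.log_nonneg hX1'
  refine ⟨hXlog, ?_⟩
  calc 8 * (XT T) * (1 + Real.log (XT T)) ≤ 8 * T ^ (1 / 8 : ℝ) * (1 + Real.log T) := by gcongr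
    _ = T ^ (1 / 8 : ℝ) * (8 * (1 + Real.log T)) := by ring
    _ ≤ T ^ (1 / 8 : ℝ) * T ^ (1 / 4 : ℝ) := by gcongr
    _ = T ^ (3 / 8 : ℝ) := by
        rw [← Real.rpow_add hT0]; norm_num
    _ ≤ T ^ (1 : ℝ) := Real.rpow_le_rpow_of_exponent_le (by linarith) (by norm_num)
    _ = T := Real.rpow_one T

/-- adding up the three parts -/
lemma add_parts {S P Q Z : ℝ → ℝ} {A B T c1 z p : ℝ} (hTA : T ≤ A) (hAB : A ≤ B) (hBT : B ≤ T + T)
    (hT : 0 ≤ T) (hc1 : 0 ≤ c1)
    (hS : ContinuousOn S (Icc A B)) (hP : Continuous P) (hQ : Continuous Q) (hZ : Continuous Z)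
    (hpt : ∀ t ∈ Icc A B, |S t - P t| ≤ |Z t| + c1)
    (hz : ∫ t in A..B, |Z t| ≤ z) (hp : ∫ t in T..(T + T), |P t - Q t| ≤ p) :
    ∫ t in A..B, |S t - Q t| ≤ z + T * c1 + p := by
  have h1 : ∫ t in A..B, |S t - Q t| ≤ ∫ t in A..B, (|Z t| + c1 + |P t - Q t|) := by
    refine intervalIntegral.integral_mono_on hAB ?_
      (Continuous.intervalIntegrable (by fun_prop) _ _) fun t ht => ?_
    · refine ContinuousOn.intervalIntegrable ?_
      rw [uIcc_of_le hAB]
      exact (hS.sub hQ.continuousOn).abs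
    · have e : S t - Q t = (S t - P t) + (P t - Q t) := by ring
      rw [e]
      exact (abs_add_le _ _).trans (add_le_add (hpt t ht) le_rfl)
  rw [intervalIntegral.integral_add (Continuous.intervalIntegrable (by fun_prop) _ _)
    (Continuous.intervalIntegrable (by fun_prop) _ _),
    intervalIntegral.integral_add (Continuous.intervalIntegrable (by fun_prop) _ _)
    (Continuous.intervalIntegrable (by fun_prop) _ _), intervalIntegral.integral_const,
    smul_eq_mul] at h1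
  have h3 : ∫ t in A..B, |P t - Q t| ≤ ∫ t in T..(T + T), |P t - Q t| := by
    refine intervalIntegral.integral_mono_interval hTA hAB hBT
      (Eventually.of_forall fun t => abs_nonneg _) (Continuous.intervalIntegrable (by fun_prop) _ _)
  have h4 : (B - A) * c1 ≤ T * c1 := mul_le_mul_of_nonneg_right (by linarith) hc1
  linarith

end Pool.Agent.TH850.CL
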