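import Pool.Agent.TH850.CL.Core2b

set_option autoImplicit false

/-! # Project CL: comparison of the statistic with the prime polynomial, assembly -/

namespace Pool.Agent.TH850.CL

open Complex MeasureTheory Set Filter Topology
open scoped ComplexConjugate
open ArithmeticFunction (vonMangoldt)
open H370.A2 (lamC)
open H370 (zz mult Zf zset mem_Zf good_zeta zz_re zz_im)
open Pool.Agent.TH850.UV (XT om_cont)
open NTVAux

/-- the comparison in mean -/
theorem mid {f f' f'' : ℝ → ℝ} {R M Cd : ℝ} (hR : 1 ≤ R) (hM : 0 < M) (hCd : 0 < Cd)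
    (hff : C2 R M f f' f'')
    (hg : ∀ κ : ℝ, 1 ≤ κ → ∃ g g' g'' : ℝ → ℝ, C2 R M g g' g'' ∧
      ∀ x, f x = g x * Real.exp (-x ^ 2 / (2 * κ ^ 2)))
    (hfint : ∫ x, f x = ∫ x in (-R)..R, f x)
    (hvar : ∀ V : ℝ, 0 ≤ V → |(∫ v in (0 : ℝ)..V, v * ‖hat R f v‖ ^ 2) - cov f f / 2| ≤
      Cd / (1 + V))
    (hZS : S_ZS) (hN1 : S_N1) (hN2 : S_N2) :
    ∃ K lam T1 : ℝ, 0 < K ∧ 16 ≤ lam ∧ 10 ≤ T1 ∧ ∀ T : ℝ, T1 ≤ T → ∀ a : ℝ, lam ≤ a →
      2 * R ≤ Real.log T / (2 * Real.pi * a) → ∀ Y : ℕ, 1 ≤ Y → Y ≤ XT T →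
      T + Real.log T ≤ 2 * T - Real.log T ∧
      ∫ t in (T + Real.log T)..(2 * T - Real.log T),
        |Sf f T a t - Pid (a / Real.log T) (hat R f) Y t| ≤
        K * ((1 / a + a / Real.log T) + Real.sqrt ((1 / a + a / Real.log T) +
          1 / (1 + a / Real.log T * Real.log Y))) * T := by
  obtain ⟨lam, hlam, hz0⟩ := hZS
  obtain ⟨Cz, Tz, hCz, hTz, hz⟩ := hz0 R hR
  obtain ⟨Ce, Te, hCe, hTe, he⟩ := efc hlam
  obtain ⟨Cc, hCc, hc⟩ := coef hN2 hR
  obtain ⟨Cn, hCn, hn⟩ := ntv hN1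
  obtain ⟨C2', hC2', h2⟩ := hN2 R hR
  have hpi := Real.pi_pos
  have hlam0 : 0 < lam := by linarith
  obtain ⟨hφc, hφb, hφd, hφconj, -⟩ := h2 M f f' f'' hff
  have hB0 : 0 < C2' * M := by positivity
  have hE0 : 0 < Cc * M := by positivity
  obtain ⟨T2, hT2⟩ := evT
  set A3 := Real.sqrt (8 * (2 * (Cc * M) ^ 2 * Cn * (lam ^ 2 + 2) + 4 * Cd +
    2 * Cn * (C2' * M) ^ 2)) with hA3
  have hA30 : 0 ≤ A3 := Real.sqrt_nonneg _
  have hA2 : 0 ≤ 2 * Ce * (C2' * M) + Cc * M * lam ^ 2 := by positivity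
  have hA1 : 0 ≤ Cz * M := by positivity
  refine ⟨Cz * M + (2 * Ce * (C2' * M) + Cc * M * lam ^ 2) + A3 + 1, lam,
    max (max Tz Te) T2, by linarith, hlam, hTz.trans ((le_max_left _ _).trans (le_max_left _ _)),
    fun T hT a ha hκ2 Y hY hYX => ?_⟩
  have k1 : Tz ≤ T := ((le_max_left _ _).trans (le_max_left _ _)).trans hT
  have k2 : Te ≤ T := ((le_max_right _ _).trans (le_max_left _ _)).trans hT
  obtain ⟨g3, g4, g5⟩ := hT2 T ((le_max_right _ _).trans hT)
  have hT10 : 10 ≤ T := hTz.trans k1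
  have hT0 : 0 < T := by linarith
  have hL0 : 0 < Real.log T := by linarith
  have ha0 : 0 < a := by linarith
  have hκ1 : 1 ≤ Real.log T / (2 * Real.pi * a) := by linarith
  have h2pa : 2 * Real.pi * a ≤ Real.log T := by
    rw [le_div_iff₀ (by positivity), one_mul] at hκ1
    exact hκ1
  have haL : a ≤ Real.log T := by
    have : a ≤ 2 * Real.pi * a := by nlinarith [Real.pi_gt_three]
    linarith
  have hθ0 : 0 < a / Real.log T := by positivity
  have hθ1 : a / Real.log T ≤ 1 := by rw [div_le_one hL0]; exact haL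
  have hb1 : 1 ≤ a / lam := by rw [le_div_iff₀ hlam0, one_mul]; exact ha
  have hb0 : 0 < a / lam := by linarith
  obtain ⟨g, g', g'', hgg, hfg⟩ := hg _ hκ1
  obtain ⟨hGc, hGb, -, hGconj, -⟩ := h2 M g g' g'' hgg
  have hGb' : ∀ ξ, ‖hat R g ξ‖ ≤ C2' * M := fun ξ => (hGb ξ).trans
    (div_le_self hB0.le (one_le_pow₀ (by linarith [abs_nonneg ξ])))
  obtain ⟨U1, U2, hU1, hU2, hU3, hU4, hef⟩ := he T k2
  have hU : 1 ≤ U1 := by linarith
  obtain ⟨hc1, hc2⟩ := hc M g g' g'' f lam (Real.log T) a hgg (by linarith) ha0 haL hfg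
  have hle : T + Real.log T ≤ 2 * T - Real.log T := by linarith
  refine ⟨hle, ?_⟩
  have hX1 : 1 ≤ XT T := hY.trans hYX
  obtain ⟨hXlog, hXT⟩ := XT_bounds hT10 g3 g5 hX1
  have hco : ∀ n : ℕ, 1 ≤ n → ‖((1 / Real.sqrt (2 * Real.pi) : ℝ) : ℂ) *
          gc (cw R (a / lam) g) (Real.log T / lam) n - ((a / Real.log T : ℝ) : ℂ) *
            hat R f (a / Real.log T * Real.log n)‖ ≤
        (Cc * M) * (a / Real.log T * (1 / (a / lam) / (1 + a / Real.log T * Real.log n) + 1 / n)) := by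
    intro n hn1
    refine (hc2 n hn1).trans_eq ?_
    have : 1 / (a / lam) = lam / a := by field_simp
    rw [this]
    ring
  obtain ⟨-, hn2, hn3⟩ := hn (hat R f) (C2' * M) hB0.le hφc hφb hφd _ hθ0 hθ1 Y (XT T) hY hYX
  have hPQ := prime_part (g := g) hY hYX rfl hL0 ha0 hθ1 hE0.le hlam0 rfl hb1 hco hT0 hXT hXlog
    hφc hCn.le hCd hn2 (hn3 _ hb0) hvar
  have hfcont : Continuous f := continuous_iff_continuousAt.2 fun x => (hff.d1 x).continuousAt
  have hzz := hz T k1 U1 U2 hU1 hU4 M a g g' g'' f hgg ha h2pa hfg (T + Real.log T)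
    (2 * T - Real.log T) hle
  rw [← hfint] at hc1
  have hll : Real.log T / lam = 2 * Real.pi * (a / lam) * (Real.log T / (2 * Real.pi * a)) := by
    field_simp
  have hpt : ∀ t ∈ Icc (T + Real.log T) (2 * T - Real.log T),
      |Sf f T a t - Pact R lam a (Real.log T) g (XT T) t| ≤
      |ZD f g (Real.log T / (2 * Real.pi * a)) R (a / lam) U1 U2 t| +
        (2 * (Ce * (a / lam * (C2' * M)) / Real.log T) +
          Cc * M * (lam ^ 2 * (a / Real.log T ^ 2))) := by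
    intro t ht
    exact point_part (fun x hx => (hff.supp x hx).1) hR ha0 rfl rfl hκ2 hU rfl rfl hll
      (fun x hx => by
        rw [abs_le] at hx
        constructor <;> linarith [hx.1, hx.2, ht.1, ht.2]) hGc hGconj
      (hef t ht.1 ht.2 (cw R (a / lam) g) (a / lam * (C2' * M)) (cw_cont hGc) (cw_le hb0.le hGb'))
      hc1
  have hSc : ContinuousOn (fun t => Sf f T a t) (Icc (T + Real.log T) (2 * T - Real.log T)) :=
    (Sf_cont hfcont (fun x hx => (hff.supp x hx).1) hR ha0 hκ2 hT10).mono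
      (Icc_subset_Icc (by linarith) (by linarith))
  have hc10 : 0 ≤ 2 * (Ce * (a / lam * (C2' * M)) / Real.log T) +
          Cc * M * (lam ^ 2 * (a / Real.log T ^ 2)) := by positivity
  have hall := add_parts (T := T) (by linarith) hle (by linarith) hT0.le hc10 hSc
    (Pact_cont R lam a (Real.log T) g (XT T)) (Pid_cont (a / Real.log T) (hat R f) Y)
    (ZD_cont (U1 := U1) (U2 := U2) hfcont hGc) hpt hzz hPQ
  have hc1s := c1_small (θ := a / Real.log T) (b := a / lam) hCe.le hB0.le hCc.le hM.le rfl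
    (by linarith : 1 ≤ Real.log T) ha0 rfl (by linarith : 1 ≤ lam)
  refine hall.trans ?_
  rw [← hA3]
  set ρ := 1 / a + a / Real.log T with hρ
  set s := Real.sqrt (ρ + 1 / (1 + a / Real.log T * Real.log Y)) with hs
  have h1a : 0 < 1 / a := by positivity
  have hρ0 : 0 ≤ ρ := by positivity
  have hs0 : 0 ≤ s := Real.sqrt_nonneg _
  have h5 : Cz * M * T / a ≤ Cz * M * ρ * T := by
    have : Cz * M * T / a = Cz * M * (1 / a) * T := by ring
    rw [this]
    have : 1 / a ≤ ρ := by rw [hρ]; linarith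
    gcongr
  have h6 := arith_fin hA1 hA2 hA30 hρ0 hs0
  have h7 := mul_le_mul_of_nonneg_right h6 hT0.le
  have h8 := mul_le_mul_of_nonneg_left hc1s hT0.le
  linarith

end Pool.Agent.TH850.CL
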