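import Pool.Agent.TH850.CL.Core2c

set_option autoImplicit false

/-! # Project CL: the characteristic function of the statistic -/

namespace Pool.Agent.TH850.CL

open Complex MeasureTheory Set Filter Topology
open scoped ComplexConjugate
open Pool.Agent.TH850.UV (XT)
open NTVAux

/-- exponentials of close functions -/
lemma char_close {S Q : ℝ → ℝ} {T L D : ℝ} (hT : 0 < T) (hL : 0 ≤ L) (hle : T + L ≤ 2 * T - L)
    (hS : ContinuousOn S (Icc T (2 * T))) (hQ : Continuous Q)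
    (h : ∫ t in (T + L)..(2 * T - L), |S t - Q t| ≤ D * T) :
    ‖((1 / T : ℝ) : ℂ) * (∫ t in T..(2 * T), cexp (I * S t)) -
      ((1 / T : ℝ) : ℂ) * (∫ t in T..(2 * T), cexp (I * Q t))‖ ≤ 4 * L / T + D := by
  have hSc : ContinuousOn (fun t => cexp (I * S t)) (Icc T (2 * T)) := by
    have h1 : ContinuousOn (fun t => ((S t : ℝ) : ℂ)) (Icc T (2 * T)) :=
      Complex.continuous_ofReal.comp_continuousOn hS
    exact Complex.continuous_exp.comp_continuousOn (continuousOn_const.mul h1)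
  have hQc : Continuous (fun t => cexp (I * Q t)) := by fun_prop
  have hD : ContinuousOn (fun t => ‖cexp (I * S t) - cexp (I * Q t)‖) (Icc T (2 * T)) :=
    (hSc.sub hQc.continuousOn).norm
  have hsub : ∀ u v : ℝ, T ≤ u → u ≤ v → v ≤ 2 * T → IntervalIntegrable
      (fun t => ‖cexp (I * S t) - cexp (I * Q t)‖) volume u v := by
    intro u v h1 h2 h3
    refine ContinuousOn.intervalIntegrable (hD.mono ?_)
    rw [uIcc_of_le h2]
    exact Icc_subset_Icc h1 h3
  have hn1 : ∀ x : ℝ, ‖cexp (I * x)‖ = 1 := fun x => by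
    rw [mul_comm, Complex.norm_exp_ofReal_mul_I]
  have h2 : ∀ t, ‖cexp (I * S t) - cexp (I * Q t)‖ ≤ 2 := by
    intro t
    refine (norm_sub_le _ _).trans ?_
    rw [hn1, hn1]; norm_num
  have h3 : ∀ t, ‖cexp (I * S t) - cexp (I * Q t)‖ ≤ |S t - Q t| := by
    intro t
    have e1 : cexp (I * S t) - cexp (I * Q t) =
        cexp (I * Q t) * (cexp (I * ((S t - Q t : ℝ) : ℂ)) - 1) := by
      rw [mul_sub, ← Complex.exp_add, mul_one]
      congr 2
      push_cast; ring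
    rw [e1, norm_mul, hn1, one_mul]
    exact Real.norm_exp_I_mul_ofReal_sub_one_le
  have hi1 : IntervalIntegrable (fun t => cexp (I * S t)) volume T (2 * T) := by
    refine ContinuousOn.intervalIntegrable ?_
    rw [uIcc_of_le (by linarith)]
    exact hSc
  rw [← mul_sub, ← intervalIntegral.integral_sub hi1 (hQc.intervalIntegrable _ _), norm_mul,
    Complex.norm_real, Real.norm_of_nonneg (by positivity)]
  have h4 : ‖∫ t in T..(2 * T), (cexp (I * S t) - cexp (I * Q t))‖ ≤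
      ∫ t in T..(2 * T), ‖cexp (I * S t) - cexp (I * Q t)‖ :=
    intervalIntegral.norm_integral_le_integral_norm (by linarith)
  have hsplit : ∫ t in T..(2 * T), ‖cexp (I * S t) - cexp (I * Q t)‖ =
      (∫ t in T..(T + L), ‖cexp (I * S t) - cexp (I * Q t)‖) +
      (∫ t in (T + L)..(2 * T - L), ‖cexp (I * S t) - cexp (I * Q t)‖) +
      ∫ t in (2 * T - L)..(2 * T), ‖cexp (I * S t) - cexp (I * Q t)‖ := by
    rw [intervalIntegral.integral_add_adjacent_intervals (hsub _ _ le_rfl (by linarith) (by linarith))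
      (hsub _ _ (by linarith) hle (by linarith)),
      intervalIntegral.integral_add_adjacent_intervals (hsub _ _ le_rfl (by linarith) (by linarith))
      (hsub _ _ (by linarith) (by linarith) le_rfl)]
  have hedge : ∀ u v : ℝ, T ≤ u → u ≤ v → v ≤ 2 * T →
      ∫ t in u..v, ‖cexp (I * S t) - cexp (I * Q t)‖ ≤ (v - u) * 2 := by
    intro u v h1 h5 h6
    calc _ ≤ ∫ t in u..v, (2 : ℝ) :=
          intervalIntegral.integral_mono_on h5 (hsub u v h1 h5 h6) intervalIntegrable_const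
            fun t _ => h2 t
      _ = _ := by rw [intervalIntegral.integral_const, smul_eq_mul]
  have he1 := hedge T (T + L) le_rfl (by linarith) (by linarith)
  have he2 := hedge (2 * T - L) (2 * T) (by linarith) (by linarith) le_rfl
  have hmid : ∫ t in (T + L)..(2 * T - L), ‖cexp (I * S t) - cexp (I * Q t)‖ ≤ D * T := by
    refine le_trans ?_ h
    refine intervalIntegral.integral_mono_on hle (hsub _ _ (by linarith) hle (by linarith)) ?_
      fun t _ => h3 t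
    refine ContinuousOn.intervalIntegrable ?_
    rw [uIcc_of_le hle]
    exact ((hS.mono (Icc_subset_Icc (by linarith) (by linarith))).sub hQ.continuousOn).abs
  calc 1 / T * ‖∫ t in T..(2 * T), (cexp (I * S t) - cexp (I * Q t))‖ ≤
      1 / T * (4 * L + D * T) := by
        apply mul_le_mul_of_nonneg_left _ (by positivity)
        rw [hsplit] at h4
        linarith
    _ = _ := by field_simp

lemma exp_close {V V0 : ℝ} (hV : 0 ≤ V) (hV0 : 0 ≤ V0) :
    |Real.exp (-V) - Real.exp (-V0)| ≤ |V - V0| := by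
  have key : ∀ x y : ℝ, 0 ≤ x → x ≤ y → Real.exp (-x) - Real.exp (-y) ≤ y - x := by
    intro x y hx hxy
    have h1 := Real.add_one_le_exp (x - y)
    have h2 : Real.exp (-y) = Real.exp (-x) * Real.exp (x - y) := by
      rw [← Real.exp_add]; congr 1; ring
    have h3 : Real.exp (-x) ≤ 1 := Real.exp_le_one_iff.2 (by linarith)
    have h4 := Real.exp_pos (-x)
    rw [h2]
    nlinarith
  rcases le_total V V0 with h | h
  · rw [abs_of_nonneg (by
      have := Real.exp_le_exp.2 (neg_le_neg h); linarith), abs_sub_comm,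
      abs_of_nonneg (by linarith)]
    exact key V V0 hV h
  · rw [abs_sub_comm, abs_of_nonneg (by
      have := Real.exp_le_exp.2 (neg_le_neg h); linarith), abs_of_nonneg (by linarith)]
    exact key V0 V hV0 h

/-- the length of the ideal prime polynomial -/
lemma Y_facts {m : ℕ} (hm : 1 ≤ m) {T a : ℝ} (hT : 1 ≤ T) (ha : 0 < a) (hL : 0 < Real.log T)
    (hθ : a / Real.log T ≤ 1) :
    1 ≤ ⌊T ^ (1 / (8 * m : ℝ))⌋₊ ∧ ⌊T ^ (1 / (8 * m : ℝ))⌋₊ ≤ XT T ∧
      (⌊T ^ (1 / (8 * m : ℝ))⌋₊ : ℝ) ≤ T ^ (1 / (8 * m : ℝ)) ∧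
      1 / (1 + a / Real.log T * Real.log ⌊T ^ (1 / (8 * m : ℝ))⌋₊) ≤ 8 * m * (1 / a) := by
  have hT0 : 0 < T := by linarith
  have hm0 : (0 : ℝ) < m := by exact_mod_cast hm
  have hm1 : (1 : ℝ) ≤ m := by exact_mod_cast hm
  have h1 : 1 ≤ T ^ (1 / (8 * m : ℝ)) := Real.one_le_rpow hT (by positivity)
  have h2 : 1 ≤ ⌊T ^ (1 / (8 * m : ℝ))⌋₊ := (Nat.one_le_floor_iff _).2 h1
  have h3 : (⌊T ^ (1 / (8 * m : ℝ))⌋₊ : ℝ) ≤ T ^ (1 / (8 * m : ℝ)) := Nat.floor_le (by positivity)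
  refine ⟨h2, ?_, h3, ?_⟩
  · unfold XT
    apply Nat.floor_le_floor
    apply Real.rpow_le_rpow_of_exponent_le hT
    apply one_div_le_one_div_of_le (by norm_num)
    linarith
  · set N := ⌊T ^ (1 / (8 * m : ℝ))⌋₊ with hN
    have h2' : (1 : ℝ) ≤ N := by exact_mod_cast h2
    have h4 : T ^ (1 / (8 * m : ℝ)) ≤ 2 * N := by
      have := (Nat.lt_floor_add_one (T ^ (1 / (8 * m : ℝ)))).le
      rw [← hN] at this
      linarith
    have h5 := Real.log_le_log (by positivity) h4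
    rw [Real.log_rpow hT0, Real.log_mul (by norm_num) (by positivity)] at h5
    have h6 : Real.log 2 ≤ 1 := by
      have := Real.log_le_sub_one_of_pos (by norm_num : (0 : ℝ) < 2)
      linarith
    have hθ0 : 0 < a / Real.log T := by positivity
    have h7 : a / (8 * m) ≤ 1 + a / Real.log T * Real.log N := by
      have h8 : a / Real.log T * (1 / (8 * m) * Real.log T) ≤
          a / Real.log T * (1 + Real.log N) := mul_le_mul_of_nonneg_left (by linarith) hθ0.le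
      have h9 : a / Real.log T * (1 / (8 * m) * Real.log T) = a / (8 * m) := by field_simp
      rw [h9] at h8
      linarith
    have h8 : 8 * m * (1 / a) = 1 / (a / (8 * m)) := by field_simp
    rw [h8]
    exact one_div_le_one_div_of_le (by positivity) h7

lemma sq_le01 {x : ℝ} (h0 : 0 ≤ x) (h1 : x ≤ 1) : x ^ 2 ≤ x := by nlinarith

lemma fin_arith {n1 n2 n3 n4 e1 D e2 e3 e4 d K K5 K6 s B2 : ℝ} {ε : ℝ}
    (hclose : n1 ≤ e1 + D) (hchar : n2 ≤ e2 + e3 + e4) (hexp : n3 ≤ d) (htri : n4 ≤ n1 + n2 + n3)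
    (g1 : e1 ≤ ε / 8) (g2 : e4 ≤ ε / 8) (t1 : D ≤ K * s) (t2 : e2 ≤ B2 * s) (t3 : e3 ≤ ε / 4)
    (t4 : d ≤ K5 * s) (hs : K6 * s ≤ ε / 4) (hK6 : K6 = K + B2 + K5) (hε : 0 < ε) : n4 ≤ ε := by
  have h1 : K6 * s = K * s + B2 * s + K5 * s := by rw [hK6]; ring
  linarith

lemma V_close {V I0 Vi A1 Cd w m' ρ θ : ℝ} (h3 : |I0 - Vi| ≤ Cd / (1 + w))
    (h4 : |V - I0| ≤ A1 * θ) (h5 : 1 / (1 + w) ≤ m' * ρ) (hCd : 0 ≤ Cd) (hA1 : 0 ≤ A1)
    (hθ : θ ≤ ρ) : |V - Vi| ≤ (A1 + m' * Cd) * ρ := by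
  have h6 : Cd / (1 + w) = Cd * (1 / (1 + w)) := by ring
  have h7 := mul_le_mul_of_nonneg_left h5 hCd
  have h8 := mul_le_mul_of_nonneg_left hθ hA1
  have h9 := abs_sub_le V I0 Vi
  rw [h6] at h3
  linarith

theorem core (hP4 : S_P4) (hZS : S_ZS) (hD : S_DATA) (hN1 : S_N1) (hN2 : S_N2) : S_CORE := by
  intro f hf hfc ε hε
  obtain ⟨R, M, Cd, hR, hM, hCd, ⟨f', f'', hff⟩, hg, hfint, hvar⟩ := hD f hf hfc
  obtain ⟨K, lam, T1, hK, hlam, hT1, hmid⟩ := mid hR hM hCd hff hg hfint hvar hZS hN1 hN2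
  obtain ⟨Cn, hCn, hn⟩ := ntv hN1
  obtain ⟨C2', hC2', h2⟩ := hN2 R hR
  obtain ⟨hφc, hφb, hφd, -, -⟩ := h2 M f f' f'' hff
  have hpi := Real.pi_pos
  set B := C2' * M with hB
  have hB0 : 0 < B := by positivity
  have hφB : ∀ v, ‖hat R f v‖ ≤ B := fun v => (hφb v).trans
    (div_le_self hB0.le (one_le_pow₀ (by linarith [abs_nonneg v])))
  set Vi := cov f f / 2 with hVi
  have hfcont : Continuous f := continuous_iff_continuousAt.2 fun x => (hff.d1 x).continuousAt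
  -- the limit variance is nonnegative
  have hVi0 : 0 ≤ Vi := by
    have h1 : Tendsto (fun V : ℝ => Cd / (1 + V)) atTop (𝓝 0) :=
      tendsto_const_nhds.div_atTop (tendsto_atTop_add_const_left _ _ tendsto_id)
    by_contra hneg
    push Not at hneg
    obtain ⟨V, hV1, hV2⟩ := ((h1.eventually_lt_const (show 0 < -Vi by linarith)).and
      (eventually_ge_atTop 0)).exists
    have h3 := (abs_le.1 (hvar V hV2)).2
    have h4 : 0 ≤ ∫ v in (0 : ℝ)..V, v * ‖hat R f v‖ ^ 2 :=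
      intervalIntegral.integral_nonneg hV2 fun v hv => mul_nonneg hv.1 (by positivity)
    linarith
  -- the choice of m
  obtain ⟨m, hm1, hm2⟩ : ∃ m : ℕ, 1 ≤ m ∧ 2 * (1 / 4) ^ m * Real.exp (8 * (Vi + 1)) ≤ ε / 4 := by
    have h1 : Tendsto (fun m : ℕ => 2 * (1 / 4 : ℝ) ^ m * Real.exp (8 * (Vi + 1))) atTop
        (𝓝 (2 * 0 * Real.exp (8 * (Vi + 1)))) :=
      ((tendsto_pow_atTop_nhds_zero_of_lt_one (by norm_num) (by norm_num)).const_mul 2).mul_const _
    rw [mul_zero, zero_mul] at h1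
    obtain ⟨m, h3, h4⟩ := ((h1.eventually_le_const (show 0 < ε / 4 by positivity)).and
      (eventually_ge_atTop 1)).exists
    exact ⟨m, h4, h3⟩
  have hm0 : (0 : ℝ) < m := by exact_mod_cast hm1
  -- the constants
  set K5 := Cn * B ^ 2 + 8 * m * Cd with hK5
  have hK50 : 0 < K5 := by positivity
  set K6 := K * (1 + Real.sqrt (1 + 8 * m)) + 8 * B ^ 2 * (Vi + 1) + K5 with hK6
  have hK60 : 0 < K6 := by positivity
  set ρ0 := min (min 1 (1 / K5)) ((ε / (4 * K6)) ^ 2) with hρ0d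
  have hρ0 : 0 < ρ0 := by positivity
  -- large T
  have hev1 : ∀ᶠ T : ℝ in atTop, 4 * Real.log T / T ≤ ε / 8 := by
    have h1 : (fun T : ℝ => 4 * Real.log T) =o[atTop] fun T : ℝ => T :=
      Asymptotics.IsLittleO.const_mul_left Real.isLittleO_log_id_atTop _
    have h2 := h1.bound (c := ε / 8) (by positivity)
    filter_upwards [h2, eventually_gt_atTop 0] with T hT hT1
    rw [div_le_iff₀ hT1]
    rw [Real.norm_of_nonneg hT1.le] at hT
    exact (le_abs_self _).trans hT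
  have hev2 : ∀ᶠ T : ℝ in atTop, 12 * (1 + 4 * B) ^ (2 * m) / Real.sqrt T ≤ ε / 8 := by
    have h1 : Tendsto (fun T : ℝ => 12 * (1 + 4 * B) ^ (2 * m) / Real.sqrt T) atTop (𝓝 0) :=
      tendsto_const_nhds.div_atTop (Real.tendsto_sqrt_atTop)
    exact h1.eventually_le_const (by positivity)
  have hev3 : ∀ᶠ T : ℝ in atTop, 1 ≤ Real.log T := Real.tendsto_log_atTop.eventually_ge_atTop _
  obtain ⟨T2, hT2⟩ := (hev1.and (hev2.and hev3)).exists_forall_of_atTop
  refine ⟨max lam (2 / ρ0), max T1 T2, min (ρ0 / 2) (1 / (4 * Real.pi * R)), by positivity,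
    fun T hT a ha haT => ?_⟩
  have hTT1 : T1 ≤ T := (le_max_left _ _).trans hT
  obtain ⟨g1, g2, g3⟩ := hT2 T ((le_max_right _ _).trans hT)
  have hT10 : 10 ≤ T := hT1.trans hTT1
  have hT0 : 0 < T := by linarith
  have hL0 : 0 < Real.log T := by linarith
  have halam : lam ≤ a := (le_max_left _ _).trans ha
  have ha2 : 2 / ρ0 ≤ a := (le_max_right _ _).trans ha
  have ha0 : 0 < a := by linarith
  have hθa : a / Real.log T ≤ min (ρ0 / 2) (1 / (4 * Real.pi * R)) := by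
    rw [div_le_iff₀ hL0]; exact haT
  have hθ1 : a / Real.log T ≤ ρ0 / 2 := hθa.trans (min_le_left _ _)
  have hθ2 : a / Real.log T ≤ 1 / (4 * Real.pi * R) := hθa.trans (min_le_right _ _)
  have hθ0 : 0 < a / Real.log T := by positivity
  have hκ2 : 2 * R ≤ Real.log T / (2 * Real.pi * a) := by
    rw [le_div_iff₀ (by positivity)]
    rw [div_le_iff₀ hL0] at hθ2
    have h3 : a * (4 * Real.pi * R) ≤ Real.log T := by
      have h4 := mul_le_mul_of_nonneg_right hθ2 (by positivity : 0 ≤ 4 * Real.pi * R)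
      have h5 : 1 / (4 * Real.pi * R) * Real.log T * (4 * Real.pi * R) = Real.log T := by field_simp
      linarith
    linarith
  have hρ01 : ρ0 ≤ 1 := (min_le_left _ _).trans (min_le_left _ _)
  have hρ0K : ρ0 ≤ 1 / K5 := (min_le_left _ _).trans (min_le_right _ _)
  have hρ0e : ρ0 ≤ (ε / (4 * K6)) ^ 2 := min_le_right _ _
  refine ⟨Sf_cont hfcont (fun x hx => (hff.supp x hx).1) hR ha0 hκ2 hT10, ?_⟩
  set θ := a / Real.log T with hθd
  have hθle1 : θ ≤ 1 := by linarith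
  set ρ := 1 / a + θ with hρd
  have h1a0 : 0 < 1 / a := by positivity
  have h1a : 1 / a ≤ ρ0 / 2 := by
    rw [div_le_iff₀ hρ0] at ha2
    rw [div_le_iff₀ ha0]
    linarith
  have hρle : ρ ≤ ρ0 := by rw [hρd]; linarith
  have hρpos : 0 < ρ := by rw [hρd]; linarith
  have hρ1 : ρ ≤ 1 := hρle.trans hρ01
  obtain ⟨y1, y2, y3, y4⟩ := Y_facts (a := a) hm1 (by linarith : 1 ≤ T) ha0 hL0 hθle1
  set Y := ⌊T ^ (1 / (8 * m : ℝ))⌋₊ with hY
  obtain ⟨hle, hm3⟩ := hmid T hTT1 a halam hκ2 Y y1 y2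
  rw [← hθd, ← hρd] at hm3
  rw [← hθd] at y4
  -- the variance of the ideal polynomial
  obtain ⟨v1, -, -⟩ := hn (hat R f) B hB0.le hφc hφb hφd θ hθ0 hθle1 Y Y y1 le_rfl
  set V := ∑ q ∈ pr Y, Real.log q ^ 2 / q * θ ^ 2 * ‖hat R f (θ * Real.log q)‖ ^ 2 with hV
  have hVnn : 0 ≤ V := Finset.sum_nonneg fun q _ => by positivity
  have hwρ : 1 / (1 + θ * Real.log Y) ≤ 8 * m * ρ := by
    refine y4.trans ?_
    apply mul_le_mul_of_nonneg_left _ (by positivity)
    rw [hρd]; linarith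
  have hVV : |V - Vi| ≤ K5 * ρ :=
    V_close (hvar (θ * Real.log Y) (mul_nonneg hθ0.le (logn Y))) v1 hwρ hCd.le (by positivity)
      (by rw [hρd]; linarith)
  have hK5ρ : K5 * ρ ≤ 1 := by
    have h3 : ρ ≤ 1 / K5 := hρle.trans hρ0K
    calc K5 * ρ ≤ K5 * (1 / K5) := mul_le_mul_of_nonneg_left h3 hK50.le
      _ = 1 := by field_simp
  have hV1 : V ≤ Vi + 1 := by
    have := (abs_le.1 (hVV.trans hK5ρ)).2
    linarith
  have hchar := pid_char hP4 hθ0 hθle1 hφB hm1 (by linarith : 1 ≤ T) y1 y3 hV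
  have hclose := char_close hT0 hL0.le hle
    (Sf_cont hfcont (fun x hx => (hff.supp x hx).1) hR ha0 hκ2 hT10) (Pid_cont θ (hat R f) Y) hm3
  have hexp := exp_close hVnn hVi0
  -- small quantities
  have hsq : ρ ≤ Real.sqrt ρ := by
    rw [Real.le_sqrt' hρpos]
    exact sq_le01 hρpos.le hρ1
  have hsqe : K6 * Real.sqrt ρ ≤ ε / 4 := by
    have h3 : Real.sqrt ρ ≤ ε / (4 * K6) := by
      rw [Real.sqrt_le_left (by positivity)]
      exact hρle.trans hρ0e
    calc K6 * Real.sqrt ρ ≤ K6 * (ε / (4 * K6)) := mul_le_mul_of_nonneg_left h3 hK60.le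
      _ = ε / 4 := by field_simp
  have hs1 : Real.sqrt (ρ + 1 / (1 + θ * Real.log Y)) ≤ Real.sqrt (1 + 8 * m) * Real.sqrt ρ := by
    rw [← Real.sqrt_mul (by positivity)]
    apply Real.sqrt_le_sqrt
    linarith
  have hterm1 : K * (ρ + Real.sqrt (ρ + 1 / (1 + θ * Real.log Y))) ≤
      K * (1 + Real.sqrt (1 + 8 * m)) * Real.sqrt ρ := by
    calc K * (ρ + Real.sqrt (ρ + 1 / (1 + θ * Real.log Y))) ≤
        K * (Real.sqrt ρ + Real.sqrt (1 + 8 * m) * Real.sqrt ρ) :=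
          mul_le_mul_of_nonneg_left (add_le_add hsq hs1) hK.le
      _ = _ := by ring
  have hθρ : θ ^ 2 ≤ Real.sqrt ρ := by
    refine le_trans ?_ hsq
    have : θ ≤ ρ := by rw [hρd]; linarith
    exact (sq_le01 hθ0.le hθle1).trans this
  have hterm2 : 8 * θ ^ 2 * B ^ 2 * V ≤ 8 * B ^ 2 * (Vi + 1) * Real.sqrt ρ := by
    calc 8 * θ ^ 2 * B ^ 2 * V ≤ 8 * Real.sqrt ρ * B ^ 2 * (Vi + 1) := by gcongr
      _ = _ := by ring
  have hterm3 : 2 * (1 / 4 : ℝ) ^ m * Real.exp (8 * V) ≤ ε / 4 := by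
    refine le_trans ?_ hm2
    apply mul_le_mul_of_nonneg_left _ (by positivity)
    exact Real.exp_le_exp.2 (by linarith)
  have hterm4 : K5 * ρ ≤ K5 * Real.sqrt ρ := mul_le_mul_of_nonneg_left hsq hK50.le
  have hfin : -(cov f f) / 2 = -Vi := by rw [hVi]; ring
  rw [hfin]
  have tri : ∀ x y z w : ℂ, ‖x - w‖ ≤ ‖x - y‖ + ‖y - z‖ + ‖z - w‖ := by
    intro x y z w
    have : x - w = (x - y) + (y - z) + (z - w) := by ring
    rw [this]
    exact (norm_add_le _ _).trans (add_le_add (norm_add_le _ _) le_rfl)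
  have hexp' : ‖((Real.exp (-V) : ℝ) : ℂ) - ((Real.exp (-Vi) : ℝ) : ℂ)‖ ≤ K5 * ρ := by
    rw [← Complex.ofReal_sub, Complex.norm_real]
    exact hexp.trans hVV
  exact fin_arith hclose hchar hexp' (tri _ _ _ _) g1 g2 hterm1 hterm2 hterm3 hterm4 hsqe hK6 hε

end Pool.Agent.TH850.CL
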