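import Pool.Agent.TH850.CL.Defs3

set_option autoImplicit false

/-! # Project CL: preparation of the test function -/

namespace Pool.Agent.TH850.CL

open Complex MeasureTheory Set Filter Topology
open scoped ComplexConjugate FourierTransform BoundedContinuousFunction

namespace DATAAux

/-- the transform is the Fourier transform -/
theorem hat_eq (R : ℝ) (f : ℝ → ℝ) (hf : ∀ x, R ≤ |x| → f x = 0) (ξ : ℝ) :
    𝓕 (fun x => (f x : ℂ)) ξ = hat R f ξ := by
  rw [Real.fourier_eq', hat]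
  rw [intervalIntegral.integral_eq_integral_of_support_subset]
  · apply integral_congr_ae
    filter_upwards with x
    rw [smul_eq_mul, mul_comm]
    congr 2
    simp only [RCLike.inner_apply, conj_trivial]
    push_cast
    ring
  · intro x hx
    rw [Function.mem_support] at hx
    have h1 : f x ≠ 0 := by
      intro h
      apply hx
      simp [h]
    have h2 : |x| < R := by
      by_contra h
      exact h1 (hf x (not_lt.mp h))
    rw [abs_lt] at h2
    exact ⟨h2.1, h2.2.le⟩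

/-- the covariance as an integral over the half line -/
theorem cov_eq (R : ℝ) (f : ℝ → ℝ) (hf : ∀ x, R ≤ |x| → f x = 0)
    (he : ∀ ξ : ℝ, hat R f (-ξ) = conj (hat R f ξ)) :
    cov f f / 2 = ∫ v in Ioi (0 : ℝ), v * ‖hat R f v‖ ^ 2 := by
  have h1 : (fun ξ : ℝ => ((|ξ| : ℝ) : ℂ) * (𝓕 (fun x => (f x : ℂ)) ξ *
      conj (𝓕 (fun x => (f x : ℂ)) ξ))) =
      fun ξ : ℝ => (((fun v : ℝ => v * ‖hat R f v‖ ^ 2) |ξ| : ℝ) : ℂ) := by
    funext ξ
    rw [hat_eq R f hf, Complex.mul_conj, Complex.normSq_eq_norm_sq]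
    have h2 : ‖hat R f |ξ|‖ = ‖hat R f ξ‖ := by
      rcases abs_cases ξ with h | h
      · rw [h.1]
      · rw [h.1, he, RCLike.norm_conj]
    simp only [h2]
    push_cast
    ring
  have h3 : (∫ ξ : ℝ, (((fun v : ℝ => v * ‖hat R f v‖ ^ 2) |ξ| : ℝ) : ℂ)) =
      ((∫ ξ : ℝ, (fun v : ℝ => v * ‖hat R f v‖ ^ 2) |ξ| : ℝ) : ℂ) :=
    integral_complex_ofReal
  unfold cov
  rw [h1, h3, Complex.ofReal_re, integral_comp_abs (f := fun v : ℝ => v * ‖hat R f v‖ ^ 2)]
  ring

/-- the tail of the integral -/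
theorem tail (h : ℝ → ℝ) (A : ℝ) (hc : Continuous h) (h0 : ∀ v, 0 ≤ v → 0 ≤ h v)
    (hb : ∀ v, 0 ≤ v → h v ≤ A / (1 + v) ^ 2) (V : ℝ) (hV : 0 ≤ V) :
    |(∫ v in (0 : ℝ)..V, h v) - ∫ v in Ioi (0 : ℝ), h v| ≤ A / (1 + V) := by
  have key : ∀ W : ℝ, 0 ≤ W → IntegrableOn (fun v : ℝ => A / (1 + v) ^ 2) (Ioi W) ∧
      ∫ v in Ioi W, A / (1 + v) ^ 2 = A / (1 + W) := by
    intro W hW
    have hd : ∀ x ∈ Ici W, HasDerivAt (fun v : ℝ => -A / (1 + v)) (A / (1 + x) ^ 2) x := by
      intro x hx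
      have hx' : 0 ≤ x := hW.trans hx
      have h1 : HasDerivAt (fun v : ℝ => 1 + v) 1 x := by
        simpa using (hasDerivAt_id x).const_add 1
      have h2 := (hasDerivAt_const x (-A)).div h1 (by positivity)
      exact h2.congr_deriv (by ring)
    have hA : 0 ≤ A := by
      have h1 := (h0 0 le_rfl).trans (hb 0 le_rfl)
      simpa using h1
    have ht : Tendsto (fun v : ℝ => -A / (1 + v)) atTop (𝓝 0) := by
      apply Tendsto.div_atTop tendsto_const_nhds
      exact tendsto_atTop_add_const_left _ _ tendsto_id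
    have hn : ∀ x ∈ Ioi W, (0 : ℝ) ≤ A / (1 + x) ^ 2 := by
      intro x hx
      positivity
    refine ⟨integrableOn_Ioi_deriv_of_nonneg' hd hn ht, ?_⟩
    rw [integral_Ioi_of_hasDerivAt_of_nonneg' hd hn ht]
    ring
  have hi : ∀ W : ℝ, 0 ≤ W → IntegrableOn h (Ioi W) := by
    intro W hW
    refine Integrable.mono' (key W hW).1 hc.aestronglyMeasurable ?_
    filter_upwards [ae_restrict_mem measurableSet_Ioi] with x hx
    have hx' : 0 ≤ x := hW.trans (le_of_lt hx)
    rw [Real.norm_eq_abs, abs_of_nonneg (h0 x hx')]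
    exact hb x hx'
  have h1 : (∫ v in (0 : ℝ)..V, h v) - ∫ v in Ioi (0 : ℝ), h v = - ∫ v in Ioi V, h v := by
    have h2 := intervalIntegral.integral_interval_add_Ioi (hi 0 le_rfl) (hi V hV)
    linarith
  have h3 : 0 ≤ ∫ v in Ioi V, h v :=
    setIntegral_nonneg measurableSet_Ioi fun x hx => h0 x (hV.trans (le_of_lt hx))
  rw [h1, abs_neg, abs_of_nonneg h3, ← (key V hV).2]
  exact setIntegral_mono_on (hi V hV) (key V hV).1 measurableSet_Ioi
    fun x hx => hb x (hV.trans (le_of_lt hx))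

/-- multiplication by a growing Gaussian factor -/
theorem c2g (R B : ℝ) (hR : 1 ≤ R) (f f' f'' : ℝ → ℝ) (h : C2 R B f f' f'') (κ : ℝ) (hκ : 1 ≤ κ) :
    C2 R (4 * B * (1 + R) ^ 2 * Real.exp (R ^ 2 / 2))
      (fun x => f x * Real.exp (x ^ 2 / (2 * κ ^ 2)))
      (fun x => (f' x + f x * x / κ ^ 2) * Real.exp (x ^ 2 / (2 * κ ^ 2)))
      (fun x => (f'' x + 2 * f' x * x / κ ^ 2 + f x / κ ^ 2 + f x * x ^ 2 / κ ^ 4) *
        Real.exp (x ^ 2 / (2 * κ ^ 2))) := by
  have hk : 0 < κ := by linarith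
  have hB : 0 ≤ B := (abs_nonneg _).trans (h.bd 0).1
  have he : ∀ x : ℝ, HasDerivAt (fun x : ℝ => Real.exp (x ^ 2 / (2 * κ ^ 2)))
      (x / κ ^ 2 * Real.exp (x ^ 2 / (2 * κ ^ 2))) x := by
    intro x
    have h1 : HasDerivAt (fun x : ℝ => x ^ 2 / (2 * κ ^ 2)) (x / κ ^ 2) x := by
      have h2 := (hasDerivAt_pow 2 x).div_const (2 * κ ^ 2)
      refine h2.congr_deriv ?_
      norm_num
      field_simp
    exact h1.exp.congr_deriv (by ring)
  refine ⟨?_, ?_, ?_, ?_, ?_⟩
  · intro x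
    exact ((h.d1 x).mul (he x)).congr_deriv (by ring)
  · intro x
    have h1 : HasDerivAt (fun x : ℝ => f x * x / κ ^ 2) ((f' x * x + f x * 1) / κ ^ 2) x :=
      ((h.d1 x).mul (hasDerivAt_id x)).div_const _
    refine (((h.d2 x).add h1).mul (he x)).congr_deriv ?_
    simp only [Pi.add_apply]
    field_simp
    ring
  · have hc1 : Continuous f := continuous_iff_continuousAt.mpr fun x => (h.d1 x).continuousAt
    have hc2 : Continuous f' := continuous_iff_continuousAt.mpr fun x => (h.d2 x).continuousAt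
    have hc3 := h.cont
    fun_prop
  · intro x hx
    obtain ⟨h1, h2, h3⟩ := h.supp x hx
    simp [h1, h2, h3]
  · intro x
    by_cases hx : R ≤ |x|
    · obtain ⟨h1, h2, h3⟩ := h.supp x hx
      have h4 : 0 ≤ 4 * B * (1 + R) ^ 2 * Real.exp (R ^ 2 / 2) := by positivity
      simp [h1, h2, h3, h4]
    · have hx' : |x| ≤ R := (not_le.mp hx).le
      obtain ⟨b1, b2, b3⟩ := h.bd x
      have hR0 : 0 ≤ R := by linarith
      have hk2 : 1 ≤ κ ^ 2 := by nlinarith
      have hk4 : 1 ≤ κ ^ 4 := by nlinarith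
      have hx2 : x ^ 2 ≤ R ^ 2 := by
        rw [← sq_abs]
        exact pow_le_pow_left₀ (abs_nonneg x) hx' 2
      have hE : Real.exp (x ^ 2 / (2 * κ ^ 2)) ≤ Real.exp (R ^ 2 / 2) := by
        apply Real.exp_le_exp.mpr
        rw [div_le_div_iff₀ (by positivity) (by norm_num)]
        nlinarith [sq_nonneg x, sq_nonneg R]
      have hE0 := Real.exp_pos (x ^ 2 / (2 * κ ^ 2))
      have habs : ∀ a : ℝ, |a * Real.exp (x ^ 2 / (2 * κ ^ 2))| =
          |a| * Real.exp (x ^ 2 / (2 * κ ^ 2)) := by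
        intro a
        rw [abs_mul, abs_of_pos hE0]
      have hmain : ∀ a : ℝ, |a| ≤ 4 * B * (1 + R) ^ 2 →
          |a * Real.exp (x ^ 2 / (2 * κ ^ 2))| ≤ 4 * B * (1 + R) ^ 2 * Real.exp (R ^ 2 / 2) := by
        intro a ha
        rw [habs]
        exact mul_le_mul ha hE hE0.le (by positivity)
      have t1 : |f x * x / κ ^ 2| ≤ B * R := by
        rw [abs_div, abs_mul, abs_of_pos (by positivity : (0 : ℝ) < κ ^ 2)]
        have h5 : |f x| * |x| ≤ B * R := mul_le_mul b1 hx' (abs_nonneg _) hB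
        exact (div_le_self (by positivity) hk2).trans h5
      have t2 : |2 * f' x * x / κ ^ 2| ≤ 2 * B * R := by
        rw [abs_div, abs_mul, abs_mul, abs_of_pos (by positivity : (0 : ℝ) < κ ^ 2), abs_two]
        have h5 : |f' x| * |x| ≤ B * R := mul_le_mul b2 hx' (abs_nonneg _) hB
        refine (div_le_self (by positivity) hk2).trans ?_
        nlinarith
      have t3 : |f x / κ ^ 2| ≤ B := by
        rw [abs_div, abs_of_pos (by positivity : (0 : ℝ) < κ ^ 2)]
        exact (div_le_self (by positivity) hk2).trans b1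
      have t4 : |f x * x ^ 2 / κ ^ 4| ≤ B * R ^ 2 := by
        rw [abs_div, abs_mul, abs_of_pos (by positivity : (0 : ℝ) < κ ^ 4),
          abs_of_nonneg (sq_nonneg x)]
        have h5 : |f x| * x ^ 2 ≤ B * R ^ 2 := mul_le_mul b1 hx2 (sq_nonneg _) hB
        exact (div_le_self (by positivity) hk4).trans h5
      have hBR : 0 ≤ B * R := by positivity
      have hBR2 : 0 ≤ B * R ^ 2 := by positivity
      refine ⟨hmain _ ?_, hmain _ ?_, hmain _ ?_⟩
      · nlinarith
      · refine (abs_add_le _ _).trans ?_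
        nlinarith
      · refine (abs_add_le _ _).trans ?_
        have h6 := abs_add_le (f'' x + 2 * f' x * x / κ ^ 2) (f x / κ ^ 2)
        have h7 := abs_add_le (f'' x) (2 * f' x * x / κ ^ 2)
        nlinarith

end DATAAux

open DATAAux in
/-- CL-DATA -/
theorem data (hN2 : S_N2) : S_DATA := by
  intro f hf hs
  obtain ⟨r, hr⟩ := (hs.isCompact.isBounded).subset_ball (0 : ℝ)
  set R : ℝ := max r 1 with hRdef
  have hR : 1 ≤ R := le_max_right _ _
  have hR0 : 0 ≤ R := by linarith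
  have hnot : ∀ x : ℝ, R ≤ |x| → x ∉ tsupport f := by
    intro x hx hm
    have h1 := hr hm
    rw [mem_ball_zero_iff, Real.norm_eq_abs] at h1
    exact absurd (lt_of_lt_of_le h1 (le_max_left r 1)) (not_lt.mpr hx)
  have hs1 : HasCompactSupport (deriv f) := hs.deriv
  have hs2 : HasCompactSupport (deriv (deriv f)) := hs1.deriv
  have hd1 : Differentiable ℝ f := hf.differentiable (by norm_num)
  have hf1 : ContDiff ℝ 1 (deriv f) := by
    have h1 : ContDiff ℝ (1 + 1) f := by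
      rw [one_add_one_eq_two]
      exact hf
    exact (contDiff_succ_iff_deriv.mp h1).2.2
  have hd2 : Differentiable ℝ (deriv f) := hf1.differentiable (by norm_num)
  have hc2 : Continuous (deriv (deriv f)) := hf1.continuous_deriv (by norm_num)
  obtain ⟨B0, hB0⟩ := hs.exists_bound_of_continuous hd1.continuous
  obtain ⟨B1, hB1⟩ := hs1.exists_bound_of_continuous hd2.continuous
  obtain ⟨B2, hB2⟩ := hs2.exists_bound_of_continuous hc2
  set B : ℝ := max (max B0 B1) (max B2 1) with hBdef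
  have hB : 1 ≤ B := (le_max_right _ _).trans (le_max_right _ _)
  have hsup : ∀ x, R ≤ |x| → f x = 0 ∧ deriv f x = 0 ∧ deriv (deriv f) x = 0 := by
    intro x hx
    have h0 := hnot x hx
    have h1 : x ∉ tsupport (deriv f) := fun h => h0 (tsupport_deriv_subset h)
    have h2 : x ∉ tsupport (deriv (deriv f)) := fun h => h1 (tsupport_deriv_subset h)
    exact ⟨image_eq_zero_of_notMem_tsupport h0, image_eq_zero_of_notMem_tsupport h1,
      image_eq_zero_of_notMem_tsupport h2⟩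
  have hC2 : C2 R B f (deriv f) (deriv (deriv f)) := by
    refine ⟨fun x => (hd1 x).hasDerivAt, fun x => (hd2 x).hasDerivAt, hc2, hsup, fun x => ?_⟩
    refine ⟨?_, ?_, ?_⟩
    · exact (hB0 x).trans ((le_max_left _ _).trans (le_max_left _ _))
    · exact (hB1 x).trans ((le_max_right _ _).trans (le_max_left _ _))
    · exact (hB2 x).trans ((le_max_left _ _).trans (le_max_right _ _))
  set M : ℝ := 4 * B * (1 + R) ^ 2 * Real.exp (R ^ 2 / 2) with hMdef
  have hM : 0 < M := by positivity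
  have hBM : B ≤ M := by
    have h1 : 1 ≤ Real.exp (R ^ 2 / 2) := Real.one_le_exp (by positivity)
    have h2 : 1 ≤ (1 + R) ^ 2 := by nlinarith
    have h3 : B * 1 ≤ B * (1 + R) ^ 2 := mul_le_mul_of_nonneg_left h2 (by linarith)
    have h4 : 4 * B * (1 + R) ^ 2 * 1 ≤ 4 * B * (1 + R) ^ 2 * Real.exp (R ^ 2 / 2) :=
      mul_le_mul_of_nonneg_left h1 (by positivity)
    nlinarith
  have hC2M : C2 R M f (deriv f) (deriv (deriv f)) :=
    ⟨hC2.d1, hC2.d2, hC2.cont, hC2.supp, fun x => ⟨(hC2.bd x).1.trans hBM,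
      (hC2.bd x).2.1.trans hBM, (hC2.bd x).2.2.trans hBM⟩⟩
  obtain ⟨C0, hC0, hN⟩ := hN2 R hR
  obtain ⟨n1, n2, -, n4, -⟩ := hN M f (deriv f) (deriv (deriv f)) hC2M
  have hz : ∀ x, R ≤ |x| → f x = 0 := fun x hx => (hsup x hx).1
  refine ⟨R, M, (C0 * M) ^ 2, hR, hM, by positivity, ⟨_, _, hC2M⟩, ?_, ?_, ?_⟩
  · intro κ hκ
    refine ⟨_, _, _, c2g R B hR f _ _ hC2 κ hκ, fun x => ?_⟩
    rw [mul_assoc, ← Real.exp_add]
    have : x ^ 2 / (2 * κ ^ 2) + -x ^ 2 / (2 * κ ^ 2) = 0 := by ring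
    rw [this, Real.exp_zero, mul_one]
  · rw [intervalIntegral.integral_eq_integral_of_support_subset]
    intro x hx
    rw [Function.mem_support] at hx
    have h2 : |x| < R := by
      by_contra h
      exact hx (hz x (not_lt.mp h))
    rw [abs_lt] at h2
    exact ⟨h2.1, h2.2.le⟩
  · intro V hV
    rw [cov_eq R f hz n4]
    apply tail _ _ _ _ _ V hV
    · fun_prop
    · intro v hv
      positivity
    · intro v hv
      have h1 := n2 v
      rw [abs_of_nonneg hv] at h1
      have h2 : ‖hat R f v‖ ^ 2 ≤ (C0 * M / (1 + v) ^ 2) ^ 2 :=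
        pow_le_pow_left₀ (norm_nonneg _) h1 2
      have h3 : v * ‖hat R f v‖ ^ 2 ≤ v * (C0 * M / (1 + v) ^ 2) ^ 2 :=
        mul_le_mul_of_nonneg_left h2 hv
      refine h3.trans ?_
      rw [div_pow, ← pow_mul, mul_div_assoc', div_le_div_iff₀ (by positivity) (by positivity)]
      have h4 : v * (1 + v) ^ 2 ≤ (1 + v) ^ (2 * 2) := by
        have h5 : v ≤ (1 + v) ^ 2 := by nlinarith
        calc v * (1 + v) ^ 2 ≤ (1 + v) ^ 2 * (1 + v) ^ 2 :=
              mul_le_mul_of_nonneg_right h5 (by positivity)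
          _ = (1 + v) ^ (2 * 2) := by ring
      calc v * (C0 * M) ^ 2 * (1 + v) ^ 2 = (C0 * M) ^ 2 * (v * (1 + v) ^ 2) := by ring
        _ ≤ (C0 * M) ^ 2 * (1 + v) ^ (2 * 2) := mul_le_mul_of_nonneg_left h4 (by positivity)

end Pool.Agent.TH850.CL
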