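import Mathlib

set_option autoImplicit false

/-! # Project CL: mesoscopic central limit theorem for the zeta zeros, unconditional.
Definitions, random model. -/

namespace Pool.Agent.TH850.CL

open Complex MeasureTheory Set

/-- the prime polynomial -/
noncomputable def Pt {ι : Type} [Fintype ι] (p : ι → ℕ) (b : ι → ℂ) (t : ℝ) : ℝ :=
  ∑ i, 2 * (b i * cexp (-(I * t * Real.log (p i)))).re

/-- the random model of the prime polynomial -/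
noncomputable def Px {ι : Type} [Fintype ι] (b : ι → ℂ) (θ : ι → ℝ) : ℝ :=
  ∑ i, 2 * (b i * cexp (2 * Real.pi * θ i * I)).re

/-- the uniform measure on the unit cube -/
noncomputable def mu (ι : Type) [Fintype ι] : Measure (ι → ℝ) :=
  Measure.pi fun _ => volume.restrict (Ioc (0 : ℝ) 1)

/-- CL-P1: comparison of the moments -/
def S_P1 : Prop :=
  ∀ (ι : Type) [Fintype ι] (p : ι → ℕ) (b : ι → ℂ), (∀ i, (p i).Prime) → Function.Injective p →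
    ∀ Y T : ℝ, 1 ≤ Y → (∀ i, (p i : ℝ) ≤ Y) → 0 < T → ∀ k : ℕ,
      |1 / T * (∫ t in T..(2 * T), Pt p b t ^ k) - ∫ θ, Px b θ ^ k ∂(mu ι)| ≤
        2 / T * (2 * (∑ i, ‖b i‖) * Y) ^ k

/-- CL-P2: the moments of the model -/
def S_P2 : Prop :=
  ∀ (ι : Type) [Fintype ι] (b : ι → ℂ) (m : ℕ),
    ∫ θ, Px b θ ^ (2 * m) ∂(mu ι) ≤
      ((2 * m).factorial : ℝ) * (1 / 4) ^ m * Real.exp (8 * ∑ i, ‖b i‖ ^ 2)

/-- CL-P3: the characteristic function of the model -/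
def S_P3 : Prop :=
  ∀ (ι : Type) [Fintype ι] (b : ι → ℂ),
    ‖∫ θ, cexp (I * Px b θ) ∂(mu ι) - (Real.exp (-∑ i, ‖b i‖ ^ 2) : ℝ)‖ ≤
      2 * ∑ i, ‖b i‖ ^ 4

/-- CL-N1: sums over the prime powers and over the primes -/
def S_N1 : Prop :=
  ∃ C : ℝ, 0 < C ∧ ∀ (F F' : ℝ → ℝ) (M : ℝ), (∀ v, 0 ≤ v → HasDerivAt F (F' v) v) →
    (∀ v, 0 ≤ v → |F v| ≤ M) → (∀ v, 0 ≤ v → |F' v| ≤ M / (1 + v) ^ 2) →
    ∀ θ : ℝ, 0 < θ → θ ≤ 1 → ∀ X : ℕ, 1 ≤ X →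
      |θ * (∑ n ∈ Finset.Icc 1 X, ArithmeticFunction.vonMangoldt n / n * F (θ * Real.log n)) -
        ∫ v in (0 : ℝ)..(θ * Real.log X), F v| ≤ C * M * θ ∧
      |θ * (∑ q ∈ (Finset.Icc 1 X).filter Nat.Prime, Real.log q / q * F (θ * Real.log q)) -
        ∫ v in (0 : ℝ)..(θ * Real.log X), F v| ≤ C * M * θ

/-- the Fourier transform of a function supported in `[-R, R]` -/
noncomputable def hat (R : ℝ) (g : ℝ → ℝ) (ξ : ℝ) : ℂ :=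
  ∫ x in (-R)..R, (g x : ℂ) * cexp (-(2 * Real.pi * ξ * x * I))

/-- smooth compactly supported data -/
structure C2 (R M : ℝ) (g g' g'' : ℝ → ℝ) : Prop where
  d1 : ∀ x, HasDerivAt g (g' x) x
  d2 : ∀ x, HasDerivAt g' (g'' x) x
  cont : Continuous g''
  supp : ∀ x, R ≤ |x| → g x = 0 ∧ g' x = 0 ∧ g'' x = 0
  bd : ∀ x, |g x| ≤ M ∧ |g' x| ≤ M ∧ |g'' x| ≤ M

/-- CL-N2: decay of the transform -/
def S_N2 : Prop :=
  ∀ R : ℝ, 1 ≤ R → ∃ C : ℝ, 0 < C ∧ ∀ (M : ℝ) (g g' g'' : ℝ → ℝ), C2 R M g g' g'' →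
    Continuous (hat R g) ∧
    (∀ ξ : ℝ, ‖hat R g ξ‖ ≤ C * M / (1 + |ξ|) ^ 2) ∧
    (∀ ξ : ℝ, ∃ d : ℂ, HasDerivAt (hat R g) d ξ ∧ ‖d‖ ≤ C * M / (1 + |ξ|) ^ 2) ∧
    (∀ ξ : ℝ, hat R g (-ξ) = (starRingEnd ℂ) (hat R g ξ)) ∧
    (∀ κ v : ℝ, 0 < κ → ∫ u : ℝ, (Real.exp (-(u - v) ^ 2 / 2) : ℂ) *
      hat R g (u / (2 * Real.pi * κ)) =
        Real.sqrt (2 * Real.pi) * hat R (fun x => g x * Real.exp (-x ^ 2 / (2 * κ ^ 2)))
          (v / (2 * Real.pi * κ)))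

end Pool.Agent.TH850.CL
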