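import Pool.Agent.TH850.CL.Defs
import Pool.Agent.TH850.UV.Kern

set_option autoImplicit false

/-! # Project CL: definitions about the low pass kernel -/

namespace Pool.Agent.TH850.CL

open Complex MeasureTheory Set
open Pool.Agent.TH850.UV (om kC)

/-- the low pass filter of `g`, an entire function -/
noncomputable def low (R b : ℝ) (g : ℝ → ℝ) (z : ℂ) : ℂ :=
  ∫ α in (-(1 / 2 : ℝ))..(1 / 2), (om α : ℂ) * (b * hat R g (b * α)) *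
    cexp (2 * Real.pi * α * b * z * I)

/-- with the Gaussian factor -/
noncomputable def Hk (κ R b : ℝ) (g : ℝ → ℝ) (w : ℂ) : ℂ :=
  cexp (-w ^ 2 / (2 * κ ^ 2)) * low R b g w

/-- CL-K1 -/
def S_K1 : Prop :=
  ∀ R : ℝ, 1 ≤ R → ∃ C : ℝ, 0 < C ∧ ∀ b : ℝ, 1 ≤ b → ∀ (M : ℝ) (g : ℝ → ℝ), Continuous g →
    (∀ y, |g y| ≤ M) →
    (∀ z : ℂ, low R b g z = ∫ y in (-R)..R, (g y : ℂ) * (b * kC (b * (z - y)))) ∧
    (∀ z : ℂ, ‖low R b g z‖ ≤ C * M * Real.exp (Real.pi * b * |z.im|) / (1 + z.re ^ 2)) ∧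
    (∀ g' g'' : ℝ → ℝ, C2 R M g g' g'' → ∀ x : ℝ,
      ‖low R b g x - g x‖ ≤ C * M / (b ^ 2 * (1 + x ^ 2)))

/-- CL-K2 -/
def S_K2 : Prop :=
  ∀ R : ℝ, 1 ≤ R → ∃ C : ℝ, 0 < C ∧ ∀ b κ : ℝ, 1 ≤ b → 1 ≤ κ →
    ∀ (M : ℝ) (g g' g'' : ℝ → ℝ), C2 R M g g' g'' → ∀ x v : ℝ, |v| ≤ κ / 2 →
      ‖Hk κ R b g (x + v * I) + Hk κ R b g (x - v * I) - 2 * Hk κ R b g x‖ ≤
        C * M * v ^ 2 * Real.exp (Real.pi * b * |v|) / (1 + x ^ 2)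

end Pool.Agent.TH850.CL
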