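import Pool.Agent.TH850.CL.Defs2
import Pool.Agent.TH850.UR.ExpMom

set_option autoImplicit false

/-! # Project CL: interfaces -/

namespace Pool.Agent.TH850.CL

open Complex MeasureTheory Set Filter Topology
open scoped ComplexConjugate FourierTransform BoundedContinuousFunction
open H370 (zz mult Zf)

/-- the nontrivial zeros -/
def zeros : Set ℂ := {s : ℂ | riemannZeta s = 0 ∧ 0 < s.re ∧ s.re < 1}

/-- the centred linear statistic of the zeros at the scale of `a` mean spacings -/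
noncomputable def Sf (f : ℝ → ℝ) (T a t : ℝ) : ℝ :=
  (∑ᶠ s ∈ zeros, (analyticOrderNatAt riemannZeta s : ℝ) *
    f ((s.im - t) * Real.log T / (2 * Real.pi * a))) - a * ∫ x, f x

/-- the covariance -/
noncomputable def cov (f g : ℝ → ℝ) : ℝ :=
  (∫ ξ : ℝ, ((|ξ| : ℝ) : ℂ) * (𝓕 (fun x => (f x : ℂ)) ξ * conj (𝓕 (fun x => (g x : ℂ)) ξ))).re

/-- the matrix of the covariances -/
noncomputable def covM {k : ℕ} (f : Fin k → ℝ → ℝ) : Matrix (Fin k) (Fin k) ℝ :=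
  Matrix.of fun i j => cov (f i) (f j)

/-- CL-P4: the characteristic function of a prime polynomial -/
def S_P4 : Prop :=
  ∀ (ι : Type) [Fintype ι] (p : ι → ℕ) (b : ι → ℂ), (∀ i, (p i).Prime) → Function.Injective p →
    ∀ Y T : ℝ, 1 ≤ Y → (∀ i, (p i : ℝ) ≤ Y) → 0 < T → ∀ m : ℕ,
      ‖((1 / T : ℝ) : ℂ) * (∫ t in T..(2 * T), cexp (I * Pt p b t)) -
          (Real.exp (-∑ i, ‖b i‖ ^ 2) : ℝ)‖ ≤
        2 * ∑ i, ‖b i‖ ^ 4 + 2 * (1 / 4) ^ m * Real.exp (8 * ∑ i, ‖b i‖ ^ 2) +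
          12 / T * (1 + 2 * (∑ i, ‖b i‖) * Y) ^ (2 * m)

/-- CL-ZS: replacing the ordinates by the zeros -/
def S_ZS : Prop :=
  ∃ lam : ℝ, 16 ≤ lam ∧ ∀ R : ℝ, 1 ≤ R → ∃ C T0 : ℝ, 0 < C ∧ 10 ≤ T0 ∧ ∀ T : ℝ, T0 ≤ T →
    ∀ U1 U2 : ℝ, T ≤ U1 → U2 ≤ 2 * T → ∀ (M a : ℝ) (g g' g'' f : ℝ → ℝ), C2 R M g g' g'' →
      lam ≤ a → 2 * Real.pi * a ≤ Real.log T →
      (∀ x, f x = g x * Real.exp (-x ^ 2 / (2 * (Real.log T / (2 * Real.pi * a)) ^ 2))) →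
      ∀ A B : ℝ, A ≤ B →
        ∫ t in A..B, |(∑ s ∈ Zf riemannZeta U1 U2, (mult riemannZeta s : ℝ) *
            f ((s.im - t) * (Real.log T / (2 * Real.pi * a)))) -
          (∑ s ∈ Zf riemannZeta U1 U2, (mult riemannZeta s : ℂ) *
            Hk (Real.log T / (2 * Real.pi * a)) R (a / lam) g
              ((zz s - t) * (Real.log T / (2 * Real.pi * a) : ℝ))).re| ≤ C * M * T / a

/-- CL-DATA: preparation of the test function -/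
def S_DATA : Prop :=
  ∀ f : ℝ → ℝ, ContDiff ℝ 2 f → HasCompactSupport f → ∃ R M C : ℝ, 1 ≤ R ∧ 0 < M ∧ 0 < C ∧
    (∃ f' f'' : ℝ → ℝ, C2 R M f f' f'') ∧
    (∀ κ : ℝ, 1 ≤ κ → ∃ g g' g'' : ℝ → ℝ, C2 R M g g' g'' ∧
      ∀ x, f x = g x * Real.exp (-x ^ 2 / (2 * κ ^ 2))) ∧
    (∫ x, f x = ∫ x in (-R)..R, f x) ∧
    (∀ V : ℝ, 0 ≤ V → |(∫ v in (0 : ℝ)..V, v * ‖hat R f v‖ ^ 2) - cov f f / 2| ≤ C / (1 + V))

/-- CL-CORE: the characteristic function of the linear statistic -/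
def S_CORE : Prop :=
  ∀ f : ℝ → ℝ, ContDiff ℝ 2 f → HasCompactSupport f → ∀ ε : ℝ, 0 < ε → ∃ A T0 δ : ℝ, 0 < δ ∧
    ∀ T : ℝ, T0 ≤ T → ∀ a : ℝ, A ≤ a → a ≤ δ * Real.log T →
      ContinuousOn (fun t => Sf f T a t) (Icc T (2 * T)) ∧
      ‖((1 / T : ℝ) : ℂ) * (∫ t in T..(2 * T), cexp (I * Sf f T a t)) -
        (Real.exp (-(cov f f) / 2) : ℝ)‖ ≤ ε

/-- CL-FIN: joint convergence in law -/
def S_FIN : Prop :=
  ∀ (k : ℕ) (f : Fin k → ℝ → ℝ), (∀ i, ContDiff ℝ 2 (f i)) → (∀ i, HasCompactSupport (f i)) →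
    ∀ a : ℝ → ℝ, Tendsto a atTop atTop → Tendsto (fun T => a T / Real.log T) atTop (𝓝 0) →
      ∀ φ : EuclideanSpace ℝ (Fin k) →ᵇ ℝ,
        Tendsto (fun T : ℝ => 1 / T * ∫ t in T..(2 * T),
          φ (WithLp.toLp 2 fun i => Sf (f i) T (a T) t)) atTop
          (𝓝 (∫ x, φ x ∂(ProbabilityTheory.multivariateGaussian 0 (covM f))))

end Pool.Agent.TH850.CL
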