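import Pool.Agent.TH850.UV.AcE
import Pool.Agent.TH850.CL.Defs2

set_option autoImplicit false

/-! # Project CL: the explicit formula integrated against a general weight -/

namespace Pool.Agent.TH850.CL

open Complex Filter Topology MeasureTheory Set
open scoped ComplexConjugate
open Pool.Agent.TH850.UR (int_symC int_e int_v)
open Pool.Agent.TH850.UV (XT)
open H370 (zz hh mult Zf zset AA AA_eq hh_eq zz_refl mult_refl sum_refl mem_Zf good_zeta GoodL pterm)
open H370.A2 (lamC lamC_norm ld_zeta ef_known)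

/-- the coefficients -/
noncomputable def gc (c : ℝ → ℂ) (l : ℝ) (n : ℕ) : ℂ :=
  ∫ α in (0 : ℝ)..(1 / 2), c α * (Real.exp (-(α * l - Real.log n) ^ 2 / 2) : ℂ)

/-- the half transform of the zeros -/
noncomputable def HTc (c : ℝ → ℂ) (l U1 U2 t : ℝ) : ℂ :=
  ∫ α in (0 : ℝ)..(1 / 2), c α * cexp (-(I * ((α * l : ℝ) : ℂ) * t)) *
    AA riemannZeta U1 U2 (α * l) t

/-- the half kernel -/
noncomputable def chic (c : ℝ → ℂ) (l : ℝ) (w : ℂ) : ℂ :=
  ∫ α in (0 : ℝ)..(1 / 2), c α * cexp (I * ((α * l : ℝ) : ℂ) * w)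

/-- the kernel -/
noncomputable def lowc (c : ℝ → ℂ) (l : ℝ) (w : ℂ) : ℂ :=
  ∫ α in (-(1 / 2 : ℝ))..(1 / 2), c α * cexp (I * ((α * l : ℝ) : ℂ) * w)

lemma lowc_eq {c : ℝ → ℂ} (hc : Continuous c) (hs : ∀ α, c (-α) = conj (c α)) (l : ℝ) (w : ℂ) :
    lowc c l w = chic c l w + conj (chic c l (conj w)) := by
  unfold lowc chic
  rw [int_symC (fun α => c α * cexp (I * ((α * l : ℝ) : ℂ) * w)) (by fun_prop),
    ← intervalIntegral.intervalIntegral_conj,
    ← intervalIntegral.integral_add (Continuous.intervalIntegrable (by fun_prop) _ _)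
    (Continuous.intervalIntegrable ?_ _ _)]
  · refine intervalIntegral.integral_congr fun α _ => ?_
    show c α * cexp (I * ((α * l : ℝ) : ℂ) * w) + c (-α) * cexp (I * ((-α * l : ℝ) : ℂ) * w) =
      c α * cexp (I * ((α * l : ℝ) : ℂ) * w) + conj (c α * cexp (I * ((α * l : ℝ) : ℂ) * conj w))
    rw [hs, map_mul, ← Complex.exp_conj, map_mul, map_mul, Complex.conj_I, Complex.conj_ofReal,
      Complex.conj_conj]
    congr 3
    push_cast
    ring
  · exact Complex.continuous_conj.comp (by fun_prop)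

lemma HTc_eq {c : ℝ → ℂ} (hc : Continuous c) (l : ℝ) {U1 U2 : ℝ} (hU : 1 ≤ U1) (t : ℝ) :
    HTc c l U1 U2 t = ∑ s ∈ Zf riemannZeta U1 U2, (mult riemannZeta s : ℂ) *
      cexp (-(zz s - t) ^ 2 / 2) * chic c l (zz s - t) := by
  unfold HTc chic
  have h1 : ∀ α : ℝ, c α * cexp (-(I * ((α * l : ℝ) : ℂ) * t)) *
      AA riemannZeta U1 U2 (α * l) t = ∑ s ∈ Zf riemannZeta U1 U2, (mult riemannZeta s : ℂ) *
        cexp (-(zz s - t) ^ 2 / 2) * (c α * cexp (I * ((α * l : ℝ) : ℂ) * (zz s - t))) := by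
    intro α
    rw [AA_eq good_zeta hU, Finset.mul_sum]
    refine Finset.sum_congr rfl fun s _ => ?_
    rw [hh_eq]
    have e : cexp (I * ((α * l : ℝ) : ℂ) * (zz s - t)) =
        cexp (-(I * ((α * l : ℝ) : ℂ) * t)) * cexp (I * ((α * l : ℝ) : ℂ) * zz s) := by
      rw [← Complex.exp_add]; congr 1; ring
    rw [e]
    ring
  simp_rw [h1]
  rw [intervalIntegral.integral_finsetSum fun s _ =>
    Continuous.intervalIntegrable (by fun_prop) _ _]
  simp_rw [intervalIntegral.integral_const_mul]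

/-- the statistic with the full kernel -/
lemma fullc {c : ℝ → ℂ} (hc : Continuous c) (hs : ∀ α, c (-α) = conj (c α)) (l : ℝ)
    {U1 U2 : ℝ} (hU : 1 ≤ U1) (t : ℝ) :
    ∑ s ∈ Zf riemannZeta U1 U2, (mult riemannZeta s : ℂ) * cexp (-(zz s - t) ^ 2 / 2) *
      lowc c l (zz s - t) = ((2 * (HTc c l U1 U2 t).re : ℝ) : ℂ) := by
  have h1 : conj (HTc c l U1 U2 t) = ∑ s ∈ Zf riemannZeta U1 U2, (mult riemannZeta s : ℂ) *
      cexp (-(zz s - t) ^ 2 / 2) * conj (chic c l (conj (zz s - t))) := by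
    rw [HTc_eq hc l hU, map_sum, ← sum_refl good_zeta hU (fun s => (mult riemannZeta s : ℂ) *
      cexp (-(zz s - t) ^ 2 / 2) * conj (chic c l (conj (zz s - t))))]
    refine Finset.sum_congr rfl fun s hs => ?_
    rw [mem_Zf good_zeta hU] at hs
    rw [map_mul, map_mul, Complex.conj_natCast, zz_refl,
      mult_refl good_zeta hs.1 hs.2.1 (by linarith [hs.2.2.1]), ← Complex.exp_conj]
    congr 2
    · simp only [map_div₀, map_neg, map_pow, map_sub, Complex.conj_ofReal, Complex.conj_ofNat]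
    · simp only [map_sub, Complex.conj_ofReal, Complex.conj_conj]
  have h2 : ((2 * (HTc c l U1 U2 t).re : ℝ) : ℂ) = HTc c l U1 U2 t + conj (HTc c l U1 U2 t) := by
    rw [Complex.add_conj]
  rw [h2, h1, HTc_eq hc l hU, ← Finset.sum_add_distrib]
  refine Finset.sum_congr rfl fun s _ => ?_
  rw [lowc_eq hc hs]
  ring

/-- the prime sum -/
noncomputable def DDc (c : ℝ → ℂ) (a : ℕ → ℂ) (l : ℝ) (X : ℕ) (t : ℝ) : ℂ :=
  ∑ n ∈ Finset.Icc 1 X, (a n * (Real.sqrt n : ℂ)⁻¹ * gc c l n) * (n : ℂ) ^ (-(t : ℂ) * I)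

lemma DDc_cont (c : ℝ → ℂ) (a : ℕ → ℂ) (l : ℝ) (X : ℕ) : Continuous (DDc c a l X) := by
  unfold DDc
  refine continuous_finsetSum _ fun n hn => ?_
  have hn1 : 1 ≤ n := (Finset.mem_Icc.mp hn).1
  have hn0 : (n : ℂ) ≠ 0 := by exact_mod_cast (by omega : n ≠ 0)
  refine continuous_const.mul ?_
  exact Continuous.const_cpow (by fun_prop) (Or.inl hn0)

/-- the explicit formula, integrated against the kernel -/
lemma H_estc {c : ℝ → ℂ} (hc : Continuous c) {a : ℕ → ℂ} (l U1 U2 t L C E : ℝ) (X : ℕ)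
    (hU : 1 ≤ U1) (hl : 0 ≤ l)
    (h : ∀ u : ℝ, 0 ≤ u → u ≤ l / 2 → ‖AA riemannZeta U1 U2 u t -
      (1 / Real.sqrt (2 * Real.pi) : ℝ) * (L * cexp (I * u * t) * Real.exp (-u ^ 2 / 2) -
        ∑ n ∈ Finset.Icc 1 X, pterm a u t n)‖ ≤ C * Real.exp (-u) + E) :
    ‖HTc c l U1 U2 t - (1 / Real.sqrt (2 * Real.pi) : ℝ) * (L * gc c l 1 - DDc c a l X t)‖ ≤
      ∫ α in (0 : ℝ)..(1 / 2), ‖c α‖ * (C * Real.exp (-(α * l)) + E) := by
  have hAA : Continuous fun α : ℝ => AA riemannZeta U1 U2 (α * l) t := by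
    simp_rw [AA_eq good_zeta hU, hh_eq]
    fun_prop
  set c0 : ℂ := ((1 / Real.sqrt (2 * Real.pi) : ℝ) : ℂ) with hc0
  -- the prime terms
  have hp : ∀ n ∈ Finset.Icc 1 X, ∀ u : ℝ, cexp (-(I * (u : ℂ) * t)) * pterm a u t n =
      a n * (Real.sqrt n : ℂ)⁻¹ * (n : ℂ) ^ (-(t : ℂ) * I) *
        ((Real.exp (-(u - Real.log n) ^ 2 / 2) : ℝ) : ℂ) := by
    intro n hn u
    have hn1 : 1 ≤ n := (Finset.mem_Icc.mp hn).1
    have hn0 : (n : ℂ) ≠ 0 := by exact_mod_cast (by omega : n ≠ 0)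
    unfold H370.pterm
    have h3 : cexp (I * t * (u - Real.log n)) = cexp (I * (u : ℂ) * t) *
        (n : ℂ) ^ (-(t : ℂ) * I) := by
      rw [Complex.cpow_def_of_ne_zero hn0, ← Complex.exp_add, ← Complex.natCast_log]
      congr 1
      ring
    have h4 : cexp (-(I * (u : ℂ) * t)) * cexp (I * (u : ℂ) * t) = 1 := by
      rw [← Complex.exp_add, neg_add_cancel, Complex.exp_zero]
    rw [h3]
    linear_combination (a n * (Real.sqrt n : ℂ)⁻¹ * (n : ℂ) ^ (-(t : ℂ) * I) *
        ((Real.exp (-(u - Real.log n) ^ 2 / 2) : ℝ) : ℂ)) * h4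
  have hmain : c0 * (L * gc c l 1 - DDc c a l X t) =
      ∫ α in (0 : ℝ)..(1 / 2), c α * cexp (-(I * ((α * l : ℝ) : ℂ) * t)) *
        (c0 * (L * cexp (I * ((α * l : ℝ) : ℂ) * t) * Real.exp (-(α * l) ^ 2 / 2) -
        ∑ n ∈ Finset.Icc 1 X, pterm a (α * l) t n)) := by
    have e1 : ∀ α : ℝ, c α * cexp (-(I * ((α * l : ℝ) : ℂ) * t)) *
        (c0 * (L * cexp (I * ((α * l : ℝ) : ℂ) * t) * Real.exp (-(α * l) ^ 2 / 2) -
        ∑ n ∈ Finset.Icc 1 X, pterm a (α * l) t n)) =
        c0 * (L * (c α * (Real.exp (-(α * l - Real.log ((1 : ℕ) : ℝ)) ^ 2 / 2) : ℂ))) -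
        c0 * ∑ n ∈ Finset.Icc 1 X, (a n * (Real.sqrt n : ℂ)⁻¹ * (n : ℂ) ^ (-(t : ℂ) * I)) *
          (c α * (Real.exp (-(α * l - Real.log n) ^ 2 / 2) : ℂ)) := by
      intro α
      have h4 : cexp (-(I * ((α * l : ℝ) : ℂ) * t)) * cexp (I * ((α * l : ℝ) : ℂ) * t) = 1 := by
        rw [← Complex.exp_add, neg_add_cancel, Complex.exp_zero]
      have h5 : c α * cexp (-(I * ((α * l : ℝ) : ℂ) * t)) *
          ∑ n ∈ Finset.Icc 1 X, pterm a (α * l) t n =
          ∑ n ∈ Finset.Icc 1 X, (a n * (Real.sqrt n : ℂ)⁻¹ * (n : ℂ) ^ (-(t : ℂ) * I)) *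
          (c α * (Real.exp (-(α * l - Real.log n) ^ 2 / 2) : ℂ)) := by
        rw [Finset.mul_sum]
        refine Finset.sum_congr rfl fun n hn => ?_
        rw [mul_assoc, hp n hn (α * l)]
        ring
      rw [← h5]
      rw [Nat.cast_one, Real.log_one, sub_zero]
      push_cast at h4 ⊢
      linear_combination (c α * c0 * L * cexp (-(↑α * ↑l) ^ 2 / 2)) * h4
    simp_rw [e1]
    rw [intervalIntegral.integral_sub (Continuous.intervalIntegrable (by fun_prop) _ _)
      (Continuous.intervalIntegrable (by fun_prop) _ _),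
      intervalIntegral.integral_const_mul, intervalIntegral.integral_const_mul,
      intervalIntegral.integral_const_mul,
      intervalIntegral.integral_finsetSum fun n _ =>
        Continuous.intervalIntegrable (by fun_prop) _ _]
    simp_rw [intervalIntegral.integral_const_mul]
    unfold DDc gc
    rw [mul_sub]
    congr 2
    refine Finset.sum_congr rfl fun n _ => ?_
    ring
  rw [hmain]
  unfold HTc
  have hpt : Continuous fun α : ℝ => ∑ n ∈ Finset.Icc 1 X, pterm a (α * l) t n := by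
    unfold H370.pterm
    fun_prop
  rw [← intervalIntegral.integral_sub (Continuous.intervalIntegrable (by fun_prop) _ _)
    (Continuous.intervalIntegrable (by fun_prop) _ _)]
  refine (intervalIntegral.norm_integral_le_integral_norm (by norm_num)).trans ?_
  refine intervalIntegral.integral_mono_on (by norm_num)
    (Continuous.intervalIntegrable (by fun_prop) _ _)
    (Continuous.intervalIntegrable (by fun_prop) _ _) fun α hα => ?_
  have h1 := h (α * l) (mul_nonneg hα.1 hl) (by nlinarith [hα.2])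
  rw [← mul_sub, norm_mul, norm_mul]
  have h2 : ‖cexp (-(I * ((α * l : ℝ) : ℂ) * t))‖ = 1 := by
    rw [show (-(I * ((α * l : ℝ) : ℂ) * t) : ℂ) = ((-(α * l * t) : ℝ) : ℂ) * I by push_cast; ring,
      Complex.norm_exp_ofReal_mul_I]
  rw [h2, mul_one]
  exact mul_le_mul_of_nonneg_left h1 (norm_nonneg _)

lemma Err_lec {c : ℝ → ℂ} (hc : Continuous c) {K : ℝ} (hK : ∀ α, ‖c α‖ ≤ K)
    (l C E : ℝ) (hl : 0 < l) (hC : 0 ≤ C) (hE : 0 ≤ E) :
    ∫ α in (0 : ℝ)..(1 / 2), ‖c α‖ * (C * Real.exp (-(α * l)) + E) ≤ K * (C / l + E) := by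
  have hK0 : 0 ≤ K := (norm_nonneg _).trans (hK 0)
  have e1 : ∫ α in (0 : ℝ)..(1 / 2), Real.exp (-(α * l)) ≤ 1 / l := by
    have h := intervalIntegral.mul_integral_comp_mul_right (a := 0) (b := 1 / 2)
      (f := fun v : ℝ => Real.exp (-v)) (c := l)
    rw [zero_mul, int_e] at h
    rw [le_div_iff₀ hl, mul_comm, h]
    have := Real.exp_pos (-(1 / 2 * l))
    linarith
  calc ∫ α in (0 : ℝ)..(1 / 2), ‖c α‖ * (C * Real.exp (-(α * l)) + E) ≤
      ∫ α in (0 : ℝ)..(1 / 2), K * (C * Real.exp (-(α * l)) + E) := by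
        refine intervalIntegral.integral_mono_on (by norm_num)
          (Continuous.intervalIntegrable (by fun_prop) _ _)
          (Continuous.intervalIntegrable (by fun_prop) _ _) fun α _ => ?_
        exact mul_le_mul_of_nonneg_right (hK α) (by positivity)
    _ = K * (C * (∫ α in (0 : ℝ)..(1 / 2), Real.exp (-(α * l))) + E * (1 / 2)) := by
        rw [intervalIntegral.integral_const_mul,
          intervalIntegral.integral_add (Continuous.intervalIntegrable (by fun_prop) _ _)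
          (Continuous.intervalIntegrable (by fun_prop) _ _), intervalIntegral.integral_const_mul,
          intervalIntegral.integral_const, smul_eq_mul]
        ring
    _ ≤ K * (C * (1 / l) + E * 1) := by
        apply mul_le_mul_of_nonneg_left _ hK0
        apply add_le_add (mul_le_mul_of_nonneg_left e1 hC)
        exact mul_le_mul_of_nonneg_left (by norm_num) hE
    _ = _ := by ring

/-- the explicit formula for the linear statistic, uniformly in the weight -/
theorem efc {lam : ℝ} (hlam : 16 ≤ lam) : ∃ C T0 : ℝ, 0 < C ∧ 10 ≤ T0 ∧ ∀ T : ℝ, T0 ≤ T →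
    ∃ U1 U2 : ℝ, T ≤ U1 ∧ U1 ≤ T + 1 ∧ 2 * T - 1 ≤ U2 ∧ U2 ≤ 2 * T ∧
      ∀ t : ℝ, T + Real.log T ≤ t → t ≤ 2 * T - Real.log T →
      ∀ (c : ℝ → ℂ) (K : ℝ), Continuous c → (∀ α, ‖c α‖ ≤ K) →
        |(HTc c (Real.log T / lam) U1 U2 t).re - (1 / Real.sqrt (2 * Real.pi)) *
          (Real.log T * gc c (Real.log T / lam) 1 -
            DDc c lamC (Real.log T / lam) (XT T) t).re| ≤ C * K / Real.log T := by
  obtain ⟨C1, T1, hC1, hT1, hEF⟩ := ef_known good_zeta (fun n => (lamC_norm n).le)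
    (fun s hs _ => ld_zeta s hs)
  have hlam0 : 0 < lam := by linarith
  have hpi := Real.pi_pos
  set ζ2 : ℝ := ∑' n : ℕ, 1 / (n : ℝ) ^ 2 with hζ2
  have hζ0 : 0 ≤ ζ2 := tsum_nonneg fun n => by positivity
  set c0 : ℝ := 1 / Real.sqrt (2 * Real.pi) with hc0
  have hs1 : 1 ≤ Real.sqrt (2 * Real.pi) := by
    rw [Real.one_le_sqrt]; linarith [Real.pi_gt_three]
  have hc00 : 0 < c0 := by positivity
  have hc01 : c0 ≤ 1 := by rw [hc0, div_le_one (by positivity)]; exact hs1
  have hlog := Real.tendsto_log_atTop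
  -- the truncation error
  set EE : ℝ → ℝ := fun L => 2 * ζ2 * (Real.exp (4 + L / 16) * Real.exp (-(L / 16) ^ 2 / 4)) with hEE
  have hE0 : Tendsto (fun L => L * EE L) atTop (𝓝 0) := by
    have h1 : Tendsto (fun L : ℝ => 4 + 2 * L + -(L / 16) ^ 2 / 4) atTop atBot := by
      have h2 : Tendsto (fun L : ℝ => L * (L / 1024 - 2)) atTop atTop := by
        apply Tendsto.atTop_mul_atTop₀ tendsto_id
        exact tendsto_atTop_add_const_right _ _ (tendsto_id.atTop_div_const (by norm_num))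
      have h3 := (tendsto_neg_atTop_atBot.comp h2)
      have h4 := tendsto_atBot_add_const_left _ 4 h3
      refine h4.congr fun L => ?_
      simp only [Function.comp_apply]
      ring
    have h2 := (Real.tendsto_exp_atBot.comp h1).const_mul (2 * ζ2)
    rw [mul_zero] at h2
    refine squeeze_zero' (g := fun L => 2 * ζ2 * (Real.exp ∘ fun L : ℝ =>
      4 + 2 * L + -(L / 16) ^ 2 / 4) L) ?_ ?_ h2
    · filter_upwards [eventually_ge_atTop 0] with L hL
      simp only [hEE]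
      positivity
    · filter_upwards [eventually_ge_atTop 0] with L hL
      have h3 : L ≤ Real.exp L := by linarith [Real.add_one_le_exp L]
      simp only [Function.comp_apply, hEE]
      rw [← Real.exp_add]
      calc L * (2 * ζ2 * Real.exp (4 + L / 16 + -(L / 16) ^ 2 / 4)) ≤
          Real.exp L * (2 * ζ2 * Real.exp (4 + L / 16 + -(L / 16) ^ 2 / 4)) := by gcongr
        _ = 2 * ζ2 * Real.exp (L + (4 + L / 16 + -(L / 16) ^ 2 / 4)) := by
            rw [Real.exp_add L]; ring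
        _ ≤ 2 * ζ2 * Real.exp (4 + 2 * L + -(L / 16) ^ 2 / 4) := by
            apply mul_le_mul_of_nonneg_left _ (by positivity)
            apply Real.exp_le_exp.2
            linarith
  have hev1 : ∀ᶠ T : ℝ in atTop, Real.log T * EE (Real.log T) ≤ 1 :=
    (hE0.comp hlog).eventually_le_const (by norm_num)
  have hev2 : ∀ᶠ T : ℝ in atTop, lam ≤ Real.log T := hlog.eventually_ge_atTop _
  obtain ⟨T2, hT2⟩ := (hev1.and hev2).exists_forall_of_atTop
  refine ⟨C1 * lam + 1, max T1 T2, by positivity,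
    hT1.trans (le_max_left _ _), fun T hT => ?_⟩
  have hTT1 : T1 ≤ T := (le_max_left _ _).trans hT
  obtain ⟨g1, g2⟩ := hT2 T ((le_max_right _ _).trans hT)
  obtain ⟨U1, U2, hU1, hU2, hU3, hU4, hef⟩ := hEF T hTT1
  have hT10 : 10 ≤ T := hT1.trans hTT1
  have hT0 : 0 < T := by linarith
  have hL0 : 0 < Real.log T := Real.log_pos (by linarith)
  set L := Real.log T with hL
  set l := L / lam with hl
  have hl0 : 0 < l := by positivity
  have hl1 : 1 ≤ l := by rw [hl, le_div_iff₀ hlam0, one_mul]; exact g2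
  have hlL : l ≤ L / 16 := by
    rw [hl]
    exact div_le_div_of_nonneg_left hL0.le (by norm_num) hlam
  set X : ℕ := XT T with hX
  have hXlog : 1 / 8 * L ≤ Real.log (X + 1) := by
    rw [hL, ← Real.log_rpow hT0]
    exact Real.log_le_log (by positivity) (Nat.lt_floor_add_one _).le
  refine ⟨U1, U2, hU1, hU2, hU3, hU4, fun t ht1 ht2 c K hc hK => ?_⟩
  have hK0 : 0 ≤ K := (norm_nonneg _).trans (hK 0)
  have hU : 1 ≤ U1 := by linarith
  have h1 := H_estc hc (a := lamC) l U1 U2 t L C1 (EE L) X hU hl0.le (by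
    intro u hu0 hu1
    have h2 := hef u t hu0 (by linarith) ht1 ht2
    have h3 := H370.PP_trunc (a := lamC) (fun n => (lamC_norm n).le) u t (L / 16) X
      (by positivity) (by linarith)
    have h4 : Real.exp (4 + 2 * u) ≤ Real.exp (4 + L / 16) := Real.exp_le_exp.2 (by linarith)
    have e1 : AA riemannZeta U1 U2 u t - (c0 : ℂ) *
        (L * cexp (I * u * t) * Real.exp (-u ^ 2 / 2) - ∑ n ∈ Finset.Icc 1 X, pterm lamC u t n) =
        (AA riemannZeta U1 U2 u t - (c0 : ℂ) *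
          (L * cexp (I * u * t) * Real.exp (-u ^ 2 / 2) - H370.PP lamC u t)) -
        (c0 : ℂ) * (H370.PP lamC u t - ∑ n ∈ Finset.Icc 1 X, pterm lamC u t n) := by ring
    rw [e1]
    refine (norm_sub_le _ _).trans (add_le_add h2 ?_)
    rw [norm_mul, Complex.norm_real, Real.norm_of_nonneg hc00.le]
    calc c0 * ‖H370.PP lamC u t - ∑ n ∈ Finset.Icc 1 X, pterm lamC u t n‖ ≤
        1 * (2 * ζ2 * (Real.exp (4 + 2 * u) * Real.exp (-(L / 16) ^ 2 / 4))) := by
          apply mul_le_mul hc01 h3 (norm_nonneg _) zero_le_one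
      _ ≤ EE L := by
          rw [one_mul]
          show 2 * ζ2 * (Real.exp (4 + 2 * u) * Real.exp (-(L / 16) ^ 2 / 4)) ≤
            2 * ζ2 * (Real.exp (4 + L / 16) * Real.exp (-(L / 16) ^ 2 / 4))
          gcongr)
  have h2 := Err_lec hc hK l C1 (EE L) hl0 hC1.le (by simp only [hEE]; positivity)
  set HH := HTc c l U1 U2 t with hHH
  set D := DDc c lamC l X t with hD
  have e1 : HH.re - c0 * (L * gc c l 1 - D).re = (HH - (c0 : ℂ) * (L * gc c l 1 - D)).re := by
    rw [Complex.sub_re HH, Complex.re_ofReal_mul]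
  rw [e1]
  have h6 : EE L ≤ 1 / L := by
    rw [le_div_iff₀ hL0]
    linarith
  refine ((Complex.abs_re_le_norm _).trans (h1.trans h2)).trans ?_
  have h7 : C1 / l = C1 * lam / L := by rw [hl]; field_simp
  rw [h7]
  calc K * (C1 * lam / L + EE L) ≤ K * (C1 * lam / L + 1 / L) := by gcongr
    _ = _ := by ring

end Pool.Agent.TH850.CL
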