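import Pool.Agent.TH850.CL.Defs3

set_option autoImplicit false

/-! # CL-FIN: joint weak convergence of the linear statistics from the characteristic function -/

namespace Pool.Agent.TH850.CL

open Complex MeasureTheory Set Filter Topology
open scoped ComplexConjugate FourierTransform BoundedContinuousFunction

namespace FINAux

/-- the Fourier transform of a real function -/
noncomputable def ft (f : ℝ → ℝ) (ξ : ℝ) : ℂ := 𝓕 (fun x => (f x : ℂ)) ξ

lemma ofReal_cont {f : ℝ → ℝ} (hf : ContDiff ℝ 2 f) : ContDiff ℝ 2 (fun x => (f x : ℂ)) :=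
  Complex.ofRealCLM.contDiff.comp hf

lemma ofReal_supp {f : ℝ → ℝ} (hs : HasCompactSupport f) :
    HasCompactSupport (fun x => (f x : ℂ)) :=
  hs.comp_left (g := fun x : ℝ => (x : ℂ)) Complex.ofReal_zero

lemma ofReal_int {f : ℝ → ℝ} (hf : Continuous f) (hs : HasCompactSupport f) :
    Integrable (fun x => (f x : ℂ)) :=
  (hf.integrable_of_hasCompactSupport hs).ofReal

lemma ft_continuous {f : ℝ → ℝ} (hf : Continuous f) (hs : HasCompactSupport f) :
    Continuous (ft f) :=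
  VectorFourier.fourierIntegral_continuous Real.continuous_fourierChar
    (by exact continuous_inner) (ofReal_int hf hs)

lemma ft_bound {f : ℝ → ℝ} (hf : ContDiff ℝ 2 f) (hs : HasCompactSupport f) :
    ∃ C : ℝ, 0 ≤ C ∧ ∀ ξ : ℝ, ‖ft f ξ‖ * (1 + ξ ^ 2) ≤ C := by
  set F : ℝ → ℂ := fun x => (f x : ℂ) with hF
  have hc : ContDiff ℝ 2 F := ofReal_cont hf
  have hsF : HasCompactSupport F := ofReal_supp hs
  have hc0 : Continuous F := hc.continuous
  have hc1 : Continuous (deriv F) := hc.continuous_deriv (by norm_num)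
  have hd1 : Differentiable ℝ F := hc.differentiable (by norm_num)
  have hc1' : ContDiff ℝ 1 (deriv F) := by
    have : ContDiff ℝ (1 + 1) F := by norm_num; exact hc
    exact (contDiff_succ_iff_deriv.1 this).2.2
  have hd2 : Differentiable ℝ (deriv F) := hc1'.differentiable (by norm_num)
  have hc2 : Continuous (deriv (deriv F)) := hc1'.continuous_deriv (by norm_num)
  have hs1 : HasCompactSupport (deriv F) := hsF.deriv
  have hs2 : HasCompactSupport (deriv (deriv F)) := hs1.deriv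
  have i0 : Integrable F := hc0.integrable_of_hasCompactSupport hsF
  have i1 : Integrable (deriv F) := hc1.integrable_of_hasCompactSupport hs1
  have i2 : Integrable (deriv (deriv F)) := hc2.integrable_of_hasCompactSupport hs2
  have e1 := Real.fourier_deriv i0 hd1 i1
  have e2 := Real.fourier_deriv i1 hd2 i2
  refine ⟨(∫ x, ‖F x‖) + ∫ x, ‖deriv (deriv F) x‖, by positivity, fun ξ => ?_⟩
  have b0 : ‖𝓕 F ξ‖ ≤ ∫ x, ‖F x‖ := VectorFourier.norm_fourierIntegral_le_integral_norm _ _ _ _ _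
  have b2 : ‖𝓕 (deriv (deriv F)) ξ‖ ≤ ∫ x, ‖deriv (deriv F) x‖ :=
    VectorFourier.norm_fourierIntegral_le_integral_norm _ _ _ _ _
  have e3 : 𝓕 (deriv (deriv F)) ξ = (2 * Real.pi * I * ξ) * ((2 * Real.pi * I * ξ) * 𝓕 F ξ) := by
    rw [e2]
    simp only [e1, smul_eq_mul]
  have n1 : ‖(2 * Real.pi * I * ξ : ℂ)‖ = 2 * Real.pi * |ξ| := by
    rw [norm_mul, norm_mul, norm_mul, Complex.norm_I, Complex.norm_real, Complex.norm_real,
      Real.norm_eq_abs, Real.norm_eq_abs, abs_of_pos Real.pi_pos]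
    norm_num
  rw [e3, norm_mul, n1, norm_mul, n1] at b2
  have hft : ft f ξ = 𝓕 F ξ := rfl
  rw [hft]
  have hpi := Real.pi_gt_three
  have h0 : 0 ≤ ‖𝓕 F ξ‖ := norm_nonneg _
  have e4 : 2 * Real.pi * |ξ| * (2 * Real.pi * |ξ| * ‖𝓕 F ξ‖) =
      4 * Real.pi ^ 2 * (ξ ^ 2 * ‖𝓕 F ξ‖) := by
    rw [← sq_abs ξ]; ring
  rw [e4] at b2
  have h1 : 0 ≤ ξ ^ 2 * ‖𝓕 F ξ‖ := by positivity
  have h2 : (1 : ℝ) ≤ 4 * Real.pi ^ 2 := by nlinarith
  have h3 := mul_le_mul_of_nonneg_right h2 h1
  nlinarith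

/-- the integrand of the covariance -/
noncomputable def kI (f g : ℝ → ℝ) (ξ : ℝ) : ℂ :=
  ((|ξ| : ℝ) : ℂ) * (ft f ξ * conj (ft g ξ))

lemma cov_eq (f g : ℝ → ℝ) : cov f g = (∫ ξ : ℝ, kI f g ξ).re := rfl

lemma kI_int {f g : ℝ → ℝ} (hf : ContDiff ℝ 2 f) (hs : HasCompactSupport f)
    (hg : ContDiff ℝ 2 g) (hs' : HasCompactSupport g) : Integrable (kI f g) := by
  obtain ⟨C, hC, h1⟩ := ft_bound hf hs
  obtain ⟨D, hD, h2⟩ := ft_bound hg hs'
  have c1 := ft_continuous hf.continuous hs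
  have c2 := ft_continuous hg.continuous hs'
  have hcont : Continuous (kI f g) := by
    unfold kI
    have : Continuous fun ξ => conj (ft g ξ) := Complex.continuous_conj.comp c2
    fun_prop
  refine Integrable.mono' (integrable_inv_one_add_sq.const_mul (C * D))
    hcont.aestronglyMeasurable (Filter.Eventually.of_forall fun ξ => ?_)
  unfold kI
  rw [norm_mul, norm_mul, Complex.norm_real, Real.norm_eq_abs, abs_abs, RCLike.norm_conj]
  have p : 0 < 1 + ξ ^ 2 := by positivity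
  have a1 : ‖ft f ξ‖ ≤ C / (1 + ξ ^ 2) := by rw [le_div_iff₀ p]; exact h1 ξ
  have a2 : ‖ft g ξ‖ ≤ D / (1 + ξ ^ 2) := by rw [le_div_iff₀ p]; exact h2 ξ
  have a3 : |ξ| ≤ 1 + ξ ^ 2 := by
    have := sq_abs ξ
    nlinarith [sq_nonneg (|ξ| - 1), abs_nonneg ξ]
  calc |ξ| * (‖ft f ξ‖ * ‖ft g ξ‖) ≤ (1 + ξ ^ 2) * (C / (1 + ξ ^ 2) * (D / (1 + ξ ^ 2))) := by
        gcongr
    _ = C * D * (1 + ξ ^ 2)⁻¹ := by field_simp

variable {k : ℕ}

/-- the combination -/
def comb (f : Fin k → ℝ → ℝ) (u : Fin k → ℝ) (x : ℝ) : ℝ := ∑ i, u i * f i x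

lemma comb_contDiff {f : Fin k → ℝ → ℝ} (hf : ∀ i, ContDiff ℝ 2 (f i)) (u : Fin k → ℝ) :
    ContDiff ℝ 2 (comb f u) := by
  unfold comb
  exact ContDiff.sum fun i _ => contDiff_const.mul (hf i)

lemma comb_supp {f : Fin k → ℝ → ℝ} (hs : ∀ i, HasCompactSupport (f i)) (u : Fin k → ℝ) :
    HasCompactSupport (comb f u) := by
  have hK : IsCompact (⋃ i, tsupport (f i)) := isCompact_iUnion fun i => hs i
  refine HasCompactSupport.intro hK fun x hx => ?_
  unfold comb
  refine Finset.sum_eq_zero fun i _ => ?_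
  have : x ∉ tsupport (f i) := fun h => hx (mem_iUnion.2 ⟨i, h⟩)
  rw [image_eq_zero_of_notMem_tsupport this, mul_zero]

lemma ft_comb {f : Fin k → ℝ → ℝ} (hf : ∀ i, ContDiff ℝ 2 (f i))
    (hs : ∀ i, HasCompactSupport (f i)) (u : Fin k → ℝ) (ξ : ℝ) :
    ft (comb f u) ξ = ∑ i, (u i : ℂ) * ft (f i) ξ := by
  unfold ft
  simp only [Real.fourier_eq]
  have : ∀ i, Integrable fun v : ℝ => Real.fourierChar (-(inner ℝ v ξ)) • ((f i v : ℝ) : ℂ) :=
    fun i => (Real.fourierIntegral_convergent_iff ξ).2 (ofReal_int (hf i).continuous (hs i))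
  simp_rw [← integral_const_mul]
  rw [← integral_finsetSum _ fun i _ => (this i).const_mul _]
  congr 1
  funext v
  unfold comb
  push_cast
  rw [Finset.smul_sum]
  refine Finset.sum_congr rfl fun i _ => ?_
  rw [Circle.smul_def, Circle.smul_def, smul_eq_mul, smul_eq_mul]
  ring

lemma cov_comb {f : Fin k → ℝ → ℝ} (hf : ∀ i, ContDiff ℝ 2 (f i))
    (hs : ∀ i, HasCompactSupport (f i)) (u : Fin k → ℝ) :
    cov (comb f u) (comb f u) = ∑ i, ∑ j, u i * u j * cov (f i) (f j) := by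
  have h1 : ∀ ξ, kI (comb f u) (comb f u) ξ =
      ∑ i, ∑ j, ((u i * u j : ℝ) : ℂ) * kI (f i) (f j) ξ := by
    intro ξ
    unfold kI
    rw [ft_comb hf hs, map_sum, Finset.sum_mul_sum, Finset.mul_sum]
    refine Finset.sum_congr rfl fun i _ => ?_
    rw [Finset.mul_sum]
    refine Finset.sum_congr rfl fun j _ => ?_
    rw [map_mul, Complex.conj_ofReal]
    push_cast
    ring
  rw [cov_eq]
  simp_rw [h1]
  rw [integral_finsetSum _ fun i _ => integrable_finsetSum _ fun j _ =>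
    (kI_int (hf i) (hs i) (hf j) (hs j)).const_mul _, Complex.re_sum]
  refine Finset.sum_congr rfl fun i _ => ?_
  rw [integral_finsetSum _ fun j _ =>
    (kI_int (hf i) (hs i) (hf j) (hs j)).const_mul _, Complex.re_sum]
  refine Finset.sum_congr rfl fun j _ => ?_
  rw [integral_const_mul, Complex.re_ofReal_mul, cov_eq]

lemma cov_self_nonneg (f : ℝ → ℝ) : 0 ≤ cov f f := by
  have h1 : ∀ ξ, kI f f ξ = ((|ξ| * ‖ft f ξ‖ ^ 2 : ℝ) : ℂ) := by
    intro ξ
    unfold kI
    rw [Complex.mul_conj, Complex.normSq_eq_norm_sq]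
    push_cast
    ring
  rw [cov_eq]
  simp_rw [h1]
  rw [integral_complex_ofReal, Complex.ofReal_re]
  exact integral_nonneg fun ξ => by positivity

lemma cov_symm (f g : ℝ → ℝ) : cov f g = cov g f := by
  have h1 : ∀ ξ, kI f g ξ = conj (kI g f ξ) := by
    intro ξ
    unfold kI
    rw [map_mul, map_mul, Complex.conj_conj, Complex.conj_ofReal]
    ring
  rw [cov_eq, cov_eq]
  simp_rw [h1]
  rw [integral_conj, Complex.conj_re]

lemma quad {f : Fin k → ℝ → ℝ} (hf : ∀ i, ContDiff ℝ 2 (f i))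
    (hs : ∀ i, HasCompactSupport (f i)) (u : Fin k → ℝ) :
    u ⬝ᵥ (covM f).mulVec u = cov (comb f u) (comb f u) := by
  rw [cov_comb hf hs]
  unfold dotProduct Matrix.mulVec dotProduct
  refine Finset.sum_congr rfl fun i _ => ?_
  rw [Finset.mul_sum]
  refine Finset.sum_congr rfl fun j _ => ?_
  show u i * (cov (f i) (f j) * u j) = _
  ring

lemma posSemidef {f : Fin k → ℝ → ℝ} (hf : ∀ i, ContDiff ℝ 2 (f i))
    (hs : ∀ i, HasCompactSupport (f i)) : (covM f).PosSemidef := by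
  rw [Matrix.posSemidef_iff_dotProduct_mulVec]
  refine ⟨?_, fun x => ?_⟩
  · ext i j
    rw [Matrix.conjTranspose_apply]
    unfold covM
    rw [Matrix.of_apply, Matrix.of_apply, cov_symm]
    simp
  · have : star x = x := by
      funext i
      simp
    rw [this, quad hf hs]
    exact cov_self_nonneg _

lemma zeros_finite (T1 T2 : ℝ) (h : 1 ≤ T1) :
    {s : ℂ | s ∈ zeros ∧ T1 < s.im ∧ s.im ≤ T2}.Finite := by
  by_contra hinf
  have hinf : ({s : ℂ | s ∈ zeros ∧ T1 < s.im ∧ s.im ≤ T2}).Infinite := hinf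
  have hcomp : IsCompact (Icc (0 : ℝ) 1 ×ℂ Icc T1 T2) := isCompact_Icc.reProdIm isCompact_Icc
  have hsub : {s : ℂ | s ∈ zeros ∧ T1 < s.im ∧ s.im ≤ T2} ⊆ Icc (0 : ℝ) 1 ×ℂ Icc T1 T2 := by
    rintro s ⟨⟨_, h1, h2⟩, h3, h4⟩
    exact ⟨⟨h1.le, h2.le⟩, ⟨h3.le, h4⟩⟩
  obtain ⟨x, hx, hacc⟩ := hinf.exists_accPt_of_subset_isCompact hcomp hsub
  have hU : IsPreconnected {s : ℂ | 0 < s.im} := (convex_halfSpace_im_gt 0).isPreconnected
  have hxU : x ∈ {s : ℂ | 0 < s.im} := by
    have h5 : T1 ≤ x.im := hx.2.1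
    show 0 < x.im
    linarith
  have hfreq : ∃ᶠ z in 𝓝[≠] x, riemannZeta z = 0 := by
    rw [accPt_iff_frequently_nhdsNE] at hacc
    exact hacc.mono fun z hz => hz.1.1
  have han : AnalyticOnNhd ℂ riemannZeta {s : ℂ | 0 < s.im} := by
    refine DifferentiableOn.analyticOnNhd (fun s hs =>
      (differentiableAt_riemannZeta ?_).differentiableWithinAt)
      (isOpen_lt continuous_const Complex.continuous_im)
    intro hs1
    rw [hs1] at hs
    have h5 : (0 : ℝ) < (1 : ℂ).im := hs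
    rw [Complex.one_im] at h5
    exact lt_irrefl _ h5
  have hz := AnalyticOnNhd.eqOn_zero_of_preconnected_of_frequently_eq_zero han hU hxU hfreq
  have h2 : riemannZeta ⟨2, 1⟩ = 0 := hz (show (0 : ℝ) < 1 by norm_num)
  exact riemannZeta_ne_zero_of_one_le_re (by norm_num) h2

/-- the finite set of the zeros near `[T, 2T]` -/
noncomputable def fz (T : ℝ) (hT : 3 ≤ T) : Finset ℂ :=
  (zeros_finite (T - 2) (2 * T + 2) (by linarith)).toFinset

lemma Sf_eq {f : ℝ → ℝ} {R T a t : ℝ} (hR : ∀ x, R < |x| → f x = 0) (hT : 3 ≤ T)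
    (ha : 0 < a) (haT : 2 * Real.pi * R * a ≤ Real.log T) (ht : t ∈ Icc T (2 * T)) :
    Sf f T a t = (∑ s ∈ fz T hT, (analyticOrderNatAt riemannZeta s : ℝ) *
      f ((s.im - t) * Real.log T / (2 * Real.pi * a))) - a * ∫ x, f x := by
  unfold Sf
  congr 1
  rw [← finsum_mem_coe_finset]
  apply finsum_mem_inter_support_eq
  ext s
  simp only [mem_inter_iff, Function.mem_support, Finset.mem_coe]
  unfold fz
  rw [Set.Finite.mem_toFinset]
  constructor
  · rintro ⟨h1, h2⟩
    refine ⟨⟨h1, ?_⟩, h2⟩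
    have h3 : f ((s.im - t) * Real.log T / (2 * Real.pi * a)) ≠ 0 := fun h => h2 (by rw [h, mul_zero])
    have h4 : ¬ R < |(s.im - t) * Real.log T / (2 * Real.pi * a)| := fun h => h3 (hR _ h)
    push Not at h4
    have hpi := Real.pi_pos
    have hL : 0 < Real.log T := Real.log_pos (by linarith)
    have h5 : 0 < 2 * Real.pi * a := by positivity
    rw [abs_div, abs_of_pos h5, div_le_iff₀ h5, abs_mul, abs_of_pos hL] at h4
    have h6 : |s.im - t| * Real.log T ≤ 1 * Real.log T := by linarith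
    have h7 : |s.im - t| ≤ 1 := le_of_mul_le_mul_right h6 hL
    rw [abs_le] at h7
    obtain ⟨h8, h9⟩ := ht
    constructor <;> linarith
  · rintro ⟨h1, h2⟩
    exact ⟨h1.1, h2⟩

lemma common_radius {f : Fin k → ℝ → ℝ} (hs : ∀ i, HasCompactSupport (f i)) :
    ∃ R : ℝ, 0 < R ∧ ∀ i x, R < |x| → f i x = 0 := by
  have hK : IsCompact (⋃ i, tsupport (f i)) := isCompact_iUnion fun i => hs i
  obtain ⟨R, hR⟩ := hK.isBounded.subset_closedBall (0 : ℝ)
  refine ⟨max R 1, by positivity, fun i x hx => ?_⟩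
  apply image_eq_zero_of_notMem_tsupport
  intro h
  have h1 := hR (mem_iUnion.2 ⟨i, h⟩)
  rw [Metric.mem_closedBall, dist_zero_right, Real.norm_eq_abs] at h1
  exact absurd hx (not_lt.2 (h1.trans (le_max_left _ _)))

lemma Sf_comb {f : Fin k → ℝ → ℝ} (hf : ∀ i, ContDiff ℝ 2 (f i))
    (hs : ∀ i, HasCompactSupport (f i)) : ∃ δ : ℝ, 0 < δ ∧ ∀ T a : ℝ, 3 ≤ T → 0 < a →
      a ≤ δ * Real.log T → ∀ t ∈ Icc T (2 * T), ∀ u : Fin k → ℝ,
        Sf (comb f u) T a t = ∑ i, u i * Sf (f i) T a t := by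
  obtain ⟨R, hR0, hR⟩ := common_radius hs
  have hpi := Real.pi_pos
  refine ⟨1 / (2 * Real.pi * R), by positivity, fun T a hT ha haT t ht u => ?_⟩
  have haT' : 2 * Real.pi * R * a ≤ Real.log T := by
    rw [div_mul_eq_mul_div, one_mul, le_div_iff₀ (by positivity)] at haT
    linarith
  have hRc : ∀ x, R < |x| → comb f u x = 0 := by
    intro x hx
    unfold comb
    exact Finset.sum_eq_zero fun i _ => by rw [hR i x hx, mul_zero]
  rw [Sf_eq hRc hT ha haT' ht]
  have h1 : ∀ i, Sf (f i) T a t = _ := fun i => Sf_eq (hR i) hT ha haT' ht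
  simp_rw [h1]
  have h2 : ∫ x, comb f u x = ∑ i, u i * ∫ x, f i x := by
    unfold comb
    rw [integral_finsetSum _ fun i _ =>
      ((hf i).continuous.integrable_of_hasCompactSupport (hs i)).const_mul _]
    exact Finset.sum_congr rfl fun i _ => integral_const_mul _ _
  rw [h2]
  simp only [mul_sub, Finset.sum_sub_distrib]
  congr 1
  · unfold comb
    simp only [Finset.mul_sum]
    rw [Finset.sum_comm]
    refine Finset.sum_congr rfl fun i _ => Finset.sum_congr rfl fun s _ => ?_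
    ring
  · rw [Finset.mul_sum]
    exact Finset.sum_congr rfl fun i _ => by ring

/-- the vector of the statistics -/
noncomputable def vec (f : Fin k → ℝ → ℝ) (T a t : ℝ) : EuclideanSpace ℝ (Fin k) :=
  WithLp.toLp 2 fun i => Sf (f i) T a t

/-- the uniform measure -/
noncomputable def base (T : ℝ) : Measure ℝ :=
  ENNReal.ofReal (1 / T) • (volume.restrict (Ioc T (2 * T)))

/-- the law of the vector of the statistics -/
noncomputable def law (f : Fin k → ℝ → ℝ) (T a : ℝ) : Measure (EuclideanSpace ℝ (Fin k)) :=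
  (base T).map (vec f T a)

lemma base_prob {T : ℝ} (hT : 0 < T) : IsProbabilityMeasure (base T) := by
  constructor
  unfold base
  rw [Measure.smul_apply, Measure.restrict_apply_univ, Real.volume_Ioc, smul_eq_mul,
    ← ENNReal.ofReal_mul (by positivity)]
  have : 1 / T * (2 * T - T) = 1 := by
    field_simp
    ring
  rw [this, ENNReal.ofReal_one]

lemma vec_aem {f : Fin k → ℝ → ℝ} {T a : ℝ}
    (hc : ∀ i, ContinuousOn (fun t => Sf (f i) T a t) (Icc T (2 * T))) :
    AEMeasurable (vec f T a) (base T) := by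
  have h1 : ContinuousOn (vec f T a) (Icc T (2 * T)) := by
    unfold vec
    exact (PiLp.continuous_toLp 2 _).comp_continuousOn (continuousOn_pi.2 hc)
  unfold base
  exact ((h1.mono Ioc_subset_Icc_self).aemeasurable measurableSet_Ioc).smul_measure _

lemma law_integral {E' : Type*} [NormedAddCommGroup E'] [NormedSpace ℝ E']
    [SecondCountableTopology E'] {f : Fin k → ℝ → ℝ} {T a : ℝ} (hT : 0 < T)
    (hc : ∀ i, ContinuousOn (fun t => Sf (f i) T a t) (Icc T (2 * T)))
    {φ : EuclideanSpace ℝ (Fin k) → E'} (hφ : Continuous φ) :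
    ∫ x, φ x ∂(law f T a) = (1 / T : ℝ) • ∫ t in T..(2 * T), φ (vec f T a t) := by
  unfold law
  rw [integral_map (vec_aem hc) hφ.aestronglyMeasurable]
  unfold base
  rw [integral_smul_measure, ENNReal.toReal_ofReal (by positivity),
    intervalIntegral.integral_of_le (by linarith)]

lemma charFun_law {f : Fin k → ℝ → ℝ} {T a : ℝ} (hT : 0 < T)
    (hc : ∀ i, ContinuousOn (fun t => Sf (f i) T a t) (Icc T (2 * T)))
    (u : EuclideanSpace ℝ (Fin k))
    (hl : ∀ t ∈ Icc T (2 * T), Sf (comb f u) T a t = ∑ i, u i * Sf (f i) T a t) :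
    charFun (law f T a) u =
      ((1 / T : ℝ) : ℂ) * ∫ t in T..(2 * T), cexp (I * Sf (comb f u) T a t) := by
  rw [charFun_apply, law_integral hT hc (by fun_prop), Complex.real_smul]
  congr 1
  refine intervalIntegral.integral_congr fun t ht => ?_
  rw [uIcc_of_le (by linarith)] at ht
  have h1 : (inner ℝ (vec f T a t) u : ℝ) = Sf (comb f u) T a t := by
    rw [hl t ht, PiLp.inner_apply]
    refine Finset.sum_congr rfl fun i _ => ?_
    unfold vec
    simp
  simp only [h1]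
  rw [mul_comm I]

lemma core_ev (h : S_CORE) {a : ℝ → ℝ} (ha : Tendsto a atTop atTop)
    (haT : Tendsto (fun T => a T / Real.log T) atTop (𝓝 0)) {f : ℝ → ℝ}
    (hf : ContDiff ℝ 2 f) (hs : HasCompactSupport f) {ε : ℝ} (hε : 0 < ε) :
    ∀ᶠ T in atTop, ContinuousOn (fun t => Sf f T (a T) t) (Icc T (2 * T)) ∧
      ‖((1 / T : ℝ) : ℂ) * (∫ t in T..(2 * T), cexp (I * Sf f T (a T) t)) -
        (Real.exp (-(cov f f) / 2) : ℝ)‖ ≤ ε := by
  obtain ⟨A, T0, δ, hδ, h1⟩ := h f hf hs ε hε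
  filter_upwards [eventually_ge_atTop T0, ha.eventually_ge_atTop A,
    haT.eventually (gt_mem_nhds hδ), eventually_gt_atTop 1] with T h2 h3 h4 h5
  have h6 : 0 < Real.log T := Real.log_pos h5
  rw [div_lt_iff₀ h6] at h4
  exact h1 T h2 (a T) h3 h4.le

lemma charFun_tendsto (h : S_CORE) {f : Fin k → ℝ → ℝ} (hf : ∀ i, ContDiff ℝ 2 (f i))
    (hs : ∀ i, HasCompactSupport (f i)) {a : ℝ → ℝ} (ha : Tendsto a atTop atTop)
    (haT : Tendsto (fun T => a T / Real.log T) atTop (𝓝 0)) (u : EuclideanSpace ℝ (Fin k)) :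
    Tendsto (fun T => charFun (law f T (a T)) u) atTop
      (𝓝 (charFun (ProbabilityTheory.multivariateGaussian 0 (covM f)) u)) := by
  have e1 : charFun (ProbabilityTheory.multivariateGaussian 0 (covM f)) u =
      ((Real.exp (-(cov (comb f u) (comb f u)) / 2) : ℝ) : ℂ) := by
    rw [ProbabilityTheory.charFun_multivariateGaussian (posSemidef hf hs), ← quad hf hs]
    rw [inner_zero_right, Complex.ofReal_zero, zero_mul, zero_sub, Complex.ofReal_exp]
    congr 1
    push_cast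
    ring
  rw [e1]
  obtain ⟨δ, hδ, h1⟩ := Sf_comb hf hs
  rw [Metric.tendsto_nhds]
  intro ε hε
  have hC : ∀ᶠ T in atTop, ∀ i, ContinuousOn (fun t => Sf (f i) T (a T) t) (Icc T (2 * T)) := by
    rw [eventually_all]
    intro i
    exact (core_ev h ha haT (hf i) (hs i) one_pos).mono fun T hT => hT.1
  filter_upwards [hC, core_ev h ha haT (comb_contDiff hf u) (comb_supp hs u) (half_pos hε),
    haT.eventually (gt_mem_nhds hδ), eventually_ge_atTop 3, ha.eventually_gt_atTop 0]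
    with T h2 h3 h4 h5 h6
  have h7 : 0 < Real.log T := Real.log_pos (by linarith)
  rw [div_lt_iff₀ h7] at h4
  rw [charFun_law (by linarith) h2 u fun t ht => h1 T (a T) h5 h6 h4.le t ht u, dist_eq_norm]
  exact lt_of_le_of_lt h3.2 (half_lt_self hε)

lemma law_prob (h : S_CORE) {f : Fin k → ℝ → ℝ} (hf : ∀ i, ContDiff ℝ 2 (f i))
    (hs : ∀ i, HasCompactSupport (f i)) {a : ℝ → ℝ} (ha : Tendsto a atTop atTop)
    (haT : Tendsto (fun T => a T / Real.log T) atTop (𝓝 0)) :
    ∀ᶠ T in atTop, IsProbabilityMeasure (law f T (a T)) ∧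
      ∀ φ : EuclideanSpace ℝ (Fin k) →ᵇ ℝ, ∫ x, φ x ∂(law f T (a T)) =
        1 / T * ∫ t in T..(2 * T), φ (vec f T (a T) t) := by
  have hC : ∀ᶠ T in atTop, ∀ i, ContinuousOn (fun t => Sf (f i) T (a T) t) (Icc T (2 * T)) := by
    rw [eventually_all]
    intro i
    exact (core_ev h ha haT (hf i) (hs i) one_pos).mono fun T hT => hT.1
  filter_upwards [hC, eventually_ge_atTop 3] with T h2 h5
  have hT : 0 < T := by linarith
  constructor
  · have := base_prob hT
    exact Measure.isProbabilityMeasure_map (vec_aem h2)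
  · intro φ
    rw [law_integral hT h2 φ.continuous, smul_eq_mul]

end FINAux

open FINAux in
/-- CL-FIN -/
theorem fin (h : S_CORE) : S_FIN := by
  intro k f hf hs a ha haT φ
  classical
  have hpr := law_prob h hf hs ha haT
  set μ0 : ProbabilityMeasure (EuclideanSpace ℝ (Fin k)) :=
    ⟨ProbabilityTheory.multivariateGaussian 0 (covM f), inferInstance⟩ with hμ0
  set pm : ℝ → ProbabilityMeasure (EuclideanSpace ℝ (Fin k)) := fun T =>
    if hp : IsProbabilityMeasure (law f T (a T)) then ⟨law f T (a T), hp⟩ else μ0 with hpm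
  have hpm' : ∀ T, IsProbabilityMeasure (law f T (a T)) →
      ((pm T : ProbabilityMeasure (EuclideanSpace ℝ (Fin k))) : Measure _) = law f T (a T) := by
    intro T hT
    have : pm T = ⟨law f T (a T), hT⟩ := dif_pos hT
    rw [this]
    rfl
  have key : Tendsto (fun T => ∫ x, φ x ∂((pm T : ProbabilityMeasure _) : Measure _)) atTop
      (𝓝 (∫ x, φ x ∂(μ0 : Measure _))) := by
    refine tendsto_of_seq_tendsto fun x hx => ?_
    have h1 : Tendsto (fun n => pm (x n)) atTop (𝓝 μ0) := by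
      refine ProbabilityMeasure.tendsto_of_tendsto_charFun fun u => ?_
      have h2 := (charFun_tendsto h hf hs ha haT u).comp hx
      refine h2.congr' ?_
      filter_upwards [hx.eventually hpr] with n hn
      rw [hpm' _ hn.1]
      rfl
    exact (ProbabilityMeasure.tendsto_iff_forall_integral_tendsto.1 h1) φ
  refine key.congr' ?_
  filter_upwards [hpr] with T hT
  rw [hpm' T hT.1, hT.2 φ]
  rfl

end Pool.Agent.TH850.CL
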