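import Pool.Agent.TH850.CL.Defs2

set_option autoImplicit false

/-! # Project CL, K1: the low pass filter -/

namespace Pool.Agent.TH850.CL

open Complex MeasureTheory Set Filter Topology
open Pool.Agent.TH850.UV (om kC kC_decay kC_neg kC_cont om_cont)
open Pool.Agent.TH850.UV.KernAux (kC_exp line_integral kC_line_int)

namespace K1

lemma swapc {F : ℝ → ℝ → ℂ} (hF : Continuous (Function.uncurry F)) (a b c d : ℝ) :
    ∫ x in a..b, ∫ y in c..d, F x y = ∫ y in c..d, ∫ x in a..b, F x y := by
  apply intervalIntegral_intervalIntegral_swap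
  have hc : IsCompact (uIcc a b ×ˢ uIcc c d : Set (ℝ × ℝ)) :=
    isCompact_uIcc.prod isCompact_uIcc
  have h1 : IntegrableOn (Function.uncurry F) (uIcc a b ×ˢ uIcc c d) volume :=
    hF.continuousOn.integrableOn_compact hc
  exact h1.mono_set (Set.prod_mono uIoc_subset_uIcc uIoc_subset_uIcc)

/-- convolution form -/
lemma conv (R b : ℝ) (g : ℝ → ℝ) (hg : Continuous g) (z : ℂ) :
    low R b g z = ∫ y in (-R)..R, (g y : ℂ) * (b * kC (b * (z - y))) := by
  have htc := om_cont
  have h1 : ∀ α : ℝ, (om α : ℂ) * (b * hat R g (b * α)) * cexp (2 * Real.pi * α * b * z * I) =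
      ∫ y in (-R)..R, (om α : ℂ) * (g y * b) * cexp (-(2 * Real.pi * α * (-(b * (z - y)))) * I) := by
    intro α
    unfold hat
    rw [← intervalIntegral.integral_const_mul, ← intervalIntegral.integral_const_mul,
      ← intervalIntegral.integral_mul_const]
    refine intervalIntegral.integral_congr fun y _ => ?_
    have e : cexp (-(2 * Real.pi * α * (-(b * (z - y)))) * I) =
        cexp (-(2 * Real.pi * ((b * α : ℝ) : ℂ) * y * I)) * cexp (2 * Real.pi * α * b * z * I) := by
      rw [← Complex.exp_add]
      congr 1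
      push_cast
      ring
    rw [e]
    ring
  unfold low
  simp_rw [h1]
  rw [swapc]
  · refine intervalIntegral.integral_congr fun y _ => ?_
    rw [← kC_neg, ← kC_exp, ← mul_assoc, ← intervalIntegral.integral_const_mul]
    refine intervalIntegral.integral_congr fun α _ => ?_
    ring
  · simp only [Function.uncurry_def]
    fun_prop

lemma arct (b x R : ℝ) :
    ∫ y in (-R)..R, b / (1 + (b * (x - y)) ^ 2) ≤ Real.pi := by
  have hd : ∀ y ∈ uIcc (-R) R, HasDerivAt (fun y => -Real.arctan (b * (x - y)))
      (b / (1 + (b * (x - y)) ^ 2)) y := by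
    intro y _
    have h1 : HasDerivAt (fun y => b * (x - y)) (-b) y := by
      have := ((hasDerivAt_id y).const_sub x).const_mul b
      simpa using this
    have h2 := h1.arctan.neg
    refine h2.congr_deriv ?_
    ring
  have hc : Continuous fun y => b / (1 + (b * (x - y)) ^ 2) := by
    refine continuous_const.div (by fun_prop) fun y => ?_
    positivity
  rw [intervalIntegral.integral_eq_sub_of_hasDerivAt hd (hc.intervalIntegrable _ _)]
  have h1 := Real.arctan_lt_pi_div_two (b * (x - -R))
  have h2 := Real.neg_pi_div_two_lt_arctan (b * (x - R))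
  linarith

/-- Taylor -/
lemma tay {R M : ℝ} {g g' g'' : ℝ → ℝ} (h : C2 R M g g' g'') (x u : ℝ) :
    |g u - g x - g' x * (u - x)| ≤ M * (u - x) ^ 2 := by
  have h1 : ∀ v, |g' v - g' x| ≤ M * |v - x| := by
    intro v
    have := convex_univ.norm_image_sub_le_of_norm_hasDerivWithin_le
      (f := g') (f' := g'') (C := M) (s := univ) (x := x) (y := v)
      (fun y _ => (h.d2 y).hasDerivWithinAt)
      (fun y _ => (h.bd y).2.2) (mem_univ _) (mem_univ _)
    simpa using this
  have hM : 0 ≤ M := (abs_nonneg _).trans (h.bd x).1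
  have h2 := (convex_uIcc x u).norm_image_sub_le_of_norm_hasDerivWithin_le
      (f := fun v => g v - g' x * (v - x)) (f' := fun v => g' v - g' x) (C := M * |u - x|)
      (x := x) (y := u)
      (fun y _ => by
        have h3 := (h.d1 y).sub (((hasDerivAt_id y).sub_const x).const_mul (g' x))
        have h4 : HasDerivAt (fun v => g v - g' x * (v - x)) (g' y - g' x) y := by
          refine h3.congr_deriv ?_
          simp
        exact h4.hasDerivWithinAt)
      (fun y hy => by
        refine (h1 y).trans ?_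
        have : |y - x| ≤ |u - x| := by
          have := abs_sub_left_of_mem_uIcc hy
          simpa using this
        exact mul_le_mul_of_nonneg_left this hM) left_mem_uIcc right_mem_uIcc
  simp only [sub_self, mul_zero, sub_zero, Real.norm_eq_abs] at h2
  have e : g u - g x - g' x * (u - x) = g u - g' x * (u - x) - g x := by ring
  rw [e]
  refine h2.trans (le_of_eq ?_)
  rw [mul_assoc, ← pow_two, sq_abs]

/-- Taylor with decay -/
lemma tay2 {R M : ℝ} (hR : 1 ≤ R) {g g' g'' : ℝ → ℝ} (h : C2 R M g g' g'') (x u : ℝ) :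
    |g u - g x - g' x * (u - x)| ≤ 8 * (1 + R ^ 2) * M * (u - x) ^ 2 / (1 + x ^ 2) := by
  have hM : 0 ≤ M := (abs_nonneg _).trans (h.bd x).1
  rw [le_div_iff₀ (by positivity)]
  rcases le_total |x| (2 * R) with hx | hx
  · have h1 := tay h x u
    have hx2 : x ^ 2 ≤ 4 * R ^ 2 := by
      have := pow_le_pow_left₀ (abs_nonneg x) hx 2
      rw [sq_abs] at this
      linarith
    have h0 : 0 ≤ M * (u - x) ^ 2 := by positivity
    calc |g u - g x - g' x * (u - x)| * (1 + x ^ 2) ≤ M * (u - x) ^ 2 * (1 + x ^ 2) := by gcongr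
      _ ≤ M * (u - x) ^ 2 * (8 * (1 + R ^ 2)) := by
          apply mul_le_mul_of_nonneg_left _ h0
          nlinarith
      _ = _ := by ring
  · obtain ⟨e1, e2, -⟩ := h.supp x (by linarith)
    rw [e1, e2]
    simp only [sub_zero, zero_mul]
    by_cases hu : R ≤ |u|
    · rw [(h.supp u hu).1, abs_zero, zero_mul]
      positivity
    · push Not at hu
      have h3 : |x| / 2 ≤ |u - x| := by
        have := abs_sub_abs_le_abs_sub x u
        rw [abs_sub_comm] at this
        linarith
      have h4 : x ^ 2 / 4 ≤ (u - x) ^ 2 := by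
        have := pow_le_pow_left₀ (by positivity) h3 2
        rw [sq_abs, div_pow, sq_abs] at this
        linarith
      have h5 : 1 ≤ x ^ 2 := by
        have : 1 ≤ |x| := by linarith
        have := pow_le_pow_left₀ zero_le_one this 2
        rwa [one_pow, sq_abs] at this
      have h6 := (h.bd u).1
      have h7 : 1 + x ^ 2 ≤ 8 * (1 + R ^ 2) * (u - x) ^ 2 := by
        have : 0 ≤ R ^ 2 := by positivity
        nlinarith
      calc |g u| * (1 + x ^ 2) ≤ M * (8 * (1 + R ^ 2) * (u - x) ^ 2) := by gcongr
        _ = _ := by ring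

end K1

open K1

/-- CL-K1 -/
theorem k1 : S_K1 := by
  intro R hR
  obtain ⟨C, hC, hdec⟩ := kC_decay
  have hpi := Real.pi_pos
  refine ⟨C * Real.pi * (10 * (1 + R ^ 2)), by positivity, fun b hb M g hg hM => ?_⟩
  have hM0 : 0 ≤ M := (abs_nonneg _).trans (hM 0)
  have hb0 : 0 < b := by linarith
  have hkc := kC_cont
  refine ⟨fun z => conv R b g hg z, fun z => ?_, fun g' g'' h x => ?_⟩
  · -- the bound
    rw [conv R b g hg z]
    set E := Real.exp (Real.pi * b * |z.im|) with hE
    have hE0 : 0 < E := Real.exp_pos _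
    have hpt : ∀ y ∈ Icc (-R) R, ‖(g y : ℂ) * (b * kC (b * (z - y)))‖ ≤
        C * M * E * (2 + 2 * R ^ 2) / (1 + z.re ^ 2) * (b / (1 + (b * (z.re - y)) ^ 2)) := by
      intro y hy
      rw [norm_mul, norm_mul, Complex.norm_real, Complex.norm_real, Real.norm_eq_abs,
        Real.norm_eq_abs, abs_of_pos hb0]
      have h1 := hdec (b * (z - y))
      have him : ((b : ℂ) * (z - y)).im = b * z.im := by simp
      have hre : ((b : ℂ) * (z - y)).re = b * (z.re - y) := by simp
      rw [him, abs_mul, abs_of_pos hb0, ← mul_assoc, ← hE] at h1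
      have h2 : (b * (z.re - y)) ^ 2 ≤ ‖(b : ℂ) * (z - y)‖ ^ 2 := by
        rw [Complex.sq_norm, Complex.normSq_apply, hre]
        nlinarith [sq_nonneg ((b : ℂ) * (z - y)).im]
      set w := (b : ℂ) * (z - y) with hw
      set D := 1 + (b * (z.re - y)) ^ 2 with hD
      have hD1 : 1 ≤ D := by rw [hD]; nlinarith [sq_nonneg (b * (z.re - y))]
      have h3 : ‖kC w‖ * D ^ 2 ≤ C * E := by
        refine le_trans ?_ h1
        have : D ≤ 1 + ‖w‖ ^ 2 := by rw [hD]; linarith
        gcongr
      have h4 : 1 + z.re ^ 2 ≤ (2 + 2 * R ^ 2) * D := by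
        have hy2 : y ^ 2 ≤ R ^ 2 := by
          have := abs_le.mpr hy
          have := pow_le_pow_left₀ (abs_nonneg y) this 2
          rwa [sq_abs] at this
        have hb2 : 1 ≤ b ^ 2 := by nlinarith
        have h5 : (z.re - y) ^ 2 ≤ (b * (z.re - y)) ^ 2 := by
          rw [mul_pow]
          nlinarith [sq_nonneg (z.re - y)]
        have h6 : z.re ^ 2 ≤ 2 * (z.re - y) ^ 2 + 2 * y ^ 2 := by
          nlinarith [sq_nonneg (z.re - 2 * y)]
        have h7 : 0 ≤ R ^ 2 * (b * (z.re - y)) ^ 2 := by positivity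
        rw [hD]
        nlinarith
      have h8 : ‖kC w‖ ≤ C * E * (2 + 2 * R ^ 2) / (1 + z.re ^ 2) / D := by
        rw [le_div_iff₀ (by positivity), le_div_iff₀ (by positivity)]
        calc ‖kC w‖ * D * (1 + z.re ^ 2) ≤ ‖kC w‖ * D * ((2 + 2 * R ^ 2) * D) := by
              gcongr
          _ = ‖kC w‖ * D ^ 2 * (2 + 2 * R ^ 2) := by ring
          _ ≤ _ := by gcongr
      calc |g y| * (b * ‖kC w‖) ≤ M * (b * (C * E * (2 + 2 * R ^ 2) / (1 + z.re ^ 2) / D)) := by
            gcongr
            exact hM y
        _ = _ := by ring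
    have hc : Continuous fun y : ℝ => C * M * E * (2 + 2 * R ^ 2) / (1 + z.re ^ 2) *
        (b / (1 + (b * (z.re - y)) ^ 2)) := by
      refine continuous_const.mul (continuous_const.div (by fun_prop) fun y => ?_)
      positivity
    calc ‖∫ y in (-R)..R, (g y : ℂ) * (b * kC (b * (z - y)))‖ ≤
        ∫ y in (-R)..R, C * M * E * (2 + 2 * R ^ 2) / (1 + z.re ^ 2) *
          (b / (1 + (b * (z.re - y)) ^ 2)) := by
          refine intervalIntegral.norm_integral_le_of_norm_le (by linarith) ?_
            (hc.intervalIntegrable _ _)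
          exact Eventually.of_forall fun y hy => hpt y (Ioc_subset_Icc_self hy)
      _ = C * M * E * (2 + 2 * R ^ 2) / (1 + z.re ^ 2) *
          ∫ y in (-R)..R, (b / (1 + (b * (z.re - y)) ^ 2)) := by
          rw [intervalIntegral.integral_const_mul]
      _ ≤ C * M * E * (2 + 2 * R ^ 2) / (1 + z.re ^ 2) * Real.pi := by
          refine mul_le_mul_of_nonneg_left (arct b z.re R) (by positivity)
      _ ≤ _ := by
          rw [div_mul_eq_mul_div]
          refine div_le_div_of_nonneg_right ?_ (by positivity)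
          have : 0 ≤ C * M * E * Real.pi * (1 + R ^ 2) := by positivity
          nlinarith
  · -- the approximation
    have hline : ∫ s : ℝ, kC s = 1 := by
      have := line_integral 0
      simpa using this
    have hint : Integrable fun s : ℝ => kC s := by
      have := kC_line_int 0
      simpa using this
    have hbd : ∀ s : ℝ, ‖kC s‖ * (1 + s ^ 2) ^ 2 ≤ C := by
      intro s
      have := hdec s
      simpa [sq_abs] using this
    have hint1 : Integrable fun s : ℝ => (s : ℂ) * kC s := by
      refine Integrable.mono' ((integrable_inv_one_add_sq).const_mul C)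
        (by fun_prop : Continuous fun s : ℝ => (s : ℂ) * kC s).aestronglyMeasurable
        (Eventually.of_forall fun s => ?_)
      rw [norm_mul, Complex.norm_real, Real.norm_eq_abs, ← div_eq_mul_inv,
        le_div_iff₀ (by positivity)]
      have h1 := hbd s
      have h2 : |s| ≤ 1 + s ^ 2 := by
        have := sq_nonneg (|s| - 1)
        have h3 := sq_abs s
        nlinarith [abs_nonneg s]
      calc |s| * ‖kC s‖ * (1 + s ^ 2) ≤ (1 + s ^ 2) * ‖kC s‖ * (1 + s ^ 2) := by gcongr
        _ = ‖kC s‖ * (1 + s ^ 2) ^ 2 := by ring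
        _ ≤ C := h1
    have hodd : ∫ s : ℝ, (s : ℂ) * kC s = 0 := by
      have h1 := integral_neg_eq_self (fun s : ℝ => (s : ℂ) * kC s) volume
      have h2 : ∫ s : ℝ, ((-s : ℝ) : ℂ) * kC ((-s : ℝ) : ℂ) = - ∫ s : ℝ, (s : ℂ) * kC s := by
        rw [← integral_neg]
        congr 1
        funext s
        rw [Complex.ofReal_neg, kC_neg]
        ring
      rw [h2] at h1
      have h3 : (2 : ℂ) * ∫ s : ℝ, (s : ℂ) * kC s = 0 := by linear_combination (-1 : ℂ) * h1
      exact (mul_eq_zero.mp h3).resolve_left two_ne_zero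
    -- change of variables
    have hcv : low R b g x = ∫ s : ℝ, (g (x - s / b) : ℂ) * kC s := by
      rw [conv R b g hg x]
      have e1 : ∫ y in (-R)..R, (g y : ℂ) * (b * kC (b * ((x : ℂ) - y))) =
          ∫ y : ℝ, (g y : ℂ) * (b * kC (b * ((x : ℂ) - y))) := by
        rw [intervalIntegral.integral_of_le (by linarith)]
        refine setIntegral_eq_integral_of_forall_compl_eq_zero fun y hy => ?_
        have : R ≤ |y| := by
          by_contra hcon
          push Not at hcon
          have := abs_lt.mp hcon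
          exact hy ⟨this.1, this.2.le⟩
        rw [(h.supp y this).1]
        simp
      rw [e1]
      have e2 : ∀ y : ℝ, (g y : ℂ) * (b * kC (b * ((x : ℂ) - y))) =
          (fun t : ℝ => (b : ℂ) * ((g (x - (b * t) / b) : ℂ) * kC ((b * t : ℝ) : ℂ))) (x - y) := by
        intro y
        simp only
        have e3 : x - b * (x - y) / b = y := by field_simp; ring
        rw [e3]
        push_cast
        ring
      simp_rw [e2]
      rw [integral_sub_left_eq_self (fun t : ℝ => (b : ℂ) * ((g (x - (b * t) / b) : ℂ) *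
        kC ((b * t : ℝ) : ℂ))) volume x, integral_const_mul,
        Measure.integral_comp_mul_left (fun s : ℝ => (g (x - s / b) : ℂ) * kC (s : ℂ)) b,
        abs_of_pos (inv_pos.mpr hb0), Complex.real_smul, ← mul_assoc]
      push_cast
      rw [mul_inv_cancel₀ (by exact_mod_cast hb0.ne'), one_mul]
    have hintg : Integrable fun s : ℝ => (g (x - s / b) : ℂ) * kC s := by
      refine Integrable.mono' (hint.norm.const_mul M)
        (by fun_prop : Continuous fun s : ℝ => (g (x - s / b) : ℂ) * kC s).aestronglyMeasurable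
        (Eventually.of_forall fun s => ?_)
      rw [norm_mul, Complex.norm_real, Real.norm_eq_abs]
      exact mul_le_mul_of_nonneg_right (hM _) (norm_nonneg _)
    have hdiff : low R b g x - g x = ∫ s : ℝ, ((g (x - s / b) - g x -
        g' x * ((x - s / b) - x) : ℝ) : ℂ) * kC s := by
      have e1 : ∀ s : ℝ, ((g (x - s / b) - g x - g' x * ((x - s / b) - x) : ℝ) : ℂ) * kC s =
          (g (x - s / b) : ℂ) * kC s - (g x : ℂ) * kC s + ((g' x / b : ℝ) : ℂ) * ((s : ℂ) * kC s) := by
        intro s
        push_cast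
        ring
      simp_rw [e1]
      have i1 : Integrable fun s : ℝ => (g x : ℂ) * kC s := hint.const_mul _
      have i2 : Integrable fun s : ℝ => (g (x - s / b) : ℂ) * kC s - (g x : ℂ) * kC s :=
        hintg.sub i1
      have i3 : Integrable fun s : ℝ => ((g' x / b : ℝ) : ℂ) * ((s : ℂ) * kC s) :=
        hint1.const_mul _
      rw [integral_add i2 i3, integral_sub hintg i1, integral_const_mul, integral_const_mul,
        hline, hodd, ← hcv]
      ring
    rw [hdiff]
    have hpt : ∀ s : ℝ, ‖((g (x - s / b) - g x - g' x * ((x - s / b) - x) : ℝ) : ℂ) * kC s‖ ≤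
        8 * (1 + R ^ 2) * M * C / (b ^ 2 * (1 + x ^ 2)) * (1 + s ^ 2)⁻¹ := by
      intro s
      rw [norm_mul, Complex.norm_real, Real.norm_eq_abs, ← div_eq_mul_inv,
        le_div_iff₀ (by positivity)]
      have h1 := tay2 hR h x (x - s / b)
      have h2 := hbd s
      have h3 : (x - s / b - x) ^ 2 = s ^ 2 / b ^ 2 := by
        rw [← div_pow]; ring
      rw [h3] at h1
      calc |g (x - s / b) - g x - g' x * (x - s / b - x)| * ‖kC s‖ * (1 + s ^ 2) ≤
          (8 * (1 + R ^ 2) * M * (s ^ 2 / b ^ 2) / (1 + x ^ 2)) * ‖kC s‖ * (1 + s ^ 2) := by gcongr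
        _ ≤ (8 * (1 + R ^ 2) * M * ((1 + s ^ 2) / b ^ 2) / (1 + x ^ 2)) * ‖kC s‖ *
            (1 + s ^ 2) := by gcongr; linarith
        _ = 8 * (1 + R ^ 2) * M / (b ^ 2 * (1 + x ^ 2)) * (‖kC s‖ * (1 + s ^ 2) ^ 2) := by
            field_simp
        _ ≤ 8 * (1 + R ^ 2) * M / (b ^ 2 * (1 + x ^ 2)) * C := by gcongr
        _ = _ := by ring
    refine (norm_integral_le_of_norm_le ((integrable_inv_one_add_sq).const_mul _)
      (Eventually.of_forall hpt)).trans ?_
    rw [integral_const_mul, integral_univ_inv_one_add_sq, div_mul_eq_mul_div]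
    refine div_le_div_of_nonneg_right ?_ (by positivity)
    have : 0 ≤ C * M * Real.pi * (1 + R ^ 2) := by positivity
    nlinarith

end Pool.Agent.TH850.CL
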