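import Pool.Agent.TH850.CL.Defs2

set_option autoImplicit false

/-! # Project CL: second difference of the low pass filter with the Gaussian factor
(job CL-K2 of helper850, written by helper576) -/

namespace Pool.Agent.TH850.CL

open Complex MeasureTheory Set
open Pool.Agent.TH850.UV (om kC om_cont)

namespace K2

theorem hat_cont (R : ℝ) {g : ℝ → ℝ} (hg : Continuous g) : Continuous (hat R g) := by
  unfold hat
  apply intervalIntegral.continuous_parametric_intervalIntegral_of_continuous'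
  fun_prop

theorem hat_deriv {R : ℝ} {g g' : ℝ → ℝ} (hd : ∀ x, HasDerivAt g (g' x) x) (hc : Continuous g')
    (hR : g R = 0) (hR' : g (-R) = 0) (ξ : ℝ) :
    hat R g' ξ = 2 * Real.pi * ξ * I * hat R g ξ := by
  have hgc : Continuous g := continuous_iff_continuousAt.2 fun x => (hd x).continuousAt
  have h1 : ∀ x : ℝ, HasDerivAt (fun x : ℝ => (g x : ℂ) * cexp (-(2 * Real.pi * ξ * x * I)))
      ((g' x : ℂ) * cexp (-(2 * Real.pi * ξ * x * I)) -
        2 * Real.pi * ξ * I * ((g x : ℂ) * cexp (-(2 * Real.pi * ξ * x * I)))) x := by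
    intro x
    have e1 : HasDerivAt (fun x : ℝ => ((g x : ℝ) : ℂ)) ((g' x : ℝ) : ℂ) x := (hd x).ofReal_comp
    have e2 : HasDerivAt (fun x : ℝ => -(2 * Real.pi * ξ * (x : ℂ) * I)) (-(2 * Real.pi * ξ * I)) x := by
      have e3 : HasDerivAt (fun x : ℝ => (x : ℂ)) 1 x := Complex.ofRealCLM.hasDerivAt
      have e4 := ((e3.const_mul (2 * Real.pi * ξ : ℂ)).mul_const I).neg
      exact e4.congr_deriv (by ring)
    have e5 := e1.mul e2.cexp
    exact e5.congr_deriv (by ring)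
  have h2 : (∫ x in (-R)..R, ((g' x : ℂ) * cexp (-(2 * Real.pi * ξ * x * I)) -
        2 * Real.pi * ξ * I * ((g x : ℂ) * cexp (-(2 * Real.pi * ξ * x * I))))) = 0 := by
    rw [intervalIntegral.integral_eq_sub_of_hasDerivAt (fun x _ => h1 x)]
    · simp [hR, hR']
    · apply Continuous.intervalIntegrable
      fun_prop
  rw [intervalIntegral.integral_sub, intervalIntegral.integral_const_mul, sub_eq_zero] at h2
  · exact h2
  · apply Continuous.intervalIntegrable
    fun_prop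
  · apply Continuous.intervalIntegrable
    fun_prop

theorem gen_deriv (c : ℝ → ℂ) (hc : Continuous c) (b : ℝ) (z : ℂ) :
    HasDerivAt (fun w : ℂ => ∫ α in (-(1 / 2 : ℝ))..(1 / 2),
      c α * cexp (2 * Real.pi * α * b * w * I))
      (∫ α in (-(1 / 2 : ℝ))..(1 / 2),
        c α * (2 * Real.pi * α * b * I * cexp (2 * Real.pi * α * b * z * I))) z := by
  have hF : ∀ w : ℂ, Continuous fun α : ℝ => c α * cexp (2 * Real.pi * α * b * w * I) := by
    intro w; fun_prop
  have hF' : ∀ w : ℂ, Continuous fun α : ℝ =>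
      c α * (2 * Real.pi * α * b * I * cexp (2 * Real.pi * α * b * w * I)) := by
    intro w; fun_prop
  refine (intervalIntegral.hasDerivAt_integral_of_dominated_loc_of_deriv_le
    (F := fun (w : ℂ) (α : ℝ) => c α * cexp (2 * Real.pi * α * b * w * I))
    (F' := fun (w : ℂ) (α : ℝ) =>
      c α * (2 * Real.pi * α * b * I * cexp (2 * Real.pi * α * b * w * I)))
    (bound := fun α : ℝ => ‖c α‖ * (Real.pi * |b| * Real.exp (Real.pi * |b| * (‖z‖ + 1))))
    (Metric.ball_mem_nhds z one_pos) ?_ ?_ ?_ ?_ ?_ ?_).2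
  · exact Filter.Eventually.of_forall fun w => (hF w).aestronglyMeasurable
  · exact (hF z).intervalIntegrable _ _
  · exact (hF' z).aestronglyMeasurable
  · refine Filter.Eventually.of_forall fun α hα w hw => ?_
    rw [uIoc_of_le (by norm_num), mem_Ioc] at hα
    have hα2 : |α| ≤ 1 / 2 := abs_le.2 ⟨hα.1.le, hα.2⟩
    rw [norm_mul]
    refine mul_le_mul_of_nonneg_left ?_ (norm_nonneg _)
    rw [norm_mul, norm_exp]
    have h1 : ‖(2 * Real.pi * α * b * I : ℂ)‖ = 2 * Real.pi * |α| * |b| := by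
      simp [abs_of_pos Real.pi_pos]
    have h2 : (2 * Real.pi * α * b * w * I : ℂ).re = -(2 * Real.pi * α * b * w.im) := by
      have : (2 * Real.pi * α * b * w * I : ℂ) = ((2 * Real.pi * α * b : ℝ) : ℂ) * (w * I) := by
        push_cast; ring
      rw [this, Complex.re_ofReal_mul]
      simp
    rw [h1, h2]
    have hw1 : |w.im| ≤ ‖z‖ + 1 := by
      have h3 : ‖w‖ ≤ ‖z‖ + 1 := by
        have := norm_le_norm_add_norm_sub' w z
        rw [Metric.mem_ball, dist_eq_norm] at hw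
        linarith
      exact (Complex.abs_im_le_norm w).trans h3
    have hpi := Real.pi_pos
    have hb := abs_nonneg b
    have ha := abs_nonneg α
    refine mul_le_mul ?_ ?_ (Real.exp_pos _).le (by positivity)
    · nlinarith [mul_nonneg hpi.le hb]
    · apply Real.exp_le_exp.2
      calc -(2 * Real.pi * α * b * w.im) ≤ |2 * Real.pi * α * b * w.im| := neg_le_abs _
        _ = 2 * |α| * (Real.pi * |b| * |w.im|) := by
          rw [abs_mul, abs_mul, abs_mul, abs_mul, abs_of_pos hpi, abs_of_pos (by norm_num : (0:ℝ) < 2)]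
          ring
        _ ≤ 1 * (Real.pi * |b| * |w.im|) := by
          apply mul_le_mul_of_nonneg_right (by linarith) (by positivity)
        _ ≤ Real.pi * |b| * (‖z‖ + 1) := by
          rw [one_mul]
          exact mul_le_mul_of_nonneg_left hw1 (by positivity)
  · apply Continuous.intervalIntegrable
    fun_prop
  · refine Filter.Eventually.of_forall fun α _ w _ => ?_
    have e1 : HasDerivAt (fun w : ℂ => 2 * Real.pi * α * b * w * I) (2 * Real.pi * α * b * I) w := by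
      have := ((hasDerivAt_id w).const_mul (2 * Real.pi * α * b : ℂ)).mul_const I
      simpa using this
    have e2 := (e1.cexp).const_mul (c α)
    exact e2.congr_deriv (by ring)

theorem low_deriv {R b : ℝ} {g g' : ℝ → ℝ} (hd : ∀ x, HasDerivAt g (g' x) x) (hc : Continuous g')
    (hR : g R = 0) (hR' : g (-R) = 0) (z : ℂ) :
    HasDerivAt (low R b g) (low R b g' z) z := by
  have hgc : Continuous g := continuous_iff_continuousAt.2 fun x => (hd x).continuousAt
  have hhc := hat_cont R hgc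
  have hom := om_cont
  have h := gen_deriv (fun α : ℝ => (om α : ℂ) * (b * hat R g (b * α))) (by fun_prop) b z
  have e : (∫ α in (-(1 / 2 : ℝ))..(1 / 2), (om α : ℂ) * (b * hat R g (b * α)) *
      (2 * Real.pi * α * b * I * cexp (2 * Real.pi * α * b * z * I))) = low R b g' z := by
    unfold low
    apply intervalIntegral.integral_congr
    intro α _
    simp only
    rw [hat_deriv hd hc hR hR']
    push_cast
    ring
  rw [← e]
  exact h

/-- the second difference of a function of one real variable -/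
theorem second_diff (φ φ' φ'' : ℝ → ℂ) (h1 : ∀ u, HasDerivAt φ (φ' u) u)
    (h2 : ∀ u, HasDerivAt φ' (φ'' u) u) (h0 : φ' 0 = 0) {v K : ℝ} (hK : 0 ≤ K)
    (hb : ∀ u, |u| ≤ |v| → ‖φ'' u‖ ≤ K) : ‖φ v - φ 0‖ ≤ K * v ^ 2 := by
  have hs : Convex ℝ (Icc (-|v|) |v|) := convex_Icc _ _
  have hv0 := abs_nonneg v
  have m0 : (0 : ℝ) ∈ Icc (-|v|) |v| := ⟨by linarith, hv0⟩
  have mv : v ∈ Icc (-|v|) |v| := ⟨neg_abs_le v, le_abs_self v⟩
  have k1 : ∀ u ∈ Icc (-|v|) |v|, ‖φ' u‖ ≤ K * |v| := by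
    intro u hu
    have h := hs.norm_image_sub_le_of_norm_hasDerivWithin_le (f := φ') (f' := φ'')
      (fun x _ => (h2 x).hasDerivWithinAt) (fun x hx => hb x (abs_le.2 hx)) m0 hu
    rw [h0, sub_zero, sub_zero, Real.norm_eq_abs] at h
    refine h.trans (mul_le_mul_of_nonneg_left (abs_le.2 hu) hK)
  have h := hs.norm_image_sub_le_of_norm_hasDerivWithin_le (f := φ) (f' := φ')
      (fun x _ => (h1 x).hasDerivWithinAt) k1 m0 mv
  rw [sub_zero, Real.norm_eq_abs] at h
  refine h.trans (le_of_eq ?_)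
  rw [mul_assoc, ← sq, sq_abs]

/-- the Gaussian factor -/
noncomputable def G (κ : ℝ) (w : ℂ) : ℂ := cexp (-w ^ 2 / (2 * κ ^ 2))

theorem G_deriv {κ : ℝ} (hκ : 1 ≤ κ) (w : ℂ) :
    HasDerivAt (G κ) (-(w / κ ^ 2) * G κ w) w := by
  have hκ0 : (κ : ℂ) ≠ 0 := by exact_mod_cast (by linarith : κ ≠ 0)
  have e1 : HasDerivAt (fun w : ℂ => -w ^ 2 / (2 * κ ^ 2)) (-(w / κ ^ 2)) w := by
    have := ((hasDerivAt_pow 2 w).neg).div_const (2 * (κ : ℂ) ^ 2)
    refine this.congr_deriv ?_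
    have e0 : ((2 : ℕ) : ℂ) * w ^ (2 - 1) = 2 * w := by norm_num
    rw [e0, neg_div, mul_div_mul_left _ _ (two_ne_zero)]
  have e2 := e1.cexp
  exact e2.congr_deriv (by unfold G; ring)

theorem G_norm {κ : ℝ} (x v : ℝ) :
    ‖G κ (x + v * I)‖ = Real.exp (-(x ^ 2 - v ^ 2) / (2 * κ ^ 2)) := by
  unfold G
  rw [norm_exp]
  congr 1
  have : -((x : ℂ) + v * I) ^ 2 / (2 * κ ^ 2) =
      ((-(x ^ 2 - v ^ 2) / (2 * κ ^ 2) : ℝ) : ℂ) + ((-(2 * x * v) / (2 * κ ^ 2) : ℝ) : ℂ) * I := by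
    push_cast
    have : ((x : ℂ) + v * I) ^ 2 = x ^ 2 - v ^ 2 + 2 * x * v * I := by
      have hI : I ^ 2 = -1 := I_sq
      linear_combination (v : ℂ) ^ 2 * hI
    rw [this]
    ring
  rw [this, Complex.add_re, Complex.ofReal_re, Complex.re_ofReal_mul, I_re, mul_zero, add_zero]

/-- bounds for the Gaussian factor near the real axis -/
theorem G_bounds {κ : ℝ} (hκ : 1 ≤ κ) {x v : ℝ} (hv : |v| ≤ κ / 2) :
    ‖G κ (x + v * I)‖ ≤ 2 ∧ ‖-((x + v * I : ℂ) / κ ^ 2) * G κ (x + v * I)‖ ≤ 3 ∧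
      ‖(((x + v * I : ℂ) / κ ^ 2) ^ 2 - 1 / κ ^ 2) * G κ (x + v * I)‖ ≤ 5 := by
  have hκ0 : 0 < κ := by linarith
  obtain ⟨t, ht⟩ : ∃ t : ℝ, t = |x| / κ := ⟨_, rfl⟩
  have ht0 : 0 ≤ t := by rw [ht]; positivity
  have hxt : |x| = t * κ := by rw [ht]; field_simp
  have hx2 : x ^ 2 = t ^ 2 * κ ^ 2 := by rw [← sq_abs x, hxt]; ring
  have hv2 : v ^ 2 ≤ κ ^ 2 / 4 := by
    rw [← sq_abs v]
    nlinarith [abs_nonneg v]
  obtain ⟨E, hE⟩ : ∃ E : ℝ, E = Real.exp (-(t ^ 2 / 2)) := ⟨_, rfl⟩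
  have hE0 : 0 < E := by rw [hE]; exact Real.exp_pos _
  have hE1 : E ≤ 1 := by
    rw [hE]
    apply Real.exp_le_one_iff.2
    have := sq_nonneg t
    linarith
  have hE2 : t ^ 2 * E ≤ 2 := by
    have h1 := Real.add_one_le_exp (t ^ 2 / 2)
    have h2 : E * Real.exp (t ^ 2 / 2) = 1 := by
      rw [hE, ← Real.exp_add]
      simp
    nlinarith [mul_le_mul_of_nonneg_left h1 hE0.le]
  have hE3 : t * E ≤ 1 := by
    nlinarith [sq_nonneg (t - 1), mul_nonneg hE0.le (sq_nonneg (t - 1)),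
      mul_le_mul_of_nonneg_left (Real.add_one_le_exp (t ^ 2 / 2)) hE0.le,
      (by rw [hE, ← Real.exp_add]; simp : E * Real.exp (t ^ 2 / 2) = 1)]
  have h8 : Real.exp (1 / 8) ≤ 8 / 7 := by
    have h1 := Real.add_one_le_exp (-(1 / 8 : ℝ))
    have h2 : Real.exp (1 / 8) * Real.exp (-(1 / 8)) = 1 := by
      rw [← Real.exp_add]; simp
    have h3 := Real.exp_pos (1 / 8 : ℝ)
    nlinarith [mul_le_mul_of_nonneg_left h1 h3.le]
  have hG : ‖G κ (x + v * I)‖ ≤ 8 / 7 * E := by
    rw [G_norm]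
    have e1 : -(x ^ 2 - v ^ 2) / (2 * κ ^ 2) = -(t ^ 2 / 2) + v ^ 2 / (2 * κ ^ 2) := by
      rw [hx2]; field_simp; ring
    have e2 : v ^ 2 / (2 * κ ^ 2) ≤ 1 / 8 := by
      rw [div_le_iff₀ (by positivity)]; linarith
    rw [e1, Real.exp_add, ← hE, mul_comm]
    exact mul_le_mul_of_nonneg_right ((Real.exp_le_exp.2 e2).trans h8) hE0.le
  have hG0 := norm_nonneg (G κ (x + v * I))
  have hw : ‖((x : ℂ) + v * I) / κ ^ 2‖ ≤ t + 1 / 2 := by
    rw [norm_div, norm_pow, Complex.norm_real, Real.norm_eq_abs, abs_of_pos hκ0,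
      div_le_iff₀ (by positivity)]
    have h1 : ‖(x : ℂ) + v * I‖ ≤ |x| + |v| := by
      refine (norm_add_le _ _).trans ?_
      simp
    have h2 : κ ≤ κ ^ 2 := by nlinarith
    calc ‖(x : ℂ) + v * I‖ ≤ t * κ + κ / 2 := by rw [← hxt]; linarith
      _ = (t + 1 / 2) * κ := by ring
      _ ≤ (t + 1 / 2) * κ ^ 2 := mul_le_mul_of_nonneg_left h2 (by linarith)
  have hw0 := norm_nonneg (((x : ℂ) + v * I) / κ ^ 2)
  refine ⟨by linarith, ?_, ?_⟩
  · rw [norm_mul, norm_neg]
    calc ‖((x : ℂ) + v * I) / κ ^ 2‖ * ‖G κ (x + v * I)‖ ≤ (t + 1 / 2) * (8 / 7 * E) :=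
          mul_le_mul hw hG hG0 (by linarith)
      _ ≤ 3 := by nlinarith
  · rw [norm_mul]
    have h1 : ‖(((x : ℂ) + v * I) / κ ^ 2) ^ 2 - 1 / κ ^ 2‖ ≤ (t + 1 / 2) ^ 2 + 1 := by
      refine (norm_sub_le _ _).trans (add_le_add ?_ ?_)
      · rw [norm_pow]
        exact pow_le_pow_left₀ hw0 hw 2
      · rw [norm_div, norm_one, norm_pow, Complex.norm_real, Real.norm_eq_abs, abs_of_pos hκ0,
          div_le_one (by positivity)]
        nlinarith
    calc ‖(((x : ℂ) + v * I) / κ ^ 2) ^ 2 - 1 / κ ^ 2‖ * ‖G κ (x + v * I)‖ ≤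
          ((t + 1 / 2) ^ 2 + 1) * (8 / 7 * E) := mul_le_mul h1 hG hG0 (by positivity)
      _ ≤ 5 := by nlinarith

theorem line_deriv {f f' : ℂ → ℂ} (h : ∀ z, HasDerivAt f (f' z) z) (x : ℂ) (c : ℂ) (u : ℝ) :
    HasDerivAt (fun u : ℝ => f (x + u * c)) (c * f' (x + u * c)) u := by
  have e1 : HasDerivAt (fun u : ℝ => x + (u : ℂ) * c) c u := by
    have e3 : HasDerivAt (fun u : ℝ => (u : ℂ)) 1 u := Complex.ofRealCLM.hasDerivAt
    have := (e3.mul_const c).const_add x
    simpa using this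
  have e2 := (h (x + u * c)).comp u e1
  rw [mul_comm]
  exact e2

end K2

open K2

theorem k2 (h : S_K1) : S_K2 := by
  intro R hR
  obtain ⟨C, hC, H⟩ := h R hR
  refine ⟨2 * (16 * C), by positivity, ?_⟩
  intro b κ hb hκ M g g' g'' hg x v hv
  have hb0 : 0 < b := by linarith
  have hM : 0 ≤ M := (abs_nonneg _).trans (hg.bd 0).1
  have cg : Continuous g := continuous_iff_continuousAt.2 fun x => (hg.d1 x).continuousAt
  have cg' : Continuous g' := continuous_iff_continuousAt.2 fun x => (hg.d2 x).continuousAt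
  have hRa : R ≤ |R| := le_abs_self R
  have hRa' : R ≤ |(-R)| := by rw [abs_neg]; exact hRa
  have b0 := (H b hb M g cg fun y => (hg.bd y).1).2.1
  have b1 := (H b hb M g' cg' fun y => (hg.bd y).2.1).2.1
  have b2 := (H b hb M g'' hg.cont fun y => (hg.bd y).2.2).2.1
  have d0 : ∀ z, HasDerivAt (low R b g) (low R b g' z) z := fun z =>
    low_deriv hg.d1 cg' (hg.supp R hRa).1 (hg.supp (-R) hRa').1 z
  have d1 : ∀ z, HasDerivAt (low R b g') (low R b g'' z) z := fun z =>
    low_deriv hg.d2 hg.cont (hg.supp R hRa).2.1 (hg.supp (-R) hRa').2.1 z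
  -- the function and its derivatives
  obtain ⟨F1, hF1⟩ : ∃ F1 : ℂ → ℂ, F1 = fun w =>
      -(w / κ ^ 2) * G κ w * low R b g w + G κ w * low R b g' w := ⟨_, rfl⟩
  obtain ⟨F2, hF2⟩ : ∃ F2 : ℂ → ℂ, F2 = fun w =>
      ((w / κ ^ 2) ^ 2 - 1 / κ ^ 2) * G κ w * low R b g w +
        2 * (-(w / κ ^ 2) * G κ w * low R b g' w) + G κ w * low R b g'' w := ⟨_, rfl⟩
  have D0 : ∀ w, HasDerivAt (Hk κ R b g) (F1 w) w := by
    intro w
    have := (G_deriv hκ w).mul (d0 w)
    rw [hF1]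
    exact this
  have D1 : ∀ w, HasDerivAt F1 (F2 w) w := by
    intro w
    rw [hF1, hF2]
    have e1 : HasDerivAt (fun w : ℂ => -(w / (κ : ℂ) ^ 2)) (-(1 / (κ : ℂ) ^ 2)) w :=
      ((hasDerivAt_id w).div_const _).neg
    have e2 := ((e1.mul (G_deriv hκ w)).mul (d0 w)).add ((G_deriv hκ w).mul (d1 w))
    exact e2.congr_deriv (by simp only [Pi.mul_apply]; ring)
  -- bound for the second derivative
  have hbd : ∀ u : ℝ, |u| ≤ |v| → ‖F2 (x + u * I)‖ ≤
      16 * C * M * Real.exp (Real.pi * b * |v|) / (1 + x ^ 2) := by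
    intro u hu
    obtain ⟨g0, g1, g2⟩ := G_bounds hκ (x := x) (v := u) (hu.trans hv)
    obtain ⟨B, hB⟩ : ∃ B : ℝ, B = C * M * Real.exp (Real.pi * b * |v|) / (1 + x ^ 2) := ⟨_, rfl⟩
    have hB0 : 0 ≤ B := by rw [hB]; positivity
    have hle : ∀ f : ℝ → ℝ, (∀ z : ℂ, ‖low R b f z‖ ≤
        C * M * Real.exp (Real.pi * b * |z.im|) / (1 + z.re ^ 2)) →
        ‖low R b f (x + u * I)‖ ≤ B := by
      intro f hf
      refine (hf _).trans ?_
      have e1 : ((x : ℂ) + u * I).im = u := by simp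
      have e2 : ((x : ℂ) + u * I).re = x := by simp
      rw [e1, e2, hB]
      apply div_le_div_of_nonneg_right _ (by positivity)
      apply mul_le_mul_of_nonneg_left _ (by positivity)
      apply Real.exp_le_exp.2
      exact mul_le_mul_of_nonneg_left hu (by positivity)
    have l0 := hle g b0
    have l1 := hle g' b1
    have l2 := hle g'' b2
    have e : 16 * C * M * Real.exp (Real.pi * b * |v|) / (1 + x ^ 2) = 16 * B := by
      rw [hB]; ring
    rw [e, hF2]
    simp only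
    refine (norm_add_le _ _).trans ?_
    have n1 : ‖((((x : ℂ) + u * I) / κ ^ 2) ^ 2 - 1 / κ ^ 2) * G κ (x + u * I) *
        low R b g (x + u * I)‖ ≤ 5 * B := by
      rw [norm_mul]
      exact mul_le_mul g2 l0 (norm_nonneg _) (by norm_num)
    have n2 : ‖2 * (-(((x : ℂ) + u * I) / κ ^ 2) * G κ (x + u * I) * low R b g' (x + u * I))‖ ≤
        2 * (3 * B) := by
      rw [norm_mul, norm_mul, Complex.norm_ofNat]
      apply mul_le_mul_of_nonneg_left _ (by norm_num)
      exact mul_le_mul g1 l1 (norm_nonneg _) (by norm_num)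
    have n3 : ‖G κ (x + u * I) * low R b g'' (x + u * I)‖ ≤ 2 * B := by
      rw [norm_mul]
      exact mul_le_mul g0 l2 (norm_nonneg _) (by norm_num)
    have n4 := norm_add_le (((((x : ℂ) + u * I) / κ ^ 2) ^ 2 - 1 / κ ^ 2) * G κ (x + u * I) *
        low R b g (x + u * I)) (2 * (-(((x : ℂ) + u * I) / κ ^ 2) * G κ (x + u * I) *
          low R b g' (x + u * I)))
    linarith
  -- the second difference
  have key := second_diff (fun u : ℝ => Hk κ R b g (x + u * I) + Hk κ R b g (x + u * (-I)))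
    (fun u : ℝ => I * F1 (x + u * I) + -I * F1 (x + u * (-I)))
    (fun u : ℝ => I * (I * F2 (x + u * I)) + -I * (-I * F2 (x + u * (-I))))
    (fun u => (line_deriv D0 x I u).add (line_deriv D0 x (-I) u))
    (fun u => ((line_deriv D1 x I u).const_mul I).add ((line_deriv D1 x (-I) u).const_mul (-I)))
    (by simp) (v := v)
    (K := 2 * (16 * C * M * Real.exp (Real.pi * b * |v|) / (1 + x ^ 2))) (by positivity) (by
      intro u hu
      have h1 := hbd u hu
      have h2 := hbd (-u) (by rw [abs_neg]; exact hu)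
      have e1 : I * (I * F2 (x + u * I)) = -F2 (x + u * I) := by
        rw [← mul_assoc, I_mul_I]; ring
      have e2 : -I * (-I * F2 (x + u * (-I))) = -F2 (x + (-u : ℝ) * I) := by
        have : (x : ℂ) + u * (-I) = x + (-u : ℝ) * I := by push_cast; ring
        rw [this, ← mul_assoc, neg_mul_neg, I_mul_I]; ring
      rw [e1, e2]
      refine (norm_add_le _ _).trans ?_
      rw [norm_neg, norm_neg]
      linarith)
  have e3 : Hk κ R b g (x + v * I) + Hk κ R b g (x - v * I) - 2 * Hk κ R b g x =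
      (Hk κ R b g (x + v * I) + Hk κ R b g (x + v * (-I))) -
        (Hk κ R b g (x + (0 : ℝ) * I) + Hk κ R b g (x + (0 : ℝ) * (-I))) := by
    have a1 : (x : ℂ) + v * (-I) = x - v * I := by ring
    have a2 : (x : ℂ) + (0 : ℝ) * I = x := by simp
    have a3 : (x : ℂ) + (0 : ℝ) * (-I) = x := by simp
    rw [a1, a2, a3]
    ring
  rw [e3]
  refine key.trans (le_of_eq ?_)
  ring

end Pool.Agent.TH850.CL
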