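import Pool.Agent.TH850.CL.Defs
import Pool.Agent.H370R2.NT

/-!
# CL-N1: sums of a smooth function over the primes and the prime powers
(job 3607 of helper850, written by helper643)
-/

set_option autoImplicit false

open ArithmeticFunction MeasureTheory Set

namespace Pool.Agent.TH850.CL

namespace N1

/-- the integrated derivative bound -/
theorem var {F F' : ℝ → ℝ} {M : ℝ} (h1 : ∀ v, 0 ≤ v → HasDerivAt F (F' v) v)
    (h3 : ∀ v, 0 ≤ v → |F' v| ≤ M / (1 + v) ^ 2) {a b : ℝ} (ha : 0 ≤ a) (hab : a ≤ b) :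
    |F b - F a| ≤ M * (1 / (1 + a) - 1 / (1 + b)) := by
  have hd : ∀ v : ℝ, 0 ≤ v → HasDerivAt (fun v => M * (1 / (1 + a) - 1 / (1 + v)))
      (M / (1 + v) ^ 2) v := by
    intro v hv
    have hv1 : (1 + v) ≠ 0 := by linarith
    have e1 : HasDerivAt (fun v : ℝ => 1 + v) 1 v := (hasDerivAt_id v).const_add 1
    have e2 := (e1.inv hv1).const_sub (1 / (1 + a))
    have e3 := e2.const_mul M
    have e4 : (fun y => M * (1 / (1 + a) - (fun v : ℝ => 1 + v)⁻¹ y)) =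
        fun v => M * (1 / (1 + a) - 1 / (1 + v)) := by
      funext w
      simp only [one_div, Pi.inv_apply]
    have e5 : M * -(-1 / (1 + v) ^ 2) = M / (1 + v) ^ 2 := by ring
    rw [e4, e5] at e3
    exact e3
  have key := image_norm_le_of_norm_deriv_right_le_deriv_boundary' (f := fun v => F v - F a)
    (f' := F') (a := a) (b := b)
    (fun v hv => ((h1 v (ha.trans hv.1)).continuousAt.sub continuousAt_const).continuousWithinAt)
    (fun v hv => ((h1 v (ha.trans hv.1)).sub_const (F a)).hasDerivWithinAt)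
    (B := fun v => M * (1 / (1 + a) - 1 / (1 + v))) (B' := fun v => M / (1 + v) ^ 2)
    (by simp) (fun v hv => (hd v (ha.trans hv.1)).continuousAt.continuousWithinAt)
    (fun v hv => (hd v (ha.trans hv.1)).hasDerivWithinAt)
    (fun v hv => by rw [Real.norm_eq_abs]; exact h3 v (ha.trans hv.1))
    (right_mem_Icc.2 hab)
  rwa [Real.norm_eq_abs] at key

theorem M_nonneg {F : ℝ → ℝ} {M : ℝ} (h2 : ∀ v, 0 ≤ v → |F v| ≤ M) : 0 ≤ M :=
  (abs_nonneg _).trans (h2 0 le_rfl)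

theorem var2 {F F' : ℝ → ℝ} {M : ℝ} (hM : 0 ≤ M) (h1 : ∀ v, 0 ≤ v → HasDerivAt F (F' v) v)
    (h3 : ∀ v, 0 ≤ v → |F' v| ≤ M / (1 + v) ^ 2) {a b : ℝ} (ha : 0 ≤ a) (hab : a ≤ b) :
    |F b - F a| ≤ M * (b - a) := by
  refine (var h1 h3 ha hab).trans (mul_le_mul_of_nonneg_left ?_ hM)
  have ha1 : 0 < 1 + a := by linarith
  have hb1 : 0 < 1 + b := by linarith
  rw [div_sub_div _ _ ha1.ne' hb1.ne', div_le_iff₀ (mul_pos ha1 hb1)]
  have : 1 ≤ (1 + a) * (1 + b) := by nlinarith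
  nlinarith

theorem ii {F F' : ℝ → ℝ} (h1 : ∀ v, 0 ≤ v → HasDerivAt F (F' v) v) {a b : ℝ} (ha : 0 ≤ a)
    (hab : a ≤ b) : IntervalIntegrable F volume a b := by
  apply ContinuousOn.intervalIntegrable
  intro v hv
  rw [uIcc_of_le hab] at hv
  exact (h1 v (ha.trans hv.1)).continuousAt.continuousWithinAt

theorem rstep {F F' : ℝ → ℝ} {M : ℝ} (hM : 0 ≤ M) (h1 : ∀ v, 0 ≤ v → HasDerivAt F (F' v) v)
    (h3 : ∀ v, 0 ≤ v → |F' v| ≤ M / (1 + v) ^ 2) {a b : ℝ} (ha : 0 ≤ a) (hab : a ≤ b) :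
    |(b - a) * F b - ∫ v in a..b, F v| ≤ M * (b - a) ^ 2 := by
  have e1 : (b - a) * F b - ∫ v in a..b, F v = ∫ v in a..b, (F b - F v) := by
    rw [intervalIntegral.integral_sub intervalIntegrable_const (ii h1 ha hab),
      intervalIntegral.integral_const, smul_eq_mul]
  rw [e1, ← Real.norm_eq_abs]
  refine (intervalIntegral.norm_integral_le_of_norm_le_const (C := M * (b - a)) ?_).trans ?_
  · intro v hv
    rw [uIoc_of_le hab] at hv
    rw [Real.norm_eq_abs]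
    refine (var2 hM h1 h3 (ha.trans hv.1.le) hv.2).trans ?_
    exact mul_le_mul_of_nonneg_left (by linarith [hv.1]) hM
  · rw [abs_of_nonneg (by linarith)]
    apply le_of_eq
    ring

/-- `log n - log (n - 1)` -/
noncomputable def el (n : ℕ) : ℝ := Real.log n - Real.log ((n - 1 : ℕ) : ℝ)

theorem el_sum (N : ℕ) : ∑ n ∈ Finset.Icc 1 N, el n = Real.log N := by
  induction N with
  | zero => simp
  | succ N ih =>
    rw [Finset.sum_Icc_succ_top (by omega), ih]
    simp [el]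

theorem riem {F F' : ℝ → ℝ} {M : ℝ} (hM : 0 ≤ M) (h1 : ∀ v, 0 ≤ v → HasDerivAt F (F' v) v)
    (h3 : ∀ v, 0 ≤ v → |F' v| ≤ M / (1 + v) ^ 2) {θ : ℝ} (hθ : 0 < θ) (X : ℕ) (hX : 1 ≤ X) :
    |θ * (∑ n ∈ Finset.Icc 1 X, el n * F (θ * Real.log n)) -
      ∫ v in (0 : ℝ)..(θ * Real.log X), F v| ≤ 2 * M * θ ^ 2 * (1 - 1 / X) := by
  induction X, hX using Nat.le_induction with
  | base => simp [el]
  | succ X hX ih =>
    have hX0 : (0 : ℝ) < X := by exact_mod_cast hX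
    have hX1 : (1 : ℝ) ≤ X := by exact_mod_cast hX
    have hl0 : 0 ≤ Real.log X := Real.log_nonneg hX1
    have hl1 : Real.log X ≤ Real.log ((X + 1 : ℕ) : ℝ) := by
      apply Real.log_le_log hX0
      push_cast
      linarith
    have hl2 : Real.log ((X + 1 : ℕ) : ℝ) - Real.log X ≤ 1 / X := by
      rw [← Real.log_div (by positivity) (by positivity)]
      have := Real.log_le_sub_one_of_pos (x := ((X + 1 : ℕ) : ℝ) / X) (by positivity)
      have h5 : ((X + 1 : ℕ) : ℝ) / X - 1 = 1 / X := by push_cast; field_simp; ring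
      linarith
    have ha : 0 ≤ θ * Real.log X := by positivity
    have hab : θ * Real.log X ≤ θ * Real.log ((X + 1 : ℕ) : ℝ) :=
      mul_le_mul_of_nonneg_left hl1 hθ.le
    rw [Finset.sum_Icc_succ_top (by omega), ← intervalIntegral.integral_add_adjacent_intervals
      (ii h1 le_rfl ha) (ii h1 ha hab)]
    have hst := rstep hM h1 h3 ha hab
    have e1 : θ * (∑ n ∈ Finset.Icc 1 X, el n * F (θ * Real.log n) +
        el (X + 1) * F (θ * Real.log ((X + 1 : ℕ) : ℝ))) -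
        ((∫ v in (0 : ℝ)..(θ * Real.log X), F v) +
          ∫ v in (θ * Real.log X)..(θ * Real.log ((X + 1 : ℕ) : ℝ)), F v) =
        (θ * (∑ n ∈ Finset.Icc 1 X, el n * F (θ * Real.log n)) -
          ∫ v in (0 : ℝ)..(θ * Real.log X), F v) +
        ((θ * Real.log ((X + 1 : ℕ) : ℝ) - θ * Real.log X) * F (θ * Real.log ((X + 1 : ℕ) : ℝ)) -
          ∫ v in (θ * Real.log X)..(θ * Real.log ((X + 1 : ℕ) : ℝ)), F v) := by
      have : el (X + 1) = Real.log ((X + 1 : ℕ) : ℝ) - Real.log X := by simp [el]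
      rw [this]
      ring
    rw [e1]
    refine (abs_add_le _ _).trans ((add_le_add ih hst).trans ?_)
    have h4 : (θ * Real.log ((X + 1 : ℕ) : ℝ) - θ * Real.log X) ^ 2 ≤ θ ^ 2 * (1 / X) ^ 2 := by
      have : θ * Real.log ((X + 1 : ℕ) : ℝ) - θ * Real.log X =
          θ * (Real.log ((X + 1 : ℕ) : ℝ) - Real.log X) := by ring
      rw [this, mul_pow]
      exact mul_le_mul_of_nonneg_left (pow_le_pow_left₀ (by linarith) hl2 2) (by positivity)
    have h5 : (1 / (X : ℝ)) ^ 2 ≤ 2 * (1 / X - 1 / ((X + 1 : ℕ) : ℝ)) := by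
      push_cast
      rw [div_sub_div _ _ hX0.ne' (by positivity), one_div, inv_pow, ← one_div, ← mul_div_assoc,
        div_le_div_iff₀ (by positivity) (by positivity)]
      nlinarith
    have h6 : M * (θ * Real.log ((X + 1 : ℕ) : ℝ) - θ * Real.log X) ^ 2 ≤
        M * (θ ^ 2 * (2 * (1 / X - 1 / ((X + 1 : ℕ) : ℝ)))) :=
      mul_le_mul_of_nonneg_left (h4.trans (mul_le_mul_of_nonneg_left h5 (by positivity))) hM
    linarith

theorem abel {F F' : ℝ → ℝ} {M : ℝ} (h1 : ∀ v, 0 ≤ v → HasDerivAt F (F' v) v)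
    (h2 : ∀ v, 0 ≤ v → |F v| ≤ M)
    (h3 : ∀ v, 0 ≤ v → |F' v| ≤ M / (1 + v) ^ 2) {θ : ℝ} (hθ : 0 < θ) (X : ℕ) (hX : 1 ≤ X) :
    |(∑ n ∈ Finset.Icc 1 X, vonMangoldt n / n * F (θ * Real.log n)) -
      ∑ n ∈ Finset.Icc 1 X, el n * F (θ * Real.log n)| ≤ 12 * M := by
  have hM := M_nonneg h2
  have hR : ∀ N : ℕ, 1 ≤ N →
      |∑ n ∈ Finset.Icc 1 N, vonMangoldt n / n - Real.log N| ≤ 6 := by
    intro N hN
    have r1 := _root_.H370.nt_mertens_lower N hN
    have r2 := _root_.H370.nt_mertens_upper N hN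
    rw [abs_le]
    constructor <;> linarith
  have hA := _root_.H370.nt_abel (fun n => vonMangoldt n / n) (fun n => F (θ * Real.log n)) X hX
  have hB := _root_.H370.nt_abel el (fun n => F (θ * Real.log n)) X hX
  simp only [el_sum] at hB
  have hTV : ∑ n ∈ Finset.Ico 1 X, |F (θ * Real.log ((n + 1 : ℕ) : ℝ)) - F (θ * Real.log n)| ≤
      M := by
    have key : ∀ n ∈ Finset.Ico 1 X,
        |F (θ * Real.log ((n + 1 : ℕ) : ℝ)) - F (θ * Real.log n)| ≤
        (-(M * (1 / (1 + θ * Real.log ((n + 1 : ℕ) : ℝ))))) -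
          (-(M * (1 / (1 + θ * Real.log n)))) := by
      intro n hn
      have hn1 : 1 ≤ n := (Finset.mem_Ico.1 hn).1
      have hn0 : (0 : ℝ) < n := by exact_mod_cast hn1
      have hn2 : (1 : ℝ) ≤ n := by exact_mod_cast hn1
      have hl0 : 0 ≤ Real.log n := Real.log_nonneg hn2
      have hl1 : Real.log n ≤ Real.log ((n + 1 : ℕ) : ℝ) := by
        apply Real.log_le_log hn0
        push_cast
        linarith
      refine (var h1 h3 (by positivity) (mul_le_mul_of_nonneg_left hl1 hθ.le)).trans (le_of_eq ?_)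
      ring
    refine (Finset.sum_le_sum key).trans ?_
    rw [Finset.sum_Ico_sub (fun n : ℕ => -(M * (1 / (1 + θ * Real.log (n : ℝ))))) hX]
    have hl : 0 ≤ Real.log X := Real.log_nonneg (by exact_mod_cast hX)
    have : 0 ≤ M * (1 / (1 + θ * Real.log X)) := by positivity
    simp only [Nat.cast_one, Real.log_one, mul_zero, add_zero, div_one, mul_one]
    linarith
  rw [hA, hB]
  have e1 : (∑ n ∈ Finset.Icc 1 X, vonMangoldt n / (n : ℝ)) * F (θ * Real.log X) -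
      ∑ n ∈ Finset.Ico 1 X, (∑ k ∈ Finset.Icc 1 n, vonMangoldt k / (k : ℝ)) *
        (F (θ * Real.log ((n + 1 : ℕ) : ℝ)) - F (θ * Real.log n)) -
      (Real.log X * F (θ * Real.log X) - ∑ n ∈ Finset.Ico 1 X, Real.log n *
        (F (θ * Real.log ((n + 1 : ℕ) : ℝ)) - F (θ * Real.log n))) =
      (∑ n ∈ Finset.Icc 1 X, vonMangoldt n / (n : ℝ) - Real.log X) * F (θ * Real.log X) -
      ∑ n ∈ Finset.Ico 1 X, ((∑ k ∈ Finset.Icc 1 n, vonMangoldt k / (k : ℝ)) -
        Real.log n) * (F (θ * Real.log ((n + 1 : ℕ) : ℝ)) - F (θ * Real.log n)) := by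
    simp only [sub_mul, Finset.sum_sub_distrib]
    ring
  rw [e1]
  refine (abs_sub _ _).trans ?_
  have hl : 0 ≤ Real.log X := Real.log_nonneg (by exact_mod_cast hX)
  have t1 : |(∑ n ∈ Finset.Icc 1 X, vonMangoldt n / (n : ℝ) - Real.log X) *
      F (θ * Real.log X)| ≤ 6 * M := by
    rw [abs_mul]
    exact mul_le_mul (hR X hX) (h2 _ (by positivity)) (abs_nonneg _) (by norm_num)
  have t2 : |∑ n ∈ Finset.Ico 1 X,
      ((∑ k ∈ Finset.Icc 1 n, vonMangoldt k / (k : ℝ)) -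
        Real.log n) * (F (θ * Real.log ((n + 1 : ℕ) : ℝ)) - F (θ * Real.log n))| ≤ 6 * M := by
    refine (Finset.abs_sum_le_sum_abs _ _).trans ?_
    have t3 : ∀ n ∈ Finset.Ico 1 X,
        |((∑ k ∈ Finset.Icc 1 n, vonMangoldt k / (k : ℝ)) -
        Real.log n) * (F (θ * Real.log ((n + 1 : ℕ) : ℝ)) - F (θ * Real.log n))| ≤
        6 * |F (θ * Real.log ((n + 1 : ℕ) : ℝ)) - F (θ * Real.log n)| := by
      intro n hn
      rw [abs_mul]
      exact mul_le_mul_of_nonneg_right (hR n (Finset.mem_Ico.mp hn).1) (abs_nonneg _)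
    refine (Finset.sum_le_sum t3).trans ?_
    rw [← Finset.mul_sum]
    linarith
  linarith

open Classical in
/-- the part of the non-primes -/
theorem npsum (X : ℕ) (hX : 1 ≤ X) :
    ∑ n ∈ Finset.Icc 1 X, (if n.Prime then 0 else vonMangoldt n) * (1 / (n : ℝ)) ≤
      8 + 8 * ∑' n : ℕ, 1 / (n : ℝ) ^ (5 / 4 : ℝ) := by
  have hA : ∀ N : ℕ, 1 ≤ N → ∑ n ∈ Finset.Icc 1 N, (if n.Prime then 0 else vonMangoldt n) ≤
      8 * (N : ℝ) ^ (3 / 4 : ℝ) := by
    intro N hN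
    have hN0 : (0 : ℝ) < N := by exact_mod_cast hN
    have hN1 : (1 : ℝ) ≤ N := by exact_mod_cast hN
    have g1 := Chebyshev.psi_sub_theta_le hN1
    rw [Chebyshev.psi_sub_theta_eq_sum_not_prime, Nat.floor_natCast] at g1
    have g2 : ∑ n ∈ Finset.Icc 1 N, (if n.Prime then 0 else vonMangoldt n) =
        ∑ n ∈ Finset.Ioc 0 N with ¬n.Prime, vonMangoldt n := by
      rw [Finset.sum_filter]
      refine Finset.sum_congr rfl fun n _ => ?_
      by_cases h : n.Prime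
      · rw [if_pos h, if_neg (not_not.2 h)]
      · rw [if_neg h, if_pos h]
    rw [g2]
    refine g1.trans ?_
    have g3 : Real.log N ≤ 4 * (N : ℝ) ^ (1 / 4 : ℝ) := by
      have := Real.log_le_rpow_div hN0.le (show (0 : ℝ) < 1 / 4 by norm_num)
      linarith
    have g4 : √(N : ℝ) = (N : ℝ) ^ (1 / 2 : ℝ) := Real.sqrt_eq_rpow _
    rw [g4]
    calc 2 * (N : ℝ) ^ (1 / 2 : ℝ) * Real.log N ≤
          2 * (N : ℝ) ^ (1 / 2 : ℝ) * (4 * (N : ℝ) ^ (1 / 4 : ℝ)) :=
          mul_le_mul_of_nonneg_left g3 (by positivity)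
      _ = 8 * ((N : ℝ) ^ (1 / 2 : ℝ) * (N : ℝ) ^ (1 / 4 : ℝ)) := by ring
      _ = 8 * (N : ℝ) ^ (3 / 4 : ℝ) := by
          rw [← Real.rpow_add hN0]
          norm_num
  rw [_root_.H370.nt_abel _ (fun n => 1 / (n : ℝ)) X hX]
  have hX0 : (0 : ℝ) < X := by exact_mod_cast hX
  have hX1 : (1 : ℝ) ≤ X := by exact_mod_cast hX
  have t1 : (∑ n ∈ Finset.Icc 1 X, (if n.Prime then 0 else vonMangoldt n)) * (1 / (X : ℝ)) ≤ 8 := by
    refine (mul_le_mul_of_nonneg_right (hA X hX) (by positivity)).trans ?_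
    rw [mul_one_div, div_le_iff₀ hX0]
    have : (X : ℝ) ^ (3 / 4 : ℝ) ≤ (X : ℝ) ^ (1 : ℝ) :=
      Real.rpow_le_rpow_of_exponent_le hX1 (by norm_num)
    rw [Real.rpow_one] at this
    linarith
  have t2 : -(∑ n ∈ Finset.Ico 1 X, (∑ k ∈ Finset.Icc 1 n,
      (if k.Prime then 0 else vonMangoldt k)) * (1 / ((n + 1 : ℕ) : ℝ) - 1 / (n : ℝ))) ≤
      8 * ∑' n : ℕ, 1 / (n : ℝ) ^ (5 / 4 : ℝ) := by
    rw [← Finset.sum_neg_distrib]
    have key : ∀ n ∈ Finset.Ico 1 X, -((∑ k ∈ Finset.Icc 1 n,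
        (if k.Prime then 0 else vonMangoldt k)) * (1 / ((n + 1 : ℕ) : ℝ) - 1 / (n : ℝ))) ≤
        8 * (1 / (n : ℝ) ^ (5 / 4 : ℝ)) := by
      intro n hn
      have hn1 : 1 ≤ n := (Finset.mem_Ico.1 hn).1
      have hn0 : (0 : ℝ) < n := by exact_mod_cast hn1
      have e1 : 1 / (n : ℝ) - 1 / ((n + 1 : ℕ) : ℝ) ≤ 1 / (n : ℝ) ^ (2 : ℝ) := by
        push_cast
        rw [Real.rpow_two, div_sub_div _ _ hn0.ne' (by positivity),
          div_le_div_iff₀ (by positivity) (by positivity)]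
        nlinarith
      have e2 : 0 ≤ 1 / (n : ℝ) - 1 / ((n + 1 : ℕ) : ℝ) := by
        rw [sub_nonneg]
        apply one_div_le_one_div_of_le hn0
        push_cast
        linarith
      have e3 : 0 ≤ 8 * (n : ℝ) ^ (3 / 4 : ℝ) := by positivity
      calc -((∑ k ∈ Finset.Icc 1 n, (if k.Prime then 0 else vonMangoldt k)) *
            (1 / ((n + 1 : ℕ) : ℝ) - 1 / (n : ℝ))) =
            (∑ k ∈ Finset.Icc 1 n, (if k.Prime then 0 else vonMangoldt k)) *
            (1 / (n : ℝ) - 1 / ((n + 1 : ℕ) : ℝ)) := by ring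
        _ ≤ (8 * (n : ℝ) ^ (3 / 4 : ℝ)) * (1 / (n : ℝ) ^ (2 : ℝ)) :=
            mul_le_mul (hA n hn1) e1 e2 e3
        _ = 8 * (1 / (n : ℝ) ^ (5 / 4 : ℝ)) := by
            have : (n : ℝ) ^ (2 : ℝ) = (n : ℝ) ^ (3 / 4 : ℝ) * (n : ℝ) ^ (5 / 4 : ℝ) := by
              rw [← Real.rpow_add hn0]
              norm_num
            rw [this]
            have e5 : (n : ℝ) ^ (3 / 4 : ℝ) ≠ 0 := (Real.rpow_pos_of_pos hn0 _).ne'
            have e6 : (n : ℝ) ^ (5 / 4 : ℝ) ≠ 0 := (Real.rpow_pos_of_pos hn0 _).ne'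
            field_simp
    refine (Finset.sum_le_sum key).trans ?_
    rw [← Finset.mul_sum]
    refine mul_le_mul_of_nonneg_left ?_ (by norm_num)
    exact (Real.summable_one_div_nat_rpow.2 (by norm_num)).sum_le_tsum _
      (fun n _ => by positivity)
  linarith

end N1

open N1 in
/-- CL-N1 -/
theorem n1 : S_N1 := by
  classical
  have hD : 0 ≤ ∑' n : ℕ, 1 / (n : ℝ) ^ (5 / 4 : ℝ) := tsum_nonneg fun n => by positivity
  refine ⟨22 + 8 * ∑' n : ℕ, 1 / (n : ℝ) ^ (5 / 4 : ℝ), by linarith, ?_⟩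
  intro F F' M h1 h2 h3 θ hθ hθ1 X hX
  have hM := M_nonneg h2
  have hX0 : (0 : ℝ) < X := by exact_mod_cast hX
  have a1 := abel h1 h2 h3 hθ X hX
  have a2 := riem hM h1 h3 hθ X hX
  have hfirst : |θ * (∑ n ∈ Finset.Icc 1 X, vonMangoldt n / n * F (θ * Real.log n)) -
      ∫ v in (0 : ℝ)..(θ * Real.log X), F v| ≤ 14 * M * θ := by
    have e1 : θ * (∑ n ∈ Finset.Icc 1 X, vonMangoldt n / n * F (θ * Real.log n)) -
        ∫ v in (0 : ℝ)..(θ * Real.log X), F v =
        θ * ((∑ n ∈ Finset.Icc 1 X, vonMangoldt n / n * F (θ * Real.log n)) -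
          ∑ n ∈ Finset.Icc 1 X, el n * F (θ * Real.log n)) +
        (θ * (∑ n ∈ Finset.Icc 1 X, el n * F (θ * Real.log n)) -
          ∫ v in (0 : ℝ)..(θ * Real.log X), F v) := by ring
    rw [e1]
    refine (abs_add_le _ _).trans ?_
    rw [abs_mul, abs_of_pos hθ]
    have b1 := mul_le_mul_of_nonneg_left a1 hθ.le
    have b2 : 2 * M * θ ^ 2 * (1 - 1 / (X : ℝ)) ≤ 2 * M * θ := by
      have c1 : 1 - 1 / (X : ℝ) ≤ 1 := by
        have : 0 ≤ 1 / (X : ℝ) := by positivity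
        linarith
      have c2 : 2 * M * θ ^ 2 * (1 - 1 / (X : ℝ)) ≤ 2 * M * θ ^ 2 * 1 :=
        mul_le_mul_of_nonneg_left c1 (by positivity)
      have c3 : θ ^ 2 ≤ θ := by nlinarith
      have c4 : 2 * M * θ ^ 2 ≤ 2 * M * θ := mul_le_mul_of_nonneg_left c3 (by positivity)
      linarith
    linarith
  have hDM : 0 ≤ (8 * ∑' n : ℕ, 1 / (n : ℝ) ^ (5 / 4 : ℝ)) * M * θ := by positivity
  constructor
  · refine hfirst.trans ?_
    have : 0 ≤ M * θ := by positivity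
    nlinarith
  · have hsplit : (∑ n ∈ Finset.Icc 1 X, vonMangoldt n / n * F (θ * Real.log n)) -
        ∑ q ∈ (Finset.Icc 1 X).filter Nat.Prime, Real.log q / q * F (θ * Real.log q) =
        ∑ n ∈ Finset.Icc 1 X, (if n.Prime then 0 else vonMangoldt n) * (1 / (n : ℝ)) *
          F (θ * Real.log n) := by
      rw [Finset.sum_filter, ← Finset.sum_sub_distrib]
      refine Finset.sum_congr rfl fun n _ => ?_
      by_cases h : n.Prime
      · rw [if_pos h, if_pos h, vonMangoldt_apply_prime h]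
        ring
      · rw [if_neg h, if_neg h]
        ring
    have hbd : |(∑ n ∈ Finset.Icc 1 X, vonMangoldt n / n * F (θ * Real.log n)) -
        ∑ q ∈ (Finset.Icc 1 X).filter Nat.Prime, Real.log q / q * F (θ * Real.log q)| ≤
        (8 + 8 * ∑' n : ℕ, 1 / (n : ℝ) ^ (5 / 4 : ℝ)) * M := by
      rw [hsplit]
      refine (Finset.abs_sum_le_sum_abs _ _).trans ?_
      refine le_trans ?_ (mul_le_mul_of_nonneg_right (npsum X hX) hM)
      rw [Finset.sum_mul]
      refine Finset.sum_le_sum fun n hn => ?_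
      have hn1 : 1 ≤ n := (Finset.mem_Icc.1 hn).1
      have hn2 : (1 : ℝ) ≤ n := by exact_mod_cast hn1
      have hl0 : 0 ≤ Real.log n := Real.log_nonneg hn2
      have c0 : 0 ≤ (if n.Prime then 0 else vonMangoldt n) * (1 / (n : ℝ)) := by
        apply mul_nonneg _ (by positivity)
        split_ifs
        · exact le_rfl
        · exact vonMangoldt_nonneg
      rw [abs_mul, abs_of_nonneg c0]
      exact mul_le_mul_of_nonneg_left (h2 _ (by positivity)) c0
    have e1 : θ * (∑ q ∈ (Finset.Icc 1 X).filter Nat.Prime, Real.log q / q *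
        F (θ * Real.log q)) - ∫ v in (0 : ℝ)..(θ * Real.log X), F v =
        (θ * (∑ n ∈ Finset.Icc 1 X, vonMangoldt n / n * F (θ * Real.log n)) -
          ∫ v in (0 : ℝ)..(θ * Real.log X), F v) -
        θ * ((∑ n ∈ Finset.Icc 1 X, vonMangoldt n / n * F (θ * Real.log n)) -
        ∑ q ∈ (Finset.Icc 1 X).filter Nat.Prime, Real.log q / q * F (θ * Real.log q)) := by
      ring
    rw [e1]
    refine (abs_sub _ _).trans ?_
    rw [abs_mul, abs_of_pos hθ]
    have b1 := mul_le_mul_of_nonneg_left hbd hθ.le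
    linarith

end Pool.Agent.TH850.CL
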