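import Pool.Agent.TH850.CL.Defs

set_option autoImplicit false

/-! # CL-N2: decay and Gaussian smoothing of the Fourier transform of a C2 function -/

namespace Pool.Agent.TH850.CL

namespace N2

open Complex MeasureTheory Set

variable {R M : ℝ} {g g' g'' : ℝ → ℝ}

lemma norm_e (ξ x : ℝ) : ‖cexp (-(2 * Real.pi * ξ * x * I))‖ = 1 := by
  rw [Complex.norm_exp]
  simp

lemma M_nonneg (h : C2 R M g g' g'') : 0 ≤ M := (abs_nonneg _).trans (h.bd 0).1

lemma cont0 (h : C2 R M g g' g'') : Continuous g :=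
  continuous_iff_continuousAt.2 fun x => (h.d1 x).continuousAt

lemma cont1 (h : C2 R M g g' g'') : Continuous g' :=
  continuous_iff_continuousAt.2 fun x => (h.d2 x).continuousAt

lemma cont_e (ξ : ℝ) : Continuous fun x : ℝ => cexp (-(2 * Real.pi * ξ * x * I)) := by
  fun_prop

lemma trivial_bound {f : ℝ → ℝ} (hR : 0 ≤ R) (hf : ∀ x, |f x| ≤ M) (ξ : ℝ) :
    ‖hat R f ξ‖ ≤ 2 * R * M := by
  unfold hat
  have h1 := intervalIntegral.norm_integral_le_of_norm_le_const (a := -R) (b := R) (C := M)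
    (f := fun x => (f x : ℂ) * cexp (-(2 * Real.pi * ξ * x * I))) (fun x _ => by
      rw [norm_mul, norm_e, mul_one, Complex.norm_real]
      exact hf x)
  refine h1.trans (le_of_eq ?_)
  rw [sub_neg_eq_add, abs_of_nonneg (by linarith)]
  ring

lemma by_parts {f f' : ℝ → ℝ} (hf : ∀ x, HasDerivAt f (f' x) x) (hc : Continuous f')
    (h1 : f R = 0) (h2 : f (-R) = 0) (ξ : ℝ) :
    (-(2 * Real.pi * ξ * I)) * hat R f ξ = -hat R f' ξ := by
  have hcf : Continuous f := continuous_iff_continuousAt.2 fun x => (hf x).continuousAt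
  have hv : ∀ x : ℝ, HasDerivAt (fun x : ℝ => cexp (-(2 * Real.pi * ξ * x * I)))
      ((-(2 * Real.pi * ξ * I)) * cexp (-(2 * Real.pi * ξ * x * I))) x := by
    intro x
    have h3 : HasDerivAt (fun x : ℝ => (x : ℂ)) 1 x := (hasDerivAt_id x).ofReal_comp
    have h4 : HasDerivAt (fun x : ℝ => -(2 * Real.pi * ξ * (x : ℂ) * I)) (-(2 * Real.pi * ξ * I)) x := by
      have h5 : HasDerivAt (fun x : ℝ => -(2 * Real.pi * ξ * (x : ℂ) * I))
        (-(2 * Real.pi * ξ * 1 * I)) x := ((h3.const_mul (2 * Real.pi * ξ : ℂ)).mul_const I).neg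
      rw [mul_one] at h5
      exact h5
    have h6 := h4.cexp
    rw [mul_comm (cexp (-(2 * Real.pi * ξ * (x : ℂ) * I)))] at h6
    exact h6
  have hu : ∀ x : ℝ, HasDerivAt (fun x : ℝ => (f x : ℂ)) (f' x : ℂ) x := fun x => (hf x).ofReal_comp
  have hip := intervalIntegral.integral_mul_deriv_eq_deriv_mul (a := -R) (b := R)
    (u := fun x : ℝ => (f x : ℂ)) (v := fun x : ℝ => cexp (-(2 * Real.pi * ξ * x * I)))
    (u' := fun x : ℝ => (f' x : ℂ))
    (v' := fun x : ℝ => (-(2 * Real.pi * ξ * I)) * cexp (-(2 * Real.pi * ξ * x * I)))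
    (fun x _ => hu x) (fun x _ => hv x)
    ((Complex.continuous_ofReal.comp hc).intervalIntegrable _ _)
    ((continuous_const.mul (cont_e ξ)).intervalIntegrable _ _)
  simp only [h1, h2, Complex.ofReal_zero, zero_mul, sub_zero, zero_sub] at hip
  unfold hat
  rw [← hip, ← intervalIntegral.integral_const_mul]
  congr 1
  funext x
  ring

/-- decay -/
lemma decay (hR : 1 ≤ R) (h : C2 R M g g' g'') (ξ : ℝ) :
    ‖hat R g ξ‖ ≤ 5 * R * M / (1 + |ξ|) ^ 2 := by
  have hM := M_nonneg h
  have hR0 : 0 ≤ R := by linarith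
  have hsR := h.supp R (le_abs_self R)
  have hsR' := h.supp (-R) (by rw [abs_neg]; exact le_abs_self R)
  have h1 := by_parts h.d1 (cont1 h) hsR.1 hsR'.1 ξ
  have h2 := by_parts h.d2 h.cont hsR.2.1 hsR'.2.1 ξ
  have h3 : (-(2 * Real.pi * ξ * I)) * ((-(2 * Real.pi * ξ * I)) * hat R g ξ) = hat R g'' ξ := by
    rw [h1, mul_neg, h2, neg_neg]
  have h4 := congrArg norm h3
  rw [norm_mul, norm_mul, norm_neg] at h4
  have h5 : ‖(2 * Real.pi * ξ * I : ℂ)‖ = 2 * Real.pi * |ξ| := by
    rw [norm_mul, Complex.norm_I, mul_one, norm_mul, norm_mul, Complex.norm_real, Complex.norm_real,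
      Real.norm_eq_abs, Real.norm_eq_abs, abs_of_pos Real.pi_pos]
    norm_num
  rw [h5] at h4
  have h6 := trivial_bound hR0 (fun x => (h.bd x).1) ξ
  have h7 := trivial_bound hR0 (fun x => (h.bd x).2.2) ξ
  rw [← h4] at h7
  set N := ‖hat R g ξ‖ with hN
  have hN0 : 0 ≤ N := norm_nonneg _
  have hpi := Real.pi_gt_three
  have h8 : 36 * (ξ ^ 2 * N) ≤ 2 * R * M := by
    have e : 2 * Real.pi * |ξ| * (2 * Real.pi * |ξ| * N) = 4 * Real.pi ^ 2 * (ξ ^ 2 * N) := by
      rw [← sq_abs ξ]
      ring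
    rw [e] at h7
    have h9 : 0 ≤ ξ ^ 2 * N := by positivity
    have h10 : 9 ≤ Real.pi ^ 2 := by nlinarith
    have h11 := mul_le_mul_of_nonneg_right h10 h9
    linarith
  rw [le_div_iff₀ (by positivity)]
  have h10 : (1 + |ξ|) ^ 2 ≤ 2 + 2 * ξ ^ 2 := by
    rw [← sq_abs ξ]
    nlinarith [sq_nonneg (1 - |ξ|)]
  have hRM : 0 ≤ R * M := by positivity
  calc N * (1 + |ξ|) ^ 2 ≤ N * (2 + 2 * ξ ^ 2) := mul_le_mul_of_nonneg_left h10 hN0
    _ = 2 * N + 2 * (ξ ^ 2 * N) := by ring
    _ ≤ 5 * R * M := by nlinarith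

/-- the function `x g(x)` -/
lemma xg (hR : 1 ≤ R) (h : C2 R M g g' g'') :
    C2 R (3 * R * M) (fun x => x * g x) (fun x => g x + x * g' x) (fun x => 2 * g' x + x * g'' x) := by
  have hM := M_nonneg h
  have hRM : M ≤ R * M := by nlinarith
  constructor
  · intro x
    have h1 : HasDerivAt (fun x => x * g x) (1 * g x + x * g' x) x := (hasDerivAt_id x).mul (h.d1 x)
    rw [one_mul] at h1
    exact h1
  · intro x
    have h1 : HasDerivAt (fun x => g x + x * g' x) (g' x + (1 * g' x + x * g'' x)) x :=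
      (h.d1 x).add ((hasDerivAt_id x).mul (h.d2 x))
    have e : g' x + (1 * g' x + x * g'' x) = 2 * g' x + x * g'' x := by ring
    rw [e] at h1
    exact h1
  · have h1 := cont1 h
    have h2 := h.cont
    fun_prop
  · intro x hx
    obtain ⟨h0, h1, h2⟩ := h.supp x hx
    simp [h0, h1, h2]
  · intro x
    by_cases hx : R ≤ |x|
    · obtain ⟨h0, h1, h2⟩ := h.supp x hx
      simp only [h0, h1, h2, mul_zero, add_zero, abs_zero]
      have : 0 ≤ 3 * R * M := by positivity
      exact ⟨this, this, this⟩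
    · push Not at hx
      obtain ⟨h0, h1, h2⟩ := h.bd x
      have a0 : |x * g x| ≤ R * M := by
        rw [abs_mul]
        exact mul_le_mul hx.le h0 (abs_nonneg _) (by linarith)
      have a1 : |x * g' x| ≤ R * M := by
        rw [abs_mul]
        exact mul_le_mul hx.le h1 (abs_nonneg _) (by linarith)
      have a2 : |x * g'' x| ≤ R * M := by
        rw [abs_mul]
        exact mul_le_mul hx.le h2 (abs_nonneg _) (by linarith)
      refine ⟨by linarith [mul_nonneg (by linarith : (0:ℝ) ≤ R) hM], ?_, ?_⟩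
      · have := abs_add_le (g x) (x * g' x)
        linarith
      · have := abs_add_le (2 * g' x) (x * g'' x)
        rw [abs_mul, abs_of_pos (by norm_num : (0 : ℝ) < 2)] at this
        linarith

/-- the derivative -/
lemma deriv_hat (h : C2 R M g g' g'') (ξ : ℝ) :
    HasDerivAt (hat R g) (-(2 * Real.pi * I) * hat R (fun x => x * g x) ξ) ξ := by
  have hM := M_nonneg h
  have hc := cont0 h
  have key := intervalIntegral.hasDerivAt_integral_of_dominated_loc_of_deriv_le (𝕜 := ℝ)
    (μ := volume) (a := -R) (b := R) (x₀ := ξ) (s := Set.univ)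
    (F := fun (ξ : ℝ) (x : ℝ) => (g x : ℂ) * cexp (-(2 * Real.pi * ξ * x * I)))
    (F' := fun (ξ : ℝ) (x : ℝ) => (g x : ℂ) * (cexp (-(2 * Real.pi * ξ * x * I)) *
      (-(2 * Real.pi * x * I))))
    (bound := fun x => M * (2 * Real.pi * |x|)) Filter.univ_mem
    (Filter.Eventually.of_forall fun η => by
      apply Continuous.aestronglyMeasurable
      fun_prop)
    (by
      apply Continuous.intervalIntegrable
      fun_prop)
    (by
      apply Continuous.aestronglyMeasurable
      fun_prop)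
    (Filter.Eventually.of_forall fun x _ η _ => by
      rw [norm_mul, norm_mul, norm_e, one_mul, norm_neg, Complex.norm_real]
      have h5 : ‖(2 * Real.pi * x * I : ℂ)‖ = 2 * Real.pi * |x| := by
        rw [norm_mul, Complex.norm_I, mul_one, norm_mul, norm_mul, Complex.norm_real,
          Complex.norm_real, Real.norm_eq_abs, Real.norm_eq_abs, abs_of_pos Real.pi_pos]
        norm_num
      rw [h5]
      exact mul_le_mul_of_nonneg_right (h.bd x).1 (by positivity))
    (by
      apply Continuous.intervalIntegrable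
      fun_prop)
    (Filter.Eventually.of_forall fun x _ η _ => by
      have h3 : HasDerivAt (fun y : ℝ => (y : ℂ)) 1 η := (hasDerivAt_id η).ofReal_comp
      have h4 : HasDerivAt (fun y : ℝ => -(2 * Real.pi * (y : ℂ) * x * I)) (-(2 * Real.pi * x * I)) η := by
        have h5 : HasDerivAt (fun y : ℝ => -(2 * Real.pi * (y : ℂ) * x * I))
          (-(2 * Real.pi * 1 * x * I)) η :=
          (((h3.const_mul (2 * Real.pi : ℂ)).mul_const (x : ℂ)).mul_const I).neg
        rw [mul_one] at h5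
        exact h5
      exact (h4.cexp).const_mul _)
  have h2 := key.2
  have e : (∫ x in (-R)..R, (g x : ℂ) * (cexp (-(2 * Real.pi * ξ * x * I)) *
      (-(2 * Real.pi * x * I)))) = -(2 * Real.pi * I) * hat R (fun x => x * g x) ξ := by
    unfold hat
    rw [← intervalIntegral.integral_const_mul]
    congr 1
    funext x
    push_cast
    ring
  rw [e] at h2
  exact h2

lemma conj_hat (R : ℝ) (g : ℝ → ℝ) (ξ : ℝ) : hat R g (-ξ) = (starRingEnd ℂ) (hat R g ξ) := by
  unfold hat
  rw [← intervalIntegral.intervalIntegral_conj]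
  congr 1
  funext x
  rw [map_mul, Complex.conj_ofReal, ← Complex.exp_conj]
  congr 2
  simp only [map_neg, map_mul, Complex.conj_ofReal, Complex.conj_I, Complex.ofReal_neg]
  have : (starRingEnd ℂ) 2 = 2 := by
    have := Complex.conj_ofReal 2
    simpa using this
  rw [this]
  ring

/-- the Gaussian integral -/
lemma gauss (x κ v : ℝ) :
    ∫ u : ℝ, (Real.exp (-(u - v) ^ 2 / 2) : ℂ) * cexp (-((u : ℂ) * x / κ * I)) =
      Real.sqrt (2 * Real.pi) * (cexp (-((v : ℂ) * x / κ * I)) *
        (Real.exp (-x ^ 2 / (2 * κ ^ 2)) : ℂ)) := by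
  have h1 : ∫ u : ℝ, (Real.exp (-(u - v) ^ 2 / 2) : ℂ) * cexp (-((u : ℂ) * x / κ * I)) =
      ∫ t : ℝ, (Real.exp (-t ^ 2 / 2) : ℂ) * cexp (-(((t : ℂ) + v) * x / κ * I)) := by
    have := integral_sub_right_eq_self (μ := (volume : Measure ℝ))
      (fun t : ℝ => (Real.exp (-t ^ 2 / 2) : ℂ) * cexp (-(((t : ℂ) + v) * x / κ * I))) v
    rw [← this]
    congr 1
    funext u
    congr 3
    push_cast
    ring
  rw [h1]
  have h2 := fourierIntegral_gaussian (b := (1 / 2 : ℂ)) (by norm_num) (-(x / κ : ℝ) : ℂ)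
  have h3 : ∀ t : ℝ, (Real.exp (-t ^ 2 / 2) : ℂ) * cexp (-(((t : ℂ) + v) * x / κ * I)) =
      cexp (-((v : ℂ) * x / κ * I)) * (cexp (I * (-(x / κ : ℝ) : ℂ) * t) *
        cexp (-(1 / 2 : ℂ) * (t : ℂ) ^ 2)) := by
    intro t
    rw [Complex.ofReal_exp, ← Complex.exp_add, ← Complex.exp_add, ← Complex.exp_add]
    congr 1
    push_cast
    ring
  rw [integral_congr_ae (Filter.Eventually.of_forall h3), integral_const_mul, h2]
  have h4 : ((Real.pi : ℂ) / (1 / 2 : ℂ)) ^ (1 / 2 : ℂ) = (Real.sqrt (2 * Real.pi) : ℂ) := by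
    have e1 : (Real.pi : ℂ) / (1 / 2 : ℂ) = ((2 * Real.pi : ℝ) : ℂ) := by
      push_cast
      ring
    have e2 : (1 / 2 : ℂ) = ((1 / 2 : ℝ) : ℂ) := by
      push_cast
      ring
    rw [e1, e2, ← Complex.ofReal_cpow (by positivity), Real.sqrt_eq_rpow]
  have h5 : cexp (-(-(x / κ : ℝ) : ℂ) ^ 2 / (4 * (1 / 2 : ℂ))) =
      (Real.exp (-x ^ 2 / (2 * κ ^ 2)) : ℂ) := by
    rw [Complex.ofReal_exp]
    congr 1
    push_cast
    by_cases hκ : (κ : ℂ) = 0
    · rw [hκ]
      simp
    · field_simp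
      ring
  rw [h4, h5]
  ring

/-- Gaussian smoothing -/
lemma smooth (hR : 1 ≤ R) (h : C2 R M g g' g'') (κ v : ℝ) (hκ : 0 < κ) :
    ∫ u : ℝ, (Real.exp (-(u - v) ^ 2 / 2) : ℂ) * hat R g (u / (2 * Real.pi * κ)) =
        Real.sqrt (2 * Real.pi) * hat R (fun x => g x * Real.exp (-x ^ 2 / (2 * κ ^ 2)))
          (v / (2 * Real.pi * κ)) := by
  have hM := M_nonneg h
  have hc := cont0 h
  have hle : -R ≤ R := by linarith
  have hκ' : (κ : ℂ) ≠ 0 := by exact_mod_cast hκ.ne'
  have hpi : (Real.pi : ℂ) ≠ 0 := by exact_mod_cast Real.pi_ne_zero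
  have harg : ∀ u x : ℝ, cexp (-(2 * Real.pi * ((u / (2 * Real.pi * κ) : ℝ) : ℂ) * x * I)) =
      cexp (-((u : ℂ) * x / κ * I)) := by
    intro u x
    congr 1
    push_cast
    field_simp
  set f : ℝ → ℝ → ℂ := fun u x => (Real.exp (-(u - v) ^ 2 / 2) : ℂ) *
    ((g x : ℂ) * cexp (-((u : ℂ) * x / κ * I))) with hf
  have hL : ∀ u : ℝ, (Real.exp (-(u - v) ^ 2 / 2) : ℂ) * hat R g (u / (2 * Real.pi * κ)) =
      ∫ x in Ioc (-R) R, f u x := by
    intro u
    unfold hat
    rw [intervalIntegral.integral_of_le hle, ← integral_const_mul]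
    refine integral_congr_ae (Filter.Eventually.of_forall fun x => ?_)
    simp only [hf]
    rw [harg]
  rw [integral_congr_ae (Filter.Eventually.of_forall hL)]
  have hint : Integrable (Function.uncurry f) ((volume : Measure ℝ).prod
      ((volume : Measure ℝ).restrict (Ioc (-R) R))) := by
    have h1 : Integrable (fun u : ℝ => Real.exp (-(u - v) ^ 2 / 2)) volume := by
      have h2 := (integrable_exp_neg_mul_sq (b := 1 / 2) (by norm_num)).comp_sub_right v
      refine h2.congr (Filter.Eventually.of_forall fun u => ?_)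
      show Real.exp (-(1 / 2) * (u - v) ^ 2) = Real.exp (-(u - v) ^ 2 / 2)
      congr 1
      ring
    have h2 : Integrable (fun _ : ℝ => M) ((volume : Measure ℝ).restrict (Ioc (-R) R)) :=
      integrable_const M
    have h3 := h1.mul_prod h2
    refine h3.mono' ?_ (Filter.Eventually.of_forall fun z => ?_)
    · apply Continuous.aestronglyMeasurable
      simp only [hf, Function.uncurry_def]
      fun_prop
    · simp only [hf, Function.uncurry_def]
      rw [norm_mul, norm_mul, Complex.norm_real, Complex.norm_real, Real.norm_eq_abs,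
        Real.norm_eq_abs, abs_of_pos (Real.exp_pos _)]
      have h4 : ‖cexp (-((z.1 : ℂ) * z.2 / κ * I))‖ = 1 := by
        rw [Complex.norm_exp]
        have : (-((z.1 : ℂ) * z.2 / κ * I)).re = 0 := by
          have e : (-((z.1 : ℂ) * z.2 / κ * I)) = ((-(z.1 * z.2 / κ) : ℝ) : ℂ) * I := by
            push_cast
            ring
          rw [e]
          simp
        rw [this, Real.exp_zero]
      rw [h4, mul_one]
      exact mul_le_mul_of_nonneg_left (h.bd z.2).1 (Real.exp_pos _).le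
  rw [integral_integral_swap hint]
  have hin : ∀ x : ℝ, ∫ u : ℝ, f u x = Real.sqrt (2 * Real.pi) *
      (((g x * Real.exp (-x ^ 2 / (2 * κ ^ 2)) : ℝ) : ℂ) * cexp (-((v : ℂ) * x / κ * I))) := by
    intro x
    have e1 : ∀ u : ℝ, f u x = (g x : ℂ) * ((Real.exp (-(u - v) ^ 2 / 2) : ℂ) *
        cexp (-((u : ℂ) * x / κ * I))) := by
      intro u
      simp only [hf]
      ring
    rw [integral_congr_ae (Filter.Eventually.of_forall e1), integral_const_mul, gauss]
    push_cast
    ring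
  rw [integral_congr_ae (Filter.Eventually.of_forall hin), integral_const_mul]
  congr 1
  unfold hat
  rw [intervalIntegral.integral_of_le hle]
  refine integral_congr_ae (Filter.Eventually.of_forall fun x => ?_)
  simp only
  rw [harg]

end N2

theorem n2 : S_N2 := by
  intro R hR
  refine ⟨100 * R ^ 2, by positivity, ?_⟩
  intro M g g' g'' h
  have hM := N2.M_nonneg h
  have hR2 : R ≤ R ^ 2 := by nlinarith
  have hxg := N2.xg hR h
  refine ⟨?_, ?_, ?_, fun ξ => N2.conj_hat R g ξ, fun κ v hκ => N2.smooth hR h κ v hκ⟩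
  · exact continuous_iff_continuousAt.2 fun ξ => (N2.deriv_hat h ξ).continuousAt
  · intro ξ
    refine (N2.decay hR h ξ).trans (div_le_div_of_nonneg_right ?_ (by positivity))
    have h1 : R * M ≤ R ^ 2 * M := mul_le_mul_of_nonneg_right hR2 hM
    have h2 : 0 ≤ R ^ 2 * M := by positivity
    linarith
  · intro ξ
    refine ⟨_, N2.deriv_hat h ξ, ?_⟩
    have h1 := N2.decay hR hxg ξ
    have h5 : ‖(-(2 * Real.pi * Complex.I) : ℂ)‖ = 2 * Real.pi := by
      rw [norm_neg, norm_mul, Complex.norm_I, mul_one, norm_mul, Complex.norm_real,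
        Real.norm_eq_abs, abs_of_pos Real.pi_pos]
      norm_num
    rw [norm_mul, h5]
    have hpi := Real.pi_lt_d2
    have hpi0 := Real.pi_pos
    refine (mul_le_mul_of_nonneg_left h1 (by positivity)).trans ?_
    rw [mul_div_assoc']
    refine div_le_div_of_nonneg_right ?_ (by positivity)
    have h2 : 0 ≤ R ^ 2 * M := by positivity
    have h3 : 2 * Real.pi * (5 * R * (3 * R * M)) = (30 * Real.pi) * (R ^ 2 * M) := by ring
    rw [h3]
    have h4 : 30 * Real.pi ≤ 100 := by linarith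
    nlinarith

end Pool.Agent.TH850.CL
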