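import Pool.Agent.TH850.CL.Defs

set_option autoImplicit false

/-! # CL-P1: moments of a prime polynomial against the random model (job 3604, helper480) -/

namespace Pool.Agent.TH850.CL

open Complex MeasureTheory Set

namespace P1

variable {ι : Type} [Fintype ι]

/-- the sign -/
def sg (s : Bool) : ℤ := if s then 1 else -1

/-- the coefficients -/
noncomputable def co (b : ι → ℂ) (x : ι × Bool) : ℂ :=
  if x.2 then (starRingEnd ℂ) (b x.1) else b x.1

omit [Fintype ι] in
lemma norm_co (b : ι → ℂ) (x : ι × Bool) : ‖co b x‖ = ‖b x.1‖ := by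
  unfold co
  split_ifs
  · exact RCLike.norm_conj _
  · rfl

lemma two_re (w : ℂ) : ((2 * w.re : ℝ) : ℂ) = w + (starRingEnd ℂ) w := by
  rw [Complex.add_conj]

/-- the prime polynomial as a sum over `ι × Bool` -/
lemma Pt_eq (p : ι → ℕ) (b : ι → ℂ) (t : ℝ) :
    ((Pt p b t : ℝ) : ℂ) =
      ∑ x : ι × Bool, co b x * cexp (I * (t * ((sg x.2 : ℝ) * Real.log (p x.1)) : ℝ)) := by
  unfold Pt
  rw [Fintype.sum_prod_type, Complex.ofReal_sum]
  refine Finset.sum_congr rfl fun i _ => ?_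
  rw [two_re, Fintype.sum_bool, add_comm]
  congr 1
  · have e : (starRingEnd ℂ) (-(I * t * Real.log (p i))) =
        I * (t * (((sg true : ℤ) : ℝ) * Real.log (p i)) : ℝ) := by
      rw [map_neg, map_mul, map_mul, Complex.conj_I, Complex.conj_ofReal, Complex.conj_ofReal]
      simp only [sg]
      push_cast
      simp
      ring
    rw [map_mul, ← Complex.exp_conj, e]
    rfl
  · have e : -(I * t * Real.log (p i)) =
        I * (t * (((sg false : ℤ) : ℝ) * Real.log (p i)) : ℝ) := by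
      simp only [sg]
      push_cast
      simp
      ring
    rw [e]
    rfl

/-- the model as a sum over `ι × Bool` -/
lemma Px_eq (b : ι → ℂ) (θ : ι → ℝ) :
    ((Px b θ : ℝ) : ℂ) =
      ∑ x : ι × Bool, co b x * cexp (-(2 * Real.pi * I) * ((sg x.2 : ℝ) * θ x.1 : ℝ)) := by
  unfold Px
  rw [Fintype.sum_prod_type, Complex.ofReal_sum]
  refine Finset.sum_congr rfl fun i _ => ?_
  rw [two_re, Fintype.sum_bool, add_comm]
  congr 1
  · have e : (starRingEnd ℂ) (2 * Real.pi * θ i * I) =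
        -(2 * Real.pi * I) * (((sg true : ℤ) : ℝ) * θ i : ℝ) := by
      have h2 : (starRingEnd ℂ) (2 : ℂ) = 2 := map_ofNat _ 2
      rw [map_mul, map_mul, map_mul, Complex.conj_I, Complex.conj_ofReal, Complex.conj_ofReal, h2]
      simp only [sg]
      push_cast
      simp
      ring
    rw [map_mul, ← Complex.exp_conj, e]
    rfl
  · have e : 2 * Real.pi * θ i * I =
        -(2 * Real.pi * I) * (((sg false : ℤ) : ℝ) * θ i : ℝ) := by
      simp only [sg]
      push_cast
      simp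
      ring
    rw [e]
    rfl

open Classical in
/-- the frequencies -/
noncomputable def N {k : ℕ} (φ : Fin k → ι × Bool) (i : ι) : ℤ :=
  ∑ r, if (φ r).1 = i then sg (φ r).2 else 0

lemma sum_N {k : ℕ} (φ : Fin k → ι × Bool) (f : ι → ℝ) :
    ∑ r, (sg (φ r).2 : ℝ) * f (φ r).1 = ∑ i, (N φ i : ℝ) * f i := by
  classical
  simp only [N]
  push_cast
  simp only [Finset.sum_mul]
  rw [Finset.sum_comm]
  refine Finset.sum_congr rfl fun r _ => ?_
  simp [Finset.sum_ite_eq, ite_mul]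

/-- expansion of the power of the prime polynomial -/
lemma Pt_pow (p : ι → ℕ) (b : ι → ℂ) (k : ℕ) (t : ℝ) :
    ((Pt p b t ^ k : ℝ) : ℂ) = ∑ φ : Fin k → ι × Bool, (∏ r, co b (φ r)) *
      cexp ((I * (∑ i, (N φ i : ℝ) * Real.log (p i) : ℝ)) * t) := by
  rw [Complex.ofReal_pow, Pt_eq, Fintype.sum_pow]
  refine Finset.sum_congr rfl fun φ _ => ?_
  rw [Finset.prod_mul_distrib, ← Complex.exp_sum]
  congr 2
  rw [← sum_N φ (fun i => Real.log (p i)), ← Finset.mul_sum, mul_assoc]
  congr 1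
  rw [← Complex.ofReal_sum, ← Finset.mul_sum]
  push_cast
  ring

/-- expansion of the power of the model -/
lemma Px_pow (b : ι → ℂ) (k : ℕ) (θ : ι → ℝ) :
    ((Px b θ ^ k : ℝ) : ℂ) = ∑ φ : Fin k → ι × Bool, (∏ r, co b (φ r)) *
      ∏ i, cexp ((-(2 * Real.pi * I) * (N φ i : ℂ)) * θ i) := by
  rw [Complex.ofReal_pow, Px_eq, Fintype.sum_pow]
  refine Finset.sum_congr rfl fun φ _ => ?_
  rw [Finset.prod_mul_distrib, ← Complex.exp_sum, ← Complex.exp_sum]
  congr 2
  rw [← Finset.mul_sum, ← Complex.ofReal_sum, sum_N φ θ]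
  push_cast
  rw [Finset.mul_sum]
  refine Finset.sum_congr rfl fun i _ => ?_
  ring

/-- one factor of the model -/
lemma int_one (n : ℤ) : ∫ x in Ioc (0 : ℝ) 1, cexp ((-(2 * Real.pi * I) * (n : ℂ)) * x) =
    if n = 0 then 1 else 0 := by
  rw [← intervalIntegral.integral_of_le zero_le_one]
  split_ifs with h
  · subst h
    simp
  · have hc : (-(2 * Real.pi * I) * (n : ℂ)) ≠ 0 := by
      have : (n : ℂ) ≠ 0 := by exact_mod_cast h
      have h2 : (2 * Real.pi * I : ℂ) ≠ 0 := Complex.two_pi_I_ne_zero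
      exact mul_ne_zero (neg_ne_zero.2 h2) this
    rw [integral_exp_mul_complex hc]
    have h3 : cexp (-(2 * Real.pi * I) * (n : ℂ) * ((1 : ℝ) : ℂ)) = 1 := by
      have e : -(2 * Real.pi * I) * (n : ℂ) * ((1 : ℝ) : ℂ) = ((-n : ℤ) : ℂ) * (2 * Real.pi * I) := by
        push_cast
        ring
      rw [e, Complex.exp_int_mul_two_pi_mul_I]
    rw [h3]
    simp

/-- the average of the model -/
lemma int_model {k : ℕ} (φ : Fin k → ι × Bool) :
    ∫ θ : ι → ℝ, ∏ i, cexp ((-(2 * Real.pi * I) * (N φ i : ℂ)) * θ i) ∂(mu ι) =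
      if ∀ i, N φ i = 0 then 1 else 0 := by
  unfold mu
  rw [MeasureTheory.integral_fintype_prod_eq_prod
    (f := fun i (x : ℝ) => cexp ((-(2 * Real.pi * I) * (N φ i : ℂ)) * x))]
  simp only [int_one]
  split_ifs with h
  · exact Finset.prod_eq_one fun i _ => if_pos (h i)
  · push Not at h
    obtain ⟨i, hi⟩ := h
    exact Finset.prod_eq_zero (Finset.mem_univ i) (if_neg hi)

/-! ### The arithmetic -/

open Classical in
/-- the numerator -/
noncomputable def nu (p : ι → ℕ) {k : ℕ} (s : Bool) (φ : Fin k → ι × Bool) : ℕ :=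
  ∏ r, if (φ r).2 = s then p (φ r).1 else 1

omit [Fintype ι] in
lemma nu_pos {p : ι → ℕ} (hp : ∀ i, (p i).Prime) {k : ℕ} (s : Bool) (φ : Fin k → ι × Bool) :
    0 < nu p s φ := by
  unfold nu
  refine Finset.prod_pos fun r _ => ?_
  split_ifs
  · exact (hp _).pos
  · exact one_pos

omit [Fintype ι] in
lemma nu_le {p : ι → ℕ} {Y : ℝ} (hY : 1 ≤ Y) (hpY : ∀ i, (p i : ℝ) ≤ Y) {k : ℕ} (s : Bool)
    (φ : Fin k → ι × Bool) : (nu p s φ : ℝ) ≤ Y ^ k := by
  unfold nu
  push_cast
  calc ∏ r, ((if (φ r).2 = s then (p (φ r).1 : ℝ) else 1)) ≤ ∏ _r : Fin k, Y := by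
        refine Finset.prod_le_prod (fun r _ => ?_) (fun r _ => ?_)
        · split_ifs
          · exact Nat.cast_nonneg _
          · exact zero_le_one
        · split_ifs
          · exact hpY _
          · exact hY
    _ = Y ^ k := by rw [Finset.prod_const, Finset.card_univ, Fintype.card_fin]

lemma log_nu {p : ι → ℕ} (hp : ∀ i, (p i).Prime) {k : ℕ} (φ : Fin k → ι × Bool) :
    ∑ i, (N φ i : ℝ) * Real.log (p i) = Real.log (nu p true φ) - Real.log (nu p false φ) := by
  rw [← sum_N φ (fun i => Real.log (p i))]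
  unfold nu
  push_cast
  have h0 : ∀ i, (p i : ℝ) ≠ 0 := fun i => by exact_mod_cast (hp i).ne_zero
  rw [Real.log_prod (fun r _ => by split_ifs <;> simp [h0]),
    Real.log_prod (fun r _ => by split_ifs <;> simp [h0]), ← Finset.sum_sub_distrib]
  refine Finset.sum_congr rfl fun r _ => ?_
  rcases φ r with ⟨i, s⟩
  cases s <;> simp [sg]

open Classical in
omit [Fintype ι] in
lemma fact_nu {p : ι → ℕ} (hp : ∀ i, (p i).Prime) (hinj : Function.Injective p) {k : ℕ} (s : Bool)
    (φ : Fin k → ι × Bool) (i : ι) : (nu p s φ).factorization (p i) =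
      ∑ r, if (φ r).2 = s ∧ (φ r).1 = i then 1 else 0 := by
  unfold nu
  rw [Nat.factorization_prod (fun r _ => by
    split_ifs
    · exact (hp _).ne_zero
    · exact one_ne_zero), Finsupp.finsetSum_apply]
  refine Finset.sum_congr rfl fun r _ => ?_
  by_cases h1 : (φ r).2 = s
  · rw [if_pos h1, (hp _).factorization]
    by_cases h2 : (φ r).1 = i
    · rw [if_pos ⟨h1, h2⟩, h2, Finsupp.single_eq_same]
    · rw [if_neg (fun h => h2 h.2), Finsupp.single_eq_of_ne]
      exact fun h => h2 (hinj h.symm)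
  · rw [if_neg h1, if_neg (fun h => h1 h.1)]
    simp

omit [Fintype ι] in
lemma N_eq {p : ι → ℕ} (hp : ∀ i, (p i).Prime) (hinj : Function.Injective p) {k : ℕ}
    (φ : Fin k → ι × Bool) (i : ι) :
    N φ i = (nu p true φ).factorization (p i) - (nu p false φ).factorization (p i) := by
  classical
  rw [fact_nu hp hinj, fact_nu hp hinj]
  unfold N
  push_cast
  rw [← Finset.sum_sub_distrib]
  refine Finset.sum_congr rfl fun r _ => ?_
  rcases φ r with ⟨j, s⟩
  by_cases h : j = i <;> cases s <;> simp [sg, h]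

/-- the frequencies are not small -/
lemma freq {p : ι → ℕ} (hp : ∀ i, (p i).Prime) (hinj : Function.Injective p) {Y : ℝ} (hY : 1 ≤ Y)
    (hpY : ∀ i, (p i : ℝ) ≤ Y) {k : ℕ} (φ : Fin k → ι × Bool) (h : ¬ ∀ i, N φ i = 0) :
    1 ≤ Y ^ k * |∑ i, (N φ i : ℝ) * Real.log (p i)| := by
  rw [log_nu hp φ]
  set m := nu p true φ with hm
  set n := nu p false φ with hn
  have hm0 : 0 < m := nu_pos hp _ _
  have hn0 : 0 < n := nu_pos hp _ _
  have hmY : (m : ℝ) ≤ Y ^ k := nu_le hY hpY _ _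
  have hnY : (n : ℝ) ≤ Y ^ k := nu_le hY hpY _ _
  have hne : m ≠ n := by
    intro he
    apply h
    intro i
    rw [N_eq hp hinj, ← hm, ← hn, he, sub_self]
  have key : ∀ u v : ℕ, 0 < u → 0 < v → u < v → (v : ℝ) ≤ Y ^ k →
      1 ≤ Y ^ k * (Real.log v - Real.log u) := by
    intro u v hu hv huv hvY
    have hu' : (0 : ℝ) < u := by exact_mod_cast hu
    have hv' : (0 : ℝ) < v := by exact_mod_cast hv
    have huv' : (u : ℝ) + 1 ≤ v := by exact_mod_cast huv
    have h1 := Real.one_sub_inv_le_log_of_pos (div_pos hv' hu')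
    rw [Real.log_div hv'.ne' hu'.ne', inv_div] at h1
    have h2 : 1 / (v : ℝ) ≤ 1 - u / v := by
      rw [one_sub_div hv'.ne']
      exact div_le_div_of_nonneg_right (by linarith) hv'.le
    have h3 : 1 / (v : ℝ) ≤ Real.log v - Real.log u := h2.trans h1
    have h4 : 0 ≤ Real.log v - Real.log u := le_trans (by positivity) h3
    calc (1 : ℝ) = v * (1 / v) := by field_simp
      _ ≤ v * (Real.log v - Real.log u) := mul_le_mul_of_nonneg_left h3 hv'.le
      _ ≤ Y ^ k * (Real.log v - Real.log u) := mul_le_mul_of_nonneg_right hvY h4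
  rcases lt_or_gt_of_ne hne with hlt | hlt
  · refine (key m n hm0 hn0 hlt hnY).trans ?_
    have : Real.log n - Real.log m ≤ |Real.log m - Real.log n| := by
      rw [abs_sub_comm]
      exact le_abs_self _
    exact mul_le_mul_of_nonneg_left this (by positivity)
  · refine (key n m hn0 hm0 hlt hmY).trans ?_
    exact mul_le_mul_of_nonneg_left (le_abs_self _) (by positivity)

/-- the comparison for one frequency -/
lemma one_freq {p : ι → ℕ} (hp : ∀ i, (p i).Prime) (hinj : Function.Injective p) {Y T : ℝ}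
    (hY : 1 ≤ Y) (hpY : ∀ i, (p i : ℝ) ≤ Y) (hT : 0 < T) {k : ℕ} (φ : Fin k → ι × Bool) :
    ‖(1 / T : ℂ) * (∫ t in T..(2 * T),
      cexp ((I * (∑ i, (N φ i : ℝ) * Real.log (p i) : ℝ)) * t)) -
      (if ∀ i, N φ i = 0 then 1 else 0)‖ ≤ 2 / T * Y ^ k := by
  by_cases h : ∀ i, N φ i = 0
  · rw [if_pos h]
    have h1 : (∑ i, (N φ i : ℝ) * Real.log (p i) : ℝ) = 0 :=
      Finset.sum_eq_zero fun i _ => by rw [h i, Int.cast_zero, zero_mul]
    rw [h1]
    have h2 : (∫ t in T..(2 * T), cexp ((I * ((0 : ℝ) : ℂ)) * t)) = T := by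
      simp
      ring
    rw [h2]
    have hT' : (T : ℂ) ≠ 0 := by exact_mod_cast hT.ne'
    rw [one_div, inv_mul_cancel₀ hT', sub_self, norm_zero]
    positivity
  · rw [if_neg h, sub_zero]
    have h1 := freq hp hinj hY hpY φ h
    set L : ℝ := ∑ i, (N φ i : ℝ) * Real.log (p i) with hL
    have hL0 : L ≠ 0 := by
      intro h0
      rw [h0, abs_zero, mul_zero] at h1
      linarith
    have hLp : 0 < |L| := abs_pos.2 hL0
    have hc : (I * (L : ℂ)) ≠ 0 := mul_ne_zero Complex.I_ne_zero (by exact_mod_cast hL0)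
    rw [integral_exp_mul_complex hc, norm_mul]
    have h2 : ‖(1 / T : ℂ)‖ = 1 / T := by
      rw [norm_div, norm_one, Complex.norm_real, Real.norm_of_nonneg hT.le]
    have h3 : ‖I * (L : ℂ)‖ = |L| := by
      rw [norm_mul, Complex.norm_I, one_mul, Complex.norm_real, Real.norm_eq_abs]
    have h4 : ∀ t : ℝ, ‖cexp (I * (L : ℂ) * t)‖ = 1 := by
      intro t
      have e : I * (L : ℂ) * t = ((L * t : ℝ) : ℂ) * I := by
        push_cast
        ring
      rw [e, Complex.norm_exp_ofReal_mul_I]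
    have h5 : ‖cexp (I * (L : ℂ) * ((2 * T : ℝ) : ℂ)) - cexp (I * (L : ℂ) * (T : ℂ))‖ ≤ 2 := by
      refine (norm_sub_le _ _).trans ?_
      rw [h4, h4]
      norm_num
    rw [h2, norm_div, h3]
    have h6 : ‖cexp (I * (L : ℂ) * ((2 * T : ℝ) : ℂ)) - cexp (I * (L : ℂ) * (T : ℂ))‖ / |L| ≤
        2 * Y ^ k := by
      rw [div_le_iff₀ hLp]
      linarith
    calc 1 / T * (‖cexp (I * (L : ℂ) * ((2 * T : ℝ) : ℂ)) - cexp (I * (L : ℂ) * (T : ℂ))‖ / |L|)
        ≤ 1 / T * (2 * Y ^ k) := mul_le_mul_of_nonneg_left h6 (by positivity)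
      _ = 2 / T * Y ^ k := by ring

end P1

open P1

theorem p1 : S_P1 := by
  intro ι _ p b hp hinj Y T hY hpY hT k
  have h1 : (((1 / T * (∫ t in T..(2 * T), Pt p b t ^ k) - ∫ θ, Px b θ ^ k ∂(mu ι) : ℝ)) : ℂ) =
      ∑ φ : Fin k → ι × Bool, (∏ r, co b (φ r)) *
        ((1 / T : ℂ) * (∫ t in T..(2 * T),
          cexp ((I * (∑ i, (N φ i : ℝ) * Real.log (p i) : ℝ)) * t)) -
          (if ∀ i, N φ i = 0 then 1 else 0)) := by
    have e1 : ((∫ t in T..(2 * T), Pt p b t ^ k : ℝ) : ℂ) =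
        ∑ φ : Fin k → ι × Bool, (∏ r, co b (φ r)) * (∫ t in T..(2 * T),
          cexp ((I * (∑ i, (N φ i : ℝ) * Real.log (p i) : ℝ)) * t)) := by
      rw [← intervalIntegral.integral_ofReal]
      simp only [Pt_pow]
      rw [intervalIntegral.integral_finsetSum]
      · refine Finset.sum_congr rfl fun φ _ => ?_
        rw [intervalIntegral.integral_const_mul]
      · intro φ _
        apply Continuous.intervalIntegrable
        fun_prop
    have e2 : ((∫ θ, Px b θ ^ k ∂(mu ι) : ℝ) : ℂ) =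
        ∑ φ : Fin k → ι × Bool, (∏ r, co b (φ r)) * (if ∀ i, N φ i = 0 then 1 else 0) := by
      have e0 : ((∫ θ, Px b θ ^ k ∂(mu ι) : ℝ) : ℂ) = ∫ θ, ((Px b θ ^ k : ℝ) : ℂ) ∂(mu ι) :=
        integral_complex_ofReal.symm
      rw [e0]
      have e3 : ∀ θ : ι → ℝ, ((Px b θ ^ k : ℝ) : ℂ) = ∑ φ : Fin k → ι × Bool,
          (∏ r, co b (φ r)) * ∏ i, cexp ((-(2 * Real.pi * I) * (N φ i : ℂ)) * θ i) :=
        Px_pow b k
      have e4 : ∀ φ : Fin k → ι × Bool, Integrable (fun θ : ι → ℝ => (∏ r, co b (φ r)) *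
          ∏ i, cexp ((-(2 * Real.pi * I) * (N φ i : ℂ)) * θ i)) (mu ι) := by
        intro φ
        have : IsFiniteMeasure (mu ι) := by
          unfold mu
          infer_instance
        refine Integrable.of_bound (C := ‖∏ r, co b (φ r)‖) ?_ ?_
        · apply Continuous.aestronglyMeasurable
          fun_prop
        · refine Filter.Eventually.of_forall fun θ => ?_
          rw [norm_mul, norm_prod (f := fun i => cexp ((-(2 * Real.pi * I) * (N φ i : ℂ)) * θ i))]
          have : ∀ i, ‖cexp ((-(2 * Real.pi * I) * (N φ i : ℂ)) * θ i)‖ = 1 := by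
            intro i
            have e : (-(2 * Real.pi * I) * (N φ i : ℂ)) * θ i =
                ((-(2 * Real.pi * N φ i * θ i) : ℝ) : ℂ) * I := by
              push_cast
              ring
            rw [e, Complex.norm_exp_ofReal_mul_I]
          rw [Finset.prod_congr rfl (fun i _ => this i), Finset.prod_const_one, mul_one]
      calc ∫ θ, ((Px b θ ^ k : ℝ) : ℂ) ∂(mu ι) = ∫ θ, ∑ φ : Fin k → ι × Bool,
            (∏ r, co b (φ r)) * ∏ i, cexp ((-(2 * Real.pi * I) * (N φ i : ℂ)) * θ i) ∂(mu ι) := by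
              refine integral_congr_ae (Filter.Eventually.of_forall fun θ => e3 θ)
        _ = ∑ φ : Fin k → ι × Bool, ∫ θ, (∏ r, co b (φ r)) *
            ∏ i, cexp ((-(2 * Real.pi * I) * (N φ i : ℂ)) * θ i) ∂(mu ι) :=
              integral_finsetSum _ fun φ _ => e4 φ
        _ = _ := by
              refine Finset.sum_congr rfl fun φ _ => ?_
              rw [integral_const_mul, int_model]
    push_cast
    push_cast at e1 e2
    rw [e1, e2, Finset.mul_sum, ← Finset.sum_sub_distrib]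
    refine Finset.sum_congr rfl fun φ _ => ?_
    ring
  have h2 : |1 / T * (∫ t in T..(2 * T), Pt p b t ^ k) - ∫ θ, Px b θ ^ k ∂(mu ι)| =
      ‖(((1 / T * (∫ t in T..(2 * T), Pt p b t ^ k) - ∫ θ, Px b θ ^ k ∂(mu ι) : ℝ)) : ℂ)‖ := by
    rw [Complex.norm_real, Real.norm_eq_abs]
  rw [h2, h1]
  calc ‖∑ φ : Fin k → ι × Bool, (∏ r, co b (φ r)) *
        ((1 / T : ℂ) * (∫ t in T..(2 * T),
          cexp ((I * (∑ i, (N φ i : ℝ) * Real.log (p i) : ℝ)) * t)) -
          (if ∀ i, N φ i = 0 then 1 else 0))‖ ≤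
      ∑ φ : Fin k → ι × Bool, (∏ r, ‖b (φ r).1‖) * (2 / T * Y ^ k) := by
        refine (norm_sum_le _ _).trans (Finset.sum_le_sum fun φ _ => ?_)
        rw [norm_mul, norm_prod]
        refine mul_le_mul (le_of_eq (Finset.prod_congr rfl fun r _ => norm_co b (φ r)))
          (one_freq hp hinj hY hpY hT φ) (norm_nonneg _) (by positivity)
    _ = (∑ x : ι × Bool, ‖b x.1‖) ^ k * (2 / T * Y ^ k) := by
        rw [← Finset.sum_mul, Fintype.sum_pow]
    _ = 2 / T * (2 * (∑ i, ‖b i‖) * Y) ^ k := by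
        have e : ∑ x : ι × Bool, ‖b x.1‖ = 2 * ∑ i, ‖b i‖ := by
          rw [Fintype.sum_prod_type, Finset.mul_sum]
          refine Finset.sum_congr rfl fun i _ => ?_
          rw [Fintype.sum_bool, two_mul]
        rw [e, mul_pow (2 * ∑ i, ‖b i‖)]
        ring

end Pool.Agent.TH850.CL
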