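import Pool.Agent.TH850.CL.Defs

/-!
# CL-P2: even moments of the random model
-/

set_option autoImplicit false

namespace Pool.Agent.TH850.CL

open Complex MeasureTheory Set

namespace P2

/-- one variable -/
noncomputable def y (b : ℂ) (θ : ℝ) : ℝ := 2 * (2 * (b * cexp (2 * Real.pi * θ * I)).re)

lemma y_cont (b : ℂ) : Continuous (y b) := by
  unfold y
  fun_prop

lemma y_shift (b : ℂ) (θ : ℝ) : y b (θ + 1 / 2) = -y b θ := by
  unfold y
  have h1 : cexp (2 * Real.pi * ((θ + 1 / 2 : ℝ) : ℂ) * I) = -cexp (2 * Real.pi * θ * I) := by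
    have h2 : (2 * Real.pi * ((θ + 1 / 2 : ℝ) : ℂ) * I : ℂ) = 2 * Real.pi * θ * I + Real.pi * I := by
      push_cast
      ring
    rw [h2, Complex.exp_add, Complex.exp_pi_mul_I]
    ring
  rw [h1, mul_neg, Complex.neg_re]
  ring

lemma y_per (b : ℂ) (θ : ℝ) : y b (θ + 1) = y b θ := by
  have h1 : θ + 1 = (θ + 1 / 2) + 1 / 2 := by ring
  rw [h1, y_shift, y_shift, neg_neg]

lemma y_neg (b : ℂ) (θ : ℝ) : y (-b) θ = -y b θ := by
  unfold y
  rw [neg_mul, Complex.neg_re]
  ring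

lemma y_le (b : ℂ) (θ : ℝ) : |y b θ| ≤ 4 * ‖b‖ := by
  unfold y
  rw [abs_mul, abs_mul]
  have h1 : |(b * cexp (2 * Real.pi * θ * I)).re| ≤ ‖b‖ := by
    refine (Complex.abs_re_le_norm _).trans ?_
    rw [norm_mul]
    have h2 : (2 * Real.pi * θ * I : ℂ) = ((2 * Real.pi * θ : ℝ) : ℂ) * I := by push_cast; ring
    rw [h2, Complex.norm_exp_ofReal_mul_I, mul_one]
  have h3 : |(2 : ℝ)| = 2 := by norm_num
  rw [h3]
  linarith

lemma one_int (b : ℂ) : ∫ θ, Real.exp (y b θ) ∂(volume.restrict (Ioc (0 : ℝ) 1)) ≤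
    Real.exp (8 * ‖b‖ ^ 2) := by
  rw [← intervalIntegral.integral_of_le (by norm_num : (0 : ℝ) ≤ 1)]
  have hc1 : Continuous fun θ => Real.exp (y b θ) := Real.continuous_exp.comp (y_cont b)
  have hc2 : Continuous fun θ => Real.exp (-y b θ) := Real.continuous_exp.comp (y_cont b).neg
  have h1 : ∫ θ in (0 : ℝ)..1, Real.exp (y b θ) = ∫ θ in (0 : ℝ)..1, Real.exp (-y b θ) := by
    have hper : Function.Periodic (fun θ => Real.exp (y b θ)) 1 := by
      intro θ
      show Real.exp (y b (θ + 1)) = Real.exp (y b θ)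
      rw [y_per]
    have h2 := hper.intervalIntegral_add_eq (1 / 2) 0
    have h3 := intervalIntegral.integral_comp_add_right (a := 0) (b := 1)
      (fun θ => Real.exp (y b θ)) (1 / 2)
    simp only [y_shift] at h3
    rw [h3]
    rw [zero_add] at h2
    rw [← h2]
    norm_num
  have h2 : ∫ θ in (0 : ℝ)..1, Real.exp (y b θ) = ∫ θ in (0 : ℝ)..1, Real.cosh (y b θ) := by
    have h3 : ∫ θ in (0 : ℝ)..1, Real.cosh (y b θ) =
        ((∫ θ in (0 : ℝ)..1, Real.exp (y b θ)) + ∫ θ in (0 : ℝ)..1, Real.exp (-y b θ)) / 2 := by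
      rw [← intervalIntegral.integral_add (hc1.intervalIntegrable _ _)
        (hc2.intervalIntegrable _ _), ← intervalIntegral.integral_div]
      congr 1
      funext θ
      rw [Real.cosh_eq]
    rw [h3, ← h1]
    ring
  rw [h2]
  have h4 : ∫ θ in (0 : ℝ)..1, Real.cosh (y b θ) ≤ ∫ _θ in (0 : ℝ)..1, Real.exp (8 * ‖b‖ ^ 2) := by
    refine intervalIntegral.integral_mono_on (by norm_num)
      ((Real.continuous_cosh.comp (y_cont b)).intervalIntegrable _ _)
      intervalIntegrable_const fun θ _ => ?_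
    refine (Real.cosh_le_exp_half_sq _).trans (Real.exp_le_exp.mpr ?_)
    have h5 := y_le b θ
    have h6 : y b θ ^ 2 ≤ (4 * ‖b‖) ^ 2 := by
      rw [← sq_abs]
      gcongr
    nlinarith
  refine h4.trans (le_of_eq ?_)
  simp

end P2

open P2

theorem p2 : S_P2 := by
  intro ι _ b m
  have hfin : IsFiniteMeasure (mu ι) := by
    unfold mu
    infer_instance
  have hcont : Continuous (Px b) := by
    unfold Px
    fun_prop
  have hbd : ∀ θ, |Px b θ| ≤ 2 * ∑ i, ‖b i‖ := by
    intro θ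
    unfold Px
    refine (Finset.abs_sum_le_sum_abs _ _).trans ?_
    rw [Finset.mul_sum]
    refine Finset.sum_le_sum fun i _ => ?_
    have h1 := y_le (b i) (θ i)
    unfold y at h1
    rw [abs_mul] at h1
    have h3 : |(2 : ℝ)| = 2 := by norm_num
    rw [h3] at h1
    linarith
  have hint : ∀ f : ℝ → ℝ, Continuous f → Integrable (fun θ => f (Px b θ)) (mu ι) := by
    intro f hf
    obtain ⟨C, hC⟩ := (isCompact_Icc (a := -(2 * ∑ i, ‖b i‖)) (b := 2 * ∑ i, ‖b i‖)).exists_bound_of_continuousOn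
      hf.continuousOn
    refine Integrable.of_bound (hf.comp hcont).aestronglyMeasurable C ?_
    exact Filter.Eventually.of_forall fun θ => hC _ ⟨(abs_le.mp (hbd θ)).1, (abs_le.mp (hbd θ)).2⟩
  -- the exponential moments
  have hexp : ∀ c : ι → ℂ, ∫ θ, Real.exp (2 * Px c θ) ∂(mu ι) ≤ Real.exp (8 * ∑ i, ‖c i‖ ^ 2) := by
    intro c
    have h1 : ∀ θ : ι → ℝ, Real.exp (2 * Px c θ) = ∏ i, Real.exp (y (c i) (θ i)) := by
      intro θ
      rw [← Real.exp_sum]
      congr 1
      unfold Px y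
      rw [Finset.mul_sum]
    simp only [h1]
    unfold mu
    rw [integral_fintype_prod_eq_prod (f := fun i x => Real.exp (y (c i) x)), Finset.mul_sum,
      Real.exp_sum]
    refine Finset.prod_le_prod (fun i _ => integral_nonneg fun x => (Real.exp_pos _).le)
      fun i _ => one_int (c i)
  have hneg : ∀ θ, Px (fun i => -b i) θ = -Px b θ := by
    intro θ
    unfold Px
    rw [← Finset.sum_neg_distrib]
    refine Finset.sum_congr rfl fun i _ => ?_
    rw [neg_mul, Complex.neg_re]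
    ring
  have hcosh : ∫ θ, Real.cosh (2 * Px b θ) ∂(mu ι) ≤ Real.exp (8 * ∑ i, ‖b i‖ ^ 2) := by
    have h1 := hexp b
    have h2 := hexp (fun i => -b i)
    simp only [hneg, norm_neg] at h2
    have i1 := hint (fun x => Real.exp (2 * x)) (by fun_prop)
    have i2 := hint (fun x => Real.exp (2 * -x)) (by fun_prop)
    have h3 : ∫ θ, Real.cosh (2 * Px b θ) ∂(mu ι) =
        (∫ θ, Real.exp (2 * Px b θ) ∂(mu ι) + ∫ θ, Real.exp (2 * -Px b θ) ∂(mu ι)) / 2 := by
      rw [← integral_add i1 i2, ← integral_div]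
      congr 1
      funext θ
      rw [Real.cosh_eq]
      congr 3
      ring
    rw [h3]
    linarith
  -- the pointwise bound
  have hpt : ∀ x : ℝ, x ^ (2 * m) ≤ ((2 * m).factorial : ℝ) * (1 / 4) ^ m * Real.cosh (2 * x) := by
    intro x
    have h1 : (2 * x) ^ (2 * m) / ((2 * m).factorial : ℝ) ≤ Real.cosh (2 * x) :=
      le_hasSum (Real.hasSum_cosh (2 * x)) m fun j _ => by
        rw [pow_mul]
        positivity
    have hf : (0 : ℝ) < ((2 * m).factorial : ℝ) := by positivity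
    rw [div_le_iff₀ hf] at h1
    have h2 : x ^ (2 * m) = (1 / 4) ^ m * (2 * x) ^ (2 * m) := by
      rw [mul_pow, pow_mul 2 2 m, ← mul_assoc, ← mul_pow]
      norm_num
    rw [h2]
    calc (1 / 4 : ℝ) ^ m * (2 * x) ^ (2 * m) ≤
        (1 / 4 : ℝ) ^ m * (Real.cosh (2 * x) * ((2 * m).factorial : ℝ)) :=
          mul_le_mul_of_nonneg_left h1 (by positivity)
      _ = _ := by ring
  calc ∫ θ, Px b θ ^ (2 * m) ∂(mu ι) ≤
      ∫ θ, ((2 * m).factorial : ℝ) * (1 / 4) ^ m * Real.cosh (2 * Px b θ) ∂(mu ι) :=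
        integral_mono (hint (fun x => x ^ (2 * m)) (by fun_prop))
          (hint (fun x => ((2 * m).factorial : ℝ) * (1 / 4) ^ m * Real.cosh (2 * x))
            (by fun_prop)) fun θ => hpt _
    _ = ((2 * m).factorial : ℝ) * (1 / 4) ^ m * ∫ θ, Real.cosh (2 * Px b θ) ∂(mu ι) := by
        rw [integral_const_mul]
    _ ≤ _ := mul_le_mul_of_nonneg_left hcosh (by positivity)

end Pool.Agent.TH850.CL
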