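import Pool.Agent.TH850.CL.Defs

set_option autoImplicit false

/-! # CL-P3: the characteristic function of the random model -/

namespace Pool.Agent.TH850.CL

open Complex MeasureTheory Set

namespace P3

/-- `sin x ≥ x - x^3/6` for `x ≥ 0` -/
lemma sin_ge {x : ℝ} (hx : 0 ≤ x) : x - x ^ 3 / 6 ≤ Real.sin x := by
  have hm : MonotoneOn (fun t : ℝ => Real.sin t - t + t ^ 3 / 6) (Set.Ici 0) := by
    apply monotoneOn_of_deriv_nonneg (convex_Ici 0)
    · fun_prop
    · fun_prop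
    · intro t _
      have hd : HasDerivAt (fun t : ℝ => Real.sin t - t + t ^ 3 / 6)
          (Real.cos t - 1 + (3 : ℕ) * t ^ 2 / 6) t := by
        have h1 := ((Real.hasDerivAt_sin t).sub (hasDerivAt_id t)).add
          ((hasDerivAt_pow 3 t).div_const 6)
        exact h1
      rw [hd.deriv]
      have := Real.one_sub_sq_div_two_le_cos (x := t)
      push_cast
      linarith
  have h := hm (Set.mem_Ici.2 le_rfl) (Set.mem_Ici.2 hx) hx
  simp only [Real.sin_zero] at h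
  norm_num at h
  linarith

lemma cos_le_of_nonneg {x : ℝ} (hx : 0 ≤ x) : Real.cos x ≤ 1 - x ^ 2 / 2 + x ^ 4 / 24 := by
  have hm : MonotoneOn (fun t : ℝ => 1 - t ^ 2 / 2 + t ^ 4 / 24 - Real.cos t) (Set.Ici 0) := by
    apply monotoneOn_of_deriv_nonneg (convex_Ici 0)
    · fun_prop
    · fun_prop
    · intro t ht
      rw [interior_Ici, Set.mem_Ioi] at ht
      have hd : HasDerivAt (fun t : ℝ => 1 - t ^ 2 / 2 + t ^ 4 / 24 - Real.cos t)
          (0 - (2 : ℕ) * t ^ 1 / 2 + (4 : ℕ) * t ^ 3 / 24 - (-Real.sin t)) t := by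
        exact ((((hasDerivAt_const t (1:ℝ)).sub ((hasDerivAt_pow 2 t).div_const 2)).add
          ((hasDerivAt_pow 4 t).div_const 24)).sub (Real.hasDerivAt_cos t))
      rw [hd.deriv]
      have := sin_ge ht.le
      push_cast
      linarith
  have h := hm (Set.mem_Ici.2 le_rfl) (Set.mem_Ici.2 hx) hx
  simp only [Real.cos_zero] at h
  norm_num at h
  linarith

lemma cos_le (x : ℝ) : Real.cos x ≤ 1 - x ^ 2 / 2 + x ^ 4 / 24 := by
  have h := cos_le_of_nonneg (abs_nonneg x)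
  rw [Real.cos_abs, sq_abs] at h
  have h4 : |x| ^ 4 = x ^ 4 := by
    rw [show (4 : ℕ) = 2 * 2 from rfl, pow_mul, sq_abs, ← pow_mul]
  rwa [h4] at h

/-- one coordinate of the model -/
noncomputable def y (b : ℂ) (θ : ℝ) : ℝ := 2 * (b * cexp (2 * Real.pi * θ * I)).re

lemma y_eq (b : ℂ) (θ : ℝ) :
    y b θ = 2 * (b.re * Real.cos (2 * Real.pi * θ) - b.im * Real.sin (2 * Real.pi * θ)) := by
  unfold y
  have : cexp (2 * Real.pi * θ * I) =
      (Real.cos (2 * Real.pi * θ) : ℂ) + (Real.sin (2 * Real.pi * θ) : ℂ) * I := by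
    rw [show (2 * (Real.pi : ℂ) * θ) = ((2 * Real.pi * θ : ℝ) : ℂ) by push_cast; ring,
      Complex.exp_mul_I, Complex.ofReal_cos, Complex.ofReal_sin]
  rw [this]
  generalize Real.cos (2 * Real.pi * θ) = c
  generalize Real.sin (2 * Real.pi * θ) = d
  simp [Complex.mul_re]

lemma y_cont (b : ℂ) : Continuous (y b) := by
  have : y b = fun θ => 2 * (b.re * Real.cos (2 * Real.pi * θ) -
      b.im * Real.sin (2 * Real.pi * θ)) := funext (y_eq b)
  rw [this]
  fun_prop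

lemma y_periodic (b : ℂ) : Function.Periodic (y b) 1 := by
  intro θ
  rw [y_eq, y_eq, mul_add, mul_one, Real.cos_add_two_pi, Real.sin_add_two_pi]

lemma y_half (b : ℂ) (θ : ℝ) : y b (θ + 1 / 2) = - y b θ := by
  rw [y_eq, y_eq, show 2 * Real.pi * (θ + 1 / 2) = 2 * Real.pi * θ + Real.pi by ring,
    Real.cos_add_pi, Real.sin_add_pi]
  ring

lemma y_quarter (b : ℂ) (θ : ℝ) : y b θ ^ 2 + y b (θ + 1 / 4) ^ 2 = 4 * ‖b‖ ^ 2 := by
  rw [y_eq, y_eq, show 2 * Real.pi * (θ + 1 / 4) = 2 * Real.pi * θ + Real.pi / 2 by ring,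
    Real.cos_add_pi_div_two, Real.sin_add_pi_div_two, ← Complex.normSq_eq_norm_sq,
    Complex.normSq_apply]
  have := Real.sin_sq_add_cos_sq (2 * Real.pi * θ)
  linear_combination (4 * (b.re ^ 2 + b.im ^ 2)) * this

lemma y_abs (b : ℂ) (θ : ℝ) : y b θ ^ 2 ≤ 4 * ‖b‖ ^ 2 := by
  have := y_quarter b θ
  nlinarith [sq_nonneg (y b (θ + 1 / 4))]

lemma shift {f : ℝ → ℝ} (hf : Function.Periodic f 1) (c : ℝ) :
    ∫ θ in (0 : ℝ)..1, f (θ + c) = ∫ θ in (0 : ℝ)..1, f θ := by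
  rw [intervalIntegral.integral_comp_add_right]
  have := hf.intervalIntegral_add_eq c 0
  rw [zero_add] at this
  rw [← this]
  congr 1 <;> ring

lemma int_sq (b : ℂ) : ∫ θ in (0 : ℝ)..1, y b θ ^ 2 = 2 * ‖b‖ ^ 2 := by
  have hp : Function.Periodic (fun θ => y b θ ^ 2) 1 := fun θ => by
    simp only [y_periodic b θ]
  have h1 := shift hp (1 / 4)
  have h2 : ∫ θ in (0 : ℝ)..1, (y b θ ^ 2 + y b (θ + 1 / 4) ^ 2) = 4 * ‖b‖ ^ 2 := by
    simp_rw [y_quarter]
    simp
  rw [intervalIntegral.integral_add] at h2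
  · rw [h1] at h2
    linarith
  · exact ((y_cont b).pow 2).intervalIntegrable _ _
  · exact (((y_cont b).comp (continuous_id.add continuous_const)).pow 2).intervalIntegrable _ _

lemma int_sin (b : ℂ) : ∫ θ in (0 : ℝ)..1, Real.sin (y b θ) = 0 := by
  have hp : Function.Periodic (fun θ => Real.sin (y b θ)) 1 := fun θ => by
    simp only [y_periodic b θ]
  have h1 := shift hp (1 / 2)
  simp only [y_half, Real.sin_neg, intervalIntegral.integral_neg] at h1
  linarith

lemma int_cos (b : ℂ) :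
    |(∫ θ in (0 : ℝ)..1, Real.cos (y b θ)) - (1 - ‖b‖ ^ 2)| ≤ ‖b‖ ^ 4 := by
  have hc : Continuous fun θ => Real.cos (y b θ) := Real.continuous_cos.comp (y_cont b)
  have hlow : ∫ θ in (0 : ℝ)..1, (1 - y b θ ^ 2 / 2) ≤ ∫ θ in (0 : ℝ)..1, Real.cos (y b θ) := by
    apply intervalIntegral.integral_mono_on zero_le_one
    · exact (continuous_const.sub (((y_cont b).pow 2).div_const 2)).intervalIntegrable _ _
    · exact hc.intervalIntegrable _ _
    · intro θ _
      exact Real.one_sub_sq_div_two_le_cos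
  have hup : ∫ θ in (0 : ℝ)..1, Real.cos (y b θ) ≤
      ∫ θ in (0 : ℝ)..1, (1 - y b θ ^ 2 / 2 + ‖b‖ ^ 4) := by
    apply intervalIntegral.integral_mono_on zero_le_one
    · exact hc.intervalIntegrable _ _
    · exact ((continuous_const.sub (((y_cont b).pow 2).div_const 2)).add
        continuous_const).intervalIntegrable _ _
    · intro θ _
      refine (cos_le _).trans ?_
      have h1 := y_abs b θ
      have h2 : y b θ ^ 4 ≤ 16 * ‖b‖ ^ 4 := by
        have h3 : y b θ ^ 4 = (y b θ ^ 2) ^ 2 := by ring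
        have h4 : 16 * ‖b‖ ^ 4 = (4 * ‖b‖ ^ 2) ^ 2 := by ring
        rw [h3, h4]
        exact pow_le_pow_left₀ (sq_nonneg _) h1 2
      have h5 : 0 ≤ ‖b‖ ^ 4 := by positivity
      linarith
  have e1 : ∫ θ in (0 : ℝ)..1, (1 - y b θ ^ 2 / 2) = 1 - ‖b‖ ^ 2 := by
    rw [intervalIntegral.integral_sub, intervalIntegral.integral_div, int_sq]
    · simp
    · exact continuous_const.intervalIntegrable _ _
    · exact (((y_cont b).pow 2).div_const 2).intervalIntegrable _ _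
  have e2 : ∫ θ in (0 : ℝ)..1, (1 - y b θ ^ 2 / 2 + ‖b‖ ^ 4) = 1 - ‖b‖ ^ 2 + ‖b‖ ^ 4 := by
    rw [intervalIntegral.integral_add, e1]
    · simp
    · exact (continuous_const.sub (((y_cont b).pow 2).div_const 2)).intervalIntegrable _ _
    · exact continuous_const.intervalIntegrable _ _
  rw [abs_le]
  constructor
  · have : 0 ≤ ‖b‖ ^ 4 := by positivity
    linarith
  · linarith

lemma exp_bd {s : ℝ} (hs : 0 ≤ s) : |Real.exp (-s) - (1 - s)| ≤ s ^ 2 := by
  by_cases h : s ≤ 1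
  · have h2 := Real.abs_exp_sub_one_sub_id_le (x := -s) (by rw [abs_neg, abs_of_nonneg hs]; exact h)
    rw [neg_sq] at h2
    rw [show Real.exp (-s) - (1 - s) = Real.exp (-s) - 1 - -s by ring]
    exact h2
  · have h1 := Real.add_one_le_exp (-s)
    have h3 : Real.exp (-s) ≤ 1 := Real.exp_le_one_iff.2 (by linarith)
    rw [not_le] at h
    rw [abs_le]
    constructor <;> nlinarith

/-- one factor of the characteristic function -/
noncomputable def φ (b : ℂ) : ℂ := ∫ θ in Ioc (0 : ℝ) 1, cexp (I * (y b θ : ℝ))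

lemma φ_eq (b : ℂ) : φ b = ((∫ θ in (0 : ℝ)..1, Real.cos (y b θ) : ℝ) : ℂ) := by
  have h1 : ∀ θ : ℝ, cexp (I * (y b θ : ℝ)) =
      ((Real.cos (y b θ) : ℝ) : ℂ) + ((Real.sin (y b θ) : ℝ) : ℂ) * I := by
    intro θ
    rw [mul_comm, Complex.exp_mul_I, Complex.ofReal_cos, Complex.ofReal_sin]
  have hc : Continuous fun θ => Real.cos (y b θ) := Real.continuous_cos.comp (y_cont b)
  have hs : Continuous fun θ => Real.sin (y b θ) := Real.continuous_sin.comp (y_cont b)
  unfold φ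
  rw [← intervalIntegral.integral_of_le zero_le_one]
  simp_rw [h1]
  rw [intervalIntegral.integral_add, intervalIntegral.integral_mul_const,
    intervalIntegral.integral_ofReal, intervalIntegral.integral_ofReal, int_sin]
  · simp
  · exact (Complex.continuous_ofReal.comp hc).intervalIntegrable _ _
  · exact ((Complex.continuous_ofReal.comp hs).mul continuous_const).intervalIntegrable _ _

lemma φ_bd (b : ℂ) : ‖φ b - ((Real.exp (-‖b‖ ^ 2) : ℝ) : ℂ)‖ ≤ 2 * ‖b‖ ^ 4 := by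
  rw [φ_eq, ← Complex.ofReal_sub, Complex.norm_real, Real.norm_eq_abs]
  have h1 := int_cos b
  have h2 := exp_bd (sq_nonneg ‖b‖)
  have h3 : (‖b‖ ^ 2) ^ 2 = ‖b‖ ^ 4 := by ring
  rw [h3] at h2
  rw [abs_le] at h1 h2 ⊢
  constructor <;> linarith [h1.1, h1.2, h2.1, h2.2]

lemma φ_norm (b : ℂ) : ‖φ b‖ ≤ 1 := by
  unfold φ
  have h := norm_setIntegral_le_of_norm_le_const (μ := volume) (s := Ioc (0 : ℝ) 1) (C := 1)
    (f := fun θ : ℝ => cexp (I * (y b θ : ℝ))) (by simp) (fun θ _ => by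
      rw [mul_comm, Complex.norm_exp_ofReal_mul_I])
  refine h.trans ?_
  simp [Measure.real]

lemma prod_bd {ι : Type} (s : Finset ι) (f g : ι → ℂ) (hf : ∀ i, ‖f i‖ ≤ 1)
    (hg : ∀ i, ‖g i‖ ≤ 1) : ‖∏ i ∈ s, f i - ∏ i ∈ s, g i‖ ≤ ∑ i ∈ s, ‖f i - g i‖ := by
  classical
  induction s using Finset.induction_on with
  | empty => simp
  | insert a s ha ih =>
    rw [Finset.prod_insert ha, Finset.prod_insert ha, Finset.sum_insert ha]
    have e : f a * ∏ i ∈ s, f i - g a * ∏ i ∈ s, g i =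
        (f a - g a) * ∏ i ∈ s, f i + g a * (∏ i ∈ s, f i - ∏ i ∈ s, g i) := by ring
    have h1 : ‖∏ i ∈ s, f i‖ ≤ 1 := by
      rw [norm_prod]
      exact Finset.prod_le_one (fun i _ => norm_nonneg _) (fun i _ => hf i)
    rw [e]
    refine (norm_add_le _ _).trans ?_
    rw [norm_mul, norm_mul]
    have h2 := norm_nonneg (f a - g a)
    have h3 := norm_nonneg (∏ i ∈ s, f i - ∏ i ∈ s, g i)
    have h4 := hg a
    nlinarith [norm_nonneg (g a), norm_nonneg (∏ i ∈ s, f i)]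

end P3

/-- CL-P3 -/
theorem p3 : S_P3 := by
  intro ι _ b
  have h1 : ∀ θ : ι → ℝ, cexp (I * Px b θ) = ∏ i, cexp (I * (P3.y (b i) (θ i) : ℝ)) := by
    intro θ
    rw [← Complex.exp_sum, ← Finset.mul_sum]
    congr 2
    unfold Px P3.y
    push_cast
    rfl
  have h2 : ∫ θ, cexp (I * Px b θ) ∂(mu ι) = ∏ i, P3.φ (b i) := by
    simp_rw [h1]
    unfold mu P3.φ
    exact integral_fintype_prod_eq_prod (μ := fun _ : ι => volume.restrict (Ioc (0 : ℝ) 1))
      (fun i (x : ℝ) => cexp (I * (P3.y (b i) x : ℝ)))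
  have h3 : ((Real.exp (-∑ i, ‖b i‖ ^ 2) : ℝ) : ℂ) =
      ∏ i, ((Real.exp (-‖b i‖ ^ 2) : ℝ) : ℂ) := by
    rw [← Complex.ofReal_prod, ← Real.exp_sum, Finset.sum_neg_distrib]
  rw [h2, h3]
  refine (P3.prod_bd _ _ _ (fun i => P3.φ_norm _) (fun i => ?_)).trans ?_
  · rw [Complex.norm_real, Real.norm_eq_abs, abs_of_pos (Real.exp_pos _)]
    exact Real.exp_le_one_iff.2 (by nlinarith [sq_nonneg ‖b i‖])
  · rw [Finset.mul_sum]
    exact Finset.sum_le_sum fun i _ => P3.φ_bd _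

end Pool.Agent.TH850.CL
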