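import Pool.Agent.TH850.CL.Defs3

set_option autoImplicit false

/-! # CL-P4: the characteristic function of a prime polynomial from its moments (helper329) -/

namespace Pool.Agent.TH850.CL

open Complex MeasureTheory Set

namespace P4Aux

/-- Taylor polynomial of `exp (i x)` -/
noncomputable def tay (n : ℕ) (x : ℝ) : ℂ := ∑ k ∈ Finset.range n, I ^ k / k.factorial * (x : ℂ) ^ k

lemma tay_succ (n : ℕ) (x : ℝ) :
    tay (n + 1) x = tay n x + I ^ n / n.factorial * (x : ℂ) ^ n := by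
  unfold tay
  rw [Finset.sum_range_succ]

lemma tay_deriv (n : ℕ) (x : ℝ) : HasDerivAt (fun x : ℝ => tay (n + 1) x) (I * tay n x) x := by
  induction n with
  | zero =>
    have h1 : (fun x : ℝ => tay (0 + 1) x) = fun _ => 1 := by
      funext x
      simp [tay]
    rw [h1]
    simpa [tay] using hasDerivAt_const x (1 : ℂ)
  | succ n ih =>
    have h1 : (fun x : ℝ => tay (n + 1 + 1) x) =
        fun x : ℝ => tay (n + 1) x + I ^ (n + 1) / (n + 1).factorial * (x : ℂ) ^ (n + 1) := by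
      funext x
      exact tay_succ _ _
    rw [h1]
    have h2 : HasDerivAt (fun x : ℝ => (x : ℂ) ^ (n + 1)) (((n + 1 : ℕ) : ℂ) * (x : ℂ) ^ n * 1) x := by
      have h3 : HasDerivAt (fun x : ℝ => (x : ℂ)) 1 x := Complex.ofRealCLM.hasDerivAt
      exact h3.pow (n + 1)
    have h4 := ih.add (h2.const_mul (I ^ (n + 1) / ((n + 1).factorial : ℂ)))
    refine h4.congr_deriv ?_
    rw [tay_succ, Nat.factorial_succ, pow_succ]
    have h5 : ((n : ℂ) + 1) ≠ 0 := by exact_mod_cast Nat.succ_ne_zero n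
    have h6 : ((n.factorial : ℕ) : ℂ) ≠ 0 := by exact_mod_cast Nat.factorial_ne_zero n
    push_cast
    field_simp

lemma tay_zero (n : ℕ) : tay (n + 1) 0 = 1 := by
  induction n with
  | zero => simp [tay]
  | succ n ih =>
    rw [tay_succ, ih]
    simp

lemma bd_nonneg (n : ℕ) : ∀ x : ℝ, 0 ≤ x → ‖cexp (I * x) - tay n x‖ ≤ x ^ n / n.factorial := by
  induction n with
  | zero =>
    intro x _
    simp only [tay, Finset.range_zero, Finset.sum_empty, sub_zero, pow_zero]
    rw [mul_comm, Complex.norm_exp_ofReal_mul_I]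
    simp
  | succ n ih =>
    intro x hx
    have hd : ∀ y : ℝ, HasDerivAt (fun y : ℝ => cexp (I * y) - tay (n + 1) y)
        (I * (cexp (I * y) - tay n y)) y := by
      intro y
      have h1 : HasDerivAt (fun y : ℝ => cexp (I * y)) (cexp (I * y) * (I * 1)) y := by
        have h3 : HasDerivAt (fun x : ℝ => (x : ℂ)) 1 y := Complex.ofRealCLM.hasDerivAt
        exact (h3.const_mul I).cexp
      refine (h1.sub (tay_deriv n y)).congr_deriv ?_
      ring
    have hB : ∀ y : ℝ, HasDerivAt (fun y : ℝ => y ^ (n + 1) / ((n + 1).factorial : ℝ))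
        (y ^ n / (n.factorial : ℝ)) y := by
      intro y
      refine ((hasDerivAt_pow (n + 1) y).div_const _).congr_deriv ?_
      rw [Nat.factorial_succ]
      have h5 : ((n : ℝ) + 1) ≠ 0 := by positivity
      have h6 : ((n.factorial : ℕ) : ℝ) ≠ 0 := by positivity
      push_cast
      field_simp
    refine image_norm_le_of_norm_deriv_right_le_deriv_boundary (a := 0) (b := x)
      (f := fun y : ℝ => cexp (I * y) - tay (n + 1) y)
      (f' := fun y : ℝ => I * (cexp (I * y) - tay n y))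
      (B := fun y : ℝ => y ^ (n + 1) / ((n + 1).factorial : ℝ))
      (B' := fun y : ℝ => y ^ n / (n.factorial : ℝ))
      (fun y _ => (hd y).continuousAt.continuousWithinAt) (fun y _ => (hd y).hasDerivWithinAt)
      ?_ hB ?_ ⟨hx, le_rfl⟩
    · simp [tay_zero]
    · intro y hy
      rw [norm_mul, Complex.norm_I, one_mul]
      exact ih y hy.1

lemma conj_tay (n : ℕ) (x : ℝ) : (starRingEnd ℂ) (tay n x) = tay n (-x) := by
  unfold tay
  rw [map_sum]
  refine Finset.sum_congr rfl fun k _ => ?_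
  rw [map_mul, map_div₀, map_pow, map_pow, Complex.conj_I, Complex.conj_ofReal, Complex.conj_natCast,
    Complex.ofReal_neg, neg_pow, neg_pow (x : ℂ)]
  ring

lemma bd (n : ℕ) (x : ℝ) : ‖cexp (I * x) - tay n x‖ ≤ |x| ^ n / n.factorial := by
  rcases le_total 0 x with h | h
  · rw [abs_of_nonneg h]
    exact bd_nonneg n x h
  · rw [abs_of_nonpos h]
    have h1 := bd_nonneg n (-x) (by linarith)
    have h2 : cexp (I * x) - tay n x =
        (starRingEnd ℂ) (cexp (I * ((-x : ℝ) : ℂ)) - tay n (-x)) := by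
      rw [map_sub, conj_tay, ← Complex.exp_conj, map_mul, Complex.conj_I, Complex.conj_ofReal]
      simp
    rw [h2, RCLike.norm_conj]
    exact h1

/-- characteristic function from the moments -/
lemma gen {α : Type*} [MeasurableSpace α] (ν : Measure α) [IsFiniteMeasure ν] (X : α → ℝ)
    (hX : AEStronglyMeasurable X ν) (hint : ∀ k : ℕ, Integrable (fun a => X a ^ k) ν) (m : ℕ) :
    ‖∫ a, cexp (I * X a) ∂ν -
      ∑ k ∈ Finset.range (2 * m), I ^ k / k.factorial * ((∫ a, X a ^ k ∂ν : ℝ) : ℂ)‖ ≤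
      (∫ a, X a ^ (2 * m) ∂ν) / (2 * m).factorial := by
  have h1 : ∀ k : ℕ, Integrable (fun a => I ^ k / (k.factorial : ℂ) * ((X a : ℂ)) ^ k) ν := by
    intro k
    have h2 := ((hint k).ofReal (𝕜 := ℂ)).const_mul (I ^ k / (k.factorial : ℂ))
    refine h2.congr (Filter.Eventually.of_forall fun a => ?_)
    simp
  have h2 : ∑ k ∈ Finset.range (2 * m), I ^ k / (k.factorial : ℂ) * ((∫ a, X a ^ k ∂ν : ℝ) : ℂ) =
      ∫ a, tay (2 * m) (X a) ∂ν := by
    unfold tay
    rw [integral_finsetSum _ fun k _ => h1 k]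
    refine Finset.sum_congr rfl fun k _ => ?_
    rw [integral_const_mul, ← integral_complex_ofReal]
    simp
  have h3 : Integrable (fun a => tay (2 * m) (X a)) ν := by
    unfold tay
    exact integrable_finsetSum _ fun k _ => h1 k
  have h4 : Integrable (fun a => cexp (I * X a)) ν := by
    refine Integrable.of_bound (C := 1) ?_ (Filter.Eventually.of_forall fun a => ?_)
    · have hc : Continuous fun x : ℝ => cexp (I * x) := by fun_prop
      exact hc.comp_aestronglyMeasurable hX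
    · rw [mul_comm, Complex.norm_exp_ofReal_mul_I]
  rw [h2, ← integral_sub h4 h3, ← integral_div]
  refine norm_integral_le_of_norm_le ((hint (2 * m)).div_const _)
    (Filter.Eventually.of_forall fun a => ?_)
  refine (bd (2 * m) (X a)).trans (le_of_eq ?_)
  rw [pow_mul, sq_abs, ← pow_mul]

lemma sum_bd (D : ℕ → ℝ) (W : ℝ) (n : ℕ) (hW : 0 ≤ W) (hD : ∀ k, k ≤ n → D k ≤ W) :
    ∑ k ∈ Finset.range (n + 1), D k / (k.factorial : ℝ) ≤ 3 * W := by
  have h1 : ∑ k ∈ Finset.range (n + 1), D k / (k.factorial : ℝ) ≤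
      ∑ k ∈ Finset.range (n + 1), W * ((1 : ℝ) ^ k / (k.factorial : ℝ)) := by
    refine Finset.sum_le_sum fun k hk => ?_
    rw [one_pow, mul_one_div]
    exact div_le_div_of_nonneg_right (hD k (Nat.lt_succ_iff.1 (Finset.mem_range.1 hk)))
      (by positivity)
  refine h1.trans ?_
  rw [← Finset.mul_sum]
  have h2 := Real.sum_le_exp_of_nonneg (zero_le_one (α := ℝ)) (n + 1)
  have h3 := Real.exp_one_lt_d9
  nlinarith

lemma Pt_cont {ι : Type} [Fintype ι] (p : ι → ℕ) (b : ι → ℂ) : Continuous (Pt p b) := by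
  unfold Pt
  fun_prop

lemma Px_cont {ι : Type} [Fintype ι] (b : ι → ℂ) : Continuous (Px b) := by
  unfold Px
  fun_prop

lemma Px_bd {ι : Type} [Fintype ι] (b : ι → ℂ) (θ : ι → ℝ) : |Px b θ| ≤ ∑ i, 2 * ‖b i‖ := by
  unfold Px
  refine (Finset.abs_sum_le_sum_abs _ _).trans ?_
  refine Finset.sum_le_sum fun i _ => ?_
  rw [abs_mul]
  have h1 : |(b i * cexp (2 * Real.pi * θ i * I)).re| ≤ ‖b i‖ := by
    refine (Complex.abs_re_le_norm _).trans ?_
    rw [norm_mul]
    have h2 : (2 * Real.pi * θ i * I : ℂ) = ((2 * Real.pi * θ i : ℝ) : ℂ) * I := by push_cast; ring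
    rw [h2, Complex.norm_exp_ofReal_mul_I, mul_one]
  have h3 : |(2 : ℝ)| = 2 := by norm_num
  rw [h3]
  linarith

end P4Aux

/-- CL-P4 -/
theorem p4 (h1 : S_P1) (h2 : S_P2) (h3 : S_P3) : S_P4 := by
  intro ι _ p b hp hinj Y T hY hpY hT m
  have hfin : IsFiniteMeasure (mu ι) := by
    unfold mu
    infer_instance
  -- the model
  have hmod := P4Aux.gen (mu ι) (Px b) (P4Aux.Px_cont b).aestronglyMeasurable (fun k => by
    refine Integrable.of_bound (C := (∑ i, 2 * ‖b i‖) ^ k)
      ((P4Aux.Px_cont b).pow k).aestronglyMeasurable (Filter.Eventually.of_forall fun θ => ?_)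
    rw [Real.norm_eq_abs, abs_pow]
    exact pow_le_pow_left₀ (abs_nonneg _) (P4Aux.Px_bd b θ) k) m
  -- the average
  have hTT : T ≤ 2 * T := by linarith
  have hav := P4Aux.gen (volume.restrict (Ioc T (2 * T))) (Pt p b)
    (P4Aux.Pt_cont p b).aestronglyMeasurable (fun k => by
    have h4 := ((P4Aux.Pt_cont p b).pow k).intervalIntegrable (μ := volume) T (2 * T)
    exact (intervalIntegrable_iff_integrableOn_Ioc_of_le hTT).1 h4) m
  simp only [← intervalIntegral.integral_of_le hTT] at hav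
  -- notation
  set E : ℂ := ∫ θ, cexp (I * Px b θ) ∂(mu ι) with hE
  set A : ℂ := ∫ t in T..(2 * T), cexp (I * Pt p b t) with hA
  set e : ℕ → ℝ := fun k => ∫ θ, Px b θ ^ k ∂(mu ι) with he
  set α : ℕ → ℝ := fun k => ∫ t in T..(2 * T), Pt p b t ^ k with hα
  set V : ℝ := ∑ i, ‖b i‖ ^ 2 with hV
  set B : ℝ := ∑ i, ‖b i‖ with hB
  have hB0 : 0 ≤ B := Finset.sum_nonneg fun i _ => norm_nonneg _
  have hBY : 0 ≤ 2 * B * Y := by positivity
  set W : ℝ := (1 + 2 * B * Y) ^ (2 * m) with hW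
  have hW0 : 0 ≤ W := by positivity
  have hmom : ∀ k, k ≤ 2 * m → |1 / T * α k - e k| ≤ 2 / T * W := by
    intro k hk
    refine (h1 ι p b hp hinj Y T hY hpY hT k).trans ?_
    refine mul_le_mul_of_nonneg_left ?_ (by positivity)
    calc (2 * B * Y) ^ k ≤ (1 + 2 * B * Y) ^ k := pow_le_pow_left₀ hBY (by linarith) k
      _ ≤ (1 + 2 * B * Y) ^ (2 * m) := pow_le_pow_right₀ (by linarith) hk
  have hsum := P4Aux.sum_bd (fun k => |1 / T * α k - e k|) (2 / T * W) (2 * m) (by positivity) hmom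
  rw [Finset.sum_range_succ] at hsum
  have hEm : e (2 * m) / ((2 * m).factorial : ℝ) ≤ (1 / 4) ^ m * Real.exp (8 * V) := by
    rw [div_le_iff₀ (by positivity)]
    have := h2 ι b m
    calc e (2 * m) ≤ ((2 * m).factorial : ℝ) * (1 / 4) ^ m * Real.exp (8 * V) := this
      _ = (1 / 4) ^ m * Real.exp (8 * V) * ((2 * m).factorial : ℝ) := by ring
  have hEx := h3 ι b
  -- first difference
  have d1 : ‖((1 / T : ℝ) : ℂ) * A - ∑ k ∈ Finset.range (2 * m),
      I ^ k / (k.factorial : ℂ) * ((1 / T * α k : ℝ) : ℂ)‖ ≤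
      1 / T * α (2 * m) / ((2 * m).factorial : ℝ) := by
    have e1 : ((1 / T : ℝ) : ℂ) * A - ∑ k ∈ Finset.range (2 * m),
        I ^ k / (k.factorial : ℂ) * ((1 / T * α k : ℝ) : ℂ) =
        ((1 / T : ℝ) : ℂ) * (A - ∑ k ∈ Finset.range (2 * m),
        I ^ k / (k.factorial : ℂ) * ((α k : ℝ) : ℂ)) := by
      rw [mul_sub, Finset.mul_sum]
      congr 1
      refine Finset.sum_congr rfl fun k _ => ?_
      push_cast
      ring
    rw [e1, norm_mul, Complex.norm_real, Real.norm_eq_abs, abs_of_pos (by positivity), mul_div_assoc]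
    exact mul_le_mul_of_nonneg_left hav (by positivity)
  have d2 : ‖∑ k ∈ Finset.range (2 * m), I ^ k / (k.factorial : ℂ) * ((1 / T * α k : ℝ) : ℂ) -
      ∑ k ∈ Finset.range (2 * m), I ^ k / (k.factorial : ℂ) * ((e k : ℝ) : ℂ)‖ ≤
      ∑ k ∈ Finset.range (2 * m), |1 / T * α k - e k| / (k.factorial : ℝ) := by
    rw [← Finset.sum_sub_distrib]
    refine (norm_sum_le _ _).trans (Finset.sum_le_sum fun k _ => ?_)
    rw [← mul_sub, ← Complex.ofReal_sub, norm_mul, norm_div, norm_pow, Complex.norm_I, one_pow,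
      Complex.norm_real, Real.norm_eq_abs, Complex.norm_natCast]
    apply le_of_eq
    ring
  have d3 := hmod
  rw [norm_sub_rev] at d3
  have d4 : 1 / T * α (2 * m) / ((2 * m).factorial : ℝ) ≤
      |1 / T * α (2 * m) - e (2 * m)| / ((2 * m).factorial : ℝ) +
        e (2 * m) / ((2 * m).factorial : ℝ) := by
    rw [← add_div]
    refine div_le_div_of_nonneg_right ?_ (by positivity)
    have := le_abs_self (1 / T * α (2 * m) - e (2 * m))
    linarith
  have t1 := norm_sub_le_norm_sub_add_norm_sub (((1 / T : ℝ) : ℂ) * A)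
    (∑ k ∈ Finset.range (2 * m), I ^ k / (k.factorial : ℂ) * ((1 / T * α k : ℝ) : ℂ))
    (((Real.exp (-V) : ℝ) : ℂ))
  have t2 := norm_sub_le_norm_sub_add_norm_sub
    (∑ k ∈ Finset.range (2 * m), I ^ k / (k.factorial : ℂ) * ((1 / T * α k : ℝ) : ℂ))
    (∑ k ∈ Finset.range (2 * m), I ^ k / (k.factorial : ℂ) * ((e k : ℝ) : ℂ))
    (((Real.exp (-V) : ℝ) : ℂ))
  have t3 := norm_sub_le_norm_sub_add_norm_sub
    (∑ k ∈ Finset.range (2 * m), I ^ k / (k.factorial : ℂ) * ((e k : ℝ) : ℂ)) E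
    (((Real.exp (-V) : ℝ) : ℂ))
  have hWT : 3 * (2 / T * W) ≤ 12 / T * W := by
    have : 0 ≤ 1 / T * W := by positivity
    have e1 : 3 * (2 / T * W) = 6 * (1 / T * W) := by ring
    have e2 : 12 / T * W = 12 * (1 / T * W) := by ring
    rw [e1, e2]
    linarith
  linarith

end Pool.Agent.TH850.CL
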