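import Pool.Agent.TH850.CL.Defs3
import Pool.Agent.TH850.NR.Window

/-!
# CL-ZS: replacing the ordinates by the zeros
(job 3750 of helper850, written by helper643)
-/

set_option autoImplicit false

namespace Pool.Agent.TH850.CL

open Complex MeasureTheory Set Filter Topology
open scoped ComplexConjugate
open H370 (zz mult Zf mem_Zf good_zeta zz_re zz_im zz_refl mult_refl sum_refl zset)
open Pool.Agent.TH850.NR (Lin Lin_integrable Lin_integral Lin_nonneg)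
open Pool.Agent.TH850.UR (ew expmom)

namespace ZSAux

theorem expo {κ0 lam y : ℝ} (hκ : 0 < κ0) (hlam : 0 < lam) (hl : 1 / lam ≤ κ0) (hy : 0 ≤ y) :
    y ^ 2 * Real.exp (y / (2 * lam)) ≤ 8 / κ0 ^ 2 * Real.exp (κ0 * y) := by
  have h0 : 0 ≤ κ0 * y / 2 := by positivity
  have h1 : (κ0 * y / 2) ^ 2 / 2 ≤ Real.exp (κ0 * y / 2) := by
    have := Real.quadratic_le_exp_of_nonneg h0
    linarith
  have h2 : y ^ 2 ≤ 8 / κ0 ^ 2 * Real.exp (κ0 * y / 2) := by
    have e1 : y ^ 2 = 8 / κ0 ^ 2 * ((κ0 * y / 2) ^ 2 / 2) := by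
      field_simp
      ring
    rw [e1]
    exact mul_le_mul_of_nonneg_left h1 (by positivity)
  have h3 : Real.exp (y / (2 * lam)) ≤ Real.exp (κ0 * y / 2) := by
    rw [Real.exp_le_exp]
    have e1 : y / (2 * lam) = (1 / lam) * y / 2 := by field_simp
    rw [e1]
    have := mul_le_mul_of_nonneg_right hl hy
    linarith
  calc y ^ 2 * Real.exp (y / (2 * lam)) ≤
        8 / κ0 ^ 2 * Real.exp (κ0 * y / 2) * Real.exp (κ0 * y / 2) :=
        mul_le_mul h2 h3 (Real.exp_pos _).le (by positivity)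
    _ = 8 / κ0 ^ 2 * Real.exp (κ0 * y) := by
        rw [mul_assoc, ← Real.exp_add]
        congr 2
        ring

/-- the pointwise comparison -/
theorem pt {R C1 C2 lam κ0 M a L κ x δ : ℝ} {g f : ℝ → ℝ}
    (hK1 : ‖low R (a / lam) g x - g x‖ ≤ C1 * M / ((a / lam) ^ 2 * (1 + x ^ 2)))
    (hK2 : ‖Hk κ R (a / lam) g (x + (-(δ * κ) : ℝ) * I) +
      Hk κ R (a / lam) g (x - (-(δ * κ) : ℝ) * I) - 2 * Hk κ R (a / lam) g x‖ ≤
        C2 * M * (-(δ * κ)) ^ 2 * Real.exp (Real.pi * (a / lam) * |-(δ * κ)|) / (1 + x ^ 2))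
    (hC1 : 0 < C1) (hC2 : 0 < C2) (hM : 0 ≤ M) (hκ0 : 0 < κ0) (hlam : 0 < lam)
    (hl : 1 / lam ≤ κ0) (ha : 0 < a) (hL : 0 < L) (hκ : κ = L / (2 * Real.pi * a))
    (hf : ∀ x, f x = g x * Real.exp (-x ^ 2 / (2 * κ ^ 2))) :
    |f x - 1 / 2 * ((Hk κ R (a / lam) g (x + (-(δ * κ) : ℝ) * I)).re +
      (Hk κ R (a / lam) g (x - (-(δ * κ) : ℝ) * I)).re)| ≤
      (C1 * lam ^ 2 + C2 * (4 / κ0 ^ 2)) * M / a ^ 2 * Real.exp (κ0 * (|δ| * L)) *
        (1 + x ^ 2)⁻¹ := by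
  have hpi := Real.pi_pos
  have hx : 0 < 1 + x ^ 2 := by positivity
  set P := Hk κ R (a / lam) g (x + (-(δ * κ) : ℝ) * I) with hP
  set Q := Hk κ R (a / lam) g (x - (-(δ * κ) : ℝ) * I) with hQ
  set H := Hk κ R (a / lam) g x with hH
  have e1 : f x - 1 / 2 * (P.re + Q.re) = ((f x : ℂ) - 1 / 2 * (P + Q)).re := by
    simp [Complex.sub_re, Complex.add_re, Complex.mul_re]
  rw [e1]
  refine (Complex.abs_re_le_norm _).trans ?_
  have e2 : (f x : ℂ) - 1 / 2 * (P + Q) = ((f x : ℂ) - H) - 1 / 2 * (P + Q - 2 * H) := by ring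
  rw [e2]
  refine (norm_sub_le _ _).trans ?_
  have h1 : ‖(f x : ℂ) - H‖ ≤ C1 * M / ((a / lam) ^ 2 * (1 + x ^ 2)) := by
    have e3 : (f x : ℂ) - H =
        (Real.exp (-x ^ 2 / (2 * κ ^ 2)) : ℂ) * (g x - low R (a / lam) g x) := by
      rw [hH, hf]
      unfold Hk
      push_cast
      ring
    rw [e3, norm_mul, Complex.norm_real, Real.norm_eq_abs, abs_of_pos (Real.exp_pos _),
      norm_sub_rev]
    have h4 : Real.exp (-x ^ 2 / (2 * κ ^ 2)) ≤ 1 := by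
      rw [Real.exp_le_one_iff]
      have : 0 ≤ x ^ 2 / (2 * κ ^ 2) := by positivity
      rw [neg_div]
      linarith
    calc _ ≤ 1 * ‖low R (a / lam) g x - g x‖ :=
          mul_le_mul_of_nonneg_right h4 (norm_nonneg _)
      _ ≤ _ := by rw [one_mul]; exact hK1
  have h2 : ‖1 / 2 * (P + Q - 2 * H)‖ ≤ 1 / 2 * (C2 * M * (-(δ * κ)) ^ 2 *
      Real.exp (Real.pi * (a / lam) * |-(δ * κ)|) / (1 + x ^ 2)) := by
    rw [norm_mul]
    have : ‖(1 / 2 : ℂ)‖ = 1 / 2 := by norm_num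
    rw [this]
    exact mul_le_mul_of_nonneg_left hK2 (by norm_num)
  refine (add_le_add h1 h2).trans ?_
  have hy : 0 ≤ |δ| * L := by positivity
  have hexp1 : 1 ≤ Real.exp (κ0 * (|δ| * L)) := Real.one_le_exp (by positivity)
  have hkp : 0 < κ := by rw [hκ]; positivity
  have e4 : Real.pi * (a / lam) * |-(δ * κ)| = |δ| * L / (2 * lam) := by
    rw [abs_neg, abs_mul, abs_of_pos hkp, hκ]
    field_simp
  have e5 : (-(δ * κ)) ^ 2 = (|δ| * L) ^ 2 / (2 * Real.pi * a) ^ 2 := by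
    rw [neg_sq, mul_pow, mul_pow, sq_abs, hκ, div_pow]
    ring
  have h5 := expo hκ0 hlam hl hy
  have h6 : (-(δ * κ)) ^ 2 * Real.exp (Real.pi * (a / lam) * |-(δ * κ)|) ≤
      8 / κ0 ^ 2 * Real.exp (κ0 * (|δ| * L)) / a ^ 2 := by
    rw [e4, e5, div_mul_eq_mul_div]
    have h7 : a ^ 2 ≤ (2 * Real.pi * a) ^ 2 := by
      apply pow_le_pow_left₀ ha.le
      have : 1 ≤ 2 * Real.pi := by linarith [Real.pi_gt_three]
      nlinarith
    have h8 : 0 < a ^ 2 := by positivity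
    calc (|δ| * L) ^ 2 * Real.exp (|δ| * L / (2 * lam)) / (2 * Real.pi * a) ^ 2 ≤
          8 / κ0 ^ 2 * Real.exp (κ0 * (|δ| * L)) / (2 * Real.pi * a) ^ 2 :=
          div_le_div_of_nonneg_right h5 (by positivity)
      _ ≤ 8 / κ0 ^ 2 * Real.exp (κ0 * (|δ| * L)) / a ^ 2 :=
          div_le_div_of_nonneg_left (by positivity) h8 h7
  have h9 : C1 * M / ((a / lam) ^ 2 * (1 + x ^ 2)) ≤
      C1 * lam ^ 2 * M / a ^ 2 * Real.exp (κ0 * (|δ| * L)) * (1 + x ^ 2)⁻¹ := by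
    have e6 : C1 * M / ((a / lam) ^ 2 * (1 + x ^ 2)) =
        C1 * lam ^ 2 * M / a ^ 2 * 1 * (1 + x ^ 2)⁻¹ := by
      field_simp
    rw [e6]
    refine mul_le_mul_of_nonneg_right ?_ (inv_nonneg.2 hx.le)
    exact mul_le_mul_of_nonneg_left hexp1 (by positivity)
  have h10 : 1 / 2 * (C2 * M * (-(δ * κ)) ^ 2 *
      Real.exp (Real.pi * (a / lam) * |-(δ * κ)|) / (1 + x ^ 2)) ≤
      C2 * (4 / κ0 ^ 2) * M / a ^ 2 * Real.exp (κ0 * (|δ| * L)) * (1 + x ^ 2)⁻¹ := by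
    have e7 : 1 / 2 * (C2 * M * (-(δ * κ)) ^ 2 *
        Real.exp (Real.pi * (a / lam) * |-(δ * κ)|) / (1 + x ^ 2)) =
        (1 / 2 * C2 * M) * ((-(δ * κ)) ^ 2 * Real.exp (Real.pi * (a / lam) * |-(δ * κ)|)) *
        (1 + x ^ 2)⁻¹ := by
      rw [div_eq_mul_inv]
      ring
    have e8 : C2 * (4 / κ0 ^ 2) * M / a ^ 2 * Real.exp (κ0 * (|δ| * L)) * (1 + x ^ 2)⁻¹ =
        (1 / 2 * C2 * M) * (8 / κ0 ^ 2 * Real.exp (κ0 * (|δ| * L)) / a ^ 2) * (1 + x ^ 2)⁻¹ := by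
      ring
    rw [e7, e8]
    refine mul_le_mul_of_nonneg_right ?_ (inv_nonneg.2 hx.le)
    exact mul_le_mul_of_nonneg_left h6 (by positivity)
  refine (add_le_add h9 h10).trans (le_of_eq ?_)
  ring

end ZSAux

open ZSAux in
/-- CL-ZS -/
theorem zs (h1 : S_K1) (h2 : S_K2) : S_ZS := by
  classical
  obtain ⟨κ0, CE, T1, hκ0, hκ1, hCE, hT1, hE⟩ := expmom
  obtain ⟨lam, hlamd⟩ : ∃ lam : ℝ, lam = max 16 (1 / κ0) := ⟨_, rfl⟩
  have hlam16 : 16 ≤ lam := by rw [hlamd]; exact le_max_left _ _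
  have hlam0 : 0 < lam := by linarith
  have hlamκ : 1 / lam ≤ κ0 := by
    have : 1 / κ0 ≤ lam := by rw [hlamd]; exact le_max_right _ _
    rw [div_le_iff₀ hκ0] at this
    rw [div_le_iff₀ hlam0]
    linarith
  refine ⟨lam, hlam16, fun R hR => ?_⟩
  obtain ⟨C1, hC1, hK1⟩ := h1 R hR
  obtain ⟨C2, hC2, hK2⟩ := h2 R hR
  obtain ⟨K, hK⟩ : ∃ K : ℝ, K = C1 * lam ^ 2 + C2 * (4 / κ0 ^ 2) := ⟨_, rfl⟩
  have hK0 : 0 < K := by rw [hK]; positivity
  have hpi := Real.pi_pos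
  refine ⟨K * (2 * Real.pi ^ 2) * CE, T1, by positivity, hT1, ?_⟩
  intro T hT U1 U2 hU1 hU2 M a g g' g'' f hg hla haL hf A B hAB
  have hM : 0 ≤ M := (abs_nonneg _).trans (hg.bd 0).1
  have hT10 : 10 ≤ T := hT1.trans hT
  have hT0 : 0 < T := by linarith
  have ha : 0 < a := by linarith
  obtain ⟨L, hLd⟩ : ∃ L : ℝ, L = Real.log T := ⟨_, rfl⟩
  rw [← hLd] at haL hf ⊢
  have hE' := hE T hT
  rw [← hLd] at hE'
  have hL : 0 < L := lt_of_lt_of_le (by positivity) haL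
  obtain ⟨κ, hκd⟩ : ∃ κ : ℝ, κ = L / (2 * Real.pi * a) := ⟨_, rfl⟩
  rw [← hκd] at hf ⊢
  have hκ : 1 ≤ κ := by
    rw [hκd, one_le_div (by positivity)]
    exact haL
  have hκp : 0 < κ := by linarith
  have hb : 1 ≤ a / lam := by
    rw [one_le_div hlam0]
    exact hla
  have hU : 1 ≤ U1 := by linarith
  have hgc : Continuous g := by
    rw [continuous_iff_continuousAt]
    exact fun x => (hg.d1 x).continuousAt
  by_cases hint : IntervalIntegrable (fun t : ℝ =>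
      |(∑ s ∈ Zf riemannZeta U1 U2, (mult riemannZeta s : ℝ) * f ((s.im - t) * κ)) -
          (∑ s ∈ Zf riemannZeta U1 U2, (mult riemannZeta s : ℂ) *
            Hk κ R (a / lam) g ((zz s - t) * (κ : ℝ))).re|) volume A B
  swap
  · rw [intervalIntegral.integral_undef hint]
    positivity
  have hint1 : Integrable (fun x : ℝ => (1 + x ^ 2)⁻¹) := integrable_inv_one_add_sq
  have hLI := Lin_integrable (Zf riemannZeta U1 U2)
    (fun s => (mult riemannZeta s : ℝ) * (K * M / a ^ 2 * ew κ0 L s)) (fun s => s.im) hκp hint1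
  have hm0 : ∀ s : ℂ, 0 ≤ (mult riemannZeta s : ℝ) * (K * M / a ^ 2 * ew κ0 L s) := by
    intro s
    unfold ew
    positivity
  have hpt : ∀ t : ℝ, |(∑ s ∈ Zf riemannZeta U1 U2, (mult riemannZeta s : ℝ) *
      f ((s.im - t) * κ)) - (∑ s ∈ Zf riemannZeta U1 U2, (mult riemannZeta s : ℂ) *
            Hk κ R (a / lam) g ((zz s - t) * (κ : ℝ))).re| ≤
      Lin (Zf riemannZeta U1 U2) (fun s => (mult riemannZeta s : ℝ) *
        (K * M / a ^ 2 * ew κ0 L s)) (fun s => s.im) κ (fun x => (1 + x ^ 2)⁻¹) t := by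
    intro t
    obtain ⟨G, hG⟩ : ∃ G : ℂ → ℝ, G = fun s => (mult riemannZeta s : ℝ) *
      (Hk κ R (a / lam) g ((zz s - t) * (κ : ℝ))).re := ⟨_, rfl⟩
    have e1 : (∑ s ∈ Zf riemannZeta U1 U2, (mult riemannZeta s : ℂ) *
        Hk κ R (a / lam) g ((zz s - t) * (κ : ℝ))).re = ∑ s ∈ Zf riemannZeta U1 U2, G s := by
      rw [Complex.re_sum, hG]
      refine Finset.sum_congr rfl fun s _ => ?_
      simp [Complex.mul_re]
    have e2 : ∑ s ∈ Zf riemannZeta U1 U2, G s =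
        ∑ s ∈ Zf riemannZeta U1 U2, 1 / 2 * (G s + G (1 - conj s)) := by
      rw [← Finset.mul_sum, Finset.sum_add_distrib, sum_refl good_zeta hU G]
      ring
    rw [e1, e2, ← Finset.sum_sub_distrib]
    refine (Finset.abs_sum_le_sum_abs _ _).trans ?_
    unfold Lin
    refine Finset.sum_le_sum fun s hs => ?_
    rw [mem_Zf good_zeta hU] at hs
    obtain ⟨s1, s2, s3, s4, s5⟩ := hs
    have e3 : (zz s - t) * ((κ : ℝ) : ℂ) = (((s.im - t) * κ : ℝ) : ℂ) +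
        ((-((s.re - 1 / 2) * κ) : ℝ) : ℂ) * I := by
      apply Complex.ext
      · simp [Complex.mul_re, zz_re]
      · simp [Complex.mul_im, zz_im]
        ring
    have e4 : (conj (zz s) - t) * ((κ : ℝ) : ℂ) = (((s.im - t) * κ : ℝ) : ℂ) -
        ((-((s.re - 1 / 2) * κ) : ℝ) : ℂ) * I := by
      apply Complex.ext
      · simp [Complex.mul_re, zz_re]
      · simp [Complex.mul_im, zz_im]
    have e5 : G s = (mult riemannZeta s : ℝ) * (Hk κ R (a / lam) g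
        ((((s.im - t) * κ : ℝ) : ℂ) + ((-((s.re - 1 / 2) * κ) : ℝ) : ℂ) * I)).re := by
      rw [hG]
      show (mult riemannZeta s : ℝ) * (Hk κ R (a / lam) g ((zz s - t) * (κ : ℝ))).re = _
      rw [e3]
    have e6 : G (1 - conj s) = (mult riemannZeta s : ℝ) * (Hk κ R (a / lam) g
        ((((s.im - t) * κ : ℝ) : ℂ) - ((-((s.re - 1 / 2) * κ) : ℝ) : ℂ) * I)).re := by
      rw [hG]
      show (mult riemannZeta (1 - conj s) : ℝ) *
        (Hk κ R (a / lam) g ((zz (1 - conj s) - t) * (κ : ℝ))).re = _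
      rw [zz_refl, e4, mult_refl good_zeta s1 s2 (by linarith)]
    have hv : |-((s.re - 1 / 2) * κ)| ≤ κ / 2 := by
      rw [abs_neg, abs_mul, abs_of_pos hκp]
      have : |s.re - 1 / 2| ≤ 1 / 2 := by
        rw [abs_le]
        constructor <;> linarith
      nlinarith
    have hp := pt (x := (s.im - t) * κ) (δ := s.re - 1 / 2)
      (((hK1 (a / lam) hb M g hgc (fun y => (hg.bd y).1)).2.2 g' g'' hg) ((s.im - t) * κ))
      (hK2 (a / lam) κ hb hκ M g g' g'' hg ((s.im - t) * κ) (-((s.re - 1 / 2) * κ)) hv)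
      hC1 hC2 hM hκ0 hlam0 hlamκ ha hL hκd hf
    have e7 : (mult riemannZeta s : ℝ) * f ((s.im - t) * κ) - 1 / 2 * (G s + G (1 - conj s)) =
        (mult riemannZeta s : ℝ) * (f ((s.im - t) * κ) - 1 / 2 *
        ((Hk κ R (a / lam) g ((((s.im - t) * κ : ℝ) : ℂ) +
          ((-((s.re - 1 / 2) * κ) : ℝ) : ℂ) * I)).re +
        (Hk κ R (a / lam) g ((((s.im - t) * κ : ℝ) : ℂ) -
          ((-((s.re - 1 / 2) * κ) : ℝ) : ℂ) * I)).re)) := by
      rw [e5, e6]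
      ring
    rw [e7, abs_mul, Nat.abs_cast, mul_assoc]
    refine mul_le_mul_of_nonneg_left (hp.trans (le_of_eq ?_)) (Nat.cast_nonneg _)
    rw [hK]
    unfold ew
    ring
  have hnn : ∀ t : ℝ, 0 ≤ Lin (Zf riemannZeta U1 U2) (fun s => (mult riemannZeta s : ℝ) *
        (K * M / a ^ 2 * ew κ0 L s)) (fun s => s.im) κ (fun x => (1 + x ^ 2)⁻¹) t :=
    Lin_nonneg _ hm0 _ _ (fun x => by positivity)
  have hsum : ∑ s ∈ Zf riemannZeta U1 U2, (mult riemannZeta s : ℝ) *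
      (K * M / a ^ 2 * ew κ0 L s) ≤ K * M / a ^ 2 * (CE * (T * L)) := by
    have e1 : ∑ s ∈ Zf riemannZeta U1 U2, (mult riemannZeta s : ℝ) *
        (K * M / a ^ 2 * ew κ0 L s) =
        K * M / a ^ 2 * ∑ s ∈ Zf riemannZeta U1 U2, (mult riemannZeta s : ℝ) * ew κ0 L s := by
      rw [Finset.mul_sum]
      exact Finset.sum_congr rfl fun s _ => by ring
    rw [e1]
    refine mul_le_mul_of_nonneg_left (le_trans ?_ hE') (by positivity)
    refine Finset.sum_le_sum_of_subset_of_nonneg ?_ ?_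
    · intro s hs
      rw [mem_Zf good_zeta hU] at hs
      rw [mem_Zf good_zeta (by linarith)]
      obtain ⟨s1, s2, s3, s4, s5⟩ := hs
      exact ⟨s1, s2, by linarith, by linarith, s5⟩
    · intro s _ _
      unfold ew
      positivity
  calc ∫ t in A..B, |(∑ s ∈ Zf riemannZeta U1 U2, (mult riemannZeta s : ℝ) *
        f ((s.im - t) * κ)) - (∑ s ∈ Zf riemannZeta U1 U2, (mult riemannZeta s : ℂ) *
            Hk κ R (a / lam) g ((zz s - t) * (κ : ℝ))).re| ≤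
        ∫ t in A..B, Lin (Zf riemannZeta U1 U2) (fun s => (mult riemannZeta s : ℝ) *
          (K * M / a ^ 2 * ew κ0 L s)) (fun s => s.im) κ (fun x => (1 + x ^ 2)⁻¹) t :=
        intervalIntegral.integral_mono_on hAB hint hLI.intervalIntegrable fun t _ => hpt t
    _ ≤ ∫ t, Lin (Zf riemannZeta U1 U2) (fun s => (mult riemannZeta s : ℝ) *
          (K * M / a ^ 2 * ew κ0 L s)) (fun s => s.im) κ (fun x => (1 + x ^ 2)⁻¹) t := by
        rw [intervalIntegral.integral_of_le hAB]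
        exact setIntegral_le_integral hLI (Eventually.of_forall hnn)
    _ = (∑ s ∈ Zf riemannZeta U1 U2, (mult riemannZeta s : ℝ) *
          (K * M / a ^ 2 * ew κ0 L s)) * Real.pi / κ := by
        rw [Lin_integral _ _ _ hκp hint1, integral_univ_inv_one_add_sq]
    _ ≤ K * M / a ^ 2 * (CE * (T * L)) * Real.pi / κ :=
        div_le_div_of_nonneg_right (mul_le_mul_of_nonneg_right hsum hpi.le) hκp.le
    _ = K * (2 * Real.pi ^ 2) * CE * M * T / a := by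
        rw [hκd]
        field_simp

end Pool.Agent.TH850.CL
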