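import Pool.Agent.TH850.CL.Core3
import Pool.Agent.TH850.CL.FIN
import Pool.Agent.TH850.CL.P1
import Pool.Agent.TH850.CL.P2
import Pool.Agent.TH850.CL.P3
import Pool.Agent.TH850.CL.P4
import Pool.Agent.TH850.CL.N1
import Pool.Agent.TH850.CL.N2
import Pool.Agent.TH850.CL.K1
import Pool.Agent.TH850.CL.K2
import Pool.Agent.TH850.CL.ZS
import Pool.Agent.TH850.CL.DATA

set_option autoImplicit false

/-! # Project CL: the theorem -/

namespace Pool.Agent.TH850.CL

theorem core_all : S_CORE := core (p4 p1 p2 p3) (zs k1 (k2 k1)) (data n2) n1 n2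

theorem fin_all : S_FIN := fin core_all

end Pool.Agent.TH850.CL
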