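import Pool.Agent.TH850.CL.Defs3

set_option autoImplicit false

/-! # Project CL: the variance of the prime sum -/

namespace Pool.Agent.TH850.CL

open Complex MeasureTheory Set Filter Topology
open ArithmeticFunction (vonMangoldt)

namespace NTVAux

/-- the density of the variance -/
noncomputable def FF (φ : ℝ → ℂ) (v : ℝ) : ℝ := v * ‖φ v‖ ^ 2

lemma FF_nonneg (φ : ℝ → ℂ) {v : ℝ} (hv : 0 ≤ v) : 0 ≤ FF φ v := mul_nonneg hv (by positivity)

lemma hasDeriv_normsq {φ : ℝ → ℂ} {d : ℂ} {v : ℝ} (h : HasDerivAt φ d v) :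
    HasDerivAt (fun v => ‖φ v‖ ^ 2) (2 * (φ v * (starRingEnd ℂ) d).re) v := by
  have h1 : HasDerivAt (fun v => (φ v).re) d.re v := by
    exact Complex.reCLM.hasFDerivAt.comp_hasDerivAt v h
  have h2 : HasDerivAt (fun v => (φ v).im) d.im v := by
    exact Complex.imCLM.hasFDerivAt.comp_hasDerivAt v h
  have h3 := (h1.pow 2).add (h2.pow 2)
  have e : (fun v => ‖φ v‖ ^ 2) = fun v => (φ v).re ^ 2 + (φ v).im ^ 2 := by
    funext v
    rw [Complex.sq_norm, Complex.normSq_apply]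
    ring
  rw [e]
  refine h3.congr_deriv ?_
  simp only [Complex.mul_re, Complex.conj_re, Complex.conj_im]
  push_cast
  ring

lemma FF_data {φ : ℝ → ℂ} {B : ℝ} (hB : 0 ≤ B) (h1 : ∀ v, ‖φ v‖ ≤ B / (1 + |v|) ^ 2)
    (h2 : ∀ v, ∃ d : ℂ, HasDerivAt φ d v ∧ ‖d‖ ≤ B / (1 + |v|) ^ 2) :
    ∃ F' : ℝ → ℝ, (∀ v, 0 ≤ v → HasDerivAt (FF φ) (F' v) v) ∧
      (∀ v, 0 ≤ v → |FF φ v| ≤ 3 * B ^ 2) ∧
      (∀ v, 0 ≤ v → |F' v| ≤ 3 * B ^ 2 / (1 + v) ^ 2) := by
  choose d hd hdb using h2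
  refine ⟨fun v => 1 * ‖φ v‖ ^ 2 + v * (2 * (φ v * (starRingEnd ℂ) (d v)).re), ?_, ?_, ?_⟩
  · intro v _
    exact (hasDerivAt_id' v).mul (hasDeriv_normsq (hd v))
  · intro v hv
    have h3 := h1 v
    rw [abs_of_nonneg hv] at h3
    have h4 : ‖φ v‖ ^ 2 ≤ (B / (1 + v) ^ 2) ^ 2 := pow_le_pow_left₀ (norm_nonneg _) h3 2
    unfold FF
    rw [abs_of_nonneg (by positivity)]
    calc v * ‖φ v‖ ^ 2 ≤ v * (B / (1 + v) ^ 2) ^ 2 := mul_le_mul_of_nonneg_left h4 hv
      _ = B ^ 2 * (v / (1 + v) ^ 4) := by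
          rw [div_pow, ← pow_mul]; ring
      _ ≤ B ^ 2 * 1 := by
          apply mul_le_mul_of_nonneg_left _ (sq_nonneg _)
          rw [div_le_one (by positivity)]
          have : (1 + v) ≤ (1 + v) ^ 4 := le_self_pow₀ (by linarith) (by norm_num)
          linarith
      _ ≤ _ := by nlinarith [sq_nonneg B]
  · intro v hv
    have h3 := h1 v
    have h4 := hdb v
    rw [abs_of_nonneg hv] at h3 h4
    have h5 : |(φ v * (starRingEnd ℂ) (d v)).re| ≤ (B / (1 + v) ^ 2) * (B / (1 + v) ^ 2) := by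
      refine (Complex.abs_re_le_norm _).trans ?_
      rw [norm_mul, Complex.norm_conj]
      gcongr
    have h6 : ‖φ v‖ ^ 2 ≤ (B / (1 + v) ^ 2) ^ 2 := pow_le_pow_left₀ (norm_nonneg _) h3 2
    have h1v : 1 ≤ 1 + v := by linarith
    calc |1 * ‖φ v‖ ^ 2 + v * (2 * (φ v * (starRingEnd ℂ) (d v)).re)| ≤
        (B / (1 + v) ^ 2) ^ 2 + v * (2 * ((B / (1 + v) ^ 2) * (B / (1 + v) ^ 2))) := by
          refine (abs_add_le _ _).trans (add_le_add ?_ ?_)
          · rw [one_mul, abs_of_nonneg (by positivity)]; exact h6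
          · rw [abs_mul, abs_mul, abs_of_nonneg hv, abs_of_pos (by norm_num : (0 : ℝ) < 2)]
            gcongr
      _ = B ^ 2 / (1 + v) ^ 2 * ((1 + 2 * v) / (1 + v) ^ 2) := by
          field_simp
      _ ≤ B ^ 2 / (1 + v) ^ 2 * 3 := by
          apply mul_le_mul_of_nonneg_left _ (by positivity)
          rw [div_le_iff₀ (by positivity)]
          nlinarith
      _ = _ := by ring

lemma lam_sq_le (n : ℕ) : vonMangoldt n ^ 2 ≤ vonMangoldt n * Real.log n := by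
  have h1 : vonMangoldt n ≤ Real.log n := ArithmeticFunction.vonMangoldt_le_log
  have h0 : 0 ≤ vonMangoldt n := ArithmeticFunction.vonMangoldt_nonneg
  nlinarith

lemma logn (n : ℕ) : 0 ≤ Real.log n := Real.log_natCast_nonneg n

/-- the weight in terms of `FF` -/
lemma term_le {φ : ℝ → ℂ} {θ : ℝ} (hθ : 0 ≤ θ) (n : ℕ) :
    vonMangoldt n ^ 2 / n * θ ^ 2 * ‖φ (θ * Real.log n)‖ ^ 2 ≤
      θ * (vonMangoldt n / n * FF φ (θ * Real.log n)) := by
  have h := lam_sq_le n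
  unfold FF
  calc vonMangoldt n ^ 2 / n * θ ^ 2 * ‖φ (θ * Real.log n)‖ ^ 2 ≤
      vonMangoldt n * Real.log n / n * θ ^ 2 * ‖φ (θ * Real.log n)‖ ^ 2 := by gcongr
    _ = _ := by ring

lemma log_sq_le (n : ℕ) (hn : 1 ≤ n) : Real.log n ^ 2 ≤ 4 * n := by
  have hn0 : (0 : ℝ) < n := by exact_mod_cast hn
  have hs : 0 < Real.sqrt n := Real.sqrt_pos.2 hn0
  have h1 : Real.log n = 2 * Real.log (Real.sqrt n) := by
    rw [Real.log_sqrt hn0.le]; ring
  have h2 := Real.log_le_sub_one_of_pos hs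
  have h3 := logn n
  have h4 : Real.log n ≤ 2 * Real.sqrt n := by linarith
  calc Real.log n ^ 2 ≤ (2 * Real.sqrt n) ^ 2 := pow_le_pow_left₀ h3 h4 2
    _ = 4 * n := by rw [mul_pow, Real.sq_sqrt hn0.le]; norm_num

lemma inv_sq_sum (X : ℕ) : ∑ n ∈ Finset.Icc 1 X, 1 / (n : ℝ) ^ 2 ≤ 2 := by
  rcases Nat.eq_zero_or_pos X with rfl | hX
  · simp
  have : ∀ X : ℕ, 1 ≤ X → ∑ n ∈ Finset.Icc 1 X, 1 / (n : ℝ) ^ 2 ≤ 2 - 1 / (X : ℝ) := by
    intro X hX
    induction X, hX using Nat.le_induction with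
    | base => norm_num
    | succ N hN ih =>
      have hN0 : (0 : ℝ) < N := by exact_mod_cast hN
      rw [Finset.sum_Icc_succ_top (by omega)]
      have h1 : 1 / ((N + 1 : ℕ) : ℝ) ^ 2 ≤ 1 / N - 1 / ((N + 1 : ℕ) : ℝ) := by
        push_cast
        rw [div_sub_div _ _ hN0.ne' (by positivity), div_le_div_iff₀ (by positivity) (by positivity)]
        nlinarith
      linarith
  have h1 := this X hX
  have h2 : 0 ≤ 1 / (X : ℝ) := by positivity
  linarith

end NTVAux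

open NTVAux

theorem ntv (hN1 : S_N1) : ∃ C : ℝ, 0 < C ∧ ∀ (φ : ℝ → ℂ) (B : ℝ), 0 ≤ B → Continuous φ →
    (∀ v, ‖φ v‖ ≤ B / (1 + |v|) ^ 2) →
    (∀ v, ∃ d : ℂ, HasDerivAt φ d v ∧ ‖d‖ ≤ B / (1 + |v|) ^ 2) →
    ∀ θ : ℝ, 0 < θ → θ ≤ 1 → ∀ Y X : ℕ, 1 ≤ Y → Y ≤ X →
      |(∑ q ∈ (Finset.Icc 1 Y).filter Nat.Prime,
          Real.log q ^ 2 / q * θ ^ 2 * ‖φ (θ * Real.log q)‖ ^ 2) -
        ∫ v in (0 : ℝ)..(θ * Real.log Y), v * ‖φ v‖ ^ 2| ≤ C * B ^ 2 * θ ∧
      ∑ n ∈ (Finset.Icc 1 X).filter (fun n => ¬ (n.Prime ∧ n ≤ Y)),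
          vonMangoldt n ^ 2 / n * θ ^ 2 * ‖φ (θ * Real.log n)‖ ^ 2 ≤
        (∫ v in (θ * Real.log Y)..(θ * Real.log X), v * ‖φ v‖ ^ 2) + C * B ^ 2 * θ ∧
      ∀ b : ℝ, 0 < b → ∑ n ∈ Finset.Icc 1 X, vonMangoldt n ^ 2 / n *
          (θ * (1 / b / (1 + θ * Real.log n) + 1 / n)) ^ 2 ≤
        C * (θ * Real.log X / b ^ 2 + θ / b ^ 2 + θ ^ 2) := by
  classical
  obtain ⟨C, hC, h⟩ := hN1
  refine ⟨6 * C + 2 * C + 18, by positivity, fun φ B hB hφc hφ1 hφ2 θ hθ0 hθ1 Y X hY hYX => ?_⟩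
  obtain ⟨F', hF1, hF2, hF3⟩ := FF_data hB hφ1 hφ2
  have hX : 1 ≤ X := hY.trans hYX
  obtain ⟨hX1, hX2⟩ := h (FF φ) F' (3 * B ^ 2) hF1 hF2 hF3 θ hθ0 hθ1 X hX
  obtain ⟨hY1, hY2⟩ := h (FF φ) F' (3 * B ^ 2) hF1 hF2 hF3 θ hθ0 hθ1 Y hY
  have hFc : Continuous (FF φ) := by unfold FF; fun_prop
  have hint : ∀ a b : ℝ, IntervalIntegrable (FF φ) volume a b := fun a b => hFc.intervalIntegrable a b
  have hB2 : 0 ≤ B ^ 2 := sq_nonneg _
  have e0 : ∀ a b : ℝ, ∫ v in a..b, v * ‖φ v‖ ^ 2 = ∫ v in a..b, FF φ v := fun a b => rfl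
  have e1 : ∑ q ∈ (Finset.Icc 1 Y).filter Nat.Prime,
      Real.log q ^ 2 / q * θ ^ 2 * ‖φ (θ * Real.log q)‖ ^ 2 =
      θ * ∑ q ∈ (Finset.Icc 1 Y).filter Nat.Prime, Real.log q / q * FF φ (θ * Real.log q) := by
    rw [Finset.mul_sum]
    refine Finset.sum_congr rfl fun q _ => ?_
    unfold FF
    ring
  have hCB : 0 ≤ C * B ^ 2 * θ := by positivity
  refine ⟨?_, ?_, ?_⟩
  · rw [e1, e0]
    refine hY2.trans ?_
    nlinarith
  · -- the others
    have e2 : (Finset.Icc 1 Y).filter Nat.Prime = (Finset.Icc 1 X).filter (fun n => n.Prime ∧ n ≤ Y) := by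
      ext n
      simp only [Finset.mem_filter, Finset.mem_Icc]
      constructor
      · rintro ⟨⟨h1, h2⟩, h3⟩; exact ⟨⟨h1, h2.trans hYX⟩, h3, h2⟩
      · rintro ⟨⟨h1, h2⟩, h3, h4⟩; exact ⟨⟨h1, h4⟩, h3⟩
    have e3 : ∑ n ∈ Finset.Icc 1 X, vonMangoldt n / n * FF φ (θ * Real.log n) =
        ∑ n ∈ (Finset.Icc 1 X).filter (fun n => n.Prime ∧ n ≤ Y),
          vonMangoldt n / n * FF φ (θ * Real.log n) +
        ∑ n ∈ (Finset.Icc 1 X).filter (fun n => ¬ (n.Prime ∧ n ≤ Y)),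
          vonMangoldt n / n * FF φ (θ * Real.log n) :=
      (Finset.sum_filter_add_sum_filter_not _ _ _).symm
    have e4 : ∑ q ∈ (Finset.Icc 1 Y).filter Nat.Prime, Real.log q / q * FF φ (θ * Real.log q) =
        ∑ n ∈ (Finset.Icc 1 X).filter (fun n => n.Prime ∧ n ≤ Y),
          vonMangoldt n / n * FF φ (θ * Real.log n) := by
      rw [e2]
      refine Finset.sum_congr rfl fun n hn => ?_
      rw [Finset.mem_filter] at hn
      rw [ArithmeticFunction.vonMangoldt_apply_prime hn.2.1]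
    have h1 : ∑ n ∈ (Finset.Icc 1 X).filter (fun n => ¬ (n.Prime ∧ n ≤ Y)),
          vonMangoldt n ^ 2 / n * θ ^ 2 * ‖φ (θ * Real.log n)‖ ^ 2 ≤
        θ * ∑ n ∈ (Finset.Icc 1 X).filter (fun n => ¬ (n.Prime ∧ n ≤ Y)),
          vonMangoldt n / n * FF φ (θ * Real.log n) := by
      rw [Finset.mul_sum]
      exact Finset.sum_le_sum fun n _ => term_le hθ0.le n
    have e5 : (∫ v in (0 : ℝ)..(θ * Real.log X), FF φ v) =
        (∫ v in (0 : ℝ)..(θ * Real.log Y), FF φ v) +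
        ∫ v in (θ * Real.log Y)..(θ * Real.log X), FF φ v :=
      (intervalIntegral.integral_add_adjacent_intervals (hint _ _) (hint _ _)).symm
    rw [e3, e5] at hX1
    rw [e4] at hY2
    rw [e0]
    rw [abs_le] at hX1 hY2
    have h2 := hX1.2
    have h3 := hY2.1
    rw [mul_add] at h2
    refine h1.trans ?_
    nlinarith
  · intro b hb
    have hG := h (fun v => 1 / (1 + v)) (fun v => -1 / (1 + v) ^ 2) 1 ?_ ?_ ?_ θ hθ0 hθ1 X hX
    · have hG1 := (abs_le.1 hG.1).2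
      have hlX := logn X
      have hTl : 0 ≤ θ * Real.log X := by positivity
      have h2 : ∫ v in (0 : ℝ)..(θ * Real.log X), 1 / (1 + v) ≤ θ * Real.log X := by
        have hc : ContinuousOn (fun v : ℝ => 1 / (1 + v)) (uIcc 0 (θ * Real.log X)) := by
          refine ContinuousOn.div continuousOn_const (by fun_prop) fun v hv => ?_
          rw [uIcc_of_le hTl] at hv
          linarith [hv.1]
        calc ∫ v in (0 : ℝ)..(θ * Real.log X), 1 / (1 + v) ≤
            ∫ v in (0 : ℝ)..(θ * Real.log X), (1 : ℝ) := by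
              refine intervalIntegral.integral_mono_on hTl hc.intervalIntegrable
                intervalIntegrable_const fun v hv => ?_
              have hv0 := hv.1
              rw [div_le_one (by linarith)]
              linarith
          _ = _ := by simp
      set S1 := θ * ∑ n ∈ Finset.Icc 1 X, vonMangoldt n / n * (1 / (1 + θ * Real.log n)) with hS1
      have h3 : S1 ≤ θ * Real.log X + C * θ := by
        have : S1 - ∫ v in (0 : ℝ)..(θ * Real.log X), 1 / (1 + v) ≤ C * 1 * θ := hG1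
        linarith
      have h4 : ∀ n ∈ Finset.Icc 1 X, vonMangoldt n ^ 2 / n *
          (θ * (1 / b / (1 + θ * Real.log n) + 1 / n)) ^ 2 ≤
          2 / b ^ 2 * (θ * (vonMangoldt n / n * (1 / (1 + θ * Real.log n)))) +
          8 * θ ^ 2 * (1 / (n : ℝ) ^ 2) := by
        intro n hn
        have hn1 : 1 ≤ n := (Finset.mem_Icc.1 hn).1
        have hn0 : (0 : ℝ) < n := by exact_mod_cast hn1
        have hl := logn n
        have hv : 0 ≤ θ * Real.log n := by positivity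
        have hL0 : 0 ≤ vonMangoldt n := ArithmeticFunction.vonMangoldt_nonneg
        have hsq := lam_sq_le n
        set v := θ * Real.log n with hvd
        have g1 : (θ * (1 / b / (1 + v) + 1 / n)) ^ 2 ≤
            2 * θ ^ 2 * ((1 / b / (1 + v)) ^ 2 + (1 / n) ^ 2) := by
          have := sq_nonneg (1 / b / (1 + v) - 1 / (n : ℝ))
          have h5 : 0 ≤ θ ^ 2 := sq_nonneg _
          nlinarith
        have g2 : vonMangoldt n ^ 2 / n * (2 * θ ^ 2 * (1 / b / (1 + v)) ^ 2) ≤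
            2 / b ^ 2 * (θ * (vonMangoldt n / n * (1 / (1 + v)))) := by
          calc vonMangoldt n ^ 2 / n * (2 * θ ^ 2 * (1 / b / (1 + v)) ^ 2) ≤
              vonMangoldt n * Real.log n / n * (2 * θ ^ 2 * (1 / b / (1 + v)) ^ 2) := by gcongr
            _ = 2 / b ^ 2 * (θ * (vonMangoldt n / n * (v / (1 + v) ^ 2))) := by
                rw [hvd]; field_simp
            _ ≤ 2 / b ^ 2 * (θ * (vonMangoldt n / n * (1 / (1 + v)))) := by
                have g3 : v / (1 + v) ^ 2 ≤ 1 / (1 + v) := by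
                  rw [div_le_div_iff₀ (by positivity) (by positivity)]
                  nlinarith
                gcongr
        have g4 : vonMangoldt n ^ 2 / n * (2 * θ ^ 2 * (1 / n) ^ 2) ≤
            8 * θ ^ 2 * (1 / (n : ℝ) ^ 2) := by
          have g5 : vonMangoldt n ^ 2 ≤ 4 * n := by
            refine (pow_le_pow_left₀ hL0 ArithmeticFunction.vonMangoldt_le_log 2).trans ?_
            exact log_sq_le n hn1
          calc vonMangoldt n ^ 2 / n * (2 * θ ^ 2 * (1 / n) ^ 2) ≤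
              4 * n / n * (2 * θ ^ 2 * (1 / n) ^ 2) := by gcongr
            _ = _ := by field_simp; ring
        calc vonMangoldt n ^ 2 / n * (θ * (1 / b / (1 + v) + 1 / n)) ^ 2 ≤
            vonMangoldt n ^ 2 / n * (2 * θ ^ 2 * ((1 / b / (1 + v)) ^ 2 + (1 / n) ^ 2)) := by
              gcongr
          _ = vonMangoldt n ^ 2 / n * (2 * θ ^ 2 * (1 / b / (1 + v)) ^ 2) +
              vonMangoldt n ^ 2 / n * (2 * θ ^ 2 * (1 / n) ^ 2) := by ring
          _ ≤ _ := add_le_add g2 g4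
      refine (Finset.sum_le_sum h4).trans ?_
      rw [Finset.sum_add_distrib, ← Finset.mul_sum, ← Finset.mul_sum, ← Finset.mul_sum, ← hS1]
      have h5 := inv_sq_sum X
      have hb2 : 0 < 2 / b ^ 2 := by positivity
      calc 2 / b ^ 2 * S1 + 8 * θ ^ 2 * ∑ n ∈ Finset.Icc 1 X, 1 / (n : ℝ) ^ 2 ≤
          2 / b ^ 2 * (θ * Real.log X + C * θ) + 8 * θ ^ 2 * 2 := by gcongr
        _ = 2 * (θ * Real.log X / b ^ 2) + 2 * C * (θ / b ^ 2) + 16 * θ ^ 2 := by ring
        _ ≤ _ := by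
            have k1 : 0 ≤ θ * Real.log X / b ^ 2 := by positivity
            have k2 : 0 ≤ θ / b ^ 2 := by positivity
            have k3 : 0 ≤ θ ^ 2 := by positivity
            have k4 : 0 ≤ C * (θ * Real.log X / b ^ 2) := by positivity
            have k5 : 0 ≤ C * (θ / b ^ 2) := by positivity
            have k6 : 0 ≤ C * θ ^ 2 := by positivity
            nlinarith
    · intro v hv
      have h1 : HasDerivAt (fun v : ℝ => 1 + v) 1 v := (hasDerivAt_id' v).const_add 1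
      have h2 : HasDerivAt (fun v : ℝ => (1 + v)⁻¹) (-1 / (1 + v) ^ 2) v :=
        h1.inv (by linarith : 1 + v ≠ 0)
      simpa only [one_div] using h2
    · intro v hv
      show |1 / (1 + v)| ≤ 1
      rw [abs_of_nonneg (by positivity), div_le_one (by positivity)]
      linarith
    · intro v hv
      show |-1 / (1 + v) ^ 2| ≤ 1 / (1 + v) ^ 2
      rw [neg_div, abs_neg, abs_of_nonneg (by positivity)]

end Pool.Agent.TH850.CL
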